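import Pool.Agent.Lib.MP_0cc5e8_gt.BTB

namespace Pool.Agent.Lib.MP_0cc5e8_gt

open Complex Set Filter Topology Metric MeasureTheory
open scoped ComplexConjugate ContDiff Real

noncomputable section

variable {U : ℂ × ℂ → ℂ} {Z : ℂ × ℂ → ℂ × ℂ} {R : Set (ℂ × ℂ)} {s L : ℝ} {c : ℂ × ℂ}

/-- difference quotient along the surface -/
def btE (Z : ℂ × ℂ → ℂ × ℂ) (t : ℝ) (m : ℂ × ℂ) (b : ℝ × ℝ) : ℂ × ℂ :=
  ∫ σ in (0 : ℝ)..1, fderiv ℝ Z (m + iot ((σ * t) • b)) (iot b)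

theorem btE_cont (hZ : ContDiff ℝ 2 Z) :
    Continuous fun p : (ℝ × ℂ × ℂ) × ℝ × ℝ => btE Z p.1.1 p.1.2 p.2 := by
  have c1 := hZ.continuous_fderiv (by norm_num)
  have ci : Continuous iot := btL.continuous
  exact intervalIntegral.continuous_parametric_intervalIntegral_of_continuous'
    (f := fun (p : (ℝ × ℂ × ℂ) × ℝ × ℝ) (σ : ℝ) =>
      fderiv ℝ Z (p.1.2 + iot ((σ * p.1.1) • p.2)) (iot p.2))
    ((c1.comp (by fun_prop)).clm_apply (by fun_prop)) 0 1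

theorem btE_smul (hZ : ContDiff ℝ 2 Z) (t : ℝ) (m : ℂ × ℂ) (b : ℝ × ℝ) :
    t • btE Z t m b = Z (m + iot (t • b)) - Z m := by
  have c1 := hZ.continuous_fderiv (by norm_num)
  have ci : Continuous iot := btL.continuous
  have h : ∀ σ : ℝ, HasDerivAt (fun σ : ℝ => Z (m + iot ((σ * t) • b)))
      (t • fderiv ℝ Z (m + iot ((σ * t) • b)) (iot b)) σ := fun σ => by
    have h1 : HasDerivAt (fun σ : ℝ => m + btL ((σ * t) • b)) (btL ((1 * t) • b)) σ :=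
      (btL.hasFDerivAt.comp_hasDerivAt σ (((hasDerivAt_id σ).mul_const t).smul_const b)).const_add m
    have := (hZ.differentiable (by norm_num) _).hasFDerivAt.comp_hasDerivAt σ h1
    rwa [one_mul, map_smul btL t b, map_smul] at this
  have := intervalIntegral.integral_eq_sub_of_hasDerivAt (a := 0) (b := 1) (fun σ _ => h σ)
    (Continuous.intervalIntegrable (((c1.comp (by fun_prop)).clm_apply
      continuous_const).const_smul t) _ _)
  rw [intervalIntegral.integral_smul] at this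
  rw [btE, this]
  simp [iot, Prod.mk_zero_zero]

/-- hypothesis on the derivative of Z -/
def btHd (Z : ℂ × ℂ → ℂ × ℂ) (R : Set (ℂ × ℂ)) : Prop :=
  ∀ p ∈ R, |p.1.re| ≤ 4 ∧ ∀ a : ℝ × ℝ, ‖fderiv ℝ Z p (iot a) - btM p.1.re a‖ ≤ 1 / 10 ^ 4 * ‖a‖

/-- admissible base points -/
def btK (R : Set (ℂ × ℂ)) (s : ℝ) : Set (ℂ × ℂ) := {m | ∀ a, ‖a‖ ≤ s → m + iot a ∈ R}

theorem btK_sub (hs : 0 < s) : btK R s ⊆ R := fun m hm => by
  simpa [iot, Prod.mk_zero_zero] using hm 0 (by simpa using hs.le)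

theorem btK_cpt (hR : IsCompact R) (hs : 0 < s) : IsCompact (btK R s) := by
  refine hR.of_isClosed_subset ?_ (btK_sub hs)
  simp only [btK, ofPred_forall]
  exact isClosed_iInter fun a => isClosed_iInter fun _ =>
    hR.isClosed.preimage (continuous_add_const _)

theorem btE_near (hZ : ContDiff ℝ 2 Z) (hd : btHd Z R) {m : ℂ × ℂ} (hm : m ∈ btK R s) {t : ℝ}
    {b : ℝ × ℝ} (hb : ‖t • b‖ ≤ s) : ‖btE Z t m b - btM m.1.re b‖ ≤ 1 / 10 ^ 4 * ‖b‖ := by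
  have c1 := hZ.continuous_fderiv (by norm_num)
  have ci : Continuous iot := btL.continuous
  have e : btE Z t m b - btM m.1.re b =
      ∫ σ in (0 : ℝ)..1, (fderiv ℝ Z (m + iot ((σ * t) • b)) (iot b) - btM m.1.re b) := by
    have c2 : Continuous fun σ : ℝ => fderiv ℝ Z (m + iot ((σ * t) • b)) (iot b) :=
      (c1.comp (by fun_prop)).clm_apply continuous_const
    rw [intervalIntegral.integral_sub (c2.intervalIntegrable _ _) intervalIntegrable_const]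
    simp [btE]
  rw [e]
  refine (intervalIntegral.norm_integral_le_of_norm_le_const (C := 1 / 10 ^ 4 * ‖b‖)
    fun σ hσ => ?_).trans (by simp)
  rw [uIoc_of_le zero_le_one] at hσ
  have h1 : ‖(σ * t) • b‖ ≤ s := by
    rw [mul_smul, norm_smul, Real.norm_of_nonneg hσ.1.le]
    exact (mul_le_of_le_one_left (norm_nonneg _) hσ.2).trans hb
  have := (hd _ (hm _ h1)).2 b
  rwa [show (m + iot ((σ * t) • b)).1.re = m.1.re by simp [iot]] at this

/-- the integrand -/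
def btF (U : ℂ × ℂ → ℂ) (Z : ℂ × ℂ → ℂ × ℂ) (n : ℝ) (q y : ℂ × ℂ) : ℂ :=
  U y * cexp (-(n * btQ (q - Z y)))

theorem bt_decay (hZ : ContDiff ℝ 2 Z) (hd : btHd Z R) (hs : 0 < s) {m q : ℂ × ℂ}
    (hm : m ∈ btK R s) (hq : ‖Z m - q‖ ≤ s / 50) {a : ℝ × ℝ} (h1 : s / 2 ≤ ‖a‖) (h2 : ‖a‖ ≤ s)
    {n : ℝ} (hn : 0 ≤ n) :
    ‖cexp (-(n * btQ (q - Z (m + iot a))))‖ ≤ Real.exp (-(s ^ 2 / 200 * n)) := by
  have h3 := btE_near hZ hd hm (t := 1) (b := a) (by rwa [one_smul])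
  have h4 := btE_smul hZ 1 m a
  rw [one_smul, one_smul] at h4
  have h5 : ‖Z (m + iot a) - q - btM m.1.re a‖ ≤ 201 / 10000 * s := by
    have : Z (m + iot a) - q - btM m.1.re a = (btE Z 1 m a - btM m.1.re a) + (Z m - q) := by
      rw [h4]; abel
    rw [this]
    exact (norm_add_le _ _).trans (by linarith)
  have h6 := bt_re_ge (A := s / 10) (hd _ (btK_sub hs hm)).1 h5 (by linarith) (by linarith)
  have h7 : btQ (q - Z (m + iot a)) = btQ (Z (m + iot a) - q) := by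
    simp only [btQ, Prod.fst_sub, Prod.snd_sub]; ring
  rw [norm_exp, neg_re, re_ofReal_mul, h7, mul_comm _ n]
  refine Real.exp_le_exp.2 (neg_le_neg (mul_le_mul_of_nonneg_left ?_ hn))
  nlinarith [sq_nonneg s]

theorem bt_move (χ : ContDiffBump (0 : ℝ × ℝ)) (hR : IsCompact R) (hZ : ContDiff ℝ 2 Z)
    (hU : ContDiff ℝ 1 U) (hd : btHd Z R) (hs : 0 < s) (h1 : χ.rIn = s / 2) (h2 : χ.rOut = s) :
    ∃ C : ℝ, ∀ n : ℝ, 0 ≤ n → ∀ q m m', ‖q - c‖ ≤ s / 100 → Step Z U R c s L m m' →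
      ‖btI χ (btF U Z n q) Z m' - btI χ (btF U Z n q) Z m‖ ≤
        C * Real.exp (-(s ^ 2 / 200 * n)) := by
  have c1 := hZ.continuous_fderiv (by norm_num)
  have c2 := hU.continuous
  have ci : Continuous iot := btL.continuous
  have c3 : Continuous fun p : (ℂ × ℂ) × (ℂ × ℂ) × ℝ × ℝ => btH U Z p.2.1 (iot p.2.2) p.1 := by
    unfold btH btD; fun_prop
  obtain ⟨C, hC⟩ := (hR.prod ((isCompact_closedBall 0 L).prod
    (isCompact_closedBall 0 1))).exists_bound_of_continuousOn c3.continuousOn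
  refine ⟨2 * (|C| * ∫ a, ‖fderiv ℝ χ a‖), fun n hn q m m' hq ⟨μ, hμ, e0, e1, h⟩ => ?_⟩
  have hF : ContDiff ℝ 1 (btF U Z n q) := by
    have := hZ.of_le (m := 1) (by norm_num)
    unfold btF btQ; fun_prop
  have := bt_step χ hF hZ (hμ.differentiable (by norm_num))
    (B := |C| * Real.exp (-(s ^ 2 / 200 * n))) (by positivity) fun l hl a ha => by
      rw [h2] at ha
      obtain ⟨g1, g2, g3⟩ := h l hl
      refine ⟨btW_gauss hU hZ n q _ _ _ _ (g3 a ha).2, fun hb e he => ?_⟩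
      have g4 : ‖Z (μ l) - q‖ ≤ s / 50 := by
        have := norm_sub_le (Z (μ l) - c) (q - c)
        rw [sub_sub_sub_cancel_right] at this; linarith
      have g5 := bt_decay hZ hd hs (m := μ l) (fun a ha => (g3 a ha).1) g4 (h1 ▸ hb) ha hn
      have g6 := hC (μ l + iot a, deriv μ l, e)
        ⟨(g3 a ha).1, mem_closedBall_zero_iff.2 g1, mem_closedBall_zero_iff.2 he⟩
      have : btH (btF U Z n q) Z (deriv μ l) (iot e) (μ l + iot a) =
          btH U Z (deriv μ l) (iot e) (μ l + iot a) *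
            cexp (-(n * btQ (q - Z (μ l + iot a)))) := by simp only [btH, btF]; ring
      rw [this, norm_mul]
      exact mul_le_mul (g6.trans (le_abs_self C)) g5 (norm_nonneg _) (abs_nonneg C)
  rw [e0, e1] at this
  exact this.trans_eq (by ring)

/-- the rescaled integral -/
def btP (χ : ContDiffBump (0 : ℝ × ℝ)) (U : ℂ × ℂ → ℂ) (Z : ℂ × ℂ → ℂ × ℂ) (t : ℝ)
    (m : ℂ × ℂ) : ℂ :=
  ∫ b, χ (t • b) • (btH U Z (iot (1, 0)) (iot (0, 1)) (m + iot (t • b)) *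
    cexp (-btQ (btE Z t m b)))

theorem btP_eq (χ : ContDiffBump (0 : ℝ × ℝ)) (hZ : ContDiff ℝ 2 Z) {n : ℝ} (hn : 0 < n)
    (m : ℂ × ℂ) : n * btI χ (btF U Z n (Z m)) Z m = btP χ U Z (√n)⁻¹ m := by
  have h1 : ((√n)⁻¹) ^ 2 = n⁻¹ := by rw [inv_pow, Real.sq_sqrt hn.le]
  have := Measure.integral_comp_smul (volume : Measure (ℝ × ℝ))
    (fun a => χ a • btH (btF U Z n (Z m)) Z (iot (1, 0)) (iot (0, 1)) (m + iot a)) (√n)⁻¹
  rw [Module.finrank_prod, Module.finrank_self, h1, inv_inv, abs_of_pos hn, real_smul] at this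
  rw [btI, ← this, btP]
  congr 1
  ext b
  have h2 : n * btQ (Z m - Z (m + iot ((√n)⁻¹ • b))) = btQ (btE Z (√n)⁻¹ m b) := by
    rw [← neg_sub, ← btE_smul hZ]
    have h3 : (n : ℂ) * (((√n)⁻¹ : ℝ) : ℂ) ^ 2 = 1 := by
      rw [← ofReal_pow, h1, ← ofReal_mul, mul_inv_cancel₀ hn.ne', ofReal_one]
    simp only [btQ, Prod.fst_neg, Prod.snd_neg, Prod.smul_fst, Prod.smul_snd, real_smul]
    linear_combination ((btE Z (√n)⁻¹ m b).1 ^ 2 + (btE Z (√n)⁻¹ m b).2 ^ 2) * h3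
  simp only [btH, btF, h2]
  congr 1
  ring

theorem btP_zero (χ : ContDiffBump (0 : ℝ × ℝ)) (hd : btHd Z R) {m : ℂ × ℂ} (hm : m ∈ R) :
    btP χ U Z 0 m = U m * π := by
  have e : ∀ b : ℝ × ℝ, fderiv ℝ Z m (iot b) =
      b.1 • fderiv ℝ Z m (iot (1, 0)) + b.2 • fderiv ℝ Z m (iot (0, 1)) := fun b => by
    rw [← map_smul, ← map_smul, ← map_add]
    congr 1
    simp [iot]
  have h0 : iot 0 = 0 := map_zero btL
  have h1 : χ 0 = 1 := χ.one_of_mem_closedBall (mem_closedBall_self χ.rIn_pos.le)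
  have := bt_gauss (hd m hm).1 (u := fderiv ℝ Z m (iot (1, 0)))
    (v := fderiv ℝ Z m (iot (0, 1))) fun b => e b ▸ (hd m hm).2 b
  simp only [btP, btE, zero_smul, mul_zero, h0, h1, add_zero, one_smul,
    intervalIntegral.integral_const, sub_zero]
  rw [integral_const_mul, ← this, btH]
  simp only [← e]
  ring

theorem btP_unif (χ : ContDiffBump (0 : ℝ × ℝ)) (hR : IsCompact R) (hZ : ContDiff ℝ 2 Z)
    (hU : ContDiff ℝ 1 U) (hd : btHd Z R) (hs : 0 < s) (h2 : χ.rOut = s) {ε : ℝ} (hε : 0 < ε) :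
    ∀ᶠ t in 𝓝 (0 : ℝ), ∀ m ∈ btK R s, ‖btP χ U Z t m - U m * π‖ ≤ ε := by
  have cH := (btH_c1 hU hZ (iot (1, 0)) (iot (0, 1))).continuous
  have ci : Continuous iot := btL.continuous
  have c6 := χ.continuous
  have cQ : Continuous btQ := by unfold btQ; fun_prop
  obtain ⟨C, hC⟩ := hR.exists_bound_of_continuousOn cH.continuousOn
  have cA : Continuous fun p : (ℝ × ℂ × ℂ) × ℝ × ℝ => χ (p.1.1 • p.2) •
      (btH U Z (iot (1, 0)) (iot (0, 1)) (p.1.2 + iot (p.1.1 • p.2)) *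
        cexp (-btQ (btE Z p.1.1 p.1.2 p.2))) :=
    (c6.comp (by fun_prop)).smul ((cH.comp (by fun_prop)).mul (cQ.comp (btE_cont hZ)).neg.cexp)
  have cP : Continuous fun p : ℝ × btK R s => btP χ U Z p.1 p.2 := by
    refine continuous_of_dominated (bound := fun b => |C| * Real.exp (-(‖b‖ ^ 2 / 30)))
      (fun p => (cA.comp (Continuous.prodMk_right (p.1, p.2.1))).aestronglyMeasurable)
      (fun p => .of_forall fun b => ?_) (bt_exp_int.const_mul _) (.of_forall fun b =>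
        cA.comp (f := fun p : ℝ × btK R s => ((p.1, p.2.1), b)) (by fun_prop))
    by_cases hb : p.1 • b ∈ closedBall 0 χ.rOut
    · rw [h2, mem_closedBall_zero_iff] at hb
      rw [norm_smul, norm_mul, Real.norm_of_nonneg χ.nonneg]
      refine (mul_le_of_le_one_left (by positivity) χ.le_one).trans ?_
      exact mul_le_mul ((hC _ (p.2.2 _ hb)).trans (le_abs_self C))
        (bt_exp_le (hd _ (btK_sub hs p.2.2)).1 (btE_near hZ hd p.2.2 hb)) (norm_nonneg _)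
        (abs_nonneg C)
    · rw [bt_out χ hb, zero_smul, norm_zero]; positivity
  have : CompactSpace (btK R s) := isCompact_iff_compactSpace.1 (btK_cpt hR hs)
  have c2 := hU.continuous
  have cN : Continuous fun p : ℝ × btK R s => ‖btP χ U Z p.1 p.2 - U p.2 * π‖ := by fun_prop
  have := isCompact_univ.eventually_forall_of_forall_eventually (x₀ := (0 : ℝ))
    (P := fun t (m : btK R s) => ‖btP χ U Z t m - U m * π‖ ≤ ε) fun m _ =>
      (cN.continuousAt.eventually_lt continuousAt_const (by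
        simpa [btP_zero χ hd (btK_sub hs m.2)] using hε)).mono fun _ h => h.le
  exact this.mono fun t ht m hm => ht ⟨m, hm⟩ trivial

theorem bt_glob (hR : IsCompact R) (hZ : ContDiff ℝ 2 Z) (hU : ContDiff ℝ 1 U) (hd : btHd Z R)
    {m0 : ℂ × ℂ} (hs : 0 < s) :
    ∃ H : ℕ → ℂ × ℂ → ℂ, (∀ n, Differentiable ℂ (H n)) ∧ ∀ ε > 0, ∀ᶠ n in atTop,
      ∀ m m1, Step Z U R c s L m0 m1 → Step Z U R c s L m1 m → ‖H n (Z m) - U m‖ ≤ ε := by
  let χ : ContDiffBump (0 : ℝ × ℝ) := ⟨s / 2, s, by linarith, by linarith⟩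
  obtain ⟨C, hC⟩ := bt_move (c := c) (L := L) χ hR hZ hU hd hs rfl rfl
  refine ⟨fun n q => (π : ℂ)⁻¹ * ((n : ℝ) * btI χ (btF U Z n q) Z m0),
    fun n => ((bt_entire χ hU hZ _ m0).const_mul _).const_mul _, fun ε hε => ?_⟩
  have t1 : Tendsto (fun n : ℕ => (√(n : ℝ))⁻¹) atTop (𝓝 0) :=
    (Real.tendsto_sqrt_atTop.comp tendsto_natCast_atTop_atTop).inv_tendsto_atTop
  have hc : 0 < s ^ 2 / 200 := by positivity
  have t2 : Tendsto (fun n : ℕ => (n : ℝ) * (C * Real.exp (-(s ^ 2 / 200 * n)))) atTop (𝓝 0) := by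
    have := ((Real.tendsto_pow_mul_exp_neg_atTop_nhds_zero 1).comp
      (tendsto_natCast_atTop_atTop.const_mul_atTop hc)).const_mul (C / (s ^ 2 / 200))
    rw [mul_zero] at this
    refine this.congr fun n => ?_
    simp only [Function.comp]
    field_simp
  filter_upwards [t1.eventually (btP_unif χ hR hZ hU hd hs rfl hε),
    t2.eventually (gt_mem_nhds hε), eventually_gt_atTop 0] with n h1 h2 h3 m m1 s1 s2
  have hn : (0 : ℝ) < n := by exact_mod_cast h3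
  obtain ⟨hq, hm⟩ : ‖Z m - c‖ ≤ s / 100 ∧ m ∈ btK R s := by
    obtain ⟨μ, -, -, rfl, h⟩ := s2
    exact ⟨(h 1 ⟨zero_le_one, le_rfl⟩).2.1, fun a ha => ((h 1 ⟨zero_le_one, le_rfl⟩).2.2 a ha).1⟩
  have g1 := hC n hn.le _ _ _ hq s1
  have g2 := hC n hn.le _ _ _ hq s2
  have g3 := h1 m hm
  rw [← btP_eq χ hZ hn] at g3
  have p0 : (π : ℂ) ≠ 0 := ofReal_ne_zero.2 Real.pi_ne_zero
  set I0 := btI χ (btF U Z n (Z m)) Z m0
  set I1 := btI χ (btF U Z n (Z m)) Z m1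
  set I2 := btI χ (btF U Z n (Z m)) Z m
  have e : (π : ℂ)⁻¹ * ((n : ℝ) * I0) - U m = (π : ℂ)⁻¹ *
      (((n : ℝ) * I2 - U m * π) - (n : ℝ) * (I2 - I1) - (n : ℝ) * (I1 - I0)) := by
    field_simp; ring
  rw [e, norm_mul, norm_inv, norm_real, Real.norm_of_nonneg Real.pi_pos.le,
    inv_mul_le_iff₀ Real.pi_pos]
  refine (norm_sub_le _ _).trans ((add_le_add_left (norm_sub_le _ _) _).trans ?_)
  rw [norm_mul, norm_mul, norm_real, Real.norm_of_nonneg hn.le]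
  nlinarith [mul_le_mul_of_nonneg_left g1 hn.le, mul_le_mul_of_nonneg_left g2 hn.le,
    Real.pi_gt_three]

end

variable {Y V : Type} [NormedAddCommGroup Y] [NormedSpace ℝ Y] [FiniteDimensional ℝ Y]
  [NormedAddCommGroup V] [NormedSpace ℝ V] [CompleteSpace V]

theorem bt_approx {Z : ℂ × ℂ → ℂ × ℂ} {U : ℂ × ℂ → ℂ} {R : Set (ℂ × ℂ)} (hR : IsCompact R)
    (hZ : ∀ p ∈ R, ContDiffAt ℝ 2 Z p) (hU : ∀ p ∈ R, ContDiffAt ℝ 1 U p)
    (hd : ∀ p ∈ R, |p.1.re| ≤ 4 ∧ ∀ a : ℝ × ℝ,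
      ‖fderiv ℝ Z p (iot a) - ((a.1 : ℂ), ((a.2 - p.1.re * a.1 : ℝ) : ℂ))‖ ≤ 1 / 10 ^ 4 * ‖a‖)
    {c m0 : ℂ × ℂ} {s L : ℝ} (hs : 0 < s) :
    ∃ H : ℕ → ℂ × ℂ → ℂ, (∀ n, Differentiable ℂ (H n)) ∧ ∀ ε > 0, ∀ᶠ n in atTop,
      ∀ m m1, Step Z U R c s L m0 m1 → Step Z U R c s L m1 m → ‖H n (Z m) - U m‖ ≤ ε := by
  obtain ⟨Z', hZ', eZ⟩ := bt_ext (n := 2) hR hZ
  obtain ⟨U', hU', eU⟩ := bt_ext (n := 1) hR hU
  obtain ⟨H, h1, h2⟩ := bt_glob (c := c) (L := L) (m0 := m0) hR hZ' hU'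
    (fun p hp => ⟨(hd p hp).1, fun a => by
      rw [(eZ p hp).fderiv_eq]; exact (hd p hp).2 a⟩) hs
  have st : ∀ m m', Step Z U R c s L m m' → m' ∈ R ∧ Step Z' U' R c s L m m' := by
    rintro m m' ⟨μ, hμ, e0, e1, h⟩
    have hm : ∀ l ∈ Icc (0 : ℝ) 1, μ l ∈ R := fun l hl =>
      btK_sub hs fun a ha => ((h l hl).2.2 a ha).1
    refine ⟨e1 ▸ hm 1 ⟨zero_le_one, le_rfl⟩, μ, hμ, e0, e1, fun l hl => ⟨(h l hl).1,
      (eZ _ (hm l hl)).eq_of_nhds ▸ (h l hl).2.1, fun a ha => ?_⟩⟩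
    obtain ⟨g1, g2⟩ := (h l hl).2.2 a ha
    refine ⟨g1, ?_⟩
    have f1 : (fun y => (Z' y).1) =ᶠ[𝓝 (μ l + iot a)] fun y => (Z y).1 :=
      (eZ _ g1).fun_comp Prod.fst
    have f2 : (fun y => (Z' y).2) =ᶠ[𝓝 (μ l + iot a)] fun y => (Z y).2 :=
      (eZ _ g1).fun_comp Prod.snd
    rwa [(eU _ g1).fderiv_eq, f1.fderiv_eq, f2.fderiv_eq]
  refine ⟨H, h1, fun ε hε => (h2 ε hε).mono fun n hn m m1 s1 s2 => ?_⟩
  have := hn m m1 (st _ _ s1).2 (st _ _ s2).2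
  rwa [(eZ _ (st _ _ s2).1).eq_of_nhds, (eU _ (st _ _ s2).1).eq_of_nhds] at this

end Pool.Agent.Lib.MP_0cc5e8_gt
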