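import Pool.Agent.Lib.MP_0cc5e8_gt.Base

namespace Pool.Agent.Lib.MP_0cc5e8_gt

open Complex Set Filter Topology Metric MeasureTheory
open scoped ComplexConjugate ContDiff Real Manifold

noncomputable section

theorem bt_ext {E F : Type} [NormedAddCommGroup E] [NormedSpace ℝ E] [FiniteDimensional ℝ E]
    [NormedAddCommGroup F] [NormedSpace ℝ F] {n : ℕ} {f : E → F} {R : Set E} (hR : IsCompact R)
    (hf : ∀ p ∈ R, ContDiffAt ℝ n f p) :
    ∃ g : E → F, ContDiff ℝ n g ∧ ∀ p ∈ R, g =ᶠ[𝓝 p] f := by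
  have hO : IsOpen {p | ContDiffAt ℝ n f p} :=
    isOpen_iff_mem_nhds.2 fun p hp => ContDiffAt.eventually hp (by simp)
  obtain ⟨K, hK, h1, h2⟩ := exists_compact_between hR hO hf
  obtain ⟨ψ, hψ1, hψ0, -⟩ :=
    exists_contMDiffMap_one_nhds_of_subset_interior (n := n) 𝓘(ℝ, E) hR.isClosed h1
  refine ⟨fun x => ψ x • f x, contDiff_iff_contDiffAt.2 fun x => ?_, fun p hp => ?_⟩
  · by_cases hx : x ∈ K
    · exact (ψ.contMDiff.contDiff.contDiffAt).smul (h2 hx)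
    · refine (contDiffAt_const (c := 0)).congr_of_eventuallyEq ?_
      filter_upwards [hK.isClosed.isOpen_compl.mem_nhds hx] with y hy
      simp [hψ0 y hy]
  · filter_upwards [(eventually_nhdsSet_iff_forall.1 hψ1) p hp] with y hy
    simp [hy]

theorem bt_int {E : Type} [NormedAddCommGroup E] {K : Set (ℝ × ℝ)} (hK : IsCompact K)
    {f : ℝ × ℝ → E} (h : Continuous f) (hz : ∀ a, a ∉ K → f a = 0) : Integrable f :=
  h.integrable_of_hasCompactSupport (HasCompactSupport.intro hK hz)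

theorem bt_par {𝕜 H E : Type} [RCLike 𝕜] [NormedAddCommGroup H] [NormedSpace 𝕜 H] [ProperSpace H]
    [NormedAddCommGroup E] [NormedSpace ℝ E] [NormedSpace 𝕜 E] {K : Set (ℝ × ℝ)}
    (hK : IsCompact K) {φ : H → ℝ × ℝ → E} {φ' : H → ℝ × ℝ → H →L[𝕜] E}
    (h0 : Continuous φ.uncurry) (h1 : Continuous φ'.uncurry)
    (hz : ∀ x a, a ∉ K → φ x a = 0) (hz' : ∀ x a, a ∉ K → φ' x a = 0)
    (hd : ∀ x a, HasFDerivAt (φ · a) (φ' x a) x) (x : H) :
    HasFDerivAt (fun x => ∫ a, φ x a) (∫ a, φ' x a) x := by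
  obtain ⟨C, hC⟩ := ((isCompact_closedBall x 1).prod hK).exists_bound_of_continuousOn
    h1.continuousOn
  have c0 : ∀ y, Continuous (φ y) := fun y => h0.comp (Continuous.prodMk_right y)
  have c1 : ∀ y, Continuous (φ' y) := fun y => h1.comp (Continuous.prodMk_right y)
  refine hasFDerivAt_integral_of_dominated_of_fderiv_le (bound := K.indicator fun _ => C)
    (closedBall_mem_nhds x one_pos) (.of_forall fun y => (c0 y).aestronglyMeasurable)
    (bt_int hK (c0 x) (hz x)) (c1 x).aestronglyMeasurable (.of_forall fun a y hy => ?_)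
    ((integrable_indicator_iff hK.measurableSet).2 (integrableOn_const hK.measure_lt_top.ne))
    (.of_forall fun a y _ => hd y a)
  by_cases ha : a ∈ K
  · rw [indicator_of_mem ha]; exact hC (y, a) ⟨hy, ha⟩
  · rw [indicator_of_notMem ha, hz' y a ha, norm_zero]

/-- sum of squares -/
def btQ (q : ℂ × ℂ) : ℂ := q.1 ^ 2 + q.2 ^ 2

/-- determinant of two vectors -/
def btD (u v : ℂ × ℂ) : ℂ := u.1 * v.2 - v.1 * u.2

/-- the real model matrix -/
def btM (x : ℝ) (a : ℝ × ℝ) : ℂ × ℂ := ((a.1 : ℂ), ((a.2 - x * a.1 : ℝ) : ℂ))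

theorem bt_sq_aux {v1 v2 r1 r2 i1 i2 A η : ℝ} (hA : A ≤ |v1| ∨ A ≤ |v2|) (hη : η ≤ A)
    (h1 : |r1| ≤ η) (h2 : |r2| ≤ η) (h3 : |i1| ≤ η) (h4 : |i2| ≤ η) :
    (A - η) ^ 2 - 2 * η ^ 2 ≤ (v1 + r1) ^ 2 - i1 ^ 2 + ((v2 + r2) ^ 2 - i2 ^ 2) := by
  have k : ∀ v r : ℝ, A ≤ |v| → |r| ≤ η → (A - η) ^ 2 ≤ (v + r) ^ 2 := fun v r hv hr => by
    rw [← sq_abs (v + r)]
    refine pow_le_pow_left₀ (by linarith) ?_ 2
    have := abs_add_le (v + r) (-r)
    rw [abs_neg, add_neg_cancel_right] at this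
    linarith
  have a3 : i1 ^ 2 ≤ η ^ 2 := by rw [← sq_abs i1]; exact pow_le_pow_left₀ (abs_nonneg _) h3 2
  have a4 : i2 ^ 2 ≤ η ^ 2 := by rw [← sq_abs i2]; exact pow_le_pow_left₀ (abs_nonneg _) h4 2
  rcases hA with h | h
  · nlinarith [k _ _ h h1, sq_nonneg (v2 + r2)]
  · nlinarith [k _ _ h h2, sq_nonneg (v1 + r1)]

theorem bt_re_ge {x η A : ℝ} (hx : |x| ≤ 4) {a : ℝ × ℝ} {ζ : ℂ × ℂ} (h : ‖ζ - btM x a‖ ≤ η)
    (hA : A ≤ ‖a‖ / 5) (hη : η ≤ A) : (A - η) ^ 2 - 2 * η ^ 2 ≤ (btQ ζ).re := by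
  have e1 : ‖ζ.1 - a.1‖ ≤ η := (norm_fst_le (ζ - btM x a)).trans h
  have e2 : ‖ζ.2 - (a.2 - x * a.1 : ℝ)‖ ≤ η := (norm_snd_le (ζ - btM x a)).trans h
  have hm : A ≤ |a.1| ∨ A ≤ |a.2 - x * a.1| := by
    by_cases h1 : A ≤ |a.1|
    · exact .inl h1
    · right
      have h1 := not_le.1 h1
      have hn : ‖a‖ = max |a.1| |a.2| := rfl
      have h3 : |x * a.1| ≤ 4 * |a.1| := by
        rw [abs_mul]; exact mul_le_mul_of_nonneg_right hx (abs_nonneg _)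
      have h4 := abs_add_le (a.2 - x * a.1) (x * a.1)
      rw [sub_add_cancel] at h4
      rcases le_total |a.1| |a.2| with h5 | h5
      · rw [max_eq_right h5] at hn; linarith
      · rw [max_eq_left h5] at hn; linarith [abs_nonneg a.1]
  have := bt_sq_aux hm hη ((abs_re_le_norm _).trans e1) ((abs_re_le_norm _).trans e2)
    ((abs_im_le_norm _).trans e1) ((abs_im_le_norm _).trans e2)
  simp only [sub_re, ofReal_re, sub_im, ofReal_im, sub_zero, add_sub_cancel] at this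
  simp only [btQ, add_re, sq, mul_re]
  nlinarith

theorem bt_sqrt {z : ℂ} (hz : 0 < z.re) :
    (z ^ (1 / 2 : ℂ)) ^ 2 = z ∧ |(z ^ (1 / 2 : ℂ)).im| < (z ^ (1 / 2 : ℂ)).re := by
  have h1 : (z ^ (1 / 2 : ℂ)) ^ 2 = z := by
    rw [one_div]; exact cpow_ofNat_inv_pow z 2
  refine ⟨h1, ?_⟩
  have h2 : 0 ≤ (z ^ (1 / 2 : ℂ)).re := by
    rw [one_div, cpow_inv_two_re]; exact Real.sqrt_nonneg _
  refine abs_lt_of_sq_lt_sq ?_ h2
  rw [← h1] at hz
  simp only [sq, mul_re] at hz ⊢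
  linarith

theorem bt_exp_int : Integrable fun b : ℝ × ℝ => Real.exp (-(‖b‖ ^ 2 / 30)) := by
  have h := (integrable_exp_neg_mul_sq (b := 1 / 60) (by norm_num)).mul_prod
    (integrable_exp_neg_mul_sq (b := 1 / 60) (by norm_num))
  refine h.mono' (by fun_prop) (.of_forall fun b => ?_)
  rw [Real.norm_of_nonneg (Real.exp_pos _).le, ← Real.exp_add]
  refine Real.exp_le_exp.2 ?_
  have h1 : b.1 ^ 2 ≤ ‖b‖ ^ 2 := by
    rw [← sq_abs]; exact pow_le_pow_left₀ (abs_nonneg _) (norm_fst_le b) 2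
  have h2 : b.2 ^ 2 ≤ ‖b‖ ^ 2 := by
    rw [← sq_abs]; exact pow_le_pow_left₀ (abs_nonneg _) (norm_snd_le b) 2
  linarith

theorem bt_exp_le {x : ℝ} (hx : |x| ≤ 4) {b : ℝ × ℝ} {ζ : ℂ × ℂ}
    (h : ‖ζ - btM x b‖ ≤ 1 / 10 ^ 4 * ‖b‖) : ‖cexp (-btQ ζ)‖ ≤ Real.exp (-(‖b‖ ^ 2 / 30)) := by
  rw [norm_exp, neg_re]
  refine Real.exp_le_exp.2 (neg_le_neg ?_)
  have := bt_re_ge hx h le_rfl (by linarith [norm_nonneg b])
  nlinarith [sq_nonneg ‖b‖]

theorem bt_gauss {x : ℝ} (hx : |x| ≤ 4) {u v : ℂ × ℂ}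
    (h : ∀ b : ℝ × ℝ, ‖b.1 • u + b.2 • v - btM x b‖ ≤ 1 / 10 ^ 4 * ‖b‖) :
    (∫ b : ℝ × ℝ, cexp (-btQ (b.1 • u + b.2 • v))) * btD u v = π := by
  have hu := h (1, 0)
  have hv := h (0, 1)
  simp only [one_smul, zero_smul, add_zero, zero_add, btM, Prod.norm_def, norm_one, norm_zero,
    zero_le_one, max_eq_left, max_eq_right, mul_one, max_le_iff, Prod.fst_sub, Prod.snd_sub,
    ofReal_one, ofReal_zero, sub_zero, mul_zero, zero_sub, ofReal_neg, sub_neg_eq_add] at hu hv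
  obtain ⟨hu1, hu2⟩ := hu
  obtain ⟨hv1, hv2⟩ := hv
  have nx : ‖(x : ℂ)‖ ≤ 4 := by rwa [norm_real]
  have nu2 : ‖u.2‖ ≤ 5 := by
    have := norm_sub_le (u.2 + x) x
    rw [add_sub_cancel_right] at this; linarith
  have nv2 : ‖v.2‖ ≤ 2 := by
    have := norm_add_le (v.2 - 1) 1
    rw [sub_add_cancel, norm_one] at this; linarith
  have hJ : ‖btD u v - 1‖ ≤ 1 / 1000 := by
    have : btD u v - 1 = (u.1 - 1) * v.2 + (v.2 - 1) - v.1 * u.2 := by simp only [btD]; ring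
    rw [this]
    refine (norm_sub_le _ _).trans ((add_le_add_left (norm_add_le _ _) _).trans ?_)
    rw [norm_mul, norm_mul]
    nlinarith [norm_nonneg (u.1 - 1), norm_nonneg v.1, norm_nonneg v.2, norm_nonneg u.2]
  have hC : ‖btQ v - 1‖ ≤ 1 / 1000 := by
    have : btQ v - 1 = v.1 * v.1 + ((v.2 - 1) * v.2 + (v.2 - 1)) := by simp only [btQ]; ring
    rw [this]
    refine (norm_add_le _ _).trans ((add_le_add_right (norm_add_le _ _) _).trans ?_)
    rw [norm_mul, norm_mul]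
    nlinarith [norm_nonneg (v.2 - 1), norm_nonneg v.1, norm_nonneg v.2]
  set J := btD u v with hJd
  set C := btQ v with hCd
  have J1 := abs_le.1 ((abs_re_le_norm _).trans hJ)
  have J2 := abs_le.1 ((abs_im_le_norm _).trans hJ)
  have C1 := abs_le.1 ((abs_re_le_norm _).trans hC)
  have C2 := abs_le.1 ((abs_im_le_norm _).trans hC)
  simp only [sub_re, one_re, sub_im, one_im, sub_zero] at J1 J2 C1 C2
  have Cp : 0 < C.re := by linarith [C1.1]
  have Jp : 0 < J.re := by linarith [J1.1]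
  have C0 : C ≠ 0 := fun h0 => by simp [h0] at Cp
  have J0 : J ≠ 0 := fun h0 => by simp [h0] at Jp
  have dv : ∀ {a b : ℂ}, b ≠ 0 → 0 < a.re * b.re + a.im * b.im → 0 < (a / b).re := by
    intro a b hb hab
    rw [div_re, ← add_div]; exact div_pos hab (normSq_pos.2 hb)
  have Ep : 0 < (J ^ 2 / C).re := dv C0 (by
    simp only [sq, mul_re, mul_im]
    have a1 : 1 / 2 ≤ J.re * J.re - J.im * J.im := by nlinarith [J1.1, J2.1, J2.2]
    have a2 : |J.re * J.im + J.im * J.re| ≤ 1 := by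
      rw [abs_le]; constructor <;> nlinarith [J1.1, J1.2, J2.1, J2.2]
    have a3 := abs_le.1 a2
    nlinarith [C1.1, C2.1, C2.2, a3.1, a3.2])
  have E0 : J ^ 2 / C ≠ 0 := div_ne_zero (pow_ne_zero _ J0) C0
  have hi : Integrable fun b : ℝ × ℝ => cexp (-btQ (b.1 • u + b.2 • v)) :=
    bt_exp_int.mono' (Continuous.aestronglyMeasurable (by unfold btQ; fun_prop))
      (.of_forall fun b => bt_exp_le hx (h b))
  have e1 : ∀ b1 : ℝ, ∫ b2 : ℝ, cexp (-btQ (b1 • u + b2 • v)) =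
      (π / C) ^ (1 / 2 : ℂ) * cexp (-(J ^ 2 / C) * (b1 : ℂ) ^ 2) := fun b1 => by
    have := integral_cexp_quadratic (b := -C) (by simpa using Cp)
      (-(2 * b1 * (u.1 * v.1 + u.2 * v.2))) (-(b1 ^ 2 * btQ u))
    rw [neg_neg] at this
    have e2 : -(J ^ 2 / C) * (b1 : ℂ) ^ 2 = -(b1 ^ 2 * btQ u) -
        (-(2 * b1 * (u.1 * v.1 + u.2 * v.2))) ^ 2 / (4 * -C) := by
      field_simp
      simp only [hCd, hJd, btQ, btD]; ring
    rw [e2, ← this]
    congr 1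
    ext b2
    simp only [hCd, btQ, Prod.fst_add, Prod.snd_add, Prod.smul_fst, Prod.smul_snd, real_smul]
    congr 1; ring
  rw [Measure.volume_eq_prod, integral_prod _ hi]
  simp only [e1]
  rw [integral_const_mul, integral_gaussian_complex Ep]
  have pp : ∀ {b : ℂ}, 0 < b.re → 0 < ((π : ℂ) / b).re := fun {b} hb =>
    dv (fun h0 => by simp [h0] at hb) (by simpa using mul_pos Real.pi_pos hb)
  obtain ⟨s1, t1⟩ := bt_sqrt (pp Cp)
  obtain ⟨s2, t2⟩ := bt_sqrt (pp Ep)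
  set r1 := ((π : ℂ) / C) ^ (1 / 2 : ℂ)
  set r2 := ((π : ℂ) / (J ^ 2 / C)) ^ (1 / 2 : ℂ)
  have hs : (r1 * r2) ^ 2 = (π / J) ^ 2 := by
    rw [mul_pow, s1, s2]; field_simp
  have hp : 0 < (r1 * r2).re := by
    rw [mul_re]
    have := mul_lt_mul'' t1 t2 (abs_nonneg _) (abs_nonneg _)
    rw [← abs_mul] at this
    linarith [le_abs_self (r1.im * r2.im)]
  rcases sq_eq_sq_iff_eq_or_eq_neg.1 hs with h1 | h1
  · rw [h1]; field_simp
  · have := pp Jp
    rw [h1, neg_re] at hp; linarith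

end

end Pool.Agent.Lib.MP_0cc5e8_gt
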