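import Pool.Agent.Lib.MP_0cc5e8_gt.BTA

namespace Pool.Agent.Lib.MP_0cc5e8_gt

open Complex Set Filter Topology Metric MeasureTheory
open scoped ComplexConjugate ContDiff Real

noncomputable section

/-- `iot` as a continuous linear map -/
def btL : ℝ × ℝ →L[ℝ] ℂ × ℂ := LinearMap.toContinuousLinearMap
  { toFun := iot
    map_add' := fun a b => by simp [iot, add_mul]
    map_smul' := fun c a => by simp [iot, mul_assoc] }

theorem btL_apply (a : ℝ × ℝ) : btL a = iot a := rfl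

/-- coefficient of the two-form F dZ1 dZ2 -/
def btH (F : ℂ × ℂ → ℂ) (Z : ℂ × ℂ → ℂ × ℂ) (u v y : ℂ × ℂ) : ℂ :=
  F y * btD (fderiv ℝ Z y u) (fderiv ℝ Z y v)

/-- coefficient of the three-form dF dZ1 dZ2 -/
def btW (F : ℂ × ℂ → ℂ) (Z : ℂ × ℂ → ℂ × ℂ) (u v w y : ℂ × ℂ) : ℂ :=
  fderiv ℝ F y u * btD (fderiv ℝ Z y v) (fderiv ℝ Z y w) -
    fderiv ℝ F y v * btD (fderiv ℝ Z y u) (fderiv ℝ Z y w) +
    fderiv ℝ F y w * btD (fderiv ℝ Z y u) (fderiv ℝ Z y v)

variable {F U : ℂ × ℂ → ℂ} {Z : ℂ × ℂ → ℂ × ℂ}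

theorem btH_c1 (hF : ContDiff ℝ 1 F) (hZ : ContDiff ℝ 2 Z) (u v : ℂ × ℂ) :
    ContDiff ℝ 1 (btH F Z u v) := by
  have h : ContDiff ℝ 1 (fderiv ℝ Z) := hZ.fderiv_right (by norm_num)
  unfold btH btD
  fun_prop

theorem btH_pt (hF : ContDiff ℝ 1 F) (hZ : ContDiff ℝ 2 Z) (u v w y : ℂ × ℂ) :
    fderiv ℝ (btH F Z v w) y u - fderiv ℝ (btH F Z u w) y v + fderiv ℝ (btH F Z u v) y w =
      btW F Z u v w y := by
  have h : ContDiff ℝ 1 (fderiv ℝ Z) := hZ.fderiv_right (by norm_num)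
  have hS := (h.differentiable (by norm_num) y).hasFDerivAt
  have sy : IsSymmSndFDerivAt ℝ Z y := hZ.contDiffAt.isSymmSndFDerivAt (by simp)
  have hA := fun u : ℂ × ℂ => hS.clm_apply (hasFDerivAt_const u y)
  have hF' := (hF.differentiable (by norm_num) y).hasFDerivAt
  have key : ∀ a b c : ℂ × ℂ, fderiv ℝ (btH F Z a b) y c =
      fderiv ℝ F y c * btD (fderiv ℝ Z y a) (fderiv ℝ Z y b) +
      F y * (btD (fderiv ℝ (fderiv ℝ Z) y c a) (fderiv ℝ Z y b) +
        btD (fderiv ℝ Z y a) (fderiv ℝ (fderiv ℝ Z) y c b)) := fun a b c => by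
    have := (hF'.mul (((hA a).fst.mul (hA b).snd).sub ((hA b).fst.mul (hA a).snd))).fderiv
    refine (congrArg (fun T : ℂ × ℂ →L[ℝ] ℂ => T c) this).trans ?_
    simp [btD]
    ring
  rw [key, key, key, sy u v, sy u w, sy v w]
  simp only [btW, btD]
  ring

theorem btW_gauss (hU : ContDiff ℝ 1 U) (hZ : ContDiff ℝ 2 Z) (n : ℂ) (q u v w y : ℂ × ℂ)
    (h : wedge3 (fderiv ℝ U y) (fderiv ℝ (fun y => (Z y).1) y) (fderiv ℝ (fun y => (Z y).2) y)
      u v w = 0) : btW (fun y => U y * cexp (-(n * btQ (q - Z y)))) Z u v w y = 0 := by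
  have hZ' := (hZ.differentiable (by norm_num) y).hasFDerivAt
  have hU' := (hU.differentiable (by norm_num) y).hasFDerivAt
  have hq := hZ'.const_sub q
  have := (hU'.mul ((((hq.fst.pow 2).add (hq.snd.pow 2)).const_mul n).neg.cexp)).fderiv
  have key : ∀ c, fderiv ℝ (fun y => U y * cexp (-(n * btQ (q - Z y)))) y c =
      cexp (-(n * btQ (q - Z y))) * (fderiv ℝ U y c + U y * (2 * n) *
        ((q - Z y).1 * (fderiv ℝ Z y c).1 + (q - Z y).2 * (fderiv ℝ Z y c).2)) := fun c => by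
    refine (congrArg (fun T : ℂ × ℂ →L[ℝ] ℂ => T c) this).trans ?_
    simp [btQ]
    ring
  rw [hZ'.fst.fderiv, hZ'.snd.fderiv] at h
  simp only [wedge3, ContinuousLinearMap.comp_apply, ContinuousLinearMap.coe_fst',
    ContinuousLinearMap.coe_snd'] at h
  simp only [btW, key, btD]
  linear_combination cexp (-(n * btQ (q - Z y))) * h

theorem bt_out (χ : ContDiffBump (0 : ℝ × ℝ)) {a : ℝ × ℝ} (ha : a ∉ closedBall 0 χ.rOut) :
    χ a = 0 := χ.zero_of_le_dist (not_le.1 ha).le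

theorem bt_out' (χ : ContDiffBump (0 : ℝ × ℝ)) {a : ℝ × ℝ} (ha : a ∉ closedBall 0 χ.rOut) :
    fderiv ℝ χ a = 0 := fderiv_of_notMem_tsupport ℝ (χ.tsupport_eq ▸ ha)

theorem bt_in' (χ : ContDiffBump (0 : ℝ × ℝ)) {a : ℝ × ℝ} (ha : ‖a‖ < χ.rIn) :
    fderiv ℝ χ a = 0 := by
  rw [(χ.eventuallyEq_one_of_mem_ball (mem_ball_zero_iff.2 ha)).fderiv_eq]
  exact fderiv_const_apply _

theorem bt_parts (χ : ContDiffBump (0 : ℝ × ℝ)) {k : ℂ × ℂ → ℂ} (hk : ContDiff ℝ 1 k)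
    (p : ℂ × ℂ) (e : ℝ × ℝ) (he : ‖e‖ ≤ 1) {B : ℝ} (hB0 : 0 ≤ B)
    (hB : ∀ a, χ.rIn ≤ ‖a‖ → ‖a‖ ≤ χ.rOut → ‖k (p + iot a)‖ ≤ B) :
    ‖∫ a, χ a • fderiv ℝ k (p + iot a) (iot e)‖ ≤ B * ∫ a, ‖fderiv ℝ χ a‖ := by
  have c1 : ContDiff ℝ 1 χ := χ.contDiff
  have c2 : Continuous (fderiv ℝ χ) := c1.continuous_fderiv (by norm_num)
  have c3 : ContDiff ℝ 1 fun a => k (p + btL a) := by fun_prop
  have c4 := c3.continuous_fderiv (by norm_num)
  have c5 := c3.continuous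
  have c6 := c1.continuous
  have hK := isCompact_closedBall (0 : ℝ × ℝ) χ.rOut
  have e1 : ∀ a, fderiv ℝ k (p + iot a) (iot e) = fderiv ℝ (fun a => k (p + btL a)) a e := by
    intro a
    have := ((hk.differentiable (by norm_num) (p + btL a)).hasFDerivAt.comp a
      (btL.hasFDerivAt.const_add p)).fderiv
    exact (congrArg (fun T : ℝ × ℝ →L[ℝ] ℂ => T e) this).symm
  simp only [e1]
  rw [integral_smul_fderiv_eq_neg_fderiv_smul_of_integrable
    (bt_int hK (by fun_prop) fun a ha => by simp [bt_out' χ ha])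
    (bt_int hK (by fun_prop) fun a ha => by simp [bt_out χ ha])
    (bt_int hK (by fun_prop) fun a ha => by simp [bt_out χ ha])
    (fun a _ => c1.differentiable (by norm_num) a) (fun a _ => c3.differentiable (by norm_num) a),
    norm_neg, ← integral_const_mul]
  refine norm_integral_le_of_norm_le ((bt_int hK c2.norm fun a ha => by
    simp [bt_out' χ ha]).const_mul B) (.of_forall fun a => ?_)
  by_cases h1 : ‖a‖ < χ.rIn
  · simp [bt_in' χ h1]
  by_cases h2 : a ∈ closedBall 0 χ.rOut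
  · rw [norm_smul, mul_comm]
    refine mul_le_mul (hB a (not_lt.1 h1) (mem_closedBall_zero_iff.1 h2)) ?_ (norm_nonneg _) hB0
    exact ((fderiv ℝ χ a).le_opNorm e).trans (mul_le_of_le_one_right (norm_nonneg _) he)
  · simp [bt_out' χ h2]

/-- the integral over the surface through p -/
def btI (χ : ContDiffBump (0 : ℝ × ℝ)) (F : ℂ × ℂ → ℂ) (Z : ℂ × ℂ → ℂ × ℂ) (p : ℂ × ℂ) : ℂ :=
  ∫ a, χ a • btH F Z (iot (1, 0)) (iot (0, 1)) (p + iot a)

theorem bt_step (χ : ContDiffBump (0 : ℝ × ℝ)) (hF : ContDiff ℝ 1 F) (hZ : ContDiff ℝ 2 Z)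
    {μ : ℝ → ℂ × ℂ} (hμ : Differentiable ℝ μ) {B : ℝ} (hB0 : 0 ≤ B)
    (h : ∀ l ∈ Icc (0 : ℝ) 1, ∀ a, ‖a‖ ≤ χ.rOut →
      btW F Z (deriv μ l) (iot (1, 0)) (iot (0, 1)) (μ l + iot a) = 0 ∧ (χ.rIn ≤ ‖a‖ →
        ∀ e, ‖e‖ ≤ 1 → ‖btH F Z (deriv μ l) (iot e) (μ l + iot a)‖ ≤ B)) :
    ‖btI χ F Z (μ 1) - btI χ F Z (μ 0)‖ ≤ 2 * (B * ∫ a, ‖fderiv ℝ χ a‖) := by
  have hK := isCompact_closedBall (0 : ℝ × ℝ) χ.rOut
  have c6 := χ.continuous
  have cH := fun u v => (btH_c1 hF hZ u v).continuous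
  have cD := fun u v => (btH_c1 hF hZ u v).continuous_fderiv (by norm_num)
  have ci : Continuous iot := btL.continuous
  have hI := fun p => bt_par (𝕜 := ℝ) hK
    (φ := fun p a => χ a • btH F Z (iot (1, 0)) (iot (0, 1)) (p + iot a))
    (φ' := fun p a => χ a • fderiv ℝ (btH F Z (iot (1, 0)) (iot (0, 1))) (p + iot a))
    ((c6.comp continuous_snd).smul ((cH _ _).comp (by fun_prop)))
    ((c6.comp continuous_snd).smul ((cD _ _).comp (by fun_prop)))
    (fun x a ha => by simp [bt_out χ ha]) (fun x a ha => by simp [bt_out χ ha])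
    (fun x a => ((hasFDerivAt_comp_add_right (iot a)).2 ((btH_c1 hF hZ _ _).differentiable
      (by norm_num) (x + iot a)).hasFDerivAt).const_smul (χ a)) p
  refine norm_image_sub_le_of_norm_deriv_le_segment_01' (f := fun l => btI χ F Z (μ l))
    (fun l _ => ((hI (μ l)).comp_hasDerivAt l (hμ l).hasDerivAt).hasDerivWithinAt) fun l hl => ?_
  have hl := h l (Ico_subset_Icc_self hl)
  have iD : ∀ u v w, Integrable fun a => χ a • fderiv ℝ (btH F Z u v) (μ l + iot a) w :=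
    fun u v w => bt_int hK (c6.smul (((cD u v).comp (by fun_prop)).clm_apply continuous_const))
      fun a ha => by simp [bt_out χ ha]
  have iD' : Integrable fun a =>
      χ a • fderiv ℝ (btH F Z (iot (1, 0)) (iot (0, 1))) (μ l + iot a) :=
    bt_int hK (c6.smul ((cD _ _).comp (by fun_prop))) fun a ha => by
      rw [bt_out χ ha]; exact ContinuousLinearMap.ext fun v => by simp
  rw [ContinuousLinearMap.integral_apply iD']
  have e1 : ∀ a, (χ a • fderiv ℝ (btH F Z (iot (1, 0)) (iot (0, 1))) (μ l + iot a)) (deriv μ l) =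
      χ a • fderiv ℝ (btH F Z (deriv μ l) (iot (0, 1))) (μ l + iot a) (iot (1, 0)) -
      χ a • fderiv ℝ (btH F Z (deriv μ l) (iot (1, 0))) (μ l + iot a) (iot (0, 1)) := by
    intro a
    by_cases h2 : a ∈ closedBall 0 χ.rOut
    · have := btH_pt hF hZ (deriv μ l) (iot (1, 0)) (iot (0, 1)) (μ l + iot a)
      rw [(hl a (mem_closedBall_zero_iff.1 h2)).1] at this
      rw [smul_apply, ← smul_sub]
      congr 1
      linear_combination this
    · simp [bt_out χ h2]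
  simp only [e1]
  rw [integral_sub (iD _ _ _) (iD _ _ _), two_mul]
  refine (norm_sub_le _ _).trans (add_le_add ?_ ?_)
  · exact bt_parts χ (btH_c1 hF hZ _ _) _ _ (by simp) hB0 fun a h1 h2 =>
      (hl a h2).2 h1 _ (by simp)
  · exact bt_parts χ (btH_c1 hF hZ _ _) _ _ (by simp) hB0 fun a h1 h2 =>
      (hl a h2).2 h1 _ (by simp)

theorem bt_entire (χ : ContDiffBump (0 : ℝ × ℝ)) (hU : ContDiff ℝ 1 U) (hZ : ContDiff ℝ 2 Z)
    (n : ℂ) (p : ℂ × ℂ) :
    Differentiable ℂ fun q => btI χ (fun y => U y * cexp (-(n * btQ (q - Z y)))) Z p := by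
  have hK := isCompact_closedBall (0 : ℝ × ℝ) χ.rOut
  have c6 := χ.continuous
  have cH := (btH_c1 hU hZ (iot (1, 0)) (iot (0, 1))).continuous
  have ci : Continuous iot := btL.continuous
  have cZ := hZ.continuous
  have hG : ContDiff ℂ 1 fun q : ℂ × ℂ => cexp (-(n * btQ q)) := by unfold btQ; fun_prop
  have cG := hG.continuous
  have cG' := hG.continuous_fderiv (by norm_num)
  intro q
  have := bt_par (𝕜 := ℂ) hK
    (φ := fun q a => (χ a • btH U Z (iot (1, 0)) (iot (0, 1)) (p + iot a)) •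
      cexp (-(n * btQ (q - Z (p + iot a)))))
    (φ' := fun q a => (χ a • btH U Z (iot (1, 0)) (iot (0, 1)) (p + iot a)) •
      fderiv ℂ (fun q : ℂ × ℂ => cexp (-(n * btQ q))) (q - Z (p + iot a)))
    (((c6.comp continuous_snd).smul (cH.comp (by fun_prop))).smul (cG.comp (by fun_prop)))
    (((c6.comp continuous_snd).smul (cH.comp (by fun_prop))).smul (cG'.comp (by fun_prop)))
    (fun x a ha => by simp [bt_out χ ha]) (fun x a ha => by simp [bt_out χ ha])
    (fun x a => ((hasFDerivAt_comp_sub (Z (p + iot a))).2 (hG.differentiable (by norm_num)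
      (x - Z (p + iot a))).hasFDerivAt).const_smul
        (χ a • btH U Z (iot (1, 0)) (iot (0, 1)) (p + iot a))) q
  refine this.differentiableAt.congr_of_eventuallyEq (.of_forall fun q => ?_)
  simp only [btI]
  congr 1
  ext a
  simp only [btH, real_smul, smul_eq_mul]
  ring

end

end Pool.Agent.Lib.MP_0cc5e8_gt
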