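import Pool.Agent.Lib.MP_0cc5e8_gt.Stmt

/-! Definitions shared by all files. -/

namespace Pool.Agent.Lib.MP_0cc5e8_gt

open Complex Set Filter Topology Metric
open scoped ComplexConjugate ContDiff Real

noncomputable section

/-- coefficients of a quadratic map v ↦ A v² + B v v̄ + C v̄² -/
abbrev Co := ℂ × ℂ × ℂ
/-- position, angle, logarithm of the speed -/
abbrev St := ℂ × ℝ × ℝ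

def ce (θ : ℝ) : ℂ := cexp (θ * I)
def Gk (k : Co) (θ : ℝ) : ℂ := k.1 * ce (2 * θ) + k.2.1 + k.2.2 * ce (-(2 * θ))
/-- real part: derivative of the log speed, imaginary part: derivative of the angle -/
def ba (k : Co) (θ : ℝ) : ℂ := -(ce (-θ) * Gk k θ)
def qk (k : Co) (w : ℂ) : ℂ :=
  -(k.1 * w ^ 2 + k.2.1 * w + k.2.2) + w * (conj k.1 + conj k.2.1 * w + conj k.2.2 * w ^ 2)
def rk (k : Co) (w : ℂ) : ℂ := -(conj k.1 + conj k.2.1 * w + conj k.2.2 * w ^ 2)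

def vf (κ : ℂ → Co) (x : St) : St := (ce x.2.1, (ba (κ x.1) x.2.1).im, (ba (κ x.1) x.2.1).re)

structure IsFlow (κ : ℂ → Co) (Φ : ℝ × St → St) : Prop where
  sk : ContDiff ℝ ∞ κ
  smooth : ContDiff ℝ ∞ Φ
  zero : ∀ x, Φ (0, x) = x
  deriv : ∀ x t, HasDerivAt (fun s => Φ (s, x)) (vf κ (Φ (t, x))) t

/-- the scaled connection -/
def scl (κ : ℂ → Co) (ε : ℝ) (z : ℂ) : Co := ε • κ (ε • z)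

/-- the geodesic vector field on the circle bundle, acting on sections of degree d -/
def Xd (κ : ℂ → Co) (d : ℝ) (u : ℂ × ℝ → ℂ) (p : ℂ × ℝ) : ℂ :=
  fderiv ℝ u p (ce p.2, (ba (κ p.1) p.2).im) + d * (ba (κ p.1) p.2).re * u p

/-- covariant Hessian on a unit vector -/
def hessK (κ : ℂ → Co) (φ : ℂ → ℝ) (z : ℂ) (θ : ℝ) : ℝ :=
  fderiv ℝ (fderiv ℝ φ) z (ce θ) (ce θ) - fderiv ℝ φ z (Gk (κ z) θ)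

/-- the defect of the Cauchy projection -/
def cc (κ : ℂ → Co) (V : ℂ × ℝ → ℂ) (z : ℂ) : ℂ :=
  (2 * π : ℂ)⁻¹ * ∫ θ in (0 : ℝ)..2 * π,
    ((fderiv ℝ V (z, θ) (1, 0) - I * fderiv ℝ V (z, θ) (I, 0)) / 2 * ce θ +
      (κ z).1 * V (z, θ) * ce θ - conj (κ z).2.2 * V (z, θ) * ce (3 * θ))

/-- solution of the transport equation in degree -1 -/
def Vp (Φ : ℝ × St → St) (F : ℂ × ℂ → ℂ) (p : ℂ × ℝ) : ℂ :=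
  -∫ t in (0 : ℝ)..30, (Real.exp (-(Φ (t, p.1, p.2, 0)).2.2) : ℂ) *
    F ((Φ (t, p.1, p.2, 0)).1, ce (2 * (Φ (t, p.1, p.2, 0)).2.1))

/-- family of flows of the scaled connections -/
structure Fam (κ : ℂ → Co) (Ψ : ℝ × ℝ × St → St) : Prop where
  sk : ContDiff ℝ ∞ κ
  smooth : ContDiff ℝ ∞ Ψ
  flow : ∀ ε, IsFlow (scl κ ε) fun p => Ψ (ε, p)
  flat : ∀ t z θ l, Ψ (0, t, z, θ, l) = (z + t * ce θ, θ, l)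

def lam1 (w : ℂ) (d : ℂ × ℂ) : ℂ := d.1 - w * conj d.1
def lam2 (q : ℂ) (d : ℂ × ℂ) : ℂ := d.2 - q * conj d.1

/-- W is holomorphic in the second variable and L W = r at the point y, where
L = ∂_z̄ + w ∂_z + q ∂_w -/
def Sol (k : Co) (W : ℂ × ℂ → ℂ) (y : ℂ × ℂ) (r : ℂ) : Prop :=
  DifferentiableAt ℝ W y ∧ ∃ a b : ℂ, ∀ d, fderiv ℝ W y d =
    a * lam1 y.2 d + b * lam2 (qk k y.2) d + r * conj d.1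

def b0 (y : ℂ × ℂ) : ℂ × ℂ := (y.2, conj y.1 * y.2 - y.1)
def b0i (q : ℂ × ℂ) : ℂ × ℂ := (-(q.2 + q.1 * conj q.2) / (1 - (‖q.1‖ : ℂ) ^ 2), q.1)

/-- F is C^n and C^1-close to G on the closed ball of radius R -/
def Near (n : ℕ) (δ R : ℝ) (F G : ℂ × ℂ → ℂ × ℂ) : Prop :=
  ∀ y ∈ closedBall (0 : ℂ × ℂ) R, ContDiffAt ℝ n F y ∧ ‖F y - G y‖ ≤ δ ∧
    ‖fderiv ℝ F y - fderiv ℝ G y‖ ≤ δ

/-- the twistor package of an almost flat connection -/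
structure Pkg (κ : ℂ → Co) (δ : ℝ) where
  Φ : ℝ × St → St
  flow : IsFlow κ Φ
  close : ∀ z θ t, ‖z‖ ≤ 10 → |t| ≤ 10 →
    ‖(Φ (t, z, θ, 0)).1 - (z + t * ce θ)‖ ≤ δ ∧ |(Φ (t, z, θ, 0)).2.1 - θ| ≤ δ
  β : ℂ × ℂ → ℂ × ℂ
  Ψ : ℂ × ℂ → ℂ × ℂ
  Θ : ℂ × ℂ → ℂ × ℂ
  Θ' : ℂ × ℂ → ℂ × ℂ
  nβ : Near 2 δ 5 β b0
  nΨ : Near 1 δ 40 Ψ id
  nΘ : Near 1 δ 5 Θ id
  nΘ' : Near 1 δ 5 Θ' id
  sol : ∀ y : ℂ × ℂ, ‖y.1‖ ≤ 5 → ‖y.2‖ ≤ 1 →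
    Sol (κ y.1) (fun y => (β y).1) y 0 ∧ Sol (κ y.1) (fun y => (β y).2) y 0
  linv : ∀ y ∈ closedBall (0 : ℂ × ℂ) 5, Θ (Θ' y) = y
  rinv : ∀ y ∈ closedBall (0 : ℂ × ℂ) 5, Θ' (Θ y) = y
  key : ∀ y ∈ closedBall (0 : ℂ × ℂ) 5, Ψ (β y) = b0 (Θ' y)
  sgn : ∀ y ∈ closedBall (0 : ℂ × ℂ) 5,
    (‖(Θ' y).2‖ < 1 ↔ ‖y.2‖ < 1) ∧ (‖(Θ' y).2‖ = 1 ↔ ‖y.2‖ = 1)
  N : ℂ × ℂ → ℂ
  cN : ContDiff ℝ 5 N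
  solN : ∀ y : ℂ × ℂ, ‖y.1‖ ≤ 10 → ‖y.2‖ ≤ 1 →
    N y ≠ 0 ∧ Sol (κ y.1) N y (rk (κ y.1) y.2 * N y)
  solve : ∀ F : ℂ × ℂ → ℂ, ContDiff ℝ 5 F →
    (∀ z, ‖z‖ ≤ 10 → DiffContOnCl ℂ (fun w => F (z, w)) (ball 0 1)) →
    ∃ W : ℂ × ℂ → ℂ, ContDiff ℝ 1 W ∧ ∀ y : ℂ × ℂ, ‖y.1‖ ≤ 10 → ‖y.2‖ ≤ 1 →
      Sol (κ y.1) W y (F y + rk (κ y.1) y.2 * W y)

/-- an invariant function B that is fibrewise holomorphic over the open set E -/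
structure Loc {κ : ℂ → Co} {δ : ℝ} (P : Pkg κ δ) where
  E : Set ℂ
  U : ℂ × ℂ → ℂ
  B : ℂ × ℝ → ℂ
  opn : IsOpen E
  cU : ∀ y : ℂ × ℂ, ‖y.1‖ ≤ 5 → ‖y.2‖ ≤ 1 → ContDiffAt ℝ 1 U y
  solU : ∀ y : ℂ × ℂ, y.1 ∈ E → ‖y.1‖ ≤ 5 → ‖y.2‖ ≤ 1 → Sol (κ y.1) U y 0
  cB : ∀ p : ℂ × ℝ, ‖p.1‖ ≤ 5 → ContDiffAt ℝ 1 B p
  inv : ∀ p : ℂ × ℝ, ‖p.1‖ ≤ 5 → Xd κ 0 B p = 0
  per : ∀ z θ, B (z, θ + π) = B (z, θ)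
  ext : ∀ z ∈ E, ‖z‖ ≤ 5 → ∀ θ, B (z, θ) = U (z, ce (2 * θ))
  up : ∀ θ ∈ Icc 0 π, ∀ t ∈ Ioc (0 : ℝ) 3, (P.Φ (t, 0, θ, 0)).1 ∈ E
  left : ∀ t ∈ Ico (-3 : ℝ) 0, (P.Φ (t, 0, 0, 0)).1 ∈ E
  base : ∀ θ0 > 0, ∃ᶠ x in 𝓝 (0 : ℂ), ∀ θ ∈ Icc θ0 (π - θ0), ∀ t ∈ Icc (0 : ℝ) 3,
    (P.Φ (t, x, θ, 0)).1 ∈ E

/-- defining functions of the flat edge -/
def pi0 (q : ℂ × ℂ) : ℝ × ℝ := ((1 - ‖q.1‖ ^ 2) / 4, (q.2 + q.1 * conj q.2).re / 4)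

/-- left or right cone -/
def LR (n : ℝ × ℝ) : Prop := |n.2 - 2 * n.1| ≤ n.1 / 2 ∨ |n.2 + 2 * n.1| ≤ n.1 / 2

def iot (a : ℝ × ℝ) : ℂ × ℂ := (a.2 * I, a.1)

def wedge3 (D1 D2 D3 : ℂ × ℂ →L[ℝ] ℂ) (u v w : ℂ × ℂ) : ℂ :=
  D1 u * (D2 v * D3 w - D2 w * D3 v) - D1 v * (D2 u * D3 w - D2 w * D3 u) +
    D1 w * (D2 u * D3 v - D2 v * D3 u)

/-- an admissible deformation of the surface of integration -/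
def Step (Z : ℂ × ℂ → ℂ × ℂ) (U : ℂ × ℂ → ℂ) (R : Set (ℂ × ℂ)) (c : ℂ × ℂ) (s L : ℝ)
    (m m' : ℂ × ℂ) : Prop :=
  ∃ μ : ℝ → ℂ × ℂ, ContDiff ℝ 2 μ ∧ μ 0 = m ∧ μ 1 = m' ∧ ∀ l ∈ Icc (0 : ℝ) 1,
    ‖deriv μ l‖ ≤ L ∧ ‖Z (μ l) - c‖ ≤ s / 100 ∧ ∀ a : ℝ × ℝ, ‖a‖ ≤ s → μ l + iot a ∈ R ∧
      wedge3 (fderiv ℝ U (μ l + iot a)) (fderiv ℝ (fun y => (Z y).1) (μ l + iot a))
        (fderiv ℝ (fun y => (Z y).2) (μ l + iot a)) (deriv μ l) (iot (1, 0)) (iot (0, 1)) = 0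

/-- symmetric tensor fields of order n - 1 with C^r coefficients, as polynomials in v -/
inductive Ten (r : ℕ∞) : ℕ → (ℂ → ℂ → ℝ) → Prop
  | zero (n) : Ten r n fun _ _ => 0
  | const {c : ℂ → ℝ} : ContDiff ℝ r c → Ten r 1 fun x _ => c x
  | re {n P} : Ten r n P → Ten r (n + 1) fun x v => v.re * P x v
  | im {n P} : Ten r n P → Ten r (n + 1) fun x v => v.im * P x v
  | add {n P Q} : Ten r n P → Ten r n Q → Ten r n fun x v => P x v + Q x v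
  | smul {n P} {c : ℂ → ℝ} : ContDiff ℝ r c → Ten r n P → Ten r n fun x v => c x * P x v

/-- global data: domain, convex function, connection, flow -/
structure Glob where
  ρ : ℂ → ℝ
  φ : ℂ → ℝ
  Γ : ℂ → ℂ →L[ℝ] ℂ →L[ℝ] ℂ
  κ : ℂ → Co
  Φ : ℝ × St → St
  cρ : ContDiff ℝ ∞ ρ
  cφ : ContDiff ℝ ∞ φ
  cΓ : ContDiff ℝ ∞ Γ
  supp : HasCompactSupport κ
  flow : IsFlow κ Φ
  eqG : ∀ z θ, Gk (κ z) θ = Γ z (ce θ) (ce θ)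
  cpt : IsCompact {x | ρ x ≤ 0}
  dρ : ∀ x, ρ x = 0 → fderiv ℝ ρ x ≠ 0
  bd : ∀ x θ, ρ x = 0 → fderiv ℝ ρ x (ce θ) = 0 → 0 < hessK κ ρ x θ
  conv : ∀ x θ, ρ x ≤ 0 → 0 < hessK κ φ x θ

/-- the integrand of the ray transform of a tensor of order m along a flow line -/
def Glob.w (G : Glob) (m : ℕ) (P : ℂ → ℂ → ℝ) (x : St) (t : ℝ) : ℝ :=
  P (G.Φ (t, x)).1 (ce (G.Φ (t, x)).2.1) * Real.exp (((m : ℝ) - 1) * (G.Φ (t, x)).2.2)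

/-- the ray transform vanishes -/
def Glob.Van (G : Glob) (m : ℕ) (P : ℂ → ℂ → ℝ) : Prop :=
  ∀ (x : St) (a b : ℝ), a < b → G.ρ (G.Φ (a, x)).1 = 0 → G.ρ (G.Φ (b, x)).1 = 0 →
    (∀ t ∈ Ioo a b, G.ρ (G.Φ (t, x)).1 < 0) → ∫ t in a..b, G.w m P x t = 0

end

end Pool.Agent.Lib.MP_0cc5e8_gt
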