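import Pool.Agent.Lib.MP_0cc5e8_gt.Base

/-! Parametric integrals, division, inverse functions. -/

namespace Pool.Agent.Lib.MP_0cc5e8_gt

open Complex Set Filter Topology Metric
open scoped ComplexConjugate ContDiff Real

variable {Y V : Type} [NormedAddCommGroup Y] [NormedSpace ℝ Y] [FiniteDimensional ℝ Y]
  [NormedAddCommGroup V] [NormedSpace ℝ V] [CompleteSpace V]

namespace Calc

open MeasureTheory ContinuousLinearMap

variable {F : Y × ℝ → V} {a b : ℝ} {y : Y}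

omit [CompleteSpace V] [FiniteDimensional ℝ Y] in
theorem tube {n : ℕ} (hF : ∀ t ∈ uIcc a b, ContDiffAt ℝ n F (y, t)) :
    ∀ᶠ x in 𝓝 y, ∀ t ∈ uIcc a b, ContDiffAt ℝ n F (x, t) :=
  isCompact_uIcc.eventually_forall_of_forall_eventually fun t ht => (hF t ht).eventually (by simp)

omit [CompleteSpace V] in
theorem bdd (hF : ∀ t ∈ uIcc a b, ContDiffAt ℝ 0 F (y, t)) :
    ∃ M, ∀ᶠ x in 𝓝 y, ContinuousOn (fun t => F (x, t)) (uIcc a b) ∧
      ∀ t ∈ uIcc a b, ‖F (x, t)‖ ≤ M := by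
  have := FiniteDimensional.proper_real Y
  obtain ⟨K, K1, K2, K3⟩ := local_compact_nhds (tube (n := 0) hF)
  obtain ⟨M, hM⟩ := (K3.prod (isCompact_uIcc (a := a) (b := b))).exists_bound_of_continuousOn
    (f := F) fun p hp => (K2 hp.1 p.2 hp.2).continuousAt.continuousWithinAt
  refine ⟨M, mem_of_superset K1 fun x hx => ⟨fun t ht => ?_, fun t ht => hM _ ⟨hx, ht⟩⟩⟩
  exact ((K2 hx t ht).continuousAt.comp_of_eq (f := fun t => (x, t)) (by fun_prop)
    rfl).continuousWithinAt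

omit [CompleteSpace V] in
theorem cont (hF : ∀ t ∈ uIcc a b, ContDiffAt ℝ 0 F (y, t)) :
    ContinuousAt (fun y => ∫ t in a..b, F (y, t)) y := by
  obtain ⟨M, hM⟩ := bdd hF
  exact intervalIntegral.continuousAt_of_dominated_interval (bound := fun _ => M)
    (hM.mono fun x h => (h.1.mono uIoc_subset_uIcc).aestronglyMeasurable measurableSet_uIoc)
    (hM.mono fun x h => .of_forall fun t ht => h.2 t (uIoc_subset_uIcc ht))
    intervalIntegrable_const (.of_forall fun t ht =>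
      (hF t (uIoc_subset_uIcc ht)).continuousAt.comp_of_eq (f := fun x => (x, t)) (by fun_prop) rfl)

/-- the partial derivative in the parameter -/
noncomputable def pd (F : Y × ℝ → V) (p : Y × ℝ) : Y →L[ℝ] V := (fderiv ℝ F p).comp (inl ℝ Y ℝ)

omit [CompleteSpace V] [FiniteDimensional ℝ Y] in
theorem pd_cd {n : ℕ} {p : Y × ℝ} (h : ContDiffAt ℝ (n + 1) F p) : ContDiffAt ℝ n (pd F) p :=
  (h.fderiv_right le_rfl).clm_comp contDiffAt_const

omit [CompleteSpace V] in
theorem hasF (hF : ∀ t ∈ uIcc a b, ContDiffAt ℝ 1 F (y, t)) :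
    HasFDerivAt (fun y => ∫ t in a..b, F (y, t)) (∫ t in a..b, pd F (y, t)) y := by
  obtain ⟨_, h0⟩ := bdd fun t ht => (hF t ht).of_le zero_le_one
  obtain ⟨M, hM⟩ := bdd (F := pd F) fun t ht => pd_cd (n := 0) (by simpa using hF t ht)
  refine intervalIntegral.hasFDerivAt_integral_of_dominated_of_fderiv_le (bound := fun _ => M)
    (F' := fun x t => pd F (x, t)) (hM.and (tube (n := 1) hF))
    (h0.mono fun x h => (h.1.mono uIoc_subset_uIcc).aestronglyMeasurable measurableSet_uIoc)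
    h0.self_of_nhds.1.intervalIntegrable
    ((hM.self_of_nhds.1.mono uIoc_subset_uIcc).aestronglyMeasurable measurableSet_uIoc)
    (.of_forall fun t ht x hx => hx.1.2 t (uIoc_subset_uIcc ht)) intervalIntegrable_const
    (.of_forall fun t ht x hx => ?_)
  exact ((hx.2 t (uIoc_subset_uIcc ht)).differentiableAt (by simp)).hasFDerivAt.comp x
    (hasFDerivAt_prodMk_left x t)

end Calc

open Calc

theorem contDiffAt_int {n : ℕ} {F : Y × ℝ → V} {a b : ℝ} {y : Y}
    (hF : ∀ t ∈ uIcc a b, ContDiffAt ℝ n F (y, t)) :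
    ContDiffAt ℝ n (fun y => ∫ t in a..b, F (y, t)) y := by
  induction n generalizing V with
  | zero =>
    exact contDiffAt_zero.2 ⟨_, tube hF, fun x hx => (cont hx).continuousWithinAt⟩
  | succ n ih =>
    push_cast at hF ⊢
    exact contDiffAt_succ_iff_hasFDerivAt.2 ⟨fun y => ∫ t in a..b, pd F (y, t),
      ⟨_, tube (n := 1) fun t ht => (hF t ht).of_le (by simp), fun x hx => hasF hx⟩,
      ih fun t ht => pd_cd (hF t ht)⟩

theorem contDiff_int {n : ℕ∞} {F : Y × ℝ → V} (hF : ContDiff ℝ n F) (a b : ℝ) :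
    ContDiff ℝ n fun y => ∫ t in a..b, F (y, t) :=
  contDiff_iff_forall_nat_le.2 fun _ hm => contDiff_iff_contDiffAt.2 fun _ =>
    contDiffAt_int fun _ _ => (contDiff_iff_forall_nat_le.1 hF _ hm).contDiffAt

theorem fderiv_int {F : Y × ℝ → V} (hF : ContDiff ℝ 1 F) (a b : ℝ) (y d : Y) :
    fderiv ℝ (fun y => ∫ t in a..b, F (y, t)) y d = ∫ t in a..b, fderiv ℝ F (y, t) (d, 0) := by
  obtain ⟨M, hM⟩ := bdd (F := pd F) (y := y) (a := a) (b := b) fun t _ =>
    pd_cd (n := 0) (by simpa using hF.contDiffAt)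
  rw [(hasF fun _ _ => hF.contDiffAt).fderiv,
    ContinuousLinearMap.intervalIntegral_apply hM.self_of_nhds.1.intervalIntegrable]
  rfl

theorem iter_int_le {n : ℕ} {F : Y × ℝ → V} (hF : ContDiff ℝ n F) (a b : ℝ) (y : Y) {C : ℝ}
    (h : ∀ t ∈ uIcc a b, ‖iteratedFDeriv ℝ n F (y, t)‖ ≤ C) :
    ‖iteratedFDeriv ℝ n (fun y => ∫ t in a..b, F (y, t)) y‖ ≤ |b - a| * C := by
  induction n generalizing V with
  | zero =>
    simp only [norm_iteratedFDeriv_zero] at h ⊢
    rw [mul_comm]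
    exact intervalIntegral.norm_integral_le_of_norm_le_const fun t ht => h t (uIoc_subset_uIcc ht)
  | succ n ih =>
    push_cast at hF
    rw [← norm_iteratedFDeriv_fderiv, show fderiv ℝ (fun y => ∫ t in a..b, F (y, t)) =
      fun y => ∫ t in a..b, pd F (y, t) from funext fun x =>
        (hasF fun _ _ => hF.contDiffAt.of_le (by simp)).fderiv]
    refine ih (contDiff_iff_contDiffAt.2 fun _ => pd_cd hF.contDiffAt) fun t ht => ?_
    let L := (ContinuousLinearMap.compL ℝ Y (Y × ℝ) V).flip (ContinuousLinearMap.inl ℝ Y ℝ)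
    have hL : ‖L‖ ≤ 1 := L.opNorm_le_bound zero_le_one fun A => by
      rw [one_mul]
      exact (A.opNorm_comp_le _).trans (mul_le_of_le_one_right (norm_nonneg _)
        (ContinuousLinearMap.norm_inl_le_one ..))
    refine (L.norm_iteratedFDeriv_comp_left (hF.contDiffAt.fderiv_right le_rfl) le_rfl).trans ?_
    rw [norm_iteratedFDeriv_fderiv]
    exact (mul_le_of_le_one_left (norm_nonneg _) hL).trans (h t ht)

omit [FiniteDimensional ℝ Y] in
theorem Calc.ftc {H : Y → V} {x v : Y} {r : ℝ}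
    (h : ∀ s ∈ uIcc (0 : ℝ) 1, ContDiffAt ℝ 1 H (x + (s * r) • v)) :
    H (x + r • v) = H x + r • ∫ s in (0 : ℝ)..1, fderiv ℝ H (x + (s * r) • v) v := by
  have d : ∀ s : ℝ, HasDerivAt (fun s : ℝ => x + (s * r) • v) (r • v) s := fun s => by
    simpa using (((hasDerivAt_id s).mul_const r).smul_const v).const_add x
  have := intervalIntegral.integral_eq_sub_of_hasDerivAt (f := fun s : ℝ => H (x + (s * r) • v))
    (f' := fun s => r • fderiv ℝ H (x + (s * r) • v) v) (a := 0) (b := 1) (fun s hs => map_smul (fderiv ℝ H (x + (s * r) • v)) r v ▸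
      ((h s hs).differentiableAt one_ne_zero).hasFDerivAt.comp_hasDerivAt s (d s))
    (ContinuousOn.intervalIntegrable fun s hs => (((((h s hs).fderiv_right (m := 0)
      (by simp)).continuousAt.comp_of_eq (d s).continuousAt rfl).clm_apply
        continuousAt_const).const_smul r).continuousWithinAt)
  rw [← intervalIntegral.integral_smul, this]
  simp

theorem hadamard {n : ℕ∞} {F : Y × ℝ → V} (hF : ContDiff ℝ (n + 1) F) :
    ∃ G : Y × ℝ → V, ContDiff ℝ n G ∧ (∀ y t, F (y, t) = F (y, 0) + t • G (y, t)) ∧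
      ∀ y, G (y, 0) = fderiv ℝ F (y, 0) (0, 1) := by
  refine ⟨fun p => ∫ s in (0 : ℝ)..1, fderiv ℝ F ((p.1, 0) + (s * p.2) • (0, 1)) (0, 1),
    contDiff_int (F := fun q : (Y × ℝ) × ℝ =>
      fderiv ℝ F ((q.1.1, 0) + (q.2 * q.1.2) • (0, 1)) (0, 1))
      (((hF.fderiv_right le_rfl).comp (by fun_prop)).clm_apply contDiff_const) 0 1,
    fun y t => ?_, fun y => by simp⟩
  rw [← ftc fun _ _ => hF.contDiffAt.of_le (by simp)]
  simp

theorem Calc.quo {n : ℕ} {ρ : Y → ℝ} {F : Y → V} {x : Y} (hρ : ContDiffAt ℝ (n + 1) ρ x)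
    (hF : ContDiffAt ℝ (n + 1) F x) (h0 : ρ x = 0) (h1 : fderiv ℝ ρ x ≠ 0)
    (h : ∀ᶠ y in 𝓝 x, ρ y = 0 → F y = 0) :
    ∃ G : Y → V, ContDiffAt ℝ n G x ∧ ∀ᶠ y in 𝓝 x, F y = ρ y • G y := by
  have := FiniteDimensional.complete ℝ Y
  set L := fderiv ℝ ρ x
  obtain ⟨v, hv⟩ : ∃ v, L v = 1 := by
    obtain ⟨w, hw⟩ : ∃ w, L w ≠ 0 := by
      by_contra! e
      exact h1 (ContinuousLinearMap.ext e)
    exact ⟨(L w)⁻¹ • w, by simp [hw]⟩
  have n0 : ((n : WithTop ℕ∞) + 1) ≠ 0 := by simp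
  let ψ : Y → Y := fun y => y + (ρ y - L (y - x)) • v
  have c : ContDiffAt ℝ (n + 1) ψ x := by fun_prop
  have px : ψ x = x := by simp [ψ, h0]
  have Lψ : ∀ y, L (ψ y - x) = ρ y := fun y => by simp [ψ, add_sub_right_comm, hv]
  have d : HasFDerivAt ψ (ContinuousLinearEquiv.refl ℝ Y : Y →L[ℝ] Y) x := by
    refine ((hasFDerivAt_id x).add (((hρ.differentiableAt n0).hasFDerivAt.sub
      (L.hasFDerivAt.comp x ((hasFDerivAt_id x).sub_const x))).smul_const v)).congr_fderiv ?_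
    ext
    simp [L]
  have s := c.hasStrictFDerivAt' d n0
  set φ := c.localInverse d n0
  have cφ : ContDiffAt ℝ (n + 1) φ x := px ▸ c.to_localInverse d n0
  have φx : φ x = x := by simpa only [px] using c.localInverse_apply_image d n0
  have cH : ContDiffAt ℝ (n + 1) (F ∘ φ) x := ContDiffAt.comp x (φx.symm ▸ hF) cφ
  let P : Y × ℝ → Y := fun q => q.1 - L (q.1 - x) • v + (q.2 * L (q.1 - x)) • v
  have cP : ContDiff ℝ (n + 1) P := by fun_prop
  have Px : ∀ s, P (x, s) = x := fun s => by simp [P]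
  let G : Y → V := fun z => ∫ s in (0 : ℝ)..1, fderiv ℝ (F ∘ φ) (P (z, s)) v
  have cG : ContDiffAt ℝ n G x := contDiffAt_int (F := fun q => fderiv ℝ (F ∘ φ) (P q) v)
    fun s _ => (ContDiffAt.comp _ ((Px s).symm ▸ cH.fderiv_right le_rfl)
      (cP.contDiffAt.of_le (by simp))).clm_apply contDiffAt_const
  have z0 : ∀ᶠ z in 𝓝 x, L (z - x) = 0 → (F ∘ φ) z = 0 := by
    filter_upwards [px ▸ s.eventually_right_inverse,
      cφ.continuousAt.eventually (φx.symm ▸ h)] with z e1 e2 e3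
    exact e2 (by rw [← Lψ, show ψ (φ z) = z from e1, e3])
  have e : ∀ᶠ z in 𝓝 x, (F ∘ φ) z = L (z - x) • G z := by
    have t1 : ∀ᶠ z in 𝓝 x, ∀ s ∈ uIcc (0 : ℝ) 1, ContDiffAt ℝ 1 (F ∘ φ) (P (z, s)) :=
      isCompact_uIcc.eventually_forall_of_forall_eventually fun s _ =>
        cP.continuous.continuousAt.eventually
          ((Px s).symm ▸ (cH.of_le (by simp)).eventually (by simp))
    have t2 : Tendsto (fun z => z - L (z - x) • v) (𝓝 x) (𝓝 x) :=
      Continuous.tendsto' (by fun_prop) _ _ (by simp)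
    filter_upwards [t1, t2.eventually z0] with z e1 e2
    have := ftc (x := z - L (z - x) • v) (r := L (z - x)) (v := v) e1
    rwa [sub_add_cancel, e2 (by simp [hv]), zero_add] at this
  refine ⟨G ∘ ψ, ContDiffAt.comp x (px.symm ▸ cG) (c.of_le (by simp)), ?_⟩
  filter_upwards [s.eventually_left_inverse,
    (c.continuousAt.tendsto.mono_right (congrArg 𝓝 px).le).eventually e] with y e1 e2
  rw [← Lψ, Function.comp, ← e2]
  exact congrArg F e1.symm

/-- one quotient Q works at every good point (take Q x = F x / ρ x off the zero set and the limit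
on it) -/
theorem exists_quo (ρ : Y → ℝ) (F : Y → V) : ∃ Q : Y → V, ∀ (n : ℕ) (x : Y),
    ContDiffAt ℝ (n + 1) ρ x → ContDiffAt ℝ (n + 1) F x → (ρ x = 0 → fderiv ℝ ρ x ≠ 0) →
    (∀ᶠ y in 𝓝 x, ρ y = 0 → F y = 0) →
    ContDiffAt ℝ n Q x ∧ ∀ᶠ y in 𝓝 x, F y = ρ y • Q y := by
  classical
  refine ⟨fun x => if ρ x = 0 then limUnder (𝓝[{y | ρ y ≠ 0}] x) (fun y => (ρ y)⁻¹ • F y)
    else (ρ x)⁻¹ • F x, fun n x hρ hF h1 h => ?_⟩
  by_cases h0 : ρ x = 0
  · obtain ⟨G, cG, e⟩ := quo hρ hF h0 (h1 h0) h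
    have q : ∀ᶠ y in 𝓝 x, (if ρ y = 0 then limUnder (𝓝[{y | ρ y ≠ 0}] y) (fun y => (ρ y)⁻¹ • F y)
        else (ρ y)⁻¹ • F y) = G y := by
      filter_upwards [e.eventually_nhds, cG.eventually (by simp), (hρ.fderiv_right (m := 0)
        (by simp)).continuousAt.eventually_ne (h1 h0)] with y e1 e2 e3
      split_ifs with h2
      · have : (𝓝[{y | ρ y ≠ 0}] y).NeBot := by
          refine ⟨fun b => e3 ?_⟩
          rw [nhdsWithin, inf_principal_eq_bot] at b
          rw [show fderiv ℝ ρ y = fderiv ℝ (fun _ => (0 : ℝ)) y from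
            EventuallyEq.fderiv_eq (mem_of_superset b fun z hz => not_not.1 hz)]
          simp
        refine Tendsto.limUnder_eq (e2.continuousAt.continuousWithinAt.tendsto.congr' ?_)
        filter_upwards [self_mem_nhdsWithin, e1.filter_mono nhdsWithin_le_nhds] with z h3 h4
        rw [h4, inv_smul_smul₀ h3]
      · rw [e1.self_of_nhds, inv_smul_smul₀ h2]
    exact ⟨cG.congr_of_eventuallyEq q, (e.and q).mono fun y h =>
      h.1.trans (congrArg _ h.2.symm)⟩
  · have q := hρ.continuousAt.eventually_ne h0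
    exact ⟨(((hρ.inv h0).smul hF).of_le (by simp)).congr_of_eventuallyEq
      (q.mono fun y h => if_neg h), q.mono fun y h => by simp only [if_neg h, smul_inv_smul₀ h]⟩

theorem inv_near {n : ℕ} (hn : 1 ≤ n) {F : ℝ × Y → Y} {K : Set Y} (hK : IsCompact K)
    (hF : ∀ q ∈ K, ContDiffAt ℝ n F (0, q)) (h0 : ∀ᶠ q in 𝓝ˢ K, F (0, q) = q) :
    ∃ G : ℝ × Y → Y, (∀ᶠ q in 𝓝ˢ K, G (0, q) = q) ∧ ∀ q ∈ K, ∀ᶠ p in 𝓝 ((0 : ℝ), q),
      ContDiffAt ℝ n G p ∧ G (p.1, F p) = p.2 ∧ F (p.1, G p) = p.2 := by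
  have := FiniteDimensional.complete ℝ Y
  have n0 : (n : WithTop ℕ∞) ≠ 0 := by simpa using Nat.one_le_iff_ne_zero.1 hn
  let H : ℝ × Y → ℝ × Y := fun p => (p.1, F p)
  have c : ∀ q ∈ K, ContDiffAt ℝ n H (0, q) := fun q hq => contDiffAt_fst.prodMk (hF q hq)
  have hH : ∀ q ∈ K, H (0, q) = (0, q) := fun q hq => congrArg _ (h0.self_of_nhdsSet q hq)
  have d : ∀ q ∈ K, ∃ A : (ℝ × Y) ≃L[ℝ] ℝ × Y, HasFDerivAt H (A : _ →L[ℝ] _) (0, q) := by
    intro q hq
    have d1 := ((hF q hq).differentiableAt n0).hasFDerivAt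
    have d2 := (d1.comp q (hasFDerivAt_prodMk_right (0 : ℝ) q)).unique
      ((hasFDerivAt_id q).congr_of_eventuallyEq (h0.filter_mono (nhds_le_nhdsSet hq)))
    have d3 := (hasFDerivAt_fst (𝕜 := ℝ) (p := ((0 : ℝ), q))).prodMk d1
    have i : Function.Injective ((ContinuousLinearMap.fst ℝ ℝ Y).prod (fderiv ℝ F (0, q))) :=
      (injective_iff_map_eq_zero _).2 fun p hp => by
        have h1 : p.1 = 0 := congrArg Prod.fst hp
        have h2 : fderiv ℝ F (0, q) p = 0 := congrArg Prod.snd hp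
        have h3 : fderiv ℝ F (0, q) (0, p.2) = p.2 := DFunLike.congr_fun d2 p.2
        rw [show (0, p.2) = p from Prod.ext h1.symm rfl, h2] at h3
        exact Prod.ext h1 h3.symm
    exact ⟨(LinearEquiv.ofInjectiveEndo _ i).toContinuousLinearEquiv, d3⟩
  obtain ⟨O, O1, O2, O3⟩ := InjOn.exists_isOpen_superset (f := H) (s := Prod.mk 0 '' K)
    (by rintro _ ⟨p, hp, rfl⟩ _ ⟨q, hq, rfl⟩ e; rwa [hH p hp, hH q hq] at e)
    (hK.image (by fun_prop)) (by rintro _ ⟨q, hq, rfl⟩; exact (c q hq).continuousAt) (by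
      rintro _ ⟨q, hq, rfl⟩
      obtain ⟨A, hA⟩ := d q hq
      exact ⟨_, (OpenPartialHomeomorph.open_source _).mem_nhds
        ((c q hq).mem_toOpenPartialHomeomorph_source hA n0), OpenPartialHomeomorph.injOn _⟩)
  have li : ∀ p ∈ O, Function.invFunOn H O (H p) = p := fun p hp => O3.leftInvOn_invFunOn hp
  refine ⟨fun p => (Function.invFunOn H O p).2, ?_, fun q hq => ?_⟩
  · filter_upwards [h0, (O1.preimage (show Continuous (Prod.mk (0 : ℝ)) by
      fun_prop)).mem_nhdsSet.2 (image_subset_iff.1 O2)] with q e1 e2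
    have := li _ e2
    simp only [H, e1] at this
    rw [this]
  · obtain ⟨A, hA⟩ := d q hq
    have s := (c q hq).hasStrictFDerivAt' hA n0
    have m := O1.mem_nhds (O2 ⟨q, hq, rfl⟩)
    have u := s.localInverse_unique (mem_of_superset m li)
    have r := s.eventually_right_inverse
    have k := (c q hq).to_localInverse hA n0
    rw [hH q hq] at u r k
    filter_upwards [m, u, r, (k.congr_of_eventuallyEq u).snd.eventually (by simp)]
      with p e1 e2 e3 e4
    rw [← e2] at e3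
    refine ⟨e4, congrArg Prod.snd (li p e1), ?_⟩
    obtain ⟨e5, e6⟩ := Prod.ext_iff.1 e3
    rw [← show (Function.invFunOn H O p).1 = p.1 from e5]
    exact e6

theorem near_of {n : ℕ} (hn : 1 ≤ n) {F : ℝ × ℂ × ℂ → ℂ × ℂ} {G : ℂ × ℂ → ℂ × ℂ} {R δ : ℝ}
    (hF : ∀ q ∈ closedBall (0 : ℂ × ℂ) R, ContDiffAt ℝ n F (0, q))
    (h0 : ∀ᶠ q in 𝓝ˢ (closedBall (0 : ℂ × ℂ) R), F (0, q) = G q) (hδ : 0 < δ) :
    ∀ᶠ e in 𝓝 (0 : ℝ), Near n δ R (fun q => F (e, q)) G := by
  have n0 : (n : WithTop ℕ∞) ≠ 0 := by simpa using Nat.one_le_iff_ne_zero.1 hn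
  refine (isCompact_closedBall _ R).eventually_forall_of_forall_eventually fun q hq => ?_
  have c := hF q hq
  have z : ContinuousAt (fun p : ℝ × ℂ × ℂ => ((0 : ℝ), p.2)) (0, q) := by fun_prop
  have c1 := (c.fderiv_right (m := 0) (by simpa using hn)).continuousAt
  have c2 := (c.continuousAt.sub (c.continuousAt.comp_of_eq z rfl)).norm
  have c3 := ((c1.sub (c1.comp_of_eq z rfl)).clm_comp
    (continuousAt_const (y := ContinuousLinearMap.inr ℝ ℝ (ℂ × ℂ)))).norm
  have d : ∀ p : ℝ × ℂ × ℂ, ContDiffAt ℝ n F p → fderiv ℝ (fun q => F (p.1, q)) p.2 =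
      (fderiv ℝ F p).comp (ContinuousLinearMap.inr ℝ ℝ (ℂ × ℂ)) := fun p h =>
    ((h.differentiableAt n0).hasFDerivAt.comp p.2 (hasFDerivAt_prodMk_right p.1 p.2)).fderiv
  filter_upwards [c.eventually (by simp), z.eventually (c.eventually (by simp)),
    c2.eventually_lt_const (show _ < δ by simpa using hδ),
    c3.eventually_lt_const (show _ < δ by simpa using hδ), continuousAt_snd.eventually
      (h0.filter_mono (nhds_le_nhdsSet hq)).eventually_nhds] with p e1 e2 e3 e4 e5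
  refine ⟨e1.comp p.2 (f := fun q => (p.1, q)) (by fun_prop), ?_, ?_⟩
  · rw [← e5.self_of_nhds]
    exact e3.le
  · rw [← EventuallyEq.fderiv_eq e5, d p e1, d _ e2, ← ContinuousLinearMap.sub_comp]
    exact e4.le

end Pool.Agent.Lib.MP_0cc5e8_gt
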