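import Pool.Agent.Lib.MP_0cc5e8_gt.Flow

/-! Cauchy integrals. -/

namespace Pool.Agent.Lib.MP_0cc5e8_gt

open Complex Set Filter Topology Metric
open scoped ComplexConjugate ContDiff Real

variable {Y V : Type} [NormedAddCommGroup Y] [NormedSpace ℝ Y] [FiniteDimensional ℝ Y]
  [NormedAddCommGroup V] [NormedSpace ℝ V] [CompleteSpace V]

namespace Cau

noncomputable section

/-- the exponential function, cut off in a right half plane -/
def gg (ζ : ℂ) : ℂ := cexp ζ * Real.smoothTransition (1 - ζ.re)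

theorem gg_cd : ContDiff ℝ ∞ gg :=
  contDiff_exp.mul (ofRealCLM.contDiff.comp (Real.smoothTransition.contDiff.comp
    (contDiff_const.sub reCLM.contDiff)))

theorem shift {f : ℂ → ℂ} (hf : ContDiff ℝ ∞ f) (j : ℕ) {a c : ℂ} (h : ∀ x, f (a + x) = c * f x)
    (b : ℂ) : ‖iteratedFDeriv ℝ j f (a + b)‖ ≤ ‖c‖ * ‖iteratedFDeriv ℝ j f b‖ := by
  rw [← iteratedFDeriv_comp_add_left, funext h]
  exact (congrArg norm (iteratedFDeriv_const_smul_apply' (a := c)
    (hf.contDiffAt.of_le (mod_cast le_top)))).trans_le (ContinuousMultilinearMap.opNorm_smul_le _ _)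

theorem gg_bd (j : ℕ) : ∃ C, ∀ ζ, ‖iteratedFDeriv ℝ j gg ζ‖ ≤ C := by
  obtain ⟨C, hC⟩ := (isCompact_Icc (a := (0 : ℝ)) (b := 1)).exists_bound_of_continuousOn
    (f := fun s : ℝ => iteratedFDeriv ℝ j gg s)
    ((gg_cd.continuous_iteratedFDeriv (mod_cast le_top)).comp continuous_ofReal).continuousOn
  refine ⟨max C ‖iteratedFDeriv ℝ j cexp 0‖, fun ζ => ?_⟩
  rcases lt_or_ge ζ.re 0 with h | h
  · have e : gg =ᶠ[𝓝 ζ] cexp := by
      filter_upwards [(isOpen_lt continuous_re continuous_const).mem_nhds h] with x hx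
      rw [gg, Real.smoothTransition.one_of_one_le (by linarith), ofReal_one, mul_one]
    rw [(e.iteratedFDeriv ℝ j).eq_of_nhds, ← add_zero ζ]
    refine (shift contDiff_exp j (exp_add ζ) 0).trans (le_max_of_le_right ?_)
    exact mul_le_of_le_one_left (norm_nonneg _) (by rw [norm_exp]; exact Real.exp_le_one_iff.2 h.le)
  rcases lt_or_ge 1 ζ.re with h' | h'
  · have e : gg =ᶠ[𝓝 ζ] fun _ => 0 := by
      filter_upwards [(isOpen_lt continuous_const continuous_re).mem_nhds h'] with x hx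
      rw [gg, Real.smoothTransition.zero_of_nonpos (by linarith), ofReal_zero, mul_zero]
    rw [(e.iteratedFDeriv ℝ j).eq_of_nhds, iteratedFDeriv_fun_zero]
    exact norm_zero.trans_le (le_max_of_le_right (norm_nonneg _))
  · rw [← re_add_im ζ, add_comm]
    refine (shift gg_cd j (c := cexp (ζ.im * I)) (fun x => ?_) _).trans (le_max_of_le_left ?_)
    · simp [gg, exp_add, mul_assoc]
    · rw [norm_exp_ofReal_mul_I, one_mul]
      exact hC _ ⟨h, h'⟩

theorem sum_two : Summable fun k : ℕ => ((k + 1 : ℝ) ^ 2)⁻¹ := by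
  exact_mod_cast (summable_nat_add_iff 1).2 (Real.summable_nat_pow_inv.2 one_lt_two)

theorem kh_cd (r : ℕ) :
    ContDiff ℝ r fun ζ : ℂ => ∑' k : ℕ, ((k + 1 : ℝ) ^ (r + 2))⁻¹ • gg ((k + 1 : ℝ) • ζ) := by
  choose C hC using gg_bd
  have c : ∀ k : ℕ, ContDiff ℝ ∞ fun ζ : ℂ => gg ((k + 1 : ℝ) • ζ) := fun k =>
    gg_cd.comp (contDiff_const_smul _)
  refine contDiff_tsum (N := r) (v := fun j (k : ℕ) => C j * ((k + 1 : ℝ) ^ 2)⁻¹)
    (fun k => ((c k).of_le (mod_cast le_top)).const_smul _) (fun j _ => sum_two.mul_left _)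
    fun j k ζ hj => ?_
  have k0 : (0 : ℝ) < k + 1 := by positivity
  have k1 : (1 : ℝ) ≤ k + 1 := by simp
  have a := ((k + 1 : ℝ) • ContinuousLinearMap.id ℝ ℂ).iteratedFDeriv_comp_right gg_cd ζ (i := j)
    (mod_cast le_top)
  have b : ‖iteratedFDeriv ℝ j (fun ζ : ℂ => gg ((k + 1 : ℝ) • ζ)) ζ‖ ≤ C j * (k + 1 : ℝ) ^ r := by
    refine (congrArg norm a).trans_le ((ContinuousMultilinearMap.norm_compContinuousLinearMap_le
      _ _).trans (mul_le_mul (hC _ _) ?_ (by positivity) ((norm_nonneg _).trans (hC j 0))))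
    rw [Finset.prod_const, Finset.card_fin, norm_smul, ContinuousLinearMap.norm_id, mul_one,
      Real.norm_of_nonneg k0.le]
    exact pow_le_pow_right₀ k1 (mod_cast hj)
  rw [iteratedFDeriv_const_smul_apply' ((c k).contDiffAt.of_le (mod_cast le_top)), norm_smul,
    Real.norm_of_nonneg (by positivity)]
  refine (mul_le_mul_of_nonneg_left b (by positivity)).trans_eq ?_
  field_simp
  ring

/-- a polylogarithm, extended to the plane -/
def kk (M : ℕ) (l : ℂ) : ℂ := ∑' k : ℕ, ((k + 1 : ℝ) ^ M)⁻¹ •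
  (l ^ (k + 1) * Real.smoothTransition (1 - (k + 1) * Real.log ‖l‖))

theorem kk_in (M : ℕ) {l : ℂ} (h : ‖l‖ < 1) :
    kk M l = ∑' k : ℕ, ((k + 1 : ℝ) ^ M)⁻¹ • l ^ (k + 1) :=
  tsum_congr fun k => by
    rw [Real.smoothTransition.one_of_one_le, ofReal_one, mul_one]
    nlinarith [Real.log_nonpos (norm_nonneg l) h.le, k.cast_nonneg (α := ℝ)]

theorem kk_cd (r : ℕ) : ContDiff ℝ r (kk (r + 2)) := by
  refine contDiff_iff_contDiffAt.2 fun l => ?_
  rcases eq_or_ne l 0 with rfl | h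
  · have d : DifferentiableOn ℂ (fun l : ℂ => ∑' k : ℕ, ((k + 1 : ℝ) ^ (r + 2))⁻¹ • l ^ (k + 1))
        (ball 0 1) := by
      refine differentiableOn_tsum_of_summable_norm sum_two (fun k => by fun_prop) isOpen_ball
        fun k w hw => ?_
      rw [norm_smul, norm_pow, Real.norm_of_nonneg (by positivity)]
      refine (mul_le_of_le_one_right (by positivity)
        (pow_le_one₀ (norm_nonneg _) (mem_ball_zero_iff.1 hw).le)).trans ?_
      exact inv_anti₀ (by positivity) (pow_le_pow_right₀ (by simp) (by omega))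
    have m := ball_mem_nhds (0 : ℂ) one_pos
    refine ((d.analyticAt m).contDiffAt.restrict_scalars ℝ).congr_of_eventuallyEq ?_
    filter_upwards [m] with x hx using kk_in _ (mem_ball_zero_iff.1 hx)
  · have d : ContDiffAt ℝ r (fun x => log (x / l) + log l) l :=
      ((((contDiffAt_log (by simp [h])).comp l (contDiffAt_id.div_const l)).add
        contDiffAt_const).restrict_scalars ℝ :)
    refine ((kh_cd r).contDiffAt.comp l d).congr_of_eventuallyEq ?_
    filter_upwards [isOpen_ne.mem_nhds h] with x hx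
    have e : cexp (log (x / l) + log l) = x := by
      rw [exp_add, exp_log (div_ne_zero hx h), exp_log h, div_mul_cancel₀ _ h]
    rw [Function.comp_apply]
    generalize log (x / l) + log l = ζ at e
    refine tsum_congr fun k => congrArg (_ • ·) ?_
    rw [← e, gg, norm_exp, Real.log_exp, ← exp_nat_mul, smul_re, real_smul, smul_eq_mul]
    push_cast
    rfl

theorem ce_cd : ContDiff ℝ ∞ ce :=
  contDiff_exp.comp (ofRealCLM.contDiff.mul contDiff_const)

theorem ce_cont : Continuous ce := ce_cd.continuous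

theorem ce_norm (θ : ℝ) : ‖ce θ‖ = 1 := norm_exp_ofReal_mul_I θ

theorem ce_ne (θ : ℝ) : ce θ ≠ 0 := exp_ne_zero _

theorem ce_add (a b : ℝ) : ce (a + b) = ce a * ce b := by
  rw [ce, ce, ce, ← exp_add, ofReal_add, add_mul]

theorem ce_neg (a : ℝ) : ce (-a) = (ce a)⁻¹ := by rw [ce, ce, ← exp_neg, ofReal_neg, neg_mul]

theorem ce_two (a : ℝ) : ce (2 * a) = ce a ^ 2 := by rw [two_mul, ce_add, sq]

theorem ce_three (a : ℝ) : ce (3 * a) = ce a ^ 3 := by
  rw [show 3 * a = 2 * a + a by ring, ce_add, ce_two, ← pow_succ]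

theorem ce_per (a : ℝ) : ce (a + 2 * π) = ce a := by
  rw [ce, ofReal_add, add_mul, ofReal_mul, ofReal_ofNat, exp_periodic, ce]

theorem ce_conj (a : ℝ) : conj (ce a) = (ce a)⁻¹ := by
  rw [← ce_neg, ce, ce, ← exp_conj, map_mul, conj_ofReal, conj_I, ofReal_neg, mul_neg, neg_mul]

theorem ce_der (a : ℝ) : HasDerivAt ce (ce a * I) a := by
  have := ((hasDerivAt_id (a : ℂ)).mul_const I).cexp.comp_ofReal
  rw [one_mul] at this
  exact this

theorem ce_sub {w : ℂ} (hw : ‖w‖ < 1) (a : ℝ) : ce a - w ≠ 0 := fun h => by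
  rw [← sub_eq_zero.1 h, ce_norm] at hw
  exact lt_irrefl _ hw

omit [FiniteDimensional ℝ Y] in
theorem der_snd {U : Y × ℝ → ℂ} {y : Y} {θ : ℝ} (h : DifferentiableAt ℝ U (y, θ)) :
    HasDerivAt (fun t => U (y, t)) (fderiv ℝ U (y, θ) (0, 1)) θ :=
  h.hasFDerivAt.comp_hasDerivAt θ ((hasDerivAt_const θ y).prodMk (hasDerivAt_id θ))

omit [FiniteDimensional ℝ Y] in
theorem parts (r M : ℕ) {U : Y × ℝ → ℂ} (hU : ContDiff ℝ (r + M : ℕ) U)
    (hp : ∀ y θ, U (y, θ + 2 * π) = U (y, θ)) : ∃ U' : Y × ℝ → ℂ, ContDiff ℝ r U' ∧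
      (∀ y, (∀ θ, U (y, θ) = 0) → ∀ θ, U' (y, θ) = 0) ∧ ∀ y (k : ℕ),
        ∫ θ in (0 : ℝ)..2 * π, U (y, θ) * ce (-(2 * θ)) ^ (k + 1) =
          ((k + 1 : ℝ) ^ M)⁻¹ • ∫ θ in (0 : ℝ)..2 * π, U' (y, θ) * ce (-(2 * θ)) ^ (k + 1) := by
  induction M generalizing U with
  | zero => exact ⟨U, hU, fun _ h => h, fun y k => by simp⟩
  | succ M ih =>
    have d := fun y θ => der_snd (hU.differentiable (by simp) (y, θ))
    have c : ContDiff ℝ (r + M : ℕ) fun p => (2 * I)⁻¹ * fderiv ℝ U p (0, 1) :=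
      contDiff_const.mul ((hU.fderiv_right (by norm_cast)).clm_apply contDiff_const)
    obtain ⟨U', h1, h2, h3⟩ := ih c fun y θ => congrArg _ (((d y (θ + 2 * π)).comp_add_const θ
      _).unique (by simpa only [hp] using d y θ))
    refine ⟨U', h1, fun y hy => h2 y fun θ => ?_, fun y k => ?_⟩
    · rw [(d y θ).unique (by simpa only [hy] using hasDerivAt_const θ (0 : ℂ)), mul_zero]
    · have e : ∀ θ, HasDerivAt (fun θ => ce (-(2 * θ)) ^ (k + 1))
          (-(2 * I * (k + 1)) * ce (-(2 * θ)) ^ (k + 1)) θ := fun θ => by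
        refine (((ce_der _).scomp θ ((hasDerivAt_id θ).const_mul 2).neg).fun_pow
          (k + 1)).congr_deriv ?_
        simp
        ring
      have c0 : Continuous fun θ => U (y, θ) := hU.continuous.comp (by fun_prop)
      have c1 : Continuous fun θ => fderiv ℝ U (y, θ) (0, 1) :=
        ((hU.continuous_fderiv (by simp)).comp (by fun_prop)).clm_apply continuous_const
      have c2 : Continuous fun θ => ce (-(2 * θ)) ^ (k + 1) := (ce_cont.comp (by fun_prop)).pow _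
      have q := intervalIntegral.integral_mul_deriv_eq_deriv_mul (a := 0) (b := 2 * π)
        (fun θ _ => d y θ) (fun θ _ => e θ) (c1.intervalIntegrable _ _)
        ((continuous_const.mul c2).intervalIntegrable _ _)
      have z : U (y, 2 * π) * ce (-(2 * (2 * π))) ^ (k + 1) = U (y, 0) * ce (-(2 * 0)) ^ (k + 1) := by
        rw [ce_neg, ce_neg, ce_two (2 * π), ce_two 0, ← hp y 0, ← ce_per 0, zero_add]
      simp only [mul_left_comm (U _), intervalIntegral.integral_const_mul, z, sub_self] at q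
      have q' := h3 y k
      simp only [mul_assoc, intervalIntegral.integral_const_mul] at q'
      have k0 : (k + 1 : ℂ) ≠ 0 := by exact_mod_cast k.succ_ne_zero
      rw [pow_succ' (k + 1 : ℝ), mul_inv, mul_smul, ← q', real_smul]
      push_cast
      field_simp
      linear_combination -q

theorem hsum {u : ℝ → ℂ} (hu : Continuous u) {w : ℂ} (hw : ‖w‖ < 1) (M : ℕ) :
    HasSum (fun k : ℕ => w ^ (k + 1) * ((k + 1 : ℝ) ^ M)⁻¹ •
      ∫ θ in (0 : ℝ)..2 * π, u θ * ce (-(2 * θ)) ^ (k + 1))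
      (∫ θ in (0 : ℝ)..2 * π, u θ * kk M (w * ce (-(2 * θ)))) := by
  have s : Summable fun k : ℕ => ‖w‖ ^ (k + 1) :=
    (summable_nat_add_iff 1).2 (summable_geometric_of_lt_one (norm_nonneg w) hw)
  have n : ∀ θ, ‖w * ce θ‖ = ‖w‖ := fun θ => by rw [norm_mul, ce_norm, mul_one]
  have b : ∀ (k : ℕ) θ, ‖((k + 1 : ℝ) ^ M)⁻¹ • (w * ce θ) ^ (k + 1)‖ ≤ ‖w‖ ^ (k + 1) := fun k θ => by
    rw [norm_smul, norm_pow, n, Real.norm_of_nonneg (by positivity)]
    exact mul_le_of_le_one_left (by positivity) (inv_le_one_of_one_le₀ (one_le_pow₀ (by simp)))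
  have e : ∀ k : ℕ, w ^ (k + 1) * ((k + 1 : ℝ) ^ M)⁻¹ •
      ∫ θ in (0 : ℝ)..2 * π, u θ * ce (-(2 * θ)) ^ (k + 1) = ∫ θ in (0 : ℝ)..2 * π,
        u θ * ((k + 1 : ℝ) ^ M)⁻¹ • (w * ce (-(2 * θ))) ^ (k + 1) := fun k => by
    rw [← intervalIntegral.integral_smul, ← intervalIntegral.integral_const_mul]
    refine intervalIntegral.integral_congr fun θ _ => ?_
    simp only [real_smul, mul_pow]
    ring
  simp only [e]
  refine intervalIntegral.hasSum_integral_of_dominated_convergence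
    (fun k θ => ‖u θ‖ * ‖w‖ ^ (k + 1)) (fun k => Continuous.aestronglyMeasurable (by
      have := ce_cont; fun_prop))
    (fun k => .of_forall fun θ _ => norm_mul_le_of_le le_rfl (b k _))
    (.of_forall fun θ _ => s.mul_left _)
    (by simp only [tsum_mul_left]; exact (hu.norm.mul continuous_const).intervalIntegrable _ _)
    (.of_forall fun θ _ => ?_)
  rw [kk_in M ((n _).trans_lt hw)]
  exact (Summable.of_norm_bounded s fun k => b k _).hasSum.mul_left _

theorem kk_zero {w : ℂ} (hw : ‖w‖ < 1) (θ : ℝ) :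
    ce θ / (ce θ - w) = 1 + kk 0 (w * ce (-θ)) := by
  have n : ‖w * ce (-θ)‖ < 1 := by rwa [norm_mul, ce_norm, mul_one]
  have a := ce_sub hw θ
  have b := ce_ne θ
  rw [kk_in 0 n]
  simp only [pow_zero, inv_one, one_smul, pow_succ', tsum_mul_left, tsum_geometric_of_norm_lt_one n]
  rw [ce_neg, show 1 - w * (ce θ)⁻¹ = (ce θ - w) / ce θ by field_simp]
  field_simp
  ring

theorem ker_cont {w : ℂ} (hw : ‖w‖ < 1) : Continuous fun θ => ce (2 * θ) / (ce (2 * θ) - w) :=
  have := ce_cont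
  Continuous.div (by fun_prop) (by fun_prop) fun _ => ce_sub hw _

theorem mean {F : ℂ → ℂ} (hF : DiffContOnCl ℂ F (ball 0 1)) {w : ℂ} (hw : ‖w‖ < 1) :
    ∫ θ in (0 : ℝ)..2 * π, F (ce (2 * θ)) * (ce (2 * θ) / (ce (2 * θ) - w)) = 2 * π * F w := by
  have a := hF.circleIntegral_sub_inv_smul (mem_ball_zero_iff.2 hw)
  have c : Continuous fun θ => F (ce θ) * (ce θ / (ce θ - w)) :=
    (hF.continuousOn_ball.comp_continuous ce_cont fun θ => by simp [ce_norm]).mul
      (ce_cont.div (ce_cont.sub continuous_const) (ce_sub hw))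
  have b : ∫ θ in (0 : ℝ)..2 * π, F (ce θ) * (ce θ / (ce θ - w)) = 2 * π * F w := by
    refine mul_left_cancel₀ I_ne_zero ?_
    rw [← intervalIntegral.integral_const_mul]
    refine (intervalIntegral.integral_congr fun θ _ => ?_).trans (a.trans ?_)
    · simp only [deriv_circleMap, circleMap_zero, ofReal_one, one_mul, smul_eq_mul, ce]
      ring
    · rw [smul_eq_mul]
      ring
  have p : Function.Periodic (fun θ => F (ce θ) * (ce θ / (ce θ - w))) (2 * π) := fun θ => by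
    simp only [ce_per]
  have d := p.intervalIntegral_add_eq (2 * π) 0
  rw [intervalIntegral.integral_comp_mul_left (fun θ => F (ce θ) * (ce θ / (ce θ - w))) two_ne_zero,
    mul_zero, two_mul (2 * π), ← intervalIntegral.integral_add_adjacent_intervals
      (c.intervalIntegrable 0 (2 * π)) (c.intervalIntegrable _ _), d, zero_add, b, real_smul]
  push_cast
  ring

theorem der_w {u : ℝ → ℂ} (hu : Continuous u) {w : ℂ} (hw : ‖w‖ < 1) :
    HasDerivAt (fun w => ∫ θ in (0 : ℝ)..2 * π, u θ * (ce (2 * θ) / (ce (2 * θ) - w)))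
      (∫ θ in (0 : ℝ)..2 * π, u θ * (ce (2 * θ) / (ce (2 * θ) - w) ^ 2)) w := by
  obtain ⟨ε, hε, e⟩ : ∃ ε : ℝ, 0 < ε ∧ ‖w‖ + 2 * ε = 1 := ⟨(1 - ‖w‖) / 2, by linarith, by ring⟩
  have n : ∀ x ∈ ball w ε, ‖x‖ < 1 - ε := fun x hx => by
    linarith [norm_lt_of_mem_ball hx]
  have := ce_cont
  refine (intervalIntegral.hasDerivAt_integral_of_dominated_loc_of_deriv_le
    (F' := fun w θ => u θ * (ce (2 * θ) / (ce (2 * θ) - w) ^ 2)) (bound := fun θ => ‖u θ‖ * (1 / ε ^ 2))
    (ball_mem_nhds w hε) ?_ ((hu.mul (ker_cont hw)).intervalIntegrable _ _)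
    (hu.mul (Continuous.div (by fun_prop) (by fun_prop)
      fun _ => pow_ne_zero _ (ce_sub hw _))).aestronglyMeasurable
    (.of_forall fun θ _ x hx => norm_mul_le_of_le le_rfl ?_)
    (Continuous.intervalIntegrable (by fun_prop) _ _) (.of_forall fun θ _ x hx => ?_)).2
  · filter_upwards [ball_mem_nhds w hε] with x hx using
      (hu.mul (ker_cont (by linarith [n x hx]))).aestronglyMeasurable
  · rw [norm_div, norm_pow, ce_norm]
    gcongr
    linarith [norm_sub_norm_le (ce (2 * θ)) x, ce_norm (2 * θ), n x hx]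
  · have a := ce_sub (w := x) (by linarith [n x hx]) (2 * θ)
    refine (((hasDerivAt_const x _).fun_div ((hasDerivAt_id x).const_sub _) a).const_mul
      _).congr_deriv ?_
    simp

theorem der_z {V : ℂ × ℝ → ℂ} (hV : ContDiff ℝ 1 V) {u : ℝ → ℂ} (hu : ContDiff ℝ 1 u) (z d : ℂ) :
    fderiv ℝ (fun z => ∫ θ in (0 : ℝ)..2 * π, V (z, θ) * u θ) z d =
      ∫ θ in (0 : ℝ)..2 * π, fderiv ℝ V (z, θ) (d, 0) * u θ := by
  rw [fderiv_int (F := fun p => V p * u p.2) (hV.mul (hu.comp contDiff_snd))]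
  refine intervalIntegral.integral_congr fun θ _ => ?_
  have a := (hV.differentiable one_ne_zero (z, θ)).hasFDerivAt.fun_mul
    ((hu.differentiable one_ne_zero θ).hasFDerivAt.comp (z, θ) hasFDerivAt_snd)
  simp only [Function.comp_def] at a
  simp [a.fderiv, mul_comm]

theorem lin {f1 f2 f3 f4 f5 f6 g : ℝ → ℂ} (h1 : Continuous f1) (h2 : Continuous f2)
    (h3 : Continuous f3) (h4 : Continuous f4) (h5 : Continuous f5) (h6 : Continuous f6)
    {a1 a2 a3 a6 : ℂ} {a b : ℝ} (e : g b = g a) (hg : ∀ t, HasDerivAt g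
      (a1 * f1 t + a2 * f2 t + a3 * f3 t - f4 t + f5 t - a6 * f6 t) t) :
    (a1 * ∫ t in a..b, f1 t) + (a2 * ∫ t in a..b, f2 t) + (a3 * ∫ t in a..b, f3 t) -
      (∫ t in a..b, f4 t) + (∫ t in a..b, f5 t) - a6 * ∫ t in a..b, f6 t = 0 := by
  have := intervalIntegral.integral_eq_sub_of_hasDerivAt (a := a) (b := b) (fun t _ => hg t)
    (Continuous.intervalIntegrable (by fun_prop) _ _)
  rw [intervalIntegral.integral_sub, intervalIntegral.integral_add, intervalIntegral.integral_sub,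
    intervalIntegral.integral_add, intervalIntegral.integral_add] at this
  · simpa only [intervalIntegral.integral_const_mul, e, sub_self] using this
  all_goals exact Continuous.intervalIntegrable (by fun_prop) _ _

theorem ba_eq (k : Co) (θ : ℝ) :
    ba k θ = -(k.1 * ce θ + k.2.1 * (ce θ)⁻¹ + k.2.2 * (ce θ)⁻¹ ^ 3) ∧
      conj (ba k θ) = -(conj k.1 * (ce θ)⁻¹ + conj k.2.1 * ce θ + conj k.2.2 * ce θ ^ 3) := by
  have a : ba k θ = -(k.1 * ce θ + k.2.1 * (ce θ)⁻¹ + k.2.2 * (ce θ)⁻¹ ^ 3) := by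
    have := ce_ne θ
    rw [ba, Gk, ce_neg, ce_neg, ce_two]
    field_simp
  refine ⟨a, ?_⟩
  simp [a, ce_conj]

theorem der_a (k : Co) {w : ℂ} (hw : ‖w‖ < 1) (θ : ℝ) :
    HasDerivAt (fun θ => ((ba k θ).im : ℂ) * (ce (2 * θ) / (ce (2 * θ) - w)))
      (-(qk k w * (ce (-θ) * (ce (2 * θ) / (ce (2 * θ) - w) ^ 2)) +
        (ba k θ).re * (ce (2 * θ) / (ce (2 * θ) - w)) + k.1 * ce θ - conj k.2.2 * ce (3 * θ) -
        rk k w * (ce (-θ) * (ce (2 * θ) / (ce (2 * θ) - w))))) θ := by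
  have a := ce_sub hw (2 * θ)
  have b := ce_ne θ
  have e := ce_der θ
  have e' := e.fun_inv b
  simp only [im_eq_sub_conj, re_eq_add_conj, (ba_eq k _).2, ce_two, ce_three, ce_neg] at a ⊢
  simp only [(ba_eq k _).1]
  refine (((((((e.const_mul _).fun_add (e'.const_mul _)).fun_add
    ((e'.fun_pow 3).const_mul _)).fun_neg.fun_sub (((e'.const_mul _).fun_add
    (e.const_mul _)).fun_add ((e.fun_pow 3).const_mul _)).fun_neg).div_const _).fun_mul
    ((e.fun_pow 2).fun_div ((e.fun_pow 2).sub_const w) a))).congr_deriv ?_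
  simp only [qk, rk, Nat.add_one_sub_one]
  push_cast
  field_simp
  ring

end

end Cau

open Cau in
theorem cauchy_ext (r : ℕ) {U : Y × ℝ → ℂ} (hU : ContDiff ℝ (2 * r + 2 : ℕ) U)
    (hp : ∀ y θ, U (y, θ + 2 * π) = U (y, θ)) :
    ∃ W : Y × ℂ → ℂ, ContDiff ℝ r W ∧ (∀ y w, ‖w‖ < 1 → W (y, w) =
      (2 * π : ℂ)⁻¹ * ∫ θ in (0 : ℝ)..2 * π, U (y, θ) * (ce (2 * θ) / (ce (2 * θ) - w))) ∧
      ∀ y, (∀ θ, U (y, θ) = 0) → ∀ w, W (y, w) = 0 := by
  obtain ⟨U', h1, h2, h3⟩ := parts r (r + 2) (hU.of_le (by norm_cast; omega)) hp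
  have c : ContDiff ℝ r fun p : (Y × ℂ) × ℝ => U (p.1.1, p.2) +
      U' (p.1.1, p.2) * kk (r + 2) (p.1.2 * ce (-(2 * p.2))) :=
    ((hU.of_le (by norm_cast; omega)).comp (by fun_prop)).add ((h1.comp (by fun_prop)).mul
      ((kk_cd r).comp (contDiff_fst.snd.mul
        ((ce_cd.of_le (mod_cast le_top)).comp (by fun_prop)))))
  refine ⟨fun p => (2 * π : ℂ)⁻¹ * ∫ θ in (0 : ℝ)..2 * π, (U (p.1, θ) +
    U' (p.1, θ) * kk (r + 2) (p.2 * ce (-(2 * θ)))),
    contDiff_const.mul (contDiff_int (n := r) c 0 (2 * π)), fun y w hw => congrArg _ ?_,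
    fun y hy w => by simp [hy, h2 y hy]⟩
  have c0 : Continuous fun θ => U (y, θ) := hU.continuous.comp (by fun_prop)
  have c1 : Continuous fun θ => U' (y, θ) := h1.continuous.comp (by fun_prop)
  have a := hsum c0 hw 0
  simp only [pow_zero, inv_one, one_smul, h3] at a
  have c2 := c0.fun_mul ((ker_cont hw).fun_sub (continuous_const (y := 1)))
  simp only [kk_zero hw, add_sub_cancel_left] at c2 ⊢
  have c3 := ce_cont
  have c4 := (kk_cd r).continuous
  simp only [mul_add, mul_one]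
  rw [intervalIntegral.integral_add (c0.intervalIntegrable _ _) (c2.intervalIntegrable _ _),
    intervalIntegral.integral_add (c0.intervalIntegrable _ _)
      (Continuous.intervalIntegrable (by fun_prop) _ _), a.unique (hsum c1 hw _)]

open Cau in
theorem cauchy_pde {κ : ℂ → Co} {V : ℂ × ℝ → ℂ} (hV : ContDiff ℝ 1 V)
    (hp : ∀ z θ, V (z, θ + 2 * π) = V (z, θ)) {W : ℂ × ℂ → ℂ} (hW : ContDiff ℝ 1 W)
    (e : ∀ z w, ‖w‖ < 1 → W (z, w) = (2 * π : ℂ)⁻¹ * ∫ θ in (0 : ℝ)..2 * π,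
      V (z, θ) * ce (-θ) * (ce (2 * θ) / (ce (2 * θ) - w)))
    {z : ℂ} {F : ℂ → ℂ} (hF : DiffContOnCl ℂ F (ball 0 1))
    (pde : ∀ θ, Xd κ (-1) V (z, θ) = F (ce (2 * θ))) {w : ℂ} (hw : ‖w‖ ≤ 1) :
    Sol (κ z) W (z, w) (F w - cc κ V z + rk (κ z) w * W (z, w)) := by
  have dW := hW.differentiable one_ne_zero
  have dV := hV.differentiable one_ne_zero
  have c0 := ce_cont
  have c1 : Continuous fun θ => V (z, θ) := hV.continuous.comp (by fun_prop)
  have c2 : ∀ d, Continuous fun θ => fderiv ℝ V (z, θ) d := fun d =>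
    ((hV.continuous_fderiv one_ne_zero).comp (by fun_prop)).clm_apply continuous_const
  have c3 : ∀ d, Continuous fun w => fderiv ℝ W (z, w) d := fun d =>
    ((hW.continuous_fderiv one_ne_zero).comp (by fun_prop)).clm_apply continuous_const
  have c4 : Continuous fun w => W (z, w) := hW.continuous.comp (by fun_prop)
  have D1 : ∀ w, ‖w‖ < 1 → ∀ d, fderiv ℝ W (z, w) (0, d) = d * ((2 * π : ℂ)⁻¹ *
      ∫ θ in (0 : ℝ)..2 * π, V (z, θ) * ce (-θ) * (ce (2 * θ) / (ce (2 * θ) - w) ^ 2)) :=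
    fun w hw d => by
      have a := ((der_w (u := fun θ => V (z, θ) * ce (-θ)) (by fun_prop) hw).const_mul
        (2 * π : ℂ)⁻¹).congr_of_eventuallyEq (f₁ := fun w => W (z, w)) (by
          filter_upwards [isOpen_ball.mem_nhds (mem_ball_zero_iff.2 hw)] with x hx using
            e z x (mem_ball_zero_iff.1 hx))
      have b := (dW (z, w)).hasFDerivAt.comp w (hasFDerivAt_prodMk_right z w)
      simpa using DFunLike.congr_fun (b.unique (a.hasFDerivAt.restrictScalars ℝ)) d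
  have D2 : ∀ w, ‖w‖ < 1 → ∀ d, fderiv ℝ W (z, w) (d, 0) = (2 * π : ℂ)⁻¹ * ∫ θ in (0 : ℝ)..2 * π,
      fderiv ℝ V (z, θ) (d, 0) * (ce (-θ) * (ce (2 * θ) / (ce (2 * θ) - w))) := fun w hw d => by
    have u : ContDiff ℝ 1 fun θ => ce (-θ) * (ce (2 * θ) / (ce (2 * θ) - w)) := by
      have := ce_cd.of_le (show (1 : WithTop ℕ∞) ≤ ∞ from mod_cast le_top)
      simp only [div_eq_mul_inv]
      exact (this.comp contDiff_neg).mul ((this.comp (by fun_prop)).mul
        (((this.comp (by fun_prop)).sub contDiff_const).inv fun _ => ce_sub hw _))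
    have b := (dW (z, w)).hasFDerivAt.comp (f := fun x => (x, w)) z (hasFDerivAt_prodMk_left z w)
    have a := (contDiff_int (n := 1) (F := fun p => V p * (ce (-p.2) * (ce (2 * p.2) /
      (ce (2 * p.2) - w)))) (hV.mul (u.comp contDiff_snd)) 0 (2 * π)).differentiable one_ne_zero z
    have a' := a.hasFDerivAt.const_mul (2 * π : ℂ)⁻¹
    rw [← der_z hV u]
    exact DFunLike.congr_fun (b.unique (by
      simpa only [Function.comp_def, e _ w hw, mul_assoc] using a')) d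
  have cl : ∀ {f g : ℂ → ℂ}, ContinuousOn f (closedBall 0 1) → ContinuousOn g (closedBall 0 1) →
      (∀ w, ‖w‖ < 1 → f w = g w) → f w = g w := fun hf hg h =>
    EqOn.of_subset_closure (fun x hx => h x (mem_ball_zero_iff.1 hx)) hf hg ball_subset_closedBall
      (closure_ball 0 one_ne_zero).ge (mem_closedBall_zero_iff.2 hw)
  refine sol_iff.2 ⟨dW _, cl (c3 _).continuousOn (continuous_const.fun_mul (c3 _)).continuousOn
    fun w hw => by rw [D1 w hw, D1 w hw, one_mul], cl (f := fun w =>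
      (fderiv ℝ W (z, w) (1, 0) + I * fderiv ℝ W (z, w) (I, 0)) / 2 +
        w * ((fderiv ℝ W (z, w) (1, 0) - I * fderiv ℝ W (z, w) (I, 0)) / 2) +
        qk (κ z) w * fderiv ℝ W (z, w) (0, 1))
      (g := fun w => F w - cc κ V z + rk (κ z) w * W (z, w)) (Continuous.continuousOn ?_)
      ((hF.continuousOn_ball.fun_sub continuousOn_const).fun_add (Continuous.continuousOn ?_))
      fun w hw => ?_⟩
  · have := c3 (1, 0)
    have := c3 (I, 0)
    have := c3 (0, 1)
    unfold qk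
    fun_prop
  · unfold rk
    fun_prop
  have k1 := ker_cont hw
  have k2 : Continuous fun θ => ce (2 * θ) / (ce (2 * θ) - w) ^ 2 :=
    Continuous.div (by fun_prop) (by fun_prop) fun _ => pow_ne_zero _ (ce_sub hw _)
  have k3 : Continuous fun θ => F (ce (2 * θ)) :=
    hF.continuousOn_ball.comp_continuous (by fun_prop) fun θ => by simp [ce_norm]
  have k4 := c2 (1, 0)
  have k5 := c2 (I, 0)
  have L := lin (f1 := fun θ => fderiv ℝ V (z, θ) (1, 0) * (ce (-θ) * (ce (2 * θ) / (ce (2 * θ) - w))))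
    (f2 := fun θ => fderiv ℝ V (z, θ) (I, 0) * (ce (-θ) * (ce (2 * θ) / (ce (2 * θ) - w))))
    (f3 := fun θ => V (z, θ) * ce (-θ) * (ce (2 * θ) / (ce (2 * θ) - w) ^ 2))
    (f4 := fun θ => F (ce (2 * θ)) * (ce (2 * θ) / (ce (2 * θ) - w)))
    (f5 := fun θ => (fderiv ℝ V (z, θ) (1, 0) - I * fderiv ℝ V (z, θ) (I, 0)) / 2 * ce θ +
      (κ z).1 * V (z, θ) * ce θ - conj (κ z).2.2 * V (z, θ) * ce (3 * θ))
    (f6 := fun θ => V (z, θ) * ce (-θ) * (ce (2 * θ) / (ce (2 * θ) - w)))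
    (g := fun θ => -(((ba (κ z) θ).im : ℂ) * (ce (2 * θ) / (ce (2 * θ) - w)) * V (z, θ)))
    ((c2 _).mul (Continuous.mul (by fun_prop) k1)) ((c2 _).mul (Continuous.mul (by fun_prop) k1))
    (Continuous.mul (by fun_prop) k2) (k3.mul k1) (by fun_prop) (Continuous.mul (by fun_prop) k1)
    (a1 := (1 + w) / 2) (a2 := I * (1 - w) / 2) (a3 := qk (κ z) w) (a6 := rk (κ z) w) (a := 0)
    (b := 2 * π) (by
      rw [(ba_eq _ _).1, (ba_eq _ _).1, ce_two (2 * π), ce_two 0, ← hp z 0, ← ce_per 0, zero_add])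
    fun θ => ?_
  · have p : (2 * π : ℂ) ≠ 0 := by simp
    rw [mean hF hw] at L
    simp only [D1 w hw, D2 w hw, e z w hw, cc]
    linear_combination (2 * π : ℂ)⁻¹ * L + F w * inv_mul_cancel₀ p
  refine ((der_a (κ z) hw θ).fun_mul (der_snd (dV _))).fun_neg.congr_deriv ?_
  have q : (ce θ, (ba (κ z) θ).im) = (ce θ).re • ((1 : ℂ), (0 : ℝ)) + (ce θ).im • (I, 0) +
      (ba (κ z) θ).im • (0, 1) := by simp
  have i : ((ce θ).im : ℂ) = -I * (ce θ - (ce θ)⁻¹) / 2 := by
    rw [im_eq_sub_conj, ce_conj, mul_comm 2, ← div_div, div_I]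
    ring
  have a := ce_sub hw (2 * θ)
  have b := ce_ne θ
  rw [← pde, Xd, q, map_add, map_add, map_smul, map_smul, map_smul, real_smul, real_smul,
    real_smul, i, re_eq_add_conj (ce θ), ce_conj]
  simp only [ce_two, ce_neg] at a ⊢
  push_cast
  field_simp
  ring

end Pool.Agent.Lib.MP_0cc5e8_gt
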