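import Mathlib

/-! A compact connected region with a Lyapunov function lies in one chart. -/

namespace Pool.Agent.Lib.MP_0cc5e8_gt

open Set Filter Topology Metric
open scoped Manifold ContDiff

namespace Ch

section top

variable {X : Type} [TopologicalSpace X] {M : Set X} {φ : X → ℝ} {F G : X → X}

/-- `F` moves the points of `M` downhill inside `M` -/
def Good (M : Set X) (φ : X → ℝ) (F : X → X) : Prop := Continuous F ∧ ∀ y ∈ M,
  (∃ s, IsPreconnected s ∧ (∀ z ∈ s, z ∈ M ∧ φ z ≤ φ y) ∧ y ∈ s ∧ F y ∈ s) ∧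
    (F y = y ∨ φ (F y) < φ y)

theorem Good.mem (h : Good M φ F) {y : X} (hy : y ∈ M) : F y ∈ M ∧ φ (F y) ≤ φ y :=
  let ⟨⟨_, _, h1, _, h2⟩, _⟩ := h.2 y hy
  h1 _ h2

theorem good_id : Good M φ id := ⟨continuous_id, fun y hy =>
  ⟨⟨{y}, isPreconnected_singleton, by rintro _ rfl; exact ⟨hy, le_rfl⟩, rfl, rfl⟩, .inl rfl⟩⟩

theorem Good.comp (g : Good M φ G) (f : Good M φ F) : Good M φ (G ∘ F) := by
  refine ⟨g.1.comp f.1, fun y hy => ?_⟩
  obtain ⟨h1, h2⟩ := f.mem hy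
  obtain ⟨⟨s, s1, s2, s3, s4⟩, h3⟩ := f.2 y hy
  obtain ⟨⟨t, t1, t2, t3, t4⟩, h4⟩ := g.2 _ h1
  refine ⟨⟨s ∪ t, s1.union _ s4 t3 t1, fun z hz => hz.elim (s2 z) fun h =>
    ⟨(t2 z h).1, (t2 z h).2.trans h2⟩, .inl s3, .inr t4⟩, h3.elim (fun e => ?_) fun h =>
      .inr ((g.mem h1).2.trans_lt h)⟩
  simpa only [Function.comp, e] using h4

theorem sep [T2Space X] [LocallyCompactSpace X] (hM : IsCompact M) (hφ : Continuous φ) {p : X}
    (h : ∀ᶠ y in 𝓝[≠] p, y ∈ M → φ p < φ y) {V : Set X} (hV : V ∈ 𝓝 p) :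
    ∃ O, IsOpen O ∧ p ∈ O ∧ O ⊆ V ∧ ∃ m > φ p, ∀ s, IsPreconnected s →
      (∀ z ∈ s, z ∈ M ∧ φ z < m) → s ⊆ O ∨ Disjoint s O := by
  obtain ⟨D, D1, D2, D3⟩ := local_compact_nhds (inter_mem hV (eventually_nhdsWithin_iff.1 h))
  have p1 := mem_interior_iff_mem_nhds.2 D1
  obtain ⟨m, m1, m2⟩ := ((hM.inter_right D3.isClosed).diff isOpen_interior (t := interior D)
    ).exists_forall_le' hφ.continuousOn (a := φ p) fun y hy =>
      (D2 hy.1.2).2 (fun e => hy.2 (e ▸ p1)) hy.1.1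
  refine ⟨_, isOpen_interior, p1, fun y hy => (D2 (interior_subset hy)).1, m, m1, fun s s1 s2 => ?_⟩
  refine (s1.subset_or_subset isOpen_interior D3.isClosed.isOpen_compl
    (disjoint_compl_right.mono_left interior_subset) fun z hz => ?_).imp_right fun h =>
      disjoint_left.2 fun z hz h1 => h hz (interior_subset h1)
  by_contra e
  rw [mem_union, not_or, mem_compl_iff, not_not] at e
  exact (m2 z ⟨⟨(s2 z hz).1, e.2⟩, e.1⟩).not_gt (s2 z hz).2

theorem top [T2Space X] [LocallyCompactSpace X] (hM : IsCompact M) (hc : IsConnected M)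
    (hφ : Continuous φ) {P : (X → X) → Prop} (P0 : P id) (P1 : ∀ F G, P F → P G → P (G ∘ F))
    (P2 : ∀ F, P F → Good M φ F) (h : ∀ x ∈ M, (∃ F, P F ∧ ∀ᶠ y in 𝓝 x, y ∈ M → φ (F y) < φ y) ∨
      ∀ᶠ y in 𝓝[≠] x, y ∈ M → φ x < φ y) {U : X → Set X} (hU : ∀ x, U x ∈ 𝓝 x) :
    ∃ p F, P F ∧ MapsTo F M (U p) := by
  classical
  obtain ⟨p, p1, p2⟩ := hM.exists_isMinOn hc.nonempty hφ.continuousOn
  have fp : ∀ F, P F → F p = p := fun F hF =>
    ((P2 F hF).2 p p1).2.resolve_right (not_lt.2 (p2 ((P2 F hF).mem p1).1))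
  have im : ∀ F, P F → IsPreconnected (F '' M) ∧ p ∈ F '' M := fun F hF =>
    ⟨hc.2.image _ (P2 F hF).1.continuousOn, p, p1, fp F hF⟩
  set C := {c | ∃ F, P F ∧ ∀ y ∈ M, φ (F y) ≤ c}
  have Cn : C.Nonempty := let ⟨c, hc⟩ := hM.bddAbove_image hφ.continuousOn
    ⟨c, id, P0, fun y hy => hc ⟨y, hy, rfl⟩⟩
  have Cb : BddBelow C := ⟨φ p, fun c ⟨F, h1, h2⟩ => fp F h1 ▸ h2 p p1⟩
  set c := sInf C
  have hc : c ≤ φ p := by
    by_contra! lt
    have : ∀ x, ∃ O F m, IsOpen O ∧ P F ∧ c < m ∧ (x ∈ M ∩ {y | φ y = c} → x ∈ O) ∧ ∀ s,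
        IsPreconnected s → (∀ z ∈ s, z ∈ M ∧ φ z < m) → p ∈ s → ∀ y ∈ s ∩ O, φ (F y) < φ y := by
      intro x
      by_cases hx : x ∈ M ∩ {y | φ y = c}
      swap
      · exact ⟨∅, id, c + 1, isOpen_empty, P0, by simp, hx, by simp⟩
      obtain ⟨F, h1, h2⟩ | h1 := h x hx.1
      · obtain ⟨O, O1, O2, O3⟩ := eventually_nhds_iff.1 h2
        exact ⟨O, F, c + 1, O2, h1, by simp, fun _ => O3, fun s _ s2 _ y hy =>
          O1 y hy.2 (s2 y hy.1).1⟩
      · obtain ⟨O, O1, O2, O3, m, m1, m2⟩ := sep hM hφ h1 (compl_singleton_mem_nhds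
          (show x ≠ p from fun e => lt.ne (e ▸ hx.2)))
        exact ⟨O, id, m, O1, P0, hx.2 ▸ m1, fun _ => O2, fun s s1 s2 s3 y hy =>
          ((m2 s s1 s2).elim (fun e => O3 (e s3) rfl) fun e => disjoint_left.1 e hy.1 hy.2).elim⟩
    choose O F m h1 h2 h3 h4 h5 using this
    obtain ⟨t, ht⟩ := (hM.inter_right (isClosed_eq hφ continuous_const)).elim_finite_subcover O h1
      fun x hx => mem_iUnion.2 ⟨x, h4 x hx⟩
    obtain ⟨G, G1, G2⟩ : ∃ G, P G ∧ ∀ i ∈ t, ∀ y ∈ M, φ (F i y) < φ y → φ (G y) < φ y := by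
      clear ht
      induction t using Finset.induction_on with
      | empty => exact ⟨id, P0, by simp⟩
      | insert a t _ ih =>
        obtain ⟨G, g1, g2⟩ := ih
        refine ⟨F a ∘ G, P1 _ _ g1 (h2 a), fun i hi y hy e => ?_⟩
        have := ((P2 _ (h2 a)).mem ((P2 _ g1).mem hy).1).2
        rcases Finset.mem_insert.1 hi with rfl | hi
        · exact ((P2 _ g1).2 y hy).2.elim (fun e1 => by simpa [e1] using e) this.trans_lt
        · exact this.trans_lt (g2 i hi y hy e)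
    obtain ⟨n, n1, n2⟩ := (((eventually_all_finset t).2 fun i _ => (eventually_lt_nhds
      (h3 i)).filter_mono (nhdsWithin_le_nhds (s := Ioi c))).and self_mem_nhdsWithin).exists
    have K : IsClosed (M ∩ {y | φ y ≤ n}) := hM.isClosed.inter (isClosed_le hφ continuous_const)
    set W := closure (connectedComponentIn (M ∩ {y | φ y ≤ n}) p)
    have W1 : W ⊆ M ∩ {y | φ y ≤ n} := closure_minimal (connectedComponentIn_subset _ _) K
    have W2 : p ∈ W := subset_closure (mem_connectedComponentIn ⟨p1, lt.le.trans n2.le⟩)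
    obtain ⟨d, d0, hd⟩ := (hM.of_isClosed_subset isClosed_closure
      (W1.trans inter_subset_left)).exists_forall_le' (a := 0)
      (f := fun y => max (φ y - c) (c - φ (G y)))
      (have := (P2 G G1).1; by fun_prop) fun y hy => by
        obtain e | e | e := lt_trichotomy (φ y) c
        · exact lt_max_of_lt_right (by linarith [((P2 G G1).mem (W1 hy).1).2])
        · obtain ⟨i, hi, h6⟩ := mem_iUnion₂.1 (ht ⟨(W1 hy).1, e⟩)
          exact lt_max_of_lt_right (by linarith [G2 i hi y (W1 hy).1 (h5 i W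
            isPreconnected_connectedComponentIn.closure
            (fun z hz => ⟨(W1 hz).1, lt_of_le_of_lt (W1 hz).2 (n1 i hi)⟩) W2 y ⟨hy, h6⟩)])
        · exact lt_max_of_lt_left (by linarith)
    obtain ⟨c', ⟨H, H1, H2⟩, H3⟩ := exists_lt_of_csInf_lt Cn (lt_min n2 (lt_add_of_pos_right c d0))
    rw [lt_min_iff] at H3
    refine (csInf_le Cb (a := c - d) ⟨_, P1 _ _ H1 G1, fun y hy => ?_⟩).not_gt (by linarith)
    have := hd _ (subset_closure ((im H H1).1.subset_connectedComponentIn (im H H1).2 (by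
      rintro _ ⟨z, hz, rfl⟩
      exact ⟨((P2 H H1).mem hz).1, (H2 z hz).trans H3.1.le⟩) ⟨y, hy, rfl⟩))
    have := (le_max_iff.1 this).resolve_left (by linarith [H2 y hy, H3.2])
    exact show φ (G (H y)) ≤ _ by linarith
  obtain ⟨F, h1, h2⟩ | h1 := h p p1
  · exact (h2.self_of_nhds p1).ne (congrArg φ (fp F h1)) |>.elim
  obtain ⟨O, -, O2, O3, m, m1, m2⟩ := sep hM hφ h1 (hU p)
  obtain ⟨c', ⟨F, F1, F2⟩, F3⟩ := exists_lt_of_csInf_lt Cn (hc.trans_lt m1)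
  refine ⟨p, F, F1, fun y hy => O3 (((m2 _ (im F F1).1 ?_).resolve_right fun e =>
    disjoint_left.1 e (im F F1).2 O2) ⟨y, hy, rfl⟩)⟩
  rintro _ ⟨z, hz, rfl⟩
  exact ⟨((P2 F F1).mem hz).1, (F2 z hz).trans_lt F3⟩

end top

theorem shear {g : ℂ → ℂ} (hg : ContDiff ℝ ∞ g) {c : NNReal} (hc : c < 1) (h : LipschitzWith c g) :
    ∃ T : ℂ ≃ ℂ, ContDiff ℝ ∞ T ∧ ContDiff ℝ ∞ T.symm ∧ ∀ z, T z = z + g z := by
  have a : ApproximatesLinearOn (fun z => z + g z) (ContinuousLinearEquiv.refl ℝ ℂ : ℂ →L[ℝ] ℂ)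
      univ c := fun x _ y _ => by
    simpa [add_sub_add_comm, dist_eq_norm] using h.dist_le_mul x y
  let T := a.toHomeomorph _ (.inr (by simpa using hc))
  have c1 : ContDiff ℝ ∞ T := contDiff_id.add hg
  have : ∀ z, ∃ A : ℂ ≃L[ℝ] ℂ, HasFDerivAt T (A : ℂ →L[ℝ] ℂ) z := fun z => by
    have d := (hasFDerivAt_id z).add (hg.differentiable (by simp) z).hasFDerivAt
    have i : Function.Injective (ContinuousLinearMap.id ℝ ℂ + fderiv ℝ g z) :=
      (injective_iff_map_eq_zero _).2 fun w hw => by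
        have h1 : w = -fderiv ℝ g z w := eq_neg_of_add_eq_zero_left hw
        have h2 := ((fderiv ℝ g z).le_of_opNorm_le (norm_fderiv_le_of_lipschitz ℝ h) w)
        rw [← norm_neg, ← h1] at h2
        have h3 : (c : ℝ) < 1 := hc
        exact norm_le_zero_iff.1 (by nlinarith [norm_nonneg w])
    exact ⟨(LinearEquiv.ofInjectiveEndo _ i).toContinuousLinearEquiv, d⟩
  choose A hA using this
  exact ⟨T.toEquiv, c1, T.contDiff_symm hA c1, fun _ => rfl⟩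

variable {N : Type} [TopologicalSpace N] [T2Space N] [ChartedSpace ℂ N] [IsManifold 𝓘(ℝ, ℂ) ∞ N]

open Classical in
/-- a map of the plane transported to the surface -/
noncomputable def ex (x : N) (T : ℂ → ℂ) (y : N) : N :=
  if y ∈ (chartAt ℂ x).source then (chartAt ℂ x).symm (T (chartAt ℂ x y)) else y

theorem ex_ok (x : N) (T : ℂ ≃ ℂ) (hT : ContDiff ℝ ∞ T) {K : Set ℂ} (hK : IsCompact K)
    (h1 : K ⊆ (chartAt ℂ x).target) (h2 : ∀ z ∉ K, T z = z) :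
    ContMDiff 𝓘(ℝ, ℂ) 𝓘(ℝ, ℂ) ∞ (ex x T) ∧ ∀ y, ex x T.symm (ex x T y) = y := by
  set e := chartAt ℂ x
  have m : ∀ y ∈ e.source, T (e y) ∈ e.target := fun y hy => by
    by_contra h
    exact h ((T.injective (h2 _ fun k => h (h1 k))).symm ▸ e.map_source hy)
  refine ⟨fun y => ?_, fun y => ?_⟩
  · by_cases hy : y ∈ e.source
    · refine ((contMDiffOn_chart_symm.contMDiffAt (e.open_target.mem_nhds (m y hy))).comp y
        (hT.contMDiff.contMDiffAt.comp y (contMDiffOn_chart.contMDiffAt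
          (e.open_source.mem_nhds hy)))).congr_of_eventuallyEq ?_
      filter_upwards [e.open_source.mem_nhds hy] with z hz
      exact if_pos hz
    · refine contMDiffAt_id.congr_of_eventuallyEq ?_
      filter_upwards [(hK.image_of_continuousOn
        (e.continuousOn_symm.mono h1)).isClosed.isOpen_compl.mem_nhds
        fun ⟨w, hw, k⟩ => hy (k ▸ e.map_target (h1 hw))] with z hz
      unfold ex
      split_ifs with h
      · rw [h2 _ fun k => hz ⟨_, k, e.left_inv h⟩, e.left_inv h, id]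
      · rfl
  · by_cases hy : y ∈ e.source
    · rw [show ex x T y = e.symm (T (e y)) from if_pos hy, ex, if_pos (e.map_target (m y hy)),
        e.right_inv (m y hy), T.symm_apply_apply, e.left_inv hy]
    · rw [show ex x T y = y from if_neg hy, ex, if_neg hy]

theorem anti {a : ℂ → ℝ} {z v : ℂ} {τ : ℝ} (h : ∀ t ∈ Icc 0 τ,
    DifferentiableAt ℝ a (z + t • v) ∧ fderiv ℝ a (z + t • v) v < 0) :
    StrictAntiOn (fun t : ℝ => a (z + t • v)) (Icc 0 τ) := by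
  have d : ∀ t ∈ Icc 0 τ, HasDerivAt (fun t : ℝ => a (z + t • v)) (fderiv ℝ a (z + t • v) v) t :=
    fun t ht => (h t ht).1.hasFDerivAt.comp_hasDerivAt t (by
      simpa using ((hasDerivAt_id t).smul_const v).const_add z)
  exact strictAntiOn_of_deriv_neg (convex_Icc _ _)
    (fun t ht => (d t ht).continuousAt.continuousWithinAt) fun t ht =>
      (d t (interior_subset ht)).deriv ▸ (h t (interior_subset ht)).2

theorem move {ρ φ : N → ℝ} (hρ : ContMDiff 𝓘(ℝ, ℂ) 𝓘(ℝ) ∞ ρ) (hφ : ContMDiff 𝓘(ℝ, ℂ) 𝓘(ℝ) ∞ φ)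
    {x : N} (hx : ρ x ≤ 0) {v : ℂ} (h1 : fderiv ℝ (φ ∘ (chartAt ℂ x).symm) (chartAt ℂ x x) v < 0)
    (h2 : ρ x = 0 → fderiv ℝ (ρ ∘ (chartAt ℂ x).symm) (chartAt ℂ x x) v < 0) :
    ∃ D : N ≃ₘ^∞⟮𝓘(ℝ, ℂ), 𝓘(ℝ, ℂ)⟯ N, Good {x | ρ x ≤ 0} φ D ∧
      ∀ᶠ y in 𝓝 x, ρ y ≤ 0 → φ (D y) < φ y := by
  set e := chartAt ℂ x
  have xs : x ∈ e.source := mem_chart_source ℂ x
  have tg := e.open_target.mem_nhds (e.map_source xs)
  have ev : ∀ {f : N → ℝ}, ContMDiff 𝓘(ℝ, ℂ) 𝓘(ℝ) ∞ f → fderiv ℝ (f ∘ e.symm) (e x) v < 0 →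
      ∀ᶠ z in 𝓝 (e x), DifferentiableAt ℝ (f ∘ e.symm) z ∧ fderiv ℝ (f ∘ e.symm) z v < 0 := by
    intro f hf h
    have c : ContDiffAt ℝ 1 (f ∘ e.symm) (e x) := (contMDiffAt_iff_contDiffAt.1
      (hf.contMDiffAt.comp _ (contMDiffOn_chart_symm.contMDiffAt tg))).of_le (by simp)
    exact ((c.eventually (by simp)).mono fun z k => k.differentiableAt one_ne_zero).and
      (((c.fderiv_right (m := 0) (by simp)).continuousAt.clm_apply
        continuousAt_const).eventually_lt_const h)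
  obtain ⟨Q, Q1, Q2⟩ : ∃ Q : ℂ → Prop, (∀ᶠ z in 𝓝 (e x), Q z) ∧ ∀ z τ, ρ (e.symm z) ≤ 0 →
      (∀ t ∈ Icc 0 τ, Q (z + t • v)) → ∀ t ∈ Icc (0 : ℝ) τ, ρ (e.symm (z + t • v)) ≤ 0 := by
    obtain h | h := hx.eq_or_lt
    · exact ⟨_, ev hρ (h2 h), fun z τ k1 k2 t ht => le_trans ((anti k2).antitoneOn
        ⟨le_rfl, ht.1.trans ht.2⟩ ht ht.1) (by simpa using k1)⟩
    · exact ⟨fun z => ρ (e.symm z) < 0, (hρ.continuous.continuousAt.comp (e.continuousAt_symm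
        (e.map_source xs))).eventually_lt_const (by simpa [e.left_inv xs] using h),
        fun z τ _ k t ht => (k t ht).le⟩
  obtain ⟨r, r0, hr⟩ := nhds_basis_closedBall.eventually_iff.1 ((ev hφ h1).and (Q1.and tg))
  let χ : ContDiffBump (e x) := ⟨r / 4, r / 2, by positivity, by linarith⟩
  obtain ⟨C, hC⟩ := (χ.contDiff (n := 1)).lipschitzWith_of_hasCompactSupport χ.hasCompactSupport
    one_ne_zero
  obtain ⟨s, ⟨s1, s2⟩, s0⟩ := (((Continuous.tendsto' (f := fun s : ℝ => s * ‖v‖) (by fun_prop) 0 0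
    (by simp)).eventually_lt_const (half_pos r0)).and ((Continuous.tendsto'
    (f := fun s : ℝ => s * ‖v‖ * C) (by fun_prop) 0 0 (by simp)).eventually_lt_const one_pos)
    |>.filter_mono (nhdsWithin_le_nhds (s := Ioi 0)) |>.and self_mem_nhdsWithin).exists
  have s0 : 0 < s := s0
  obtain ⟨T, T1, T2, T3⟩ := shear (g := fun z => (s * χ z) • v)
    ((contDiff_const.mul χ.contDiff).smul contDiff_const) (c := .mk (s * ‖v‖ * C) (by positivity)) s2
    (.of_dist_le_mul fun z w => by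
      rw [dist_eq_norm, ← sub_smul, ← mul_sub, norm_smul, norm_mul, Real.norm_of_nonneg s0.le,
        mul_right_comm, NNReal.coe_mk, mul_assoc _ (C : ℝ)]
      exact mul_le_mul_of_nonneg_left (hC.dist_le_mul z w) (by positivity))
  have z1 : ∀ z ∉ closedBall (e x) r, T z = z := fun z hz => by
    rw [T3, χ.zero_of_le_dist (show r / 2 ≤ _ by linarith [not_le.1 (mt mem_closedBall.2 hz)]), mul_zero, zero_smul,
      add_zero]
  have k1 := ex_ok x T T1 (isCompact_closedBall _ r) (fun z hz => (hr hz).2.2) z1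
  have k2 := ex_ok x T.symm T2 (isCompact_closedBall _ r) (fun z hz => (hr hz).2.2)
    fun z hz => T.symm_apply_eq.2 (z1 z hz).symm
  have key : ∀ y ∈ e.source, χ (e y) ≠ 0 → ρ y ≤ 0 → (∃ s, IsPreconnected s ∧
      (∀ z ∈ s, ρ z ≤ 0 ∧ φ z ≤ φ y) ∧ y ∈ s ∧ ex x T y ∈ s) ∧ φ (ex x T y) < φ y := by
    intro y y1 y2 y3
    have t0 : 0 < s * χ (e y) := mul_pos s0 (χ.nonneg.lt_of_ne' y2)
    have b : ∀ t ∈ Icc 0 (s * χ (e y)), e y + t • v ∈ closedBall (e x) r := fun t ht => by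
      have h3 : dist (e y) (e x) < r / 2 := χ.support_eq.subset y2
      have h4 := dist_triangle (e y + t • v) (e y) (e x)
      have h5 := mul_le_mul_of_nonneg_right
        (ht.2.trans (mul_le_of_le_one_right s0.le χ.le_one)) (norm_nonneg v)
      rw [dist_self_add_left, norm_smul, Real.norm_of_nonneg ht.1] at h4
      exact show dist _ _ ≤ r by linarith
    have a := anti fun t ht => (hr (b t ht)).1
    have e0 : e.symm (e y + (0 : ℝ) • v) = y := by simp [y1]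
    have e1 : ex x T y = e.symm (e y + (s * χ (e y)) • v) := (if_pos y1).trans (by rw [T3])
    refine ⟨⟨_, isPreconnected_Icc.image (fun t : ℝ => e.symm (e y + t • v))
      (e.continuousOn_symm.comp (by fun_prop) fun t ht => (hr (b t ht)).2.2), ?_,
      ⟨0, left_mem_Icc.2 t0.le, e0⟩, _, right_mem_Icc.2 t0.le, e1.symm⟩, ?_⟩
    · rintro _ ⟨t, ht, rfl⟩
      exact ⟨Q2 _ _ (by simpa [y1] using y3) (fun t ht => (hr (b t ht)).2.1) t ht,
        (a.antitoneOn (left_mem_Icc.2 t0.le) ht ht.1).trans_eq (congrArg φ e0)⟩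
    · exact e1 ▸ (a (left_mem_Icc.2 t0.le) (right_mem_Icc.2 t0.le) t0).trans_eq (congrArg φ e0)
  refine ⟨⟨⟨ex x T, ex x T.symm, k1.2, k2.2⟩, k1.1, k2.1⟩, ⟨k1.1.continuous, fun y hy => ?_⟩, ?_⟩
  · by_cases k : y ∈ e.source ∧ χ (e y) ≠ 0
    · exact (key y k.1 k.2 hy).imp_right .inr
    · have : ex x T y = y := by
        unfold ex
        split_ifs with h
        · rw [T3, not_not.1 fun q => k ⟨h, q⟩, mul_zero, zero_smul, add_zero, e.left_inv h]
        · rfl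
      exact show (∃ s, _ ∧ _ ∧ _ ∧ ex x T y ∈ s) ∧ (ex x T y = y ∨ φ (ex x T y) < _) from
        this.symm ▸ (good_id (φ := φ)).2 y hy
  · filter_upwards [e.open_source.mem_nhds xs, (χ.continuous.continuousAt.comp
      (e.continuousAt xs)).eventually_ne (y := 0) (by
        simp [χ.one_of_mem_closedBall (mem_closedBall_self χ.rIn_pos.le)])] with y y1 y2 y3
    exact (key y y1 y2 y3).2

end Ch

open Ch

/-- a compact connected region on which every point is a strict local minimum of φ or has an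
inward descent direction lies in the domain of one smooth chart -/
theorem exists_chart {N : Type} [TopologicalSpace N] [T2Space N] [ChartedSpace ℂ N]
    [IsManifold 𝓘(ℝ, ℂ) ∞ N] {ρ φ : N → ℝ} (hρ : ContMDiff 𝓘(ℝ, ℂ) 𝓘(ℝ) ∞ ρ)
    (hφ : ContMDiff 𝓘(ℝ, ℂ) 𝓘(ℝ) ∞ φ) (hM : IsCompact {x | ρ x ≤ 0})
    (hc : IsConnected {x | ρ x ≤ 0})
    (h : ∀ x, ρ x ≤ 0 →
      (∃ v : ℂ, fderiv ℝ (φ ∘ (chartAt ℂ x).symm) (chartAt ℂ x x) v < 0 ∧
        (ρ x = 0 → fderiv ℝ (ρ ∘ (chartAt ℂ x).symm) (chartAt ℂ x x) v < 0)) ∨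
      ∀ᶠ y in 𝓝[≠] x, ρ y ≤ 0 → φ x < φ y) :
    ∃ e : OpenPartialHomeomorph N ℂ, {x | ρ x ≤ 0} ⊆ e.source ∧
      ContMDiffOn 𝓘(ℝ, ℂ) 𝓘(ℝ, ℂ) ∞ e e.source ∧
      ContMDiffOn 𝓘(ℝ, ℂ) 𝓘(ℝ, ℂ) ∞ e.symm e.target := by
  have := ChartedSpace.locallyCompactSpace ℂ N
  obtain ⟨p, _, ⟨D, rfl, -⟩, hD⟩ := Ch.top hM hc hφ.continuous
    (P := fun F => ∃ D : N ≃ₘ^∞⟮𝓘(ℝ, ℂ), 𝓘(ℝ, ℂ)⟯ N, D = F ∧ Good {x | ρ x ≤ 0} φ F)
    ⟨.refl _ _ _, rfl, good_id⟩
    (by rintro _ _ ⟨D, rfl, h1⟩ ⟨E, rfl, h2⟩; exact ⟨D.trans E, rfl, h2.comp h1⟩)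
    (fun _ ⟨_, _, k⟩ => k) (fun x hx => (h x hx).imp_left fun ⟨v, h1, h2⟩ =>
      let ⟨D, k1, k2⟩ := move hρ hφ hx h1 h2
      ⟨D, ⟨D, rfl, k1⟩, k2⟩) (chart_source_mem_nhds ℂ)
  refine ⟨D.toHomeomorph.toOpenPartialHomeomorph.trans (chartAt ℂ p), fun y hy => ⟨trivial, hD hy⟩,
    contMDiffOn_chart.comp D.contMDiff.contMDiffOn fun y hy => hy.2,
    D.symm.contMDiff.comp_contMDiffOn (contMDiffOn_chart_symm.mono fun y hy => hy.1)⟩

end Pool.Agent.Lib.MP_0cc5e8_gt
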