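import Pool.Agent.Lib.MP_0cc5e8_gt.DiscB

/-! The continuity principle: B extends holomorphically to the fibres over points near 0. -/

namespace Pool.Agent.Lib.MP_0cc5e8_gt

open Complex Set Filter Topology Metric
open scoped ComplexConjugate ContDiff Real

variable {κ : ℂ → Co} {δ : ℝ}

lemma Pkg.cone (P : Pkg κ δ) (hδ : δ ≤ 1 / 10 ^ 6) {y : ℂ × ℂ} (h1 : ‖y.1‖ ≤ 14 / 10)
    (h2 : ‖y.2‖ ≤ 1) : |(pi0 (P.Ψ (P.β y))).2| ≤ 3 / 2 * (pi0 (P.Ψ (P.β y))).1 ∧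
      (‖y.2‖ < 1 → |(pi0 (P.Ψ (P.β y))).2| < 3 / 2 * (pi0 (P.Ψ (P.β y))).1) := by
  have m : y ∈ closedBall (0 : ℂ × ℂ) 5 := mid_ball.2 ⟨by linarith, by linarith⟩
  have a := (abs_re_le_norm _).trans (norm_le_norm_sub_add (P.Θ' y).1 y.1)
  have b := P.nΘ'.fst m
  have s := P.sgn y m
  have n := norm_nonneg (P.Θ' y).2
  have c : ‖(P.Θ' y).2‖ ≤ 1 := h2.lt_or_eq.elim (fun h => (s.1.2 h).le) fun h => (s.2.2 h).le
  have d : 0 ≤ (1 - ‖(P.Θ' y).2‖ ^ 2) / 4 := by nlinarith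
  simp only [P.key y m, mid_pi0, abs_mul, abs_neg, abs_of_nonneg d]
  exact ⟨mul_le_mul_of_nonneg_right (by linarith) d,
    fun h => mul_lt_mul_of_pos_right (by linarith) (by nlinarith [s.1.2 h])⟩

lemma Pkg.β_hol (P : Pkg κ δ) {z w : ℂ} (h1 : ‖z‖ ≤ 5) (h2 : ‖w‖ ≤ 1) :
    DifferentiableAt ℂ (fun w => P.β (z, w)) w :=
  (P.sol (z, w) h1 h2).1.differentiableAt.prodMk (P.sol (z, w) h1 h2).2.differentiableAt

lemma Loc.glue {P : Pkg κ δ} (L : Loc P) (hδ : δ ≤ 1 / 10 ^ 6) :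
    ∃ μ > 0, ∃ (H : ℂ × ℂ → ℂ) (M : ℝ),
      (∀ q ∈ P.D, (P.lam q).1 ∈ L.E ∨ q ∈ ball (P.β (0, 1)) μ →
        DifferentiableAt ℂ H q ∧ ‖H q‖ ≤ M) ∧
      (∀ q, (P.lam q).1 ∈ L.E → H q = L.U (P.lam q)) ∧
      ∀ x θ, ‖x‖ ≤ 1 → P.β (x, ce (2 * θ)) ∈ ball (P.β (0, 1)) μ →
        Tendsto H (𝓝[P.D] P.β (x, ce (2 * θ))) (𝓝 (L.B (x, θ))) := by
  classical
  obtain ⟨μ, μ0, H, hc, hd, he⟩ := exists_mid L hδ
  obtain ⟨r0, r1, hr⟩ := Metric.uniformContinuousOn_iff.1 ((isCompact_closedBall (0 : ℂ × ℂ) 5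
    ).uniformContinuousOn_of_continuous fun y hy => (P.nβ y hy).1.continuousAt.continuousWithinAt)
    (μ / 2) (half_pos μ0)
  obtain ⟨r, r2, r3, r4⟩ : ∃ r : ℝ, 0 < r ∧ r ≤ r0 ∧ r ≤ 1 :=
    ⟨min _ _, by positivity, min_le_left _ _, min_le_right _ _⟩
  obtain ⟨ν, ν0, ν1, ν2⟩ : ∃ ν : ℝ, 0 < ν ∧ ν ≤ μ / 2 ∧ ν ≤ r / 16 :=
    ⟨min _ _, by positivity, min_le_left _ _, min_le_right _ _⟩
  have m0 : ((0, 1) : ℂ × ℂ) ∈ closedBall (0 : ℂ × ℂ) 5 := by simp
  have cn : ∀ q ∈ P.D, |(pi0 (P.Ψ q)).2| < 3 / 2 * (pi0 (P.Ψ q)).1 := fun q hq => by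
    obtain ⟨a, b, c⟩ := P.lam_spec hδ hq
    simpa only [a] using (P.cone hδ (b.trans (by norm_num)) c.le).2 c
  have eq : ∀ q ∈ P.D, q ∈ ball (P.β (0, 1)) ν →
      (if (P.lam q).1 ∈ L.E then L.U (P.lam q) else H q) = H q := by
    intro q hq hb
    split_ifs with hE; swap
    · rfl
    obtain ⟨a, b, c⟩ := P.lam_spec hδ hq
    have mb : ∀ u ∈ ball (P.lam q).2 r, ‖u‖ ≤ 1 → P.β ((P.lam q).1, u) ∈ ball (P.β (0, 1)) μ :=
      fun u hu h => by
        have := hr ((P.lam q).1, u) (mid_ball.2 ⟨by linarith, by linarith⟩) (P.lam q)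
          (mid_ball.2 ⟨by linarith, by linarith⟩) (by
            rw [Prod.dist_eq, dist_self]; exact max_lt r1 (hu.trans_le r3))
        rw [a] at this
        exact mem_ball.2 (by
          linarith [dist_triangle (P.β ((P.lam q).1, u)) q (P.β (0, 1)), mem_ball.1 hb])
    have := arc_uniq (f := fun u => L.U ((P.lam q).1, u) - H (P.β ((P.lam q).1, u))) c (r := r) ?_ r4
      (DifferentiableOn.sub (fun u hu => (L.solU (_, u) hE (by linarith)
        (mem_ball_zero_iff.1 hu.1).le).differentiableAt.differentiableWithinAt)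
        (hd.comp (fun u hu => (P.β_hol (by linarith)
          (mem_ball_zero_iff.1 hu.1).le).differentiableWithinAt) fun u hu =>
          ⟨mb u hu.2 (mem_ball_zero_iff.1 hu.1).le, (P.cone hδ (y := (_, u)) (by linarith)
            (mem_ball_zero_iff.1 hu.1).le).2 (mem_ball_zero_iff.1 hu.1)⟩))
      (ContinuousOn.sub (fun u hu => (L.solU (_, u) hE (by linarith)
        (mem_closedBall_zero_iff.1 hu.1)).differentiableAt.continuousAt.continuousWithinAt)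
        (hc.comp (fun u hu => (P.β_hol (by linarith)
          (mem_closedBall_zero_iff.1 hu.1)).continuousAt.continuousWithinAt) fun u hu =>
          ⟨ball_subset_closedBall (mb u hu.2 (mem_closedBall_zero_iff.1 hu.1)),
            (P.cone hδ (y := (_, u)) (by linarith) (mem_closedBall_zero_iff.1 hu.1)).1⟩))
      fun u hu h => by
        obtain ⟨θ, rfl⟩ := mid_ce_surj h
        rw [he _ θ (by linarith) (ball_subset_closedBall (mb _ hu h.le)),
          L.ext _ hE (by linarith), sub_self]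
    · simpa only [Prod.mk.eta, a, sub_eq_zero] using this
    have u0 : ‖(P.Θ' (0, 1)).2‖ = 1 := (P.sgn _ m0).2.2 norm_one
    have m1 : ((b0i (P.Ψ q)).1, (P.Θ' (0, 1)).2) ∈ closedBall (0 : ℂ × ℂ) (49 / 10) :=
      mid_ball.2 ⟨by linarith [hq.2.2], by linarith⟩
    have m2 := closedBall_subset_closedBall (show (49 / 10 : ℝ) ≤ 5 by norm_num) m1
    have u1 := (P.sgn _ (P.Θ_mem hδ m1)).2.1 (by rw [P.rinv _ m2, u0])
    have u2 := (norm_snd_le _).trans (P.nΘ.lip' le_rfl (by linarith) m2 (P.D_mem hq (by norm_num)))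
    have u3 := (norm_fst_le _).trans (P.nΨ.lip' le_rfl (by linarith) (P.β_mem hδ m0)
      (mem_closedBall_zero_iff.2 hq.1.le))
    have u4 := norm_sub_norm_le (P.Θ ((b0i (P.Ψ q)).1, (P.Θ' (0, 1)).2)).2 (P.lam q).2
    have u5 : ‖((b0i (P.Ψ q)).1, (P.Θ' (0, 1)).2) - b0i (P.Ψ q)‖ =
        ‖(P.Ψ (P.β (0, 1)) - P.Ψ q).1‖ := by
      rw [P.key _ m0]; simp [Prod.norm_def, b0, b0i]
    rw [mem_ball', dist_eq_norm] at hb
    simp only [Pkg.lam, Prod.snd_sub] at u2 u4 ⊢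
    linarith
  obtain ⟨M, hM⟩ := ((isCompact_closedBall (0 : ℂ) 5).prod (isCompact_closedBall (0 : ℂ) 1)
    ).exists_bound_of_continuousOn fun y hy => (L.cU y (mem_closedBall_zero_iff.1 hy.1)
      (mem_closedBall_zero_iff.1 hy.2)).continuousAt.continuousWithinAt
  obtain ⟨M', hM'⟩ := ((isCompact_closedBall (P.β (0, 1)) ν).of_isClosed_subset
    (ContinuousOn.preimage_isClosed_of_isClosed (f := fun q => pi0 (P.Ψ q))
      (t := {n | |n.2| ≤ 3 / 2 * n.1}) (fun q hq => (mid_pi_cont.continuousAt.comp (P.Ψ_diff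
        ((mem_closedBall_zero_iff.1 (P.near_mem hδ ((mem_closedBall_iff_norm.1 hq).trans
          (by linarith)))).trans_lt (by norm_num))).continuousAt).continuousWithinAt)
      isClosed_closedBall (isClosed_le (by fun_prop) (by fun_prop))) inter_subset_left
    ).exists_bound_of_continuousOn (hc.mono fun q hq =>
      ⟨closedBall_subset_closedBall (by linarith) hq.1, hq.2⟩)
  refine ⟨ν, ν0, fun q => if (P.lam q).1 ∈ L.E then L.U (P.lam q) else H q, max M M',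
    fun q hq h => ?_, fun q h => if_pos h, fun x θ hx h => ?_⟩
  · rcases h with h | h
    · obtain ⟨-, b, c⟩ := P.lam_spec hδ hq
      refine ⟨(L.ext_hol hδ hq h).congr_of_eventuallyEq (((P.lam_diff hq).continuousAt.fst.eventually
        (L.opn.mem_nhds h)).mono fun x hx => if_pos hx), le_max_of_le_left ?_⟩
      simp only [if_pos h]
      exact hM _ ⟨mem_closedBall_zero_iff.2 (by linarith), mem_closedBall_zero_iff.2 c.le⟩
    · have n := (P.D_open.inter isOpen_ball).mem_nhds ⟨hq, h⟩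
      refine ⟨(hd.differentiableAt (mem_of_superset n fun x hx => ⟨ball_subset_ball (by linarith)
        hx.2, cn x hx.1⟩)).congr_of_eventuallyEq (mem_of_superset n fun x hx => eq x hx.1 hx.2),
        le_max_of_le_right ?_⟩
      simp only [eq q hq h]
      exact hM' q ⟨ball_subset_closedBall h, (cn q hq).le⟩
  · have h1 := closedBall_subset_closedBall (show ν ≤ μ by linarith) (ball_subset_closedBall h)
    have ev : ∀ᶠ q in 𝓝[P.D] P.β (x, ce (2 * θ)), q ∈ P.D ∧ q ∈ ball (P.β (0, 1)) ν :=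
      inter_mem_nhdsWithin _ (isOpen_ball.mem_nhds h)
    rw [← he x θ (by linarith) h1]
    refine ((hc _ ⟨h1, (P.cone hδ (y := (x, _)) (by linarith) (mid_norm_ce _).le).1⟩
      ).tendsto.mono_left (le_inf nhdsWithin_le_nhds (le_principal_iff.2 (ev.mono fun q hq =>
        ⟨closedBall_subset_closedBall (by linarith) (ball_subset_closedBall hq.2),
          (cn q hq.1).le⟩)))).congr' (ev.mono fun q hq => (eq q hq.1 hq.2).symm)

lemma disc_surj {w : ℂ} (h : ‖w‖ = 1) : ∃ θ ∈ Icc 0 π, ce (2 * θ) = w := by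
  obtain ⟨θ, rfl⟩ := mid_ce_surj h
  have := toIcoMod_mem_Ico' Real.pi_pos θ
  refine ⟨_, Ico_subset_Icc_self this, ?_⟩
  rw [toIcoMod, zsmul_eq_mul, show 2 * (θ - toIcoDiv Real.pi_pos 0 θ * π) =
    2 * θ + (-toIcoDiv Real.pi_pos 0 θ : ℤ) * (2 * π) by push_cast; ring, flow_ce_add, flow_ce_int,
    mul_one]

theorem Loc.hardy {κ : ℂ → Co} {δ : ℝ} {P : Pkg κ δ} (L : Loc P) (hδ : δ ≤ 1 / 10 ^ 6) :
    ∀ᶠ x in 𝓝 (0 : ℂ), ∀ ψ : ℂ → ℂ, DiffContOnCl ℂ ψ (ball 0 1) →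
      ∫ θ in (0 : ℝ)..π, L.B (x, θ) * ψ (ce (2 * θ)) * ce (2 * θ) = 0 := by
  obtain ⟨μ, μ0, H, M, hH, hU, hB⟩ := L.glue hδ
  obtain ⟨r1', r10', h1'⟩ := Metric.eventually_nhds_iff.1 ((isCompact_Icc (a := (0 : ℝ)) (b := 1 / 4)
    ).eventually_forall_of_forall_eventually (x₀ := ((0, 0, 1) : ℝ × ℂ × ℂ))
    (P := fun p σ => P.A p.1 p.2.1 σ p.2.2 ∈ ball (P.β (0, 1)) μ) fun σ _ =>
      ((P.A_cd (η := 0) (x := 0) (σ := σ) (w := 1) (by simp) (by simp) (by simp)).continuousAt.comp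
        (x := ((0, 0, 1), σ)) (f := fun p : (ℝ × ℂ × ℂ) × ℝ => (p.1.1, p.1.2.1, p.2, p.1.2.2))
        (by fun_prop)).eventually (isOpen_ball.mem_nhds (by simp [P.A_zero, μ0])))
  obtain ⟨r1, r10, r11, r12⟩ : ∃ r : ℝ, 0 < r ∧ r ≤ r1' ∧ r ≤ 1 :=
    ⟨min _ _, by positivity, min_le_left _ _, min_le_right _ _⟩
  have h1 := fun y (h : dist y (0, 0, 1) < r1) => h1' (h.trans_le r11)
  set J := Icc (r1 / 4) (π - r1 / 4) with hJ
  have J1 : J ⊆ Icc 0 π := Icc_subset_Icc (by linarith) (by linarith)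
  have J2 : ∀ θ ∈ Icc 0 π, θ ∉ J → ‖ce (2 * θ) - 1‖ < r1 := fun θ h h' => by
    rcases not_and_or.1 h' with h' | h'
    · have := mid_ce_sub (2 * θ) 0
      rw [mid_ce_zero, sub_zero, abs_of_nonneg (by linarith [h.1])] at this
      linarith [not_le.1 h']
    · have := mid_ce_sub (2 * θ) (2 * π)
      rw [flow_ce_two_pi, abs_of_nonpos (by linarith [h.2])] at this
      linarith [not_le.1 h']
  obtain ⟨r2, r20, h2⟩ := Metric.eventually_nhds_iff.1 ((isCompact_Icc : IsCompact J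
    ).eventually_forall_of_forall_eventually (x₀ := ((0, 0) : ℝ × ℂ))
    (P := fun p θ => 0 < p.1 → (P.lam (P.A p.1 p.2 (1 / 4) (ce (2 * θ)))).1 ∈ L.E) fun θ hθ => by
      obtain ⟨t, ht, t0, tl, -⟩ := P.lim hδ (x := 0) (σ := 1 / 4) (by simp) (by simp) (J1 hθ)
      exact (show ContinuousAt (fun p : (ℝ × ℂ) × ℝ => (p.1.1, p.1.2, (1 / 4 : ℝ), p.2)) ((0, 0), θ)
        by fun_prop).eventually (eventually_nhdsWithin_iff.1 (tl.fst_nhds.eventually (L.opn.mem_nhds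
          (L.up θ (J1 hθ) t ⟨t0 (mul_pos (by norm_num) (Real.sin_pos_of_pos_of_lt_pi
            (by linarith [hθ.1]) (by linarith [hθ.2]))), ht.2⟩)))))
  obtain ⟨r, r0, ra, rb, rc⟩ : ∃ r : ℝ, 0 < r ∧ r ≤ r1 ∧ r ≤ r2 ∧ r ≤ 1 / 2 :=
    ⟨min r1 (min r2 (1 / 2)), by positivity, min_le_left _ _,
      (min_le_right _ _).trans (min_le_left _ _), (min_le_right _ _).trans (min_le_right _ _)⟩
  obtain ⟨x0, bs, x0r⟩ := ((L.base (r1 / 4) (by positivity)).and_eventually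
    (ball_mem_nhds 0 r0)).exists
  filter_upwards [ball_mem_nhds 0 r0] with x xr ψ hψ
  rw [mem_ball_zero_iff] at xr
  rw [dist_zero_right] at x0r
  set K := {x0} ×ˢ Icc (0 : ℝ) (1 / 4) ∪ closedBall (0 : ℂ) (max ‖x0‖ ‖x‖) ×ˢ {(1 / 4 : ℝ)} with hK
  have K1 : ∀ s ∈ K, ‖s.1‖ < r ∧ s.2 ∈ Icc (0 : ℝ) (1 / 4) := by
    rintro s (⟨a, b⟩ | ⟨a, b⟩)
    · exact ⟨by rw [a]; exact x0r, b⟩
    · exact ⟨(mem_closedBall_zero_iff.1 a).trans_lt (max_lt x0r xr), by rw [b]; simp⟩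
  have xK : (x, (1 / 4 : ℝ)) ∈ K := Or.inr ⟨mem_closedBall_zero_iff.2 (le_max_right _ _), rfl⟩
  have eva := ((isCompact_closedBall (0 : ℂ) (1 / 2)).prod ((isCompact_Icc (a := (0 : ℝ))
    (b := 1 / 4)).prod (isCompact_Icc (a := 0) (b := π)))).eventually_forall_of_forall_eventually
    (x₀ := (0 : ℝ)) (P := fun η p => 0 < η → P.A η p.1 p.2.1 (ce (2 * p.2.2)) ∈ P.D) fun p hp => by
      obtain ⟨t, -, -, -, h⟩ := P.lim hδ (mem_closedBall_zero_iff.1 hp.1) hp.2.1 hp.2.2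
      exact eventually_nhdsWithin_iff.1 h
  have evc := ((isCompact_singleton (x := x0)).prod ((isCompact_Icc (a := (0 : ℝ))
    (b := 1 / 4)).prod (isCompact_Icc : IsCompact J))).eventually_forall_of_forall_eventually
    (x₀ := (0 : ℝ)) (P := fun η p => 0 < η → (P.lam (P.A η p.1 p.2.1 (ce (2 * p.2.2)))).1 ∈ L.E)
    fun p hp => by
      obtain ⟨x, σ, θ⟩ := p
      obtain ⟨rfl, hσ, hθ⟩ := hp
      obtain ⟨t, ht, -, tl, -⟩ := P.lim hδ (x0r.le.trans rc) hσ (J1 hθ)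
      exact eventually_nhdsWithin_iff.1 (tl.fst_nhds.eventually (L.opn.mem_nhds (bs θ hθ t ht)))
  have ev : ∀ᶠ η in 𝓝[>] (0 : ℝ), η ∈ Ioc (0 : ℝ) 1 ∧ ∀ s ∈ K, ∀ θ ∈ Icc 0 π,
      P.A η s.1 s.2 (ce (2 * θ)) ∈ P.D ∧
      (θ ∈ J → (P.lam (P.A η s.1 s.2 (ce (2 * θ)))).1 ∈ L.E) ∧
      ((P.lam (P.A η s.1 s.2 (ce (2 * θ)))).1 ∈ L.E ∨
        P.A η s.1 s.2 (ce (2 * θ)) ∈ ball (P.β (0, 1)) μ) := by
    filter_upwards [Ioo_mem_nhdsGT r0, nhdsWithin_le_nhds eva, nhdsWithin_le_nhds evc]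
      with η hη ha hc
    refine ⟨⟨hη.1, by linarith [hη.2]⟩, fun s hs θ hθ => ?_⟩
    obtain ⟨k1, k2⟩ := K1 s hs
    have e1 : |η| < r := abs_lt.2 ⟨by linarith [hη.1], hη.2⟩
    have k3 : θ ∈ J → (P.lam (P.A η s.1 s.2 (ce (2 * θ)))).1 ∈ L.E := fun h => by
      rcases hs with ⟨a, b⟩ | ⟨a, b⟩
      · exact hc (s.1, s.2, θ) ⟨a, b, h⟩ hη.1
      · rw [b]
        exact h2 (y := (η, s.1)) (by simp [Prod.dist_eq]; constructor <;> linarith) θ h hη.1
    refine ⟨ha (s.1, s.2, θ) ⟨mem_closedBall_zero_iff.2 (by linarith), k2, hθ⟩ hη.1, k3,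
      (em (θ ∈ J)).imp k3 fun h => h1 (η, s.1, ce (2 * θ)) ?_ _ k2⟩
    simp only [Prod.dist_eq, dist_zero_right, max_lt_iff, Real.norm_eq_abs, Complex.dist_eq]
    exact ⟨by linarith, by linarith, J2 θ hθ h⟩
  have cψ : Continuous fun θ : ℝ => ψ (ce (2 * θ)) := hψ.continuousOn_ball.comp_continuous
    (by fun_prop) fun θ => by simp [mid_norm_ce]
  have sub : uIoc 0 π ⊆ Icc 0 π := by rw [uIoc_of_le Real.pi_pos.le]; exact Ioc_subset_Icc_self
  refine tendsto_nhds_unique (intervalIntegral.tendsto_integral_filter_of_dominated_convergence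
    (l := 𝓝[>] (0 : ℝ))
    (F := fun η θ => H (P.A η x (1 / 4) (ce (2 * θ))) * ψ (ce (2 * θ)) * ce (2 * θ))
    (fun θ => M * ‖ψ (ce (2 * θ))‖) (ev.mono fun η h => ContinuousOn.aestronglyMeasurable
      (fun θ hθ => ?_) measurableSet_uIoc) (ev.mono fun η h => Eventually.of_forall fun θ hθ => ?_)
    ((cψ.norm.const_mul M).intervalIntegrable _ _) (Eventually.of_forall fun θ hθ => ?_))
    (tendsto_const_nhds.congr' (ev.mono fun η h => ?_))
  · obtain ⟨a, -, b⟩ := h.2 _ xK θ (sub hθ)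
    exact ((((hH _ a b).1.continuousAt.comp (f := fun θ => P.A η x (1 / 4) (ce (2 * θ)))
      ((P.A_cd (Ioc_subset_Icc_self h.1) (by linarith) (mid_norm_ce _).le).continuousAt.comp
        (f := fun θ : ℝ => (η, x, (1 / 4 : ℝ), ce (2 * θ))) (by fun_prop))).mul
      cψ.continuousAt).mul (by fun_prop)).continuousWithinAt
  · obtain ⟨a, -, b⟩ := h.2 _ xK θ (sub hθ)
    rw [norm_mul, norm_mul, mid_norm_ce, mul_one]
    exact mul_le_mul_of_nonneg_right (hH _ a b).2 (norm_nonneg _)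
  · refine (Tendsto.mul_const _ ?_).mul_const _
    have tp : Tendsto (fun η : ℝ => (η, x, (1 / 4 : ℝ), θ)) (𝓝[>] 0)
        (𝓝[{p | 0 < p.1}] (0, x, 1 / 4, θ)) := tendsto_nhdsWithin_iff.2
      ⟨(Continuous.tendsto (by fun_prop) _).mono_left nhdsWithin_le_nhds, self_mem_nhdsWithin⟩
    by_cases hθ' : θ ∈ J
    · obtain ⟨t, ht, -, tl, -⟩ := P.lim hδ (xr.le.trans rc) (σ := 1 / 4) (by simp) (sub hθ)
      have t1 : ‖x‖ + |t| ≤ 4 := by linarith [abs_of_nonneg ht.1, ht.2]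
      have t2 : ‖(P.Φ (t, x, θ, 0)).1‖ < 5 := (P.pos_le (by linarith)).trans_lt (by linarith)
      have t3 := tl.comp tp
      have t4 := (L.cU (P.y x θ t) t2.le (mid_norm_ce _).le).continuousAt.tendsto
      have e : L.B (x, θ) = L.U (P.y x θ t) := by
        rw [← L.flow hδ (t1.trans (by norm_num))]
        refine tendsto_nhds_unique_of_eventuallyEq ((L.cB (_, _) t2.le).continuousAt.tendsto.comp
          (t3.fst_nhds.prodMk_nhds tendsto_const_nhds))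
          (t4.comp (t3.fst_nhds.prodMk_nhds tendsto_const_nhds)) ?_
        filter_upwards [ev, t3.fst_nhds.norm.eventually (gt_mem_nhds t2)] with η a b
        exact L.ext _ ((a.2 _ xK θ (sub hθ)).2.1 hθ') b.le _
      rw [e]
      exact (t4.comp t3).congr' (ev.mono fun η a => (hU _ ((a.2 _ xK θ (sub hθ)).2.1 hθ')).symm)
    · refine (hB x θ (by linarith) ?_).comp (tendsto_nhdsWithin_iff.2
        ⟨?_, ev.mono fun η a => (a.2 _ xK θ (sub hθ)).1⟩)
      · rw [← P.A_zero x 0]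
        refine h1 (0, x, ce (2 * θ)) ?_ 0 (by simp)
        simp only [Prod.dist_eq, dist_zero_right, max_lt_iff, norm_zero, Complex.dist_eq]
        exact ⟨r10, by linarith, J2 θ (sub hθ) hθ'⟩
      · rw [← P.A_zero x (1 / 4)]
        exact ((P.A_cd (η := 0) (by simp) (by linarith) (mid_norm_ce _).le).continuousAt.comp
          (f := fun η : ℝ => (η, x, (1 / 4 : ℝ), ce (2 * θ))) (by fun_prop)).tendsto.mono_left
          nhdsWithin_le_nhds
  · have n1 : ∀ w : ℂ, ‖w‖ ≤ 1 → ‖(1 - (η : ℂ)) * w‖ < 1 := fun w hw => by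
      rw [norm_mul, ← ofReal_one, ← ofReal_sub, norm_real, Real.norm_of_nonneg (sub_nonneg.2 h.1.2)]
      nlinarith [h.1.1, h.1.2, norm_nonneg w]
    refine (moments (K := K) ((isCompact_singleton.prod isCompact_Icc).union
      ((isCompact_closedBall _ _).prod isCompact_singleton))
      ((isPreconnected_singleton.prod isPreconnected_Icc).union (x0, 1 / 4) ⟨rfl, by simp⟩
        ⟨mem_closedBall_zero_iff.2 (le_max_left _ _), rfl⟩
        ((convex_closedBall _ _).isPreconnected.prod isPreconnected_singleton))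
      (D := P.D ∩ {q | (P.lam q).1 ∈ L.E ∨ q ∈ ball (P.β (0, 1)) μ})
      (isOpen_iff_mem_nhds.2 fun q hq => inter_mem (P.D_open.mem_nhds hq.1) (hq.2.elim
        (fun h => ((P.lam_diff hq.1).continuousAt.fst.eventually (L.opn.mem_nhds h)).mono
          fun _ => Or.inl) fun h => mem_of_superset (isOpen_ball.mem_nhds h) fun _ => Or.inr))
      (fun q hq => (hH q hq.1 hq.2).1.differentiableWithinAt)
      (A := fun p => P.A η p.1.1 p.1.2 p.2) (fun p hp => ?_) (fun s hs w hw => ?_)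
      (fun s hs w hw => ?_) (s0 := (x0, 0)) (Or.inl ⟨rfl, by simp⟩) (fun w hw => ?_) hψ _ xK).symm
    · exact ((P.A_cd (Ioc_subset_Icc_self h.1) (by linarith [(K1 _ hp.1).1])
        (mem_closedBall_zero_iff.1 hp.2)).continuousAt.comp
        (f := fun p : (ℂ × ℝ) × ℂ => (η, p.1.1, p.1.2, p.2)) (by fun_prop)).continuousWithinAt
    · have k := (K1 _ hs).1
      have hw := (mem_ball_zero_iff.1 hw).le
      have n2 : ‖s.1 + η‖ ≤ 5 := (norm_add_le _ _).trans (by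
        rw [norm_real, Real.norm_of_nonneg h.1.1.le]; linarith [h.1.2])
      have n3 : ‖s.1‖ ≤ 5 := by linarith
      exact (((P.β_hol n3 (n1 w hw).le).comp w (by fun_prop)).add (((P.β_hol n2 hw).sub
        (P.β_hol n3 hw)).const_smul ((s.2 : ℂ) * I))).differentiableWithinAt
    · obtain ⟨θ, hθ, rfl⟩ := disc_surj hw
      exact ⟨(h.2 s hs θ hθ).1, (h.2 s hs θ hθ).2.2⟩
    · have m : (x0, (1 - (η : ℂ)) * w) ∈ closedBall (0 : ℂ × ℂ) 5 :=
        mid_ball.2 ⟨by linarith, by linarith [n1 w hw]⟩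
      have s := (P.sgn _ m).1.2 (n1 w hw)
      have e := (congrArg b0i (P.key _ m)).trans (mid_b0i_b0 s)
      simp only [Pkg.A, ofReal_zero, zero_mul, zero_smul, add_zero]
      refine ⟨⟨?_, by rw [P.key _ m]; exact s, ?_⟩, Or.inl ?_⟩
      · linarith [norm_le_norm_sub_add (P.β (x0, (1 - (η : ℂ)) * w)) (b0 (x0, (1 - (η : ℂ)) * w)),
          mid_b0_norm m, (P.nβ _ m).2.1]
      · rw [e]
        linarith [norm_le_norm_sub_add (P.Θ' (x0, (1 - (η : ℂ)) * w)).1 x0, P.nΘ'.fst m]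
      · rw [Pkg.lam, e, P.linv _ m]
        simpa [P.flow.zero] using bs (π / 2) ⟨by linarith [Real.pi_gt_three],
          by linarith [Real.pi_gt_three]⟩ 0 (by simp)

end Pool.Agent.Lib.MP_0cc5e8_gt
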