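import Pool.Agent.Lib.MP_0cc5e8_gt.Mid

/-! The interior of the twistor space, and discs pushed into it. -/

namespace Pool.Agent.Lib.MP_0cc5e8_gt

open Complex Set Filter Topology Metric
open scoped ComplexConjugate ContDiff Real

variable {κ : ℂ → Co} {δ : ℝ}

noncomputable def Pkg.lam (P : Pkg κ δ) (q : ℂ × ℂ) : ℂ × ℂ := P.Θ (b0i (P.Ψ q))

def Pkg.D (P : Pkg κ δ) : Set (ℂ × ℂ) :=
  {q | ‖q‖ < 40 ∧ ‖(P.Ψ q).1‖ < 1 ∧ ‖(b0i (P.Ψ q)).1‖ < 6 / 5}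

lemma disc_b0i (q : ℂ × ℂ) : b0i q = (-(q.2 + q.1 * conj q.2) * (1 - q.1 * conj q.1)⁻¹, q.1) := by
  rw [Complex.mul_conj', ← div_eq_mul_inv]; rfl

lemma disc_b0i_diff {q : ℂ × ℂ} (h : ‖q.1‖ < 1) : DifferentiableAt ℝ b0i q := by
  have h1 : (1 - (‖q.1‖ : ℂ) ^ 2) ≠ 0 := by
    have : (1 - ‖q.1‖ ^ 2 : ℝ) ≠ 0 := by nlinarith [norm_nonneg q.1]
    exact_mod_cast this
  have c1 := conjCLE.differentiable.comp (differentiable_fst (𝕜 := ℝ) (E := ℂ) (F := ℂ))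
  have c2 := conjCLE.differentiable.comp (differentiable_snd (𝕜 := ℝ) (E := ℂ) (F := ℂ))
  rw [funext disc_b0i]
  exact ((differentiableAt_snd.add (differentiableAt_fst.mul (c2 q))).neg.mul
    (((differentiableAt_fst.mul (c1 q)).const_sub 1).inv
      (by simpa [Complex.mul_conj'] using h1))).prodMk differentiableAt_fst

lemma Pkg.D_mem (P : Pkg κ δ) {q : ℂ × ℂ} (h : q ∈ P.D) {R : ℝ} (hR : 6 / 5 ≤ R) :
    b0i (P.Ψ q) ∈ closedBall (0 : ℂ × ℂ) R :=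
  mid_ball.2 ⟨h.2.2.le.trans hR, h.2.1.le.trans (by linarith)⟩

lemma Pkg.Ψ_diff (P : Pkg κ δ) {q : ℂ × ℂ} (h : ‖q‖ < 40) : DifferentiableAt ℝ P.Ψ q :=
  (P.nΨ q (mem_closedBall_zero_iff.2 h.le)).1.differentiableAt one_ne_zero

lemma Pkg.D_open (P : Pkg κ δ) : IsOpen P.D := isOpen_iff_mem_nhds.2 fun q h => by
  have h1 := (P.Ψ_diff h.1).continuousAt
  filter_upwards [continuous_norm.continuousAt.eventually (gt_mem_nhds h.1),
    h1.fst.norm.eventually (gt_mem_nhds h.2.1),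
    ((disc_b0i_diff h.2.1).continuousAt.comp h1).fst.norm.eventually (gt_mem_nhds h.2.2)] with x a b c
  exact ⟨a, b, c⟩

lemma Pkg.lam_diff (P : Pkg κ δ) {q : ℂ × ℂ} (h : q ∈ P.D) : DifferentiableAt ℝ P.lam q :=
  ((P.nΘ _ (P.D_mem h (by norm_num))).1.differentiableAt one_ne_zero).comp q
    ((disc_b0i_diff h.2.1).comp q (P.Ψ_diff h.1))

lemma Pkg.lam_spec (P : Pkg κ δ) (hδ : δ ≤ 1 / 10 ^ 6) {q : ℂ × ℂ} (h : q ∈ P.D) :
    P.β (P.lam q) = q ∧ ‖(P.lam q).1‖ ≤ 13 / 10 ∧ ‖(P.lam q).2‖ < 1 := by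
  obtain ⟨a, b, -⟩ := P.up hδ (mem_closedBall_zero_iff.2 h.1.le) (P.D_mem h (by norm_num))
    (mid_b0_b0i h.2.1)
  refine ⟨a, ?_, b.1 h.2.1⟩
  have := P.nΘ.fst (P.D_mem h (by norm_num))
  have := norm_le_norm_sub_add (P.Θ (b0i (P.Ψ q))).1 (b0i (P.Ψ q)).1
  simp only [Pkg.lam]
  linarith [h.2.2]

lemma Loc.ext_hol {P : Pkg κ δ} (L : Loc P) (hδ : δ ≤ 1 / 10 ^ 6) {q : ℂ × ℂ} (h : q ∈ P.D)
    (hE : (P.lam q).1 ∈ L.E) : DifferentiableAt ℂ (fun q => L.U (P.lam q)) q := by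
  obtain ⟨-, s1, s2⟩ := P.lam_spec hδ h
  obtain ⟨⟨d1, a1, b1, e1⟩, d2, a2, b2, e2⟩ := P.sol (P.lam q) (by linarith) s2.le
  obtain ⟨d3, a3, b3, e3⟩ := L.solU (P.lam q) hE (by linarith) s2.le
  have dl := (P.lam_diff h).hasFDerivAt
  have ev : (fun q => P.β (P.lam q)) =ᶠ[𝓝 q] id :=
    mem_of_superset (P.D_open.mem_nhds h) fun x hx => (P.lam_spec hδ hx).1
  have f1 := (d1.hasFDerivAt.comp q dl).unique (hasFDerivAt_fst.congr_of_eventuallyEq
    (ev.mono fun x hx => congrArg Prod.fst hx))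
  have f2 := (d2.hasFDerivAt.comp q dl).unique (hasFDerivAt_snd.congr_of_eventuallyEq
    (ev.mono fun x hx => congrArg Prod.snd hx))
  have g1 := fun v => (e1 _).symm.trans (DFunLike.congr_fun f1 v)
  have g2 := fun v => (e2 _).symm.trans (DFunLike.congr_fun f2 v)
  simp only [ContinuousLinearMap.coe_fst', ContinuousLinearMap.coe_snd', zero_mul, add_zero]
    at g1 g2
  have hd : a1 * b2 - a2 * b1 ≠ 0 := fun hd => by
    have k1 := g1 (1, 0)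
    have k2 : b2 = 0 := by
      linear_combination -b2 * k1 + b1 * g2 (1, 0) + lam1 _ (fderiv ℝ P.lam q (1, 0)) * hd
    have k3 : a1 = 0 := by
      linear_combination a2 * g1 (0, 1) - a1 * g2 (0, 1) + lam2 _ (fderiv ℝ P.lam q (0, 1)) * hd
    have k4 : b1 = 0 := by
      linear_combination b2 * g1 (0, 1) - b1 * g2 (0, 1) - lam1 _ (fderiv ℝ P.lam q (0, 1)) * hd
    simp [k3, k4] at k1
  refine (hasFDerivAt_of_restrictScalars ℝ (f' := ((a3 * b2 - b3 * a2) / (a1 * b2 - a2 * b1)) •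
    ContinuousLinearMap.fst ℂ ℂ ℂ + ((b3 * a1 - a3 * b1) / (a1 * b2 - a2 * b1)) •
    ContinuousLinearMap.snd ℂ ℂ ℂ) (d3.hasFDerivAt.comp q dl)
    (ContinuousLinearMap.ext fun v => ?_)).differentiableAt
  simp only [ContinuousLinearMap.coe_restrictScalars', add_apply, smul_apply,
    ContinuousLinearMap.coe_fst', ContinuousLinearMap.coe_snd', smul_eq_mul,
    ContinuousLinearMap.comp_apply, e3]
  rw [div_mul_eq_mul_div, div_mul_eq_mul_div, ← add_div, div_eq_iff hd]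
  linear_combination (b3 * a2 - a3 * b2) * g1 v + (a3 * b1 - b3 * a1) * g2 v

lemma disc_quot {X V : Type} [NormedAddCommGroup X] [NormedSpace ℝ X] [NormedAddCommGroup V]
    [NormedSpace ℝ V] {G : ℝ × X → V} {x : X} (hG : ContDiffAt ℝ 1 G (0, x))
    (h0 : ∀ᶠ y in 𝓝 x, G (0, y) = 0) {v : V} (hv : HasDerivAt (fun η => G (η, x)) v 0) :
    Tendsto (fun p : ℝ × X => p.1⁻¹ • G p) (𝓝[{p | 0 < p.1}] (0, x)) (𝓝 v) := by
  have h1 := hG.hasStrictFDerivAt one_ne_zero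
  have e : fderiv ℝ G (0, x) (1, 0) = v := (h1.hasFDerivAt.comp_hasDerivAt (0 : ℝ)
    ((hasDerivAt_id (0 : ℝ)).prodMk (hasDerivAt_const _ x))).unique hv
  have t : Tendsto (fun p : ℝ × X => (p, ((0 : ℝ), p.2))) (𝓝 (0, x)) (𝓝 ((0, x), (0, x))) :=
    Continuous.tendsto' (by fun_prop) _ _ rfl
  refine Metric.tendsto_nhds.2 fun ε hε => ?_
  filter_upwards [self_mem_nhdsWithin, nhdsWithin_le_nhds ((h1.isLittleO.comp_tendsto t).def
    (half_pos hε)), nhdsWithin_le_nhds (continuous_snd.continuousAt.eventually h0)] with p a b c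
  have a' : 0 < p.1 := a
  have e1 : p - (0, p.2) = p.1 • ((1 : ℝ), (0 : X)) := by ext <;> simp
  simp only [Function.comp, e1, map_smul, e, c, sub_zero, norm_smul, Prod.norm_mk, norm_one,
    norm_zero, zero_le_one, sup_of_le_left, mul_one, Real.norm_of_nonneg a'.le] at b
  have e2 : p.1⁻¹ • G p - v = p.1⁻¹ • (G p - p.1 • v) := by
    rw [smul_sub, smul_smul, inv_mul_cancel₀ a'.ne', one_smul]
  rw [dist_eq_norm, e2, norm_smul, norm_inv, Real.norm_of_nonneg a'.le, inv_mul_lt_iff₀ a']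
  nlinarith

lemma disc_sol {k : Co} {W : ℂ × ℂ → ℂ} {x : ℂ} {θ : ℝ} (h : Sol k W (x, ce (2 * θ)) 0) :
    fderiv ℝ W (x, ce (2 * θ)) (ce θ, 2 * (ba k θ).im * I * ce (2 * θ)) = 0 ∧
    I * fderiv ℝ W (x, ce (2 * θ)) (1, 0) =
      (2 * (ba k θ).im * Real.cos θ : ℝ) * fderiv ℝ W (x, ce (2 * θ)) (0, ce (2 * θ)) -
      Real.sin θ * (I * fderiv ℝ W (x, ce (2 * θ)) (I * ce θ, 0)) := by
  obtain ⟨-, a, b, e⟩ := h
  have h0 := flow_ce_ne θ
  have q : qk k (ce θ ^ 2) = 2 * I * (ba k θ).im * ce θ ^ 3 := by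
    rw [flow_im_eq, flow_conj_ba, flow_ba_eq, qk]; field_simp; ring
  have c : ce θ = Real.cos θ + Real.sin θ * I := by simp [ce, exp_mul_I]
  have c' : (ce θ)⁻¹ = Real.cos θ - Real.sin θ * I := by
    rw [← flow_conj_ce, c]; simp [sub_eq_add_neg, -ofReal_cos, -ofReal_sin]
  have m := mul_inv_cancel₀ h0
  simp only [e]
  simp only [lam1, lam2, flow_ce_two, q, map_mul, conj_I, flow_conj_ce, map_one, map_zero,
    ofReal_mul, ofReal_ofNat]
  generalize (ce θ)⁻¹ = f at *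
  generalize ce θ = g at *
  constructor
  · linear_combination (-a * g - b * 2 * I * (ba k θ).im * g ^ 2) * m
  · linear_combination (a * (Real.sin θ * I ^ 2 * g - I) +
      2 * b * (ba k θ).im * g ^ 2 * Real.sin θ * I ^ 3) * m + a * I * g * c' -
      (a * I * g + 2 * b * (ba k θ).im * g ^ 2 * I ^ 2) * c -
      2 * b * (ba k θ).im * g ^ 2 * Real.cos θ * I_mul_I

end Pool.Agent.Lib.MP_0cc5e8_gt
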