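import Pool.Agent.Lib.MP_0cc5e8_gt.DiscA

/-! The boundary of the pushed discs converges to points of the forward geodesic. -/

namespace Pool.Agent.Lib.MP_0cc5e8_gt

open Complex Set Filter Topology Metric
open scoped ComplexConjugate ContDiff Real

variable {κ : ℂ → Co} {δ : ℝ}

lemma disc_alg {z u e : ℂ} {V0 V1 V : ℂ × ℂ} {k s : ℝ} (hu : ‖u‖ = 1) (he : ‖e‖ = 1) (hz : ‖z‖ ≤ 1)
    (h0 : ‖V0.1 - e * e‖ ≤ 1 / 10 ^ 5) (h1 : ‖V1 - (0, 2 * e)‖ ≤ 1 / 10 ^ 5)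
    (h2 : ‖u - e * e‖ ≤ 1 / 10 ^ 5)
    (hp : (V0.2 - conj z * V0.1) + u * conj (V0.2 - conj z * V0.1) = 0) (hk : |k - 1| ≤ 1 / 100)
    (s0 : 0 ≤ s) (s1 : s ≤ 1 / 4) (hV : V = -(k • V0) - s • V1) :
    ∃ d : ℝ, 0 < d ∧ -(V.1 * conj u + u * conj V.1) = d ∧ ∃ g : ℂ,
      -(V.2 + (V.1 * conj (b0 (z, u)).2 + u * conj V.2)) = d * (z + g) ∧
      b0 (z + g, u) = b0 (z, u) ∧ ‖g‖ ≤ 6 / 10 ∧ s ≤ (g * conj e).re := by
  have uu := Complex.mul_conj' u
  have ee := Complex.mul_conj' e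
  rw [hu] at uu
  rw [he] at ee
  push_cast at uu ee
  have a1 : ‖V1.1‖ ≤ 1 / 10 ^ 5 := by simpa using (norm_fst_le _).trans h1
  have a2 : ‖V1.2 - 2 * e‖ ≤ 1 / 10 ^ 5 := (norm_snd_le (V1 - (0, 2 * e))).trans h1
  have r1 : |(V0.1 * conj u).re - 1| ≤ 2 / 10 ^ 5 := by
    have : (V0.1 * conj u).re - 1 = ((V0.1 - u) * conj u).re := by rw [sub_mul, uu]; simp
    rw [this]
    refine (abs_re_le_norm _).trans ?_
    rw [norm_mul, norm_conj, hu, mul_one]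
    linarith [norm_sub_le_norm_sub_add_norm_sub V0.1 (e * e) u, norm_sub_rev u (e * e)]
  have r2 : |(V1.1 * conj u).re| ≤ 1 / 10 ^ 5 :=
    (abs_re_le_norm _).trans (by rwa [norm_mul, norm_conj, hu, mul_one])
  obtain ⟨d, hd⟩ : ∃ d, d = 2 * k * (V0.1 * conj u).re + 2 * s * (V1.1 * conj u).re := ⟨_, rfl⟩
  obtain ⟨r3, r4⟩ := abs_le.1 r1
  obtain ⟨r5, r6⟩ := abs_le.1 r2
  obtain ⟨k1, k2⟩ := abs_le.1 hk
  have d1 : 19 / 10 ≤ d := by nlinarith
  have d2 : d ≤ 21 / 10 := by nlinarith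
  have d0 : (d : ℂ) ≠ 0 := by exact_mod_cast (by linarith : d ≠ 0)
  have e1 : -(V.1 * conj u + u * conj V.1) = d := by
    have b1 := add_conj (V0.1 * conj u)
    have b2 := add_conj (V1.1 * conj u)
    simp only [hV, hd, Prod.fst_sub, Prod.fst_neg, Prod.smul_fst, real_smul, map_sub, map_neg,
      map_mul, conj_ofReal, conj_conj, ofReal_add, ofReal_mul, ofReal_ofNat] at b1 b2 ⊢
    linear_combination k * b1 + s * b2
  set Y := V1.2 - conj z * V1.1 with hY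
  have y1 : ‖Y - 2 * e‖ ≤ 2 / 10 ^ 5 := by
    rw [show Y - 2 * e = V1.2 - 2 * e - conj z * V1.1 by ring]
    refine (norm_sub_le _ _).trans ?_
    rw [norm_mul, norm_conj]
    nlinarith [norm_nonneg z, norm_nonneg V1.1]
  have y2 : ‖Y + u * conj Y - 4 * e‖ ≤ 1 / 100 := by
    rw [show Y + u * conj Y - 4 * e = Y - 2 * e + u * conj (Y - 2 * e) + 2 * (u - e * e) * conj e by
      simp only [map_sub, map_mul, map_ofNat]; linear_combination 2 * e * ee]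
    refine (norm_add₃_le).trans ?_
    simp only [norm_mul, norm_conj, hu, he, Complex.norm_ofNat]
    linarith
  have y3 := norm_le_norm_sub_add (Y + u * conj Y) (4 * e)
  have y4 : 39 / 10 ≤ ((Y + u * conj Y) * conj e).re := by
    have := abs_le.1 (abs_re_le_norm ((Y + u * conj Y - 4 * e) * conj e))
    rw [norm_mul, norm_conj, he, sub_mul, mul_assoc 4, ee, sub_re] at this
    norm_num at this ⊢
    linarith [this.1]
  have sd : 0 ≤ s / d := by positivity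
  have sd1 : s / d * d = s := div_mul_cancel₀ _ (by linarith)
  refine ⟨d, by linarith, e1, (s / d : ℝ) * (Y + u * conj Y), ?_, Prod.ext rfl ?_, ?_, ?_⟩
  · rw [mul_add, ← mul_assoc, ← ofReal_mul, mul_comm d, sd1, ← e1]
    simp only [hV, hY, b0, Prod.fst_sub, Prod.fst_neg, Prod.smul_fst, Prod.snd_sub, Prod.snd_neg,
      Prod.smul_snd, real_smul, map_sub, map_neg, map_mul, conj_ofReal, conj_conj] at hp ⊢
    linear_combination k * hp
  · simp only [b0, map_add, map_mul, conj_ofReal, conj_conj]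
    linear_combination ((s / d : ℝ) : ℂ) * Y * uu
  · rw [norm_mul, norm_real, Real.norm_of_nonneg sd]
    simp only [norm_mul, he, Complex.norm_ofNat] at y3
    nlinarith [norm_nonneg (Y + u * conj Y)]
  · rw [mul_assoc, re_ofReal_mul]
    nlinarith

noncomputable def Pkg.A (P : Pkg κ δ) (η : ℝ) (x : ℂ) (σ : ℝ) (w : ℂ) : ℂ × ℂ :=
  P.β (x, (1 - η) * w) + ((σ : ℂ) * I) • (P.β (x + η, w) - P.β (x, w))

lemma Pkg.A_zero (P : Pkg κ δ) (x : ℂ) (σ : ℝ) (w : ℂ) : P.A 0 x σ w = P.β (x, w) := by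
  simp [Pkg.A]

lemma Pkg.A_cd (P : Pkg κ δ) {η σ : ℝ} {x w : ℂ} (hη : η ∈ Icc (0 : ℝ) 1) (hx : ‖x‖ ≤ 1)
    (hw : ‖w‖ ≤ 1) :
    ContDiffAt ℝ 1 (fun p : ℝ × ℂ × ℝ × ℂ => P.A p.1 p.2.1 p.2.2.1 p.2.2.2) (η, x, σ, w) := by
  have r : ContDiff ℝ 1 fun a : ℝ => (a : ℂ) := ofRealCLM.contDiff
  have b : ∀ y : ℂ × ℂ, ‖y.1‖ ≤ 5 → ‖y.2‖ ≤ 5 → ContDiffAt ℝ 1 P.β y := fun y h1 h2 =>
    (P.nβ y (mid_ball.2 ⟨h1, h2⟩)).1.of_le (by norm_num)
  have n1 : ‖(1 - (η : ℂ)) * w‖ ≤ 5 := by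
    have := norm_sub_le (1 : ℂ) η
    rw [norm_real, Real.norm_of_nonneg hη.1, norm_one] at this
    rw [norm_mul]; nlinarith [hη.2, norm_nonneg w, norm_nonneg (1 - (η : ℂ))]
  have n2 : ‖x + η‖ ≤ 5 := (norm_add_le _ _).trans (by
    rw [norm_real, Real.norm_of_nonneg hη.1]; linarith [hη.2])
  exact ((b (x, (1 - η) * w) (by linarith) n1).comp (η, x, σ, w)
    (f := fun p : ℝ × ℂ × ℝ × ℂ => (p.2.1, (1 - p.1) * p.2.2.2)) (by fun_prop)).add
    (ContDiffAt.smul (f := fun p : ℝ × ℂ × ℝ × ℂ => (p.2.2.1 : ℂ) * I) (by fun_prop) (((b (x + η, w) n2 (by linarith)).comp (η, x, σ, w)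
      (f := fun p : ℝ × ℂ × ℝ × ℂ => (p.2.1 + p.1, p.2.2.2)) (by fun_prop)).sub
      ((b (x, w) (by linarith) (by linarith)).comp (η, x, σ, w)
        (f := fun p : ℝ × ℂ × ℝ × ℂ => (p.2.1, p.2.2.2)) (by fun_prop))))

theorem Pkg.lim (P : Pkg κ δ) (hδ : δ ≤ 1 / 10 ^ 6) {x : ℂ} {σ θ : ℝ} (hx : ‖x‖ ≤ 1 / 2)
    (hσ : σ ∈ Icc (0 : ℝ) (1 / 4)) (hθ : θ ∈ Icc 0 π) :
    ∃ t ∈ Icc (0 : ℝ) 3, (0 < σ * Real.sin θ → 0 < t) ∧
      Tendsto (fun p : ℝ × ℂ × ℝ × ℝ => P.lam (P.A p.1 p.2.1 p.2.2.1 (ce (2 * p.2.2.2))))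
        (𝓝[{p | 0 < p.1}] (0, x, σ, θ)) (𝓝 (P.y x θ t)) ∧
      ∀ᶠ p : ℝ × ℂ × ℝ × ℝ in 𝓝[{p | 0 < p.1}] (0, x, σ, θ),
        P.A p.1 p.2.1 p.2.2.1 (ce (2 * p.2.2.2)) ∈ P.D := by
  have δ0 := P.δ0
  have mem : ∀ {z : ℂ} (θ : ℝ), ‖z‖ ≤ 5 → (z, ce (2 * θ)) ∈ closedBall (0 : ℂ × ℂ) 5 :=
    fun θ hz => mid_ball.2 ⟨hz, by simp [mid_norm_ce]⟩
  have m0 := mem θ (show ‖x‖ ≤ 5 by linarith)
  obtain ⟨b1, b2, b3⟩ := P.nβ _ m0
  obtain ⟨c1, -, c3⟩ := P.nΨ _ (P.β_mem hδ m0)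
  have dβ := (b1.differentiableAt (by norm_num)).hasFDerivAt
  have dΨ := (c1.differentiableAt one_ne_zero).hasFDerivAt
  obtain ⟨s1, s2⟩ := P.sol (x, ce (2 * θ)) (by linarith) (mid_norm_ce _).le
  have t1 := disc_sol s1
  have t2 := disc_sol s2
  rw [dβ.fst.fderiv] at t1
  rw [dβ.snd.fderiv] at t2
  have k0 := P.key _ m0
  have kd := (dΨ.comp _ dβ).unique (((show DifferentiableAt ℝ b0 _ by
    unfold b0; fun_prop).hasFDerivAt.comp _ ((P.nΘ' _ m0).1.differentiableAt one_ne_zero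
    ).hasFDerivAt).congr_of_eventuallyEq (mem_of_superset (isOpen_ball.mem_nhds (mem_ball_zero_iff.2
      (max_lt (by linarith) (by simp [mid_norm_ce])))) fun y hy =>
        P.key y (ball_subset_closedBall hy)))
  have u0 := (P.sgn _ m0).2.2 (mid_norm_ce _)
  have u1 := P.nΘ'.snd m0
  have z1 := P.nΘ'.fst m0
  have cF : ContDiffAt ℝ 1 (fun p : ℝ × ℂ × ℝ × ℝ => P.A p.1 p.2.1 p.2.2.1 (ce (2 * p.2.2.2)))
      (0, x, σ, θ) := (P.A_cd (by simp) (by linarith) (mid_norm_ce _).le).comp (0, x, σ, θ)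
    (f := fun p : ℝ × ℂ × ℝ × ℝ => (p.1, p.2.1, p.2.2.1, ce (2 * p.2.2.2))) (by fun_prop)
  have cG := (P.A_zero x σ _ ▸ c1 :).comp (0, x, σ, θ) cF
  have w1 := mid_norm_ce (2 * θ)
  have w2 := mid_ce_two θ
  have e1 := mid_norm_ce θ
  have e2 := mid_ce_neg θ
  set w := ce (2 * θ) with hw
  set D := fderiv ℝ P.β (x, w)
  set M := fderiv ℝ P.Ψ (P.β (x, w))
  set a := (ba (κ x) θ).im
  set y0 := P.Θ' (x, w)
  simp only [ContinuousLinearMap.comp_apply, ContinuousLinearMap.coe_fst',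
    ContinuousLinearMap.coe_snd'] at t1 t2 u1 z1
  have eD : ∀ d, ‖D d - (d.2, conj d.1 * w + conj x * d.2 - d.1)‖ ≤ δ * ‖d‖ := fun d => by
    simpa only [sub_apply, b0_fderiv] using (D - fderiv ℝ b0 (x, w)).le_of_opNorm_le b3 d
  have eM : ∀ d, ‖M d - d‖ ≤ δ * ‖d‖ := fun d => by
    simpa using (M - fderiv ℝ id (P.β (x, w))).le_of_opNorm_le c3 d
  have ha : |a| ≤ δ := by
    have h1 := (norm_fst_le _).trans (eD (ce θ, 2 * a * I * w))
    have h2 : ‖2 * a * I * w‖ = 2 * |a| := by simp [w1]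
    simp only [Prod.fst_sub, t1.1, zero_sub, norm_neg, h2, Prod.norm_mk, e1] at h1
    rcases le_total 1 (2 * |a|) with h | h
    · rw [max_eq_right h] at h1; nlinarith
    · rw [max_eq_left h] at h1; linarith [abs_nonneg a]
  have v0 : ‖D (0, w) - (w, conj x * w)‖ ≤ δ := by simpa [w1] using eD (0, w)
  have v1 : ‖I • D (I * ce θ, 0) - (0, 2 * ce θ)‖ ≤ δ := by
    have h1 := eD (I * ce θ, 0)
    have : I • D (I * ce θ, 0) - (0, 2 * ce θ) = I • (D (I * ce θ, 0) -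
        (0, conj (I * ce θ) * w + conj x * 0 - I * ce θ)) := by
      refine Prod.ext (by simp) ?_
      simp only [Prod.snd_sub, Prod.smul_snd, smul_eq_mul, map_mul, conj_I, mid_conj_ce, w2]
      linear_combination (-2 * ce θ) * I_mul_I - I * I * ce θ * e2
    rw [this, norm_smul]
    simpa [e1] using h1
  have v2 : ‖D (0, w)‖ ≤ 2 := by
    have := norm_le_norm_sub_add (D (0, w)) (w, conj x * w)
    have h : ‖(w, conj x * w)‖ ≤ 1 := max_le w1.le (by simp [w1]; linarith)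
    linarith
  have v3 : ‖I • D (I * ce θ, 0)‖ ≤ 3 := by
    have := norm_le_norm_sub_add (I • D (I * ce θ, 0)) (0, 2 * ce θ)
    have h : ‖((0 : ℂ), 2 * ce θ)‖ ≤ 2 := by simp [e1]
    linarith
  have sn := Real.sin_nonneg_of_mem_Icc hθ
  have z2 : ‖y0.1‖ ≤ 1 / 2 + δ := by linarith [norm_le_norm_sub_add y0.1 x]
  obtain ⟨d, d0, d1, g, g1, g2, g3, g4⟩ := disc_alg (z := y0.1) (V0 := M (D (0, w)))
    (V1 := M (I • D (I * ce θ, 0))) (V := M (D (0, -w) + ((σ : ℂ) * I) • D (1, 0)))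
    (k := 1 - σ * (2 * a * Real.cos θ)) (s := σ * Real.sin θ) u0 e1 (by linarith)
    (by
      have h1 := (norm_fst_le _).trans (eM (D (0, w)))
      have h2 := (norm_fst_le _).trans v0
      have h3 := norm_sub_le_norm_sub_add_norm_sub (M (D (0, w))).1 (D (0, w)).1 w
      simp only [Prod.fst_sub] at h1 h2
      rw [← w2]; nlinarith)
    (by
      have h3 := norm_sub_le_norm_sub_add_norm_sub (M (I • D (I * ce θ, 0))) (I • D (I * ce θ, 0))
        (0, 2 * ce θ)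
      nlinarith [eM (I • D (I * ce θ, 0))])
    (by rw [← w2]; linarith)
    (by
      have h := DFunLike.congr_fun kd (0, w)
      have uu := Complex.mul_conj' y0.2
      simp only [ContinuousLinearMap.comp_apply, b0_fderiv] at h
      simp only [h, map_sub, map_add, map_mul, conj_conj, u0] at uu ⊢
      push_cast at uu
      linear_combination (fderiv ℝ P.Θ' (x, w) (0, w)).1 * uu)
    (by
      rw [sub_sub_cancel_left, abs_neg, abs_mul, abs_mul, abs_mul, abs_of_nonneg hσ.1, Nat.abs_ofNat]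
      nlinarith [mul_le_mul ha (Real.abs_cos_le_one θ) (abs_nonneg _) δ0, hσ.1, hσ.2,
        mul_nonneg (abs_nonneg a) (abs_nonneg (Real.cos θ))])
    (mul_nonneg hσ.1 sn) (by nlinarith [Real.sin_le_one θ, hσ.1, hσ.2])
    (by
      rw [← M.map_smul, ← M.map_smul, ← M.map_neg, ← M.map_sub,
        show ((0 : ℂ), -w) = -(0, w) by simp, D.map_neg]
      congr 1
      refine Prod.ext ?_ ?_ <;> simp only [Prod.fst_add, Prod.fst_sub, Prod.fst_neg, Prod.smul_fst,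
        Prod.snd_add, Prod.snd_sub, Prod.snd_neg, Prod.smul_snd, smul_eq_mul, real_smul,
        ofReal_sub, ofReal_one, ofReal_mul σ]
      · linear_combination σ * t1.2
      · linear_combination σ * t2.2)
  have hA : HasDerivAt (fun η : ℝ => P.A η x σ w) (D (0, -w) + ((σ : ℂ) * I) • D (1, 0)) 0 := by
    have r := (hasDerivAt_id (0 : ℝ)).ofReal_comp
    have h1 := dβ.comp_hasDerivAt_of_eq 0 ((hasDerivAt_const _ x).prodMk
      ((r.const_sub 1).mul_const w)) (by simp)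
    have h2 := dβ.comp_hasDerivAt_of_eq 0 ((r.const_add x).prodMk (hasDerivAt_const _ w)) (by simp)
    simp only [ofReal_one, neg_mul, one_mul] at h1 h2
    exact h1.add ((h2.sub_const (P.β (x, w))).const_smul ((σ : ℂ) * I))
  have hF := dΨ.comp_hasDerivAt_of_eq 0 hA (P.A_zero ..).symm
  have hq := disc_quot (x := (x, σ, θ)) (v := (-(d * (y0.1 + g)), (d : ℂ)))
    (G := fun p => ((P.Ψ (P.A p.1 p.2.1 p.2.2.1 (ce (2 * p.2.2.2)))).2 +
      (P.Ψ (P.A p.1 p.2.1 p.2.2.1 (ce (2 * p.2.2.2)))).1 *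
        conj (P.Ψ (P.A p.1 p.2.1 p.2.2.1 (ce (2 * p.2.2.2)))).2,
      1 - (P.Ψ (P.A p.1 p.2.1 p.2.2.1 (ce (2 * p.2.2.2)))).1 *
        conj (P.Ψ (P.A p.1 p.2.1 p.2.2.1 (ce (2 * p.2.2.2)))).1))
    (by exact (cG.snd.add (cG.fst.mul (conjCLE.contDiff.contDiffAt.comp _ cG.snd))).prodMk
          (contDiffAt_const.sub (cG.fst.mul (conjCLE.contDiff.contDiffAt.comp _ cG.fst))))
    ((continuous_fst.norm.continuousAt.eventually (gt_mem_nhds (show ‖x‖ < 5 by linarith))).mono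
      fun y hy => by
        have h1 := (P.sgn _ (mem y.2.2 hy.le)).2.2 (mid_norm_ce _)
        simp only [P.A_zero, P.key _ (mem _ hy.le), mid_num, h1]
        simp [b0, Complex.mul_conj', h1])
    (by
      have h1 := hasFDerivAt_fst.comp_hasDerivAt 0 hF
      have h2 := hasFDerivAt_snd.comp_hasDerivAt 0 hF
      have := (h2.add (h1.mul h2.star)).prodMk ((h1.mul h1.star).const_sub 1)
      simp only [Function.comp, P.A_zero, k0, RCLike.star_def] at this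
      rw [← g1, ← d1, neg_neg]
      exact this)
  have tF := (cG.continuousAt.fst.tendsto.mono_left (nhdsWithin_le_nhds (s := {p | 0 < p.1})))
  have tb : Tendsto (fun p : ℝ × ℂ × ℝ × ℝ => b0i (P.Ψ (P.A p.1 p.2.1 p.2.2.1 (ce (2 * p.2.2.2)))))
      (𝓝[{p | 0 < p.1}] (0, x, σ, θ)) (𝓝 (y0.1 + g, y0.2)) := by
    have d' : (d : ℂ) ≠ 0 := by exact_mod_cast d0.ne'
    have := (hq.fst_nhds.neg.mul (hq.snd_nhds.inv₀ d')).prodMk_nhds tF
    simp only [Function.comp, P.A_zero, ← hw, k0, neg_neg] at this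
    rw [mul_comm, inv_mul_cancel_left₀ d'] at this
    refine this.congr' (mem_of_superset self_mem_nhdsWithin fun p hp => ?_)
    have : (p.1 : ℂ) ≠ 0 := by exact_mod_cast (show 0 < p.1 from hp).ne'
    simp only [mem_ofPred_eq, disc_b0i, Prod.smul_fst, Prod.smul_snd, real_smul, ofReal_inv]
    congr 1
    field_simp
  have z3 : ‖y0.1 + g‖ < 6 / 5 := by linarith [norm_add_le y0.1 g]
  have p1 := abs_le.1 (P.posn hδ (z := x) (θ := θ) (t := 3) (by norm_num; linarith))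
  have p2 := abs_le.1 (abs_re_le_norm (x * ce (-θ)))
  have p3 := abs_le.1 (abs_re_le_norm ((y0.1 + g) * ce (-θ)))
  rw [norm_mul, mid_norm_ce, mul_one] at p2 p3
  rw [mid_conj_ce] at g4
  obtain ⟨t, ht, e⟩ := P.lift hδ (z := x) (z' := y0.1 + g) (θ := θ) (a := 0) (b := 3) (by linarith)
    (by norm_num) (by norm_num) le_rfl g2
    (by rw [P.y_zero, add_mul, add_re]; linarith [mul_nonneg hσ.1 sn]) (by linarith)
  refine ⟨t, ht, fun h => ht.1.lt_of_ne fun h0 => ?_, ?_, ?_⟩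
  · rw [← h0, P.y_zero] at e
    rw [left_eq_add.1 (congrArg Prod.fst e)] at g4
    simp only [zero_mul, zero_re] at g4
    linarith
  · rw [← P.linv _ (P.y_mem hδ (show ‖x‖ + |t| ≤ _ by linarith [abs_of_nonneg ht.1, ht.2])), e]
    exact (P.nΘ _ (mid_ball.2 ⟨by linarith, by linarith⟩)).1.continuousAt.tendsto.comp tb
  · have h1 : ‖P.A 0 x σ w‖ < 40 := by
      rw [P.A_zero]
      linarith [norm_le_norm_sub_add (P.β (x, w)) (b0 (x, w)), mid_b0_norm m0]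
    filter_upwards [self_mem_nhdsWithin, nhdsWithin_le_nhds (cF.continuousAt.norm.eventually
      (gt_mem_nhds h1)), tb.fst_nhds.norm.eventually (gt_mem_nhds z3),
      (continuous_re.tendsto _ |>.comp hq.snd_nhds).eventually (lt_mem_nhds (show 0 < _ from d0))]
      with p h2 h3 h4 h5
    refine ⟨h3, ?_, h4⟩
    simp only [Function.comp, Prod.smul_snd, smul_re, Complex.mul_conj', sub_re, one_re,
      ← ofReal_pow, ofReal_re, smul_eq_mul] at h5
    have := (mul_pos_iff_of_pos_left (inv_pos.2 (show 0 < p.1 from h2))).1 h5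
    nlinarith [norm_nonneg (P.Ψ (P.A p.1 p.2.1 p.2.2.1 (ce (2 * p.2.2.2)))).1]

end Pool.Agent.Lib.MP_0cc5e8_gt
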