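import Pool.Agent.Lib.MMT.Ode

/-! Smoothness of Nemytskii operators and of global flows. -/

namespace Pool.Agent.Lib.MP_0cc5e8_gt

open Set Filter Topology Metric
open scoped ContDiff

noncomputable section

variable {X : Type} [TopologicalSpace X] [CompactSpace X]
  {E : Type} [NormedAddCommGroup E] [NormedSpace ℝ E] [FiniteDimensional ℝ E]

/-- pointwise application of a field of linear maps -/
def flowApp (X : Type) [TopologicalSpace X] [CompactSpace X] (E : Type) [NormedAddCommGroup E]
    [NormedSpace ℝ E] (V : Type) [NormedAddCommGroup V] [NormedSpace ℝ V] :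
    C(X, E →L[ℝ] V) →L[ℝ] C(X, E) →L[ℝ] C(X, V) :=
  LinearMap.mkContinuous₂
    (LinearMap.mk₂ ℝ (fun (A : C(X, E →L[ℝ] V)) (h : C(X, E)) =>
        (⟨fun x => A x (h x), A.continuous.clm_apply h.continuous⟩ : C(X, V)))
      (fun A B h => by ext x; simp) (fun c A h => by ext x; simp)
      (fun A h k => by ext x; simp) (fun c A h => by ext x; simp)) 1
    (fun A h => by
      rw [one_mul]
      refine (ContinuousMap.norm_le _ (by positivity)).2 fun x => ?_
      exact ((A x).le_opNorm (h x)).trans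
        (mul_le_mul (A.norm_coe_le_norm x) (h.norm_coe_le_norm x) (norm_nonneg _) (norm_nonneg A)))

theorem flowNem_hasFDerivAt {V : Type} [NormedAddCommGroup V] [NormedSpace ℝ V] {F : E → V}
    (hF : ContDiff ℝ 1 F) (v : C(X, E)) :
    HasFDerivAt (fun v : C(X, E) => (⟨F, hF.continuous⟩ : C(E, V)).comp v)
      (flowApp X E V ((⟨fderiv ℝ F, hF.continuous_fderiv one_ne_zero⟩ : C(E, E →L[ℝ] V)).comp v))
      v := by
  have := FiniteDimensional.proper_real E
  rw [hasFDerivAt_iff_isLittleO_nhds_zero, Asymptotics.isLittleO_iff]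
  intro c hc
  have huc := (isCompact_closedBall (0 : E) (‖v‖ + 1)).uniformContinuousOn_of_continuous
    (hF.continuous_fderiv one_ne_zero).continuousOn
  obtain ⟨δ, hδ, h⟩ := Metric.uniformContinuousOn_iff.1 huc c hc
  filter_upwards [ball_mem_nhds (0 : C(X, E)) (lt_min hδ one_pos)] with k hk
  rw [mem_ball_zero_iff, lt_min_iff] at hk
  refine (ContinuousMap.norm_le _ (by positivity)).2 fun x => ?_
  have hx : ‖v x‖ ≤ ‖v‖ := v.norm_coe_le_norm x
  have hkx : ‖k x‖ ≤ ‖k‖ := k.norm_coe_le_norm x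
  have := (convex_closedBall (v x) ‖k‖).norm_image_sub_le_of_norm_hasFDerivWithin_le'
    (f := F) (f' := fderiv ℝ F) (φ := fderiv ℝ F (v x)) (C := c) (x := v x) (y := v x + k x)
    (fun y _ => (hF.differentiable one_ne_zero y).hasFDerivAt.hasFDerivWithinAt)
    (fun y hy => by
      rw [mem_closedBall_iff_norm] at hy
      rw [← dist_eq_norm]
      refine (h y ?_ (v x) ?_ ?_).le
      · rw [mem_closedBall_zero_iff]
        exact (norm_le_insert' y (v x)).trans (by linarith [hk.2])
      · rw [mem_closedBall_zero_iff]; linarith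
      · rw [dist_eq_norm]; exact hy.trans_lt hk.1)
    (mem_closedBall_self (norm_nonneg _)) (by simpa [mem_closedBall_iff_norm] using hkx)
  simp only [add_sub_cancel_left] at this
  exact this.trans (by gcongr)

theorem flowNem_contDiff (n : ℕ) : ∀ {V : Type} [NormedAddCommGroup V] [NormedSpace ℝ V]
    {F : E → V} (hF : ContDiff ℝ n F),
    ContDiff ℝ n (fun v : C(X, E) => (⟨F, hF.continuous⟩ : C(E, V)).comp v) := by
  induction n with
  | zero =>
    intro V _ _ F hF
    exact contDiff_zero.2 (ContinuousMap.continuous_postcomp _)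
  | succ n ih =>
    intro V _ _ F hF
    have h1 : ContDiff ℝ 1 F := hF.of_le (by exact_mod_cast Nat.le_add_left 1 n)
    have h2 : ContDiff ℝ n (fderiv ℝ F) := hF.fderiv_right (by exact_mod_cast le_rfl)
    have : ContDiff ℝ (n + 1) (fun v : C(X, E) => (⟨F, h1.continuous⟩ : C(E, V)).comp v) :=
      contDiff_succ_iff_hasFDerivAt.2 ⟨fun v => flowApp X E V
        ((⟨fderiv ℝ F, h2.continuous⟩ : C(E, E →L[ℝ] V)).comp v),
        ContDiff.comp (g := flowApp X E V) (ContinuousLinearMap.contDiff (𝕜 := ℝ)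
          (E := C(X, E →L[ℝ] V)) (F := C(X, E) →L[ℝ] C(X, V)) (flowApp X E V)) (ih h2),
        fun v => flowNem_hasFDerivAt h1 v⟩
    exact_mod_cast this

theorem flowLipB {F : E → E} (hF : ContDiff ℝ 1 F) : MMT.LipB F := by
  intro R
  have := FiniteDimensional.proper_real E
  obtain ⟨C, hC⟩ := (isCompact_closedBall (0 : E) R).exists_bound_of_continuousOn
    (hF.continuous_fderiv one_ne_zero).continuousOn
  exact ⟨C.toNNReal, (convex_closedBall 0 R).lipschitzOnWith_of_nnnorm_fderiv_le
    (fun x _ => hF.differentiable one_ne_zero x) fun x hx => by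
      rw [← NNReal.coe_le_coe]; exact (hC x hx).trans (Real.le_coe_toNNReal C)⟩

theorem flowExists {F : E → E} (hF : ContDiff ℝ ∞ F) {B : ℝ} (hB : ∀ u, ‖F u‖ ≤ B) :
    ∃ Φ : ℝ × E → E, ContDiff ℝ ∞ Φ ∧ (∀ x, Φ (0, x) = x) ∧
      ∀ x t, HasDerivAt (fun s => Φ (s, x)) (F (Φ (t, x))) t := by
  have := FiniteDimensional.complete ℝ E
  have hL := flowLipB (hF.of_le (by exact_mod_cast le_top))
  choose x hx0 hx using MMT.exists_global_of_bounded hL hB
  refine ⟨fun p => x p.2 p.1, ?_, hx0, hx⟩
  exact MMT.flow_smooth (Φ := fun t w => x w t)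
    (N := fun v => (⟨F, hF.continuous⟩ : C(E, E)).comp v) hL
    (contDiff_infty.2 fun n => flowNem_contDiff n (contDiff_infty.1 hF n)) (fun _ _ => rfl) hx0 hx

end

end Pool.Agent.Lib.MP_0cc5e8_gt
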