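import Pool.Agent.Lib.MP_0cc5e8_gt.Calc
import Pool.Agent.Lib.MP_0cc5e8_gt.FlowA

namespace Pool.Agent.Lib.MP_0cc5e8_gt

open Complex Set Filter Topology Metric
open scoped ComplexConjugate ContDiff Real

theorem flow_ce_add (a b : ℝ) : ce (a + b) = ce a * ce b := by
  simp [ce, add_mul, Complex.exp_add]

theorem flow_ce_zero : ce 0 = 1 := by simp [ce]

theorem flow_ce_ne (a : ℝ) : ce a ≠ 0 := Complex.exp_ne_zero _

theorem flow_ce_neg (a : ℝ) : ce (-a) = (ce a)⁻¹ := by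
  simp [ce, Complex.exp_neg]

theorem flow_conj_ce (a : ℝ) : conj (ce a) = (ce a)⁻¹ := by
  rw [← flow_ce_neg]; simp [ce, ← Complex.exp_conj]

theorem flow_ce_two (a : ℝ) : ce (2 * a) = ce a ^ 2 := by
  rw [two_mul, flow_ce_add, sq]

theorem flow_ce_three (a : ℝ) : ce (3 * a) = ce a ^ 3 := by
  rw [show 3 * a = 2 * a + a by ring, flow_ce_add, flow_ce_two]; ring

theorem flow_norm_ce (a : ℝ) : ‖ce a‖ = 1 := Complex.norm_exp_ofReal_mul_I a

theorem flow_ce_int (k : ℤ) : ce (k * (2 * π)) = 1 := by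
  have := Complex.exp_int_mul_two_pi_mul_I k
  rw [← this, ce]; congr 1; push_cast; ring

theorem flow_ce_two_pi : ce (2 * π) = 1 := by simpa using flow_ce_int 1

@[fun_prop]
theorem flow_contDiff_ce {n : WithTop ℕ∞} : ContDiff ℝ n ce := by
  unfold ce
  exact ((ofRealCLM.contDiff).mul contDiff_const).cexp

@[fun_prop]
theorem flow_continuous_ce : Continuous ce := (flow_contDiff_ce (n := 0)).continuous

@[fun_prop]
theorem flow_differentiable_ce : Differentiable ℝ ce :=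
  (flow_contDiff_ce (n := 1)).differentiable one_ne_zero

theorem flow_hasDerivAt_ce (a : ℝ) : HasDerivAt ce (I * ce a) a := by
  have := ((hasDerivAt_id a).ofReal_comp.mul_const I).cexp
  simp only [id, ofReal_one, one_mul] at this
  rw [mul_comm]; exact this

theorem flow_contDiff_ba {n : WithTop ℕ∞} : ContDiff ℝ n fun p : Co × ℝ => ba p.1 p.2 := by
  unfold ba Gk; fun_prop

theorem flow_contDiff_vf {κ : ℂ → Co} (hκ : ContDiff ℝ ∞ κ) : ContDiff ℝ ∞ (vf κ) := by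
  have h : ContDiff ℝ ∞ fun x : St => ba (κ x.1) x.2.1 :=
    flow_contDiff_ba.comp (f := fun x : St => (κ x.1, x.2.1)) (by fun_prop)
  exact (by fun_prop : ContDiff ℝ ∞ fun x : St => ce x.2.1).prodMk
    ((imCLM.contDiff.comp h).prodMk (reCLM.contDiff.comp h))

theorem flow_ba_eq (k : Co) (θ : ℝ) :
    ba k θ = -(k.1 * ce θ + k.2.1 * (ce θ)⁻¹ + k.2.2 * (ce θ)⁻¹ ^ 3) := by
  have := flow_ce_ne θ
  simp only [ba, Gk, flow_ce_neg, flow_ce_two]; field_simp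

theorem flow_conj_ba (k : Co) (θ : ℝ) :
    conj (ba k θ) = -(conj k.1 * (ce θ)⁻¹ + conj k.2.1 * ce θ + conj k.2.2 * ce θ ^ 3) := by
  simp [flow_ba_eq, flow_conj_ce]

theorem flow_im_eq (z : ℂ) : (z.im : ℂ) = (z - conj z) / (2 * I) := by
  rw [Complex.sub_conj]; push_cast; field_simp

theorem flow_re_eq (z : ℂ) : (z.re : ℂ) = (z + conj z) / 2 := by
  rw [Complex.add_conj]; push_cast; ring

theorem flow_ba_smul (ε : ℝ) (k : Co) (θ : ℝ) : ba (ε • k) θ = ε * ba k θ := by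
  simp only [ba, Gk, Prod.smul_fst, Prod.smul_snd, real_smul]; ring

theorem exists_flow {κ : ℂ → Co} (hκ : ContDiff ℝ ∞ κ) (hc : HasCompactSupport κ) :
    ∃ Φ, IsFlow κ Φ := by
  obtain ⟨C, hC⟩ := hc.exists_bound_of_continuous hκ.continuous
  have hb : ∀ x : St, ‖ba (κ x.1) x.2.1‖ ≤ 3 * C := by
    intro x
    have h1 : ‖(κ x.1).1‖ ≤ C := (norm_fst_le _).trans (hC _)
    have h2 : ‖(κ x.1).2.1‖ ≤ C := (norm_fst_le _).trans ((norm_snd_le _).trans (hC _))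
    have h3 : ‖(κ x.1).2.2‖ ≤ C := (norm_snd_le _).trans ((norm_snd_le _).trans (hC _))
    rw [flow_ba_eq, norm_neg]
    refine norm_add₃_le.trans ?_
    simp only [norm_mul, norm_pow, norm_inv, flow_norm_ce]
    linarith
  obtain ⟨Φ, h1, h2, h3⟩ := flowExists (flow_contDiff_vf hκ) (B := max 1 (3 * C)) (fun x => by
    simp only [vf, Prod.norm_mk, flow_norm_ce]
    exact max_le_max le_rfl (max_le ((abs_im_le_norm _).trans (hb x))
      ((abs_re_le_norm _).trans (hb x))))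
  exact ⟨Φ, hκ, h1, h2, h3⟩

theorem IsFlow.uniq {κ : ℂ → Co} {Φ : ℝ × St → St} (h : IsFlow κ Φ) {x : ℝ → St}
    (hx : ∀ t, HasDerivAt x (vf κ (x t)) t) (t : ℝ) : x t = Φ (t, x 0) :=
  MMT.uniq_global (flowLipB ((flow_contDiff_vf h.sk).of_le (by exact_mod_cast le_top))) hx
    (h.deriv (x 0)) (h.zero _).symm t

theorem IsFlow.add {κ : ℂ → Co} {Φ : ℝ × St → St} (h : IsFlow κ Φ) (t s : ℝ) (x : St) :
    Φ (t + s, x) = Φ (t, Φ (s, x)) := by
  simpa using h.uniq (x := fun t => Φ (t + s, x))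
    (fun t => (h.deriv x (t + s)).comp_add_const t s) t

theorem IsFlow.flow_transl {κ : ℂ → Co} {Φ : ℝ × St → St} (h : IsFlow κ Φ) {c : ℝ} (hc : ce c = 1)
    (l' t : ℝ) (x : St) : Φ (t, x + (0, c, l')) = Φ (t, x) + (0, c, l') := by
  have hv : ∀ y : St, vf κ (y + (0, c, l')) = vf κ y := fun y => by
    simp [vf, flow_ba_eq, flow_ce_add, hc]
  have := h.uniq (x := fun t => Φ (t, x) + (0, c, l'))
    (fun t => by rw [hv]; exact (h.deriv x t).add_const _) t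
  simpa [h.zero] using this.symm

theorem IsFlow.per {κ : ℂ → Co} {Φ : ℝ × St → St} (h : IsFlow κ Φ) (t : ℝ) (z : ℂ) (θ l : ℝ) :
    Φ (t, z, θ + 2 * π, l) = Φ (t, z, θ, l) + (0, 2 * π, 0) := by
  simpa using h.flow_transl flow_ce_two_pi 0 t (z, θ, l)

theorem IsFlow.shift {κ : ℂ → Co} {Φ : ℝ × St → St} (h : IsFlow κ Φ) (t : ℝ) (z : ℂ) (θ l : ℝ) :
    Φ (t, z, θ, l) = Φ (t, z, θ, 0) + (0, 0, l) := by
  simpa using h.flow_transl flow_ce_zero l t (z, θ, 0)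

theorem IsFlow.flow_d1 {κ : ℂ → Co} {Φ : ℝ × St → St} (h : IsFlow κ Φ) (x : St) (t : ℝ) :
    HasDerivAt (fun s => (Φ (s, x)).1) (ce (Φ (t, x)).2.1) t := (h.deriv x t).fst

theorem IsFlow.flow_d2 {κ : ℂ → Co} {Φ : ℝ × St → St} (h : IsFlow κ Φ) (x : St) (t : ℝ) :
    HasDerivAt (fun s => (Φ (s, x)).2.1) (ba (κ (Φ (t, x)).1) (Φ (t, x)).2.1).im t :=
  (h.deriv x t).snd.fst

theorem IsFlow.flow_d3 {κ : ℂ → Co} {Φ : ℝ × St → St} (h : IsFlow κ Φ) (x : St) (t : ℝ) :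
    HasDerivAt (fun s => (Φ (s, x)).2.2) (ba (κ (Φ (t, x)).1) (Φ (t, x)).2.1).re t :=
  (h.deriv x t).snd.snd

theorem IsFlow.fam {κ : ℂ → Co} {Φ : ℝ × St → St} (h : IsFlow κ Φ) : ∃ Ψ, Fam κ Ψ := by
  have hΦ := h.smooth
  have hκ := h.sk
  let Ψ : ℝ × ℝ × St → St := fun p =>
    (p.2.2.1 + p.2.1 • ∫ s in (0 : ℝ)..1,
      ce (Φ (p.1 * (p.2.1 * s), p.1 • p.2.2.1, p.2.2.2)).2.1,
      (Φ (p.1 * p.2.1, p.1 • p.2.2.1, p.2.2.2)).2)
  have hs : ContDiff ℝ ∞ Ψ := by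
    have h1 := contDiff_int (n := ⊤) (F := fun q : (ℝ × ℝ × St) × ℝ =>
      ce (Φ (q.1.1 * (q.1.2.1 * q.2), q.1.1 • q.1.2.2.1, q.1.2.2.2)).2.1) (by fun_prop) 0 1
    exact ((by fun_prop : ContDiff ℝ ∞ fun p : ℝ × ℝ × St => p.2.2.1).add
      ((by fun_prop : ContDiff ℝ ∞ fun p : ℝ × ℝ × St => p.2.1).smul h1)).prodMk (by fun_prop)
  refine ⟨Ψ, hκ, hs, fun ε => ⟨by unfold scl; fun_prop, by fun_prop, fun x => ?_, fun x t => ?_⟩,
    fun t z θ l => by simp [Ψ, h.zero]⟩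
  · simp [Ψ, h.zero]
  · set x' : St := (ε • x.1, x.2) with hx'
    have hc : Continuous fun s : ℝ => ce (Φ (ε * s, x')).2.1 := by
      have := hΦ.continuous; fun_prop
    have e1 : ∀ t, (Ψ (ε, t, x)).1 = x.1 + ∫ s in (0 : ℝ)..t, ce (Φ (ε * s, x')).2.1 := by
      intro t
      have := intervalIntegral.smul_integral_comp_mul_left (a := 0) (b := 1)
        (fun s => ce (Φ (ε * s, x')).2.1) t
      simp only [mul_zero, mul_one] at this
      rw [← this]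
    have d1 : ∀ t, HasDerivAt (fun s => (Ψ (ε, s, x)).1) (ce (Φ (ε * t, x')).2.1) t := by
      intro t
      simp only [e1]
      exact (MMT.hasDerivAt_int hc t).const_add _
    have d0 : ∀ t : ℝ, HasDerivAt (fun s : ℝ => ε * s) ε t := fun t => by
      simpa using (hasDerivAt_id t).const_mul ε
    have e2 : ε • (Ψ (ε, t, x)).1 = (Φ (ε * t, x')).1 := by
      have := is_const_of_deriv_eq_zero (𝕜 := ℝ)
        (f := fun s => ε • (Ψ (ε, s, x)).1 - (Φ (ε * s, x')).1)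
        (fun s => (((d1 s).const_smul ε).sub
          ((h.flow_d1 x' (ε * s)).scomp s (d0 s))).differentiableAt)
        (fun s => (((d1 s).const_smul ε).sub
          ((h.flow_d1 x' (ε * s)).scomp s (d0 s))).deriv.trans (sub_self _)) t 0
      rw [e1 0] at this
      simpa [h.zero, hx', sub_eq_zero] using this
    refine (d1 t).prodMk ?_
    have := ((h.flow_d2 x' (ε * t)).prodMk (h.flow_d3 x' (ε * t))).scomp t (d0 t)
    refine HasDerivAt.congr_deriv (f := fun s => (Φ (ε * s, x')).2) this ?_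
    simp only [scl, e2, flow_ba_smul]
    simp [Ψ, hx']

theorem Fam.close {κ : ℂ → Co} {Ψ : ℝ × ℝ × St → St} (h : Fam κ Ψ) (R : ℝ) {δ : ℝ} (hδ : 0 < δ) :
    ∀ᶠ ε in 𝓝 (0 : ℝ), ∀ z θ t, ‖z‖ ≤ R → |t| ≤ R →
      ‖(Ψ (ε, t, z, θ, 0)).1 - (z + t * ce θ)‖ ≤ δ ∧ |(Ψ (ε, t, z, θ, 0)).2.1 - θ| ≤ δ := by
  have hc := h.smooth.continuous
  have hK : IsCompact (closedBall (0 : ℂ) R ×ˢ Icc (0 : ℝ) (2 * π) ×ˢ closedBall (0 : ℝ) R) :=
    (isCompact_closedBall _ _).prod (isCompact_Icc.prod (isCompact_closedBall _ _))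
  have := hK.eventually_forall_of_forall_eventually (x₀ := (0 : ℝ))
    (P := fun ε y => ‖(Ψ (ε, y.2.2, y.1, y.2.1, 0)).1 - (y.1 + y.2.2 * ce y.2.1)‖ < δ ∧
      |(Ψ (ε, y.2.2, y.1, y.2.1, 0)).2.1 - y.2.1| < δ) (fun y _ => by
    refine Eventually.and ?_ ?_
    · refine ContinuousAt.eventually_lt (Continuous.continuousAt (by fun_prop)) continuousAt_const
        (by simpa [h.flat] using hδ)
    · refine ContinuousAt.eventually_lt (Continuous.continuousAt (by fun_prop)) continuousAt_const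
        (by simpa [h.flat] using hδ))
  filter_upwards [this] with ε hε z θ t hz ht
  have hp : (0 : ℝ) < 2 * π := Real.two_pi_pos
  have h1 := hε (z, toIcoMod hp 0 θ, t) ⟨by simpa using hz,
    Ico_subset_Icc_self (by simpa using toIcoMod_mem_Ico hp 0 θ), by simpa using ht⟩
  have h2 : θ = toIcoMod hp 0 θ + (toIcoDiv hp 0 θ : ℝ) * (2 * π) := by
    simp
  have h3 := (h.flow ε).flow_transl (flow_ce_int (toIcoDiv hp 0 θ)) 0 t (z, toIcoMod hp 0 θ, 0)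
  simp only [Prod.mk_add_mk, add_zero, ← h2] at h3
  have h4 : ce θ = ce (toIcoMod hp 0 θ) := by
    conv_lhs => rw [h2, flow_ce_add, flow_ce_int, mul_one]
  rw [h3, h4]
  refine ⟨by simpa using h1.1.le, ?_⟩
  refine le_trans (le_of_eq ?_) h1.2.le
  simp only [Prod.snd_add, Prod.fst_add]
  congr 1
  linarith

/-- derivative along a flow line -/
theorem IsFlow.hasDerivAt_Xd {κ : ℂ → Co} {Φ : ℝ × St → St} (h : IsFlow κ Φ) (d : ℝ)
    {u : ℂ × ℝ → ℂ} (x : St) (t : ℝ)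
    (hu : DifferentiableAt ℝ u ((Φ (t, x)).1, (Φ (t, x)).2.1)) :
    HasDerivAt (fun s => (Real.exp (d * (Φ (s, x)).2.2) : ℂ) * u ((Φ (s, x)).1, (Φ (s, x)).2.1))
      ((Real.exp (d * (Φ (t, x)).2.2) : ℂ) * Xd κ d u ((Φ (t, x)).1, (Φ (t, x)).2.1)) t := by
  have h1 := hu.hasFDerivAt.comp_hasDerivAt t ((h.flow_d1 x t).prodMk (h.flow_d2 x t))
  have h2 := (((h.flow_d3 x t).const_mul d).exp).ofReal_comp
  refine (h2.mul h1).congr_deriv ?_
  simp only [Xd, Function.comp]; push_cast; ring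

/-- convexity along a flow line -/
theorem IsFlow.hasDerivAt_hess {κ : ℂ → Co} {Φ : ℝ × St → St} (h : IsFlow κ Φ) {φ : ℂ → ℝ}
    (hφ : ContDiff ℝ 2 φ) (x : St) (t : ℝ) :
    HasDerivAt (fun s => φ (Φ (s, x)).1) (fderiv ℝ φ (Φ (t, x)).1 (ce (Φ (t, x)).2.1)) t ∧
    HasDerivAt (fun s => Real.exp (Φ (s, x)).2.2 * fderiv ℝ φ (Φ (s, x)).1 (ce (Φ (s, x)).2.1))
      (Real.exp (Φ (t, x)).2.2 * hessK κ φ (Φ (t, x)).1 (Φ (t, x)).2.1) t := by
  refine ⟨(hφ.differentiable two_ne_zero _).hasFDerivAt.comp_hasDerivAt t (h.flow_d1 x t), ?_⟩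
  have hd : Differentiable ℝ (fderiv ℝ φ) :=
    (hφ.fderiv_right (m := 1) (by norm_num)).differentiable one_ne_zero
  have h1 := (hd _).hasFDerivAt.comp_hasDerivAt t (h.flow_d1 x t)
  have h2 := (flow_hasDerivAt_ce _).scomp t (h.flow_d2 x t)
  have h3 := h1.clm_apply h2
  refine ((h.flow_d3 x t).exp.mul h3).congr_deriv ?_
  simp only [Function.comp, hessK]
  set k := κ (Φ (t, x)).1
  set θ := (Φ (t, x)).2.1
  have e : Gk k θ = -((ba k θ).re • ce θ + (ba k θ).im • (I * ce θ)) := by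
    have h0 := flow_ce_ne θ
    have : (ba k θ).re • ce θ + (ba k θ).im • (I * ce θ) = ba k θ * ce θ := by
      conv_rhs => rw [← re_add_im (ba k θ)]
      simp only [real_smul]; ring
    rw [this, ba, flow_ce_neg]; field_simp
  rw [e, map_neg, map_add, map_smul, map_smul]
  simp only [smul_eq_mul]; ring

/-- restriction to the circle of a solution on the closed disc -/
theorem Sol.toXd {κ : ℂ → Co} {W : ℂ × ℂ → ℂ} {z : ℂ} {θ : ℝ} {r : ℂ}
    (h : Sol (κ z) W (z, ce (2 * θ)) r) (d : ℝ) :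
    Xd κ d (fun p => ce (-(d * p.2)) * W (p.1, ce (2 * p.2))) (z, θ) =
      ce (-((d + 1) * θ)) * (r + d * rk (κ z) (ce (2 * θ)) * W (z, ce (2 * θ))) := by
  obtain ⟨hW, a, b, hab⟩ := h
  set α := (ba (κ z) θ).im with hα
  have hdiff : DifferentiableAt ℝ (fun p : ℂ × ℝ => ce (-(d * p.2)) * W (p.1, ce (2 * p.2)))
      (z, θ) := (by fun_prop : DifferentiableAt ℝ (fun p : ℂ × ℝ => ce (-(d * p.2))) (z, θ)).mul
    (hW.comp (z, θ) (f := fun p : ℂ × ℝ => (p.1, ce (2 * p.2))) (by fun_prop))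
  have l1 : HasDerivAt (fun s : ℝ => θ + s * α) α 0 := by
    simpa using ((hasDerivAt_id (0 : ℝ)).mul_const α).const_add θ
  have l2 : HasDerivAt (fun s : ℝ => z + s • ce θ) (ce θ) 0 := by
    simpa using ((hasDerivAt_id (0 : ℝ)).smul_const (ce θ)).const_add z
  have c1 := (hdiff.hasFDerivAt.comp_hasDerivAt_of_eq 0 (l2.prodMk l1) (by simp))
  have m1 := (flow_hasDerivAt_ce _).scomp 0 (l1.const_mul d).neg
  have m2 := (flow_hasDerivAt_ce _).scomp 0 (l1.const_mul 2)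
  have m3 := hW.hasFDerivAt.comp_hasDerivAt_of_eq 0 (l2.prodMk m2) (by simp)
  have c2 := c1.unique (m1.mul m3)
  simp only [Xd, ← hα, c2, hab, lam1, lam2, Function.comp]
  have h0 := flow_ce_ne θ
  have h1 : ce (-((d + 1) * θ)) = ce (-(d * θ)) * (ce θ)⁻¹ := by
    rw [← flow_ce_neg, ← flow_ce_add]; congr 1; ring
  simp only [h1, zero_smul, add_zero, zero_mul, real_smul, flow_ce_two, flow_conj_ce, Pi.neg_apply,
    ofReal_neg, ofReal_mul, hα, flow_im_eq, flow_re_eq, flow_conj_ba, qk, rk]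
  simp only [flow_ba_eq]
  push_cast
  field_simp
  ring

theorem Sol.mul {k : Co} {W W' : ℂ × ℂ → ℂ} {y : ℂ × ℂ} {r r' : ℂ} (h : Sol k W y r)
    (h' : Sol k W' y r') : Sol k (fun y => W y * W' y) y (r * W' y + W y * r') := by
  obtain ⟨hW, a, b, hab⟩ := h
  obtain ⟨hW', a', b', hab'⟩ := h'
  refine ⟨hW.mul hW', a * W' y + W y * a', b * W' y + W y * b', fun d => ?_⟩
  rw [fderiv_fun_mul hW hW']
  simp only [add_apply, smul_apply, hab, hab', smul_eq_mul]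
  ring

theorem Sol.inv {k : Co} {W : ℂ × ℂ → ℂ} {y : ℂ × ℂ} {r : ℂ} (h : Sol k W y r) (h0 : W y ≠ 0) :
    Sol k (fun y => (W y)⁻¹) y (-r / W y ^ 2) := by
  obtain ⟨hW, a, b, hab⟩ := h
  have h1 := ((hasDerivAt_inv h0).hasFDerivAt.restrictScalars ℝ).comp y hW.hasFDerivAt
  refine ⟨hW.inv h0, -a / W y ^ 2, -b / W y ^ 2, fun d => ?_⟩
  rw [show (fun y => (W y)⁻¹) = (fun y : ℂ => y⁻¹) ∘ W from rfl, h1.fderiv]
  simp [hab]
  ring

theorem Sol.add {k : Co} {W W' : ℂ × ℂ → ℂ} {y : ℂ × ℂ} {r r' : ℂ} (h : Sol k W y r)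
    (h' : Sol k W' y r') : Sol k (fun y => W y + W' y) y (r + r') := by
  obtain ⟨hW, a, b, hab⟩ := h
  obtain ⟨hW', a', b', hab'⟩ := h'
  refine ⟨hW.add hW', a + a', b + b', fun d => ?_⟩
  rw [fderiv_fun_add hW hW']
  simp only [add_apply, hab, hab']
  ring

theorem Sol.differentiableAt {k : Co} {W : ℂ × ℂ → ℂ} {y : ℂ × ℂ} {r : ℂ} (h : Sol k W y r) :
    DifferentiableAt ℂ (fun w => W (y.1, w)) y.2 := by
  obtain ⟨hW, a, b, hab⟩ := h
  have h1 := hW.hasFDerivAt.comp y.2 (hasFDerivAt_prodMk_right (𝕜 := ℝ) y.1 y.2)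
  refine (hasFDerivAt_of_restrictScalars ℝ (f' := ContinuousLinearMap.mul ℂ ℂ b) h1 ?_).differentiableAt
  ext; simp [hab, lam1, lam2]

theorem sol_iff {k : Co} {W : ℂ × ℂ → ℂ} {y : ℂ × ℂ} {r : ℂ} : Sol k W y r ↔
    DifferentiableAt ℝ W y ∧ fderiv ℝ W y (0, I) = I * fderiv ℝ W y (0, 1) ∧
      (fderiv ℝ W y (1, 0) + I * fderiv ℝ W y (I, 0)) / 2 +
        y.2 * ((fderiv ℝ W y (1, 0) - I * fderiv ℝ W y (I, 0)) / 2) +
        qk k y.2 * fderiv ℝ W y (0, 1) = r := by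
  constructor
  · rintro ⟨hW, a, b, hab⟩
    refine ⟨hW, by simp [hab, lam1, lam2, mul_comm], ?_⟩
    simp only [hab, lam1, lam2, map_one, map_zero, conj_I]
    linear_combination ((a + a * y.2 + b * qk k y.2 - r) * (1 - y.2) / 2) * I_mul_I
  · rintro ⟨hW, h1, h2⟩
    refine ⟨hW, (fderiv ℝ W y (1, 0) - I * fderiv ℝ W y (I, 0)) / 2, fderiv ℝ W y (0, 1),
      fun d => ?_⟩
    have e : d = d.1.re • ((1 : ℂ), (0 : ℂ)) + d.1.im • (I, (0 : ℂ)) + d.2.re • ((0 : ℂ), (1 : ℂ)) +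
        d.2.im • ((0 : ℂ), I) := by
      ext <;> simp
    have e1 : d.1 = d.1.re + d.1.im * I := (re_add_im _).symm
    have e2 : d.2 = d.2.re + d.2.im * I := (re_add_im _).symm
    have e3 : conj d.1 = d.1.re - d.1.im * I := by
      apply Complex.ext <;> simp
    conv_lhs => rw [e]
    simp only [map_add, map_smul, real_smul, h1, lam1, lam2, e3, ← h2]
    generalize d.1.re = p, d.1.im = q, d.2.re = s, d.2.im = u at e1 e2
    rw [e1, e2]
    linear_combination (q * fderiv ℝ W y (I, 0)) * I_mul_I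

end Pool.Agent.Lib.MP_0cc5e8_gt
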