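import Pool.Agent.Lib.MP_0cc5e8_gt.Base

namespace Pool.Agent.Lib.MP_0cc5e8_gt

open Complex Set Filter Topology Metric
open scoped ComplexConjugate ContDiff Real

variable {Y V : Type} [NormedAddCommGroup Y] [NormedSpace ℝ Y] [FiniteDimensional ℝ Y]
  [NormedAddCommGroup V] [NormedSpace ℝ V] [CompleteSpace V]

/-- the defining function is almost the imaginary part -/
def HullLip (P : ℂ × ℂ → ℝ × ℝ) (μ : ℝ) : Prop :=
  ∀ q : ℂ × ℂ, ‖q‖ ≤ μ → ∀ q' : ℂ × ℂ, ‖q'‖ ≤ μ →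
    ‖P q - P q' - ((q.1 - q'.1).im, (q.2 - q'.2).im)‖ ≤ 3 / 10 ^ 4 * ‖q - q'‖

theorem hull_im (z : ℂ × ℂ) : ‖(z.1.im, z.2.im)‖ ≤ ‖z‖ :=
  max_le_max (abs_im_le_norm _) (abs_im_le_norm _)

theorem hull_edge {P : ℂ × ℂ → ℝ × ℝ} {μ : ℝ} (hμ : 0 < μ) (h0 : P 0 = 0) (hP : HullLip P μ)
    {x : ℝ × ℝ} (hx : ‖x‖ ≤ μ / 2) :
    ∃ g : ℂ × ℂ, ‖g‖ ≤ μ ∧ P g = 0 ∧ g.1.re = x.1 ∧ g.2.re = x.2 := by
  set G : ℝ × ℝ → ℂ × ℂ := fun y => (x.1 + y.1 * I, x.2 + y.2 * I) with hG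
  have nG : ∀ y ∈ closedBall (0 : ℝ × ℝ) (μ / 2), ‖G y‖ ≤ μ := fun y hy => by
    rw [mem_closedBall_zero_iff] at hy
    have a1 := (norm_fst_le x).trans hx
    have a2 := (norm_snd_le x).trans hx
    have a3 := (norm_fst_le y).trans hy
    have a4 := (norm_snd_le y).trans hy
    refine max_le ((norm_add_le _ _).trans ?_) ((norm_add_le _ _).trans ?_) <;>
      simp only [norm_mul, norm_real, norm_I, mul_one] <;> linarith
  have mp : MapsTo (fun y => y - P (G y)) (closedBall 0 (μ / 2)) (closedBall 0 (μ / 2)) :=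
    fun y hy => by
      have h := hP _ (nG y hy) 0 (by simpa using hμ.le)
      have h2 := nG y hy
      simp only [h0, sub_zero, Prod.fst_zero, Prod.snd_zero] at h
      have e : (((G y).1).im, ((G y).2).im) = y := by simp [hG]
      rw [e, norm_sub_rev] at h
      rw [mem_closedBall_zero_iff]
      linarith
  have ct : ContractingWith (1 / 2) (mp.restrict _ _ _) := by
    refine ⟨by norm_num, LipschitzWith.of_dist_le_mul fun y z => ?_⟩
    have h := hP _ (nG y y.2) _ (nG z z.2)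
    have e : (((G y).1 - (G z).1).im, ((G y).2 - (G z).2).im) = y.1 - z.1 := by
      ext <;> simp [hG]
    have e2 : ‖G y - G z‖ = ‖y.1 - z.1‖ := by
      have : G y - G z = (((y.1 - z.1).1 : ℝ) * I, ((y.1 - z.1).2 : ℝ) * I) := by
        ext <;> simp [hG] <;> ring
      rw [this, Prod.norm_def, Prod.norm_def]
      simp only [norm_mul, norm_real, norm_I, mul_one]
    rw [e, e2] at h
    rw [Subtype.dist_eq, Subtype.dist_eq, dist_eq_norm, dist_eq_norm]
    simp only [MapsTo.val_restrict_apply]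
    have e3 : y.1 - P (G y) - (z.1 - P (G z)) = -(P (G y) - P (G z) - (y.1 - z.1)) := by abel
    rw [e3, norm_neg]
    push_cast
    linarith [norm_nonneg (y.1 - z.1)]
  obtain ⟨y, hy, hf, -⟩ := ct.exists_fixedPoint' isClosed_closedBall.isComplete mp
    (mem_closedBall_self (by positivity)) (edist_ne_top _ _)
  exact ⟨G y, nG y hy, sub_eq_self.1 hf, by simp [hG], by simp [hG]⟩

theorem hull_err {P : ℂ × ℂ → ℝ × ℝ} {μ : ℝ} (hP : HullLip P μ) {u v w : ℂ × ℂ} (hu : ‖u‖ ≤ μ)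
    (hv : ‖v‖ ≤ μ) (h1 : (u - v - w).1.re = 0) (h2 : (u - v - w).2.re = 0)
    (h : P u - P v = (w.1.im, w.2.im)) : ‖u - v - w‖ ≤ 4 / 10 ^ 4 * ‖w‖ := by
  have k := hP u hu v hv
  have n : ∀ z : ℂ, z.re = 0 → ‖z‖ = ‖z.im‖ := fun z hz => (abs_im_eq_norm.2 hz).symm
  have e : ‖P u - P v - ((u.1 - v.1).im, (u.2 - v.2).im)‖ = ‖u - v - w‖ := by
    rw [h, norm_sub_rev, Prod.norm_def, Prod.norm_def, n _ h1, n _ h2]
    simp
  have t : ‖u - v‖ ≤ ‖u - v - w‖ + ‖w‖ := by simpa using norm_add_le (u - v - w) w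
  rw [e] at k
  linarith [norm_nonneg w]

theorem hull_pt {P : ℂ × ℂ → ℝ × ℝ} {μ : ℝ} (hP : HullLip P μ) {g w E : ℂ × ℂ} {s : ℝ}
    (hg : ‖g‖ ≤ μ) (h0 : P g = 0) (hz : ‖g + w + E‖ ≤ μ) (hw : ‖w‖ ≤ 10 * s)
    (hE : ‖E‖ ≤ 36 / 1000 * s) : ‖P (g + w + E) - (w.1.im, w.2.im)‖ ≤ 4 / 100 * s := by
  have k := hP _ hz g hg
  have e : P (g + w + E) - (w.1.im, w.2.im) = P (g + w + E) - P g -
      (((g + w + E).1 - g.1).im, ((g + w + E).2 - g.2).im) + (E.1.im, E.2.im) := by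
    ext <;> simp [h0] <;> ring
  have e2 : g + w + E - g = w + E := by abel
  rw [e2] at k
  rw [e]
  have := norm_add_le w E
  have := hull_im E
  have := norm_nonneg w
  refine (norm_add_le _ _).trans ?_
  linarith

theorem hull_pf {h : ℂ} (h0 : 0 ≤ h.re) :
    1 + h ≠ 0 ∧ ‖h / (1 + h)‖ ≤ 1 ∧ ‖1 - h / (1 + h)‖ ≤ 1 ∧
      (‖h‖ ≤ 1 → ‖h / (1 + h)‖ ≤ 2 * (‖h‖ / (1 + ‖h‖ ^ 2))) ∧
      (1 ≤ ‖h‖ → ‖1 - h / (1 + h)‖ ≤ 2 * (‖h‖ / (1 + ‖h‖ ^ 2))) := by
  have k : 1 + ‖h‖ ^ 2 ≤ ‖1 + h‖ ^ 2 := by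
    rw [Complex.sq_norm, Complex.sq_norm, normSq_apply, normSq_apply]
    simp only [add_re, add_im, one_re, one_im]
    linarith
  have n := norm_nonneg h
  have k1 : 1 ≤ ‖1 + h‖ := le_of_sq_le_sq (by nlinarith) (norm_nonneg _) 
  have k2 : ‖h‖ ≤ ‖1 + h‖ := le_of_sq_le_sq (by nlinarith) (norm_nonneg _)
  have ne : 1 + h ≠ 0 := norm_pos_iff.1 (by linarith)
  have e : 1 - h / (1 + h) = 1 / (1 + h) := by field_simp; ring
  rw [e, norm_div, norm_div, norm_one, ← mul_div_assoc]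
  refine ⟨ne, div_le_one_of_le₀ k2 (by linarith), div_le_one_of_le₀ k1 (by linarith),
    fun t => ?_, fun t => ?_⟩ <;> rw [div_le_div_iff₀ (by linarith) (by positivity)]
  · have := mul_le_mul_of_nonneg_left k1 n
    have := mul_le_mul_of_nonneg_left (pow_le_one₀ n t (n := 2)) n
    linarith
  · have := mul_le_mul_of_nonneg_left k2 n
    have := one_le_pow₀ t (n := 2)
    linarith

/-- the analytic disc -/
noncomputable def hullD (g : ℂ × ℂ) (a : ℝ × ℝ) (c c' : ℂ × ℂ) (p p' : ℂ) : ℂ × ℂ :=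
  g + (5 * a.1 * p, -(5 * a.2 * p')) +
    ((p * ((2 + I) * p - (1 + I))) • c + ((7 + I) / 2 * (p * (1 - p))) • c')

theorem hull_n1 : ‖(2 + I : ℂ)‖ ≤ 3 := (norm_add_le _ _).trans (by simp; norm_num)
theorem hull_n2 : ‖(1 + I : ℂ)‖ ≤ 2 := (norm_add_le _ _).trans (by simp; norm_num)
theorem hull_n3 : ‖((7 + I) / 2 : ℂ)‖ ≤ 4 := by
  have : ‖(7 + I : ℂ)‖ ≤ 8 := (norm_add_le _ _).trans (by simp; norm_num)
  rw [norm_div, Complex.norm_two]
  linarith

theorem hull_w {a : ℝ × ℝ} (h1 : 0 ≤ a.1) (h2 : 0 ≤ a.2) {p p' : ℂ} {s : ℝ} (hp : ‖p‖ ≤ s)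
    (hp' : ‖p'‖ ≤ s) : ‖((5 * a.1 * p, -(5 * a.2 * p')) : ℂ × ℂ)‖ ≤ 5 * (a.1 + a.2) * s := by
  have s0 := (norm_nonneg _).trans hp
  have := mul_le_mul_of_nonneg_left hp h1
  have := mul_le_mul_of_nonneg_left hp' h2
  have := mul_nonneg h1 s0
  have := mul_nonneg h2 s0
  refine max_le ?_ ?_ <;>
    simp only [norm_neg, norm_mul, norm_real, Real.norm_of_nonneg h1, Real.norm_of_nonneg h2,
      Complex.norm_ofNat] <;> linarith

theorem hull_e {c c' : ℂ × ℂ} {A s : ℝ} (hc : ‖c‖ ≤ A / 500) (hc' : ‖c'‖ ≤ A / 500)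
    {x y : ℂ} (hx : ‖x‖ ≤ 5 * s) (hy : ‖y‖ ≤ 4 * s) : ‖x • c + y • c'‖ ≤ 9 / 500 * (A * s) := by
  refine (norm_add_le _ _).trans ?_
  rw [norm_smul, norm_smul]
  have := mul_le_mul hx hc (norm_nonneg _) ((norm_nonneg _).trans hx)
  have := mul_le_mul hy hc' (norm_nonneg _) ((norm_nonneg _).trans hy)
  linarith

theorem hull_x1 {p : ℂ} {s : ℝ} (h : ‖p‖ ≤ 1) (hs : ‖p‖ ≤ s) :
    ‖p * ((2 + I) * p - (1 + I))‖ ≤ 5 * s := by
  rw [norm_mul, mul_comm]
  refine mul_le_mul ((norm_sub_le _ _).trans ?_) hs (norm_nonneg _) (by norm_num)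
  rw [norm_mul]
  linarith [mul_le_mul hull_n1 h (norm_nonneg _) (by norm_num), hull_n2]

theorem hull_x2 {p : ℂ} {s : ℝ} (h : ‖p‖ ≤ 1) (hs : ‖1 - p‖ ≤ s) :
    ‖(1 - p) * -((2 + I) * p + 1)‖ ≤ 5 * s := by
  rw [norm_mul, mul_comm, norm_neg]
  refine mul_le_mul ((norm_add_le _ _).trans ?_) hs (norm_nonneg _) (by norm_num)
  rw [norm_mul, norm_one]
  linarith [mul_le_mul hull_n1 h (norm_nonneg _) (by norm_num)]

theorem hull_y {p p' : ℂ} {s : ℝ} (h : ‖p'‖ ≤ 1) (hs : ‖p‖ ≤ s) :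
    ‖(7 + I) / 2 * (p * p')‖ ≤ 4 * s := by
  rw [norm_mul, norm_mul]
  refine mul_le_mul hull_n3 ?_ (by positivity) (by norm_num)
  simpa using mul_le_mul hs h (norm_nonneg _) ((norm_nonneg _).trans hs)

theorem hull_bd {P : ℂ × ℂ → ℝ × ℝ} {μ : ℝ} (hP : HullLip P μ) {g c c' : ℂ × ℂ} {a : ℝ × ℝ}
    (h1 : 0 ≤ a.1) (h2 : 0 ≤ a.2) (hc : ‖c‖ ≤ (a.1 + a.2) / 500) (hc' : ‖c'‖ ≤ (a.1 + a.2) / 500)
    (hg : ‖g‖ ≤ μ) (h0 : P g = 0) {g' : ℂ × ℂ} (hg' : ‖g'‖ ≤ μ) (h0' : P g' = 0)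
    (e : c = g' - g - (5 * a.1 * (1 : ℂ), -(5 * a.2 * (1 : ℂ)))) {h h' : ℂ} (r : 0 ≤ h.re)
    (r' : 0 ≤ h'.re) {t : ℝ} (n : ‖h‖ = t) (n' : ‖h'‖ = t)
    (hz : ‖hullD g a c c' (h / (1 + h)) (h' / (1 + h'))‖ ≤ μ) :
    ‖P (hullD g a c c' (h / (1 + h)) (h' / (1 + h'))) -
      (5 * a.1 * (h / (1 + h)).im, -(5 * a.2 * (h' / (1 + h')).im))‖ ≤
        4 / 100 * ((a.1 + a.2) * (t / (1 + t ^ 2))) := by
  obtain ⟨-, b1, b2, b3, b4⟩ := hull_pf r
  obtain ⟨-, -, -, b5, b6⟩ := hull_pf r'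
  rw [n] at b3 b4
  rw [n'] at b5 b6
  generalize h / (1 + h) = p at *
  generalize h' / (1 + h') = p' at *
  rcases le_total t 1 with ht | ht
  · have := hull_pt hP hg h0 hz (s := (a.1 + a.2) * (t / (1 + t ^ 2)))
      ((hull_w h1 h2 (b3 ht) (b5 ht)).trans_eq (by ring))
      ((hull_e hc hc' (hull_x1 b1 (b3 ht)) (hull_y b2 (b3 ht))).trans_eq (by ring))
    simpa [hullD] using this
  · have e2 : hullD g a c c' p p' = g' + (5 * a.1 * -(1 - p), -(5 * a.2 * -(1 - p'))) +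
        (((1 - p) * -((2 + I) * p + 1)) • c + ((7 + I) / 2 * ((1 - p) * p)) • c') := by
      have : g' = g + c + (5 * a.1 * (1 : ℂ), -(5 * a.2 * (1 : ℂ))) := by rw [e]; abel
      rw [this]
      ext <;> simp [hullD] <;> ring
    rw [e2] at hz ⊢
    have := hull_pt hP hg' h0' hz (s := (a.1 + a.2) * (t / (1 + t ^ 2)))
      ((hull_w h1 h2 ((norm_neg _).trans_le (b4 ht)) ((norm_neg _).trans_le (b6 ht))).trans_eq
        (by ring))
      ((hull_e hc hc' (hull_x2 b1 (b4 ht)) (hull_y b1 (b4 ht))).trans_eq (by ring))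
    simpa using this

theorem hull_core {P : ℂ × ℂ → ℝ × ℝ} {μ : ℝ} (hμ : 0 < μ) (h0 : P 0 = 0) (hP : HullLip P μ)
    {F : ℂ × ℂ → ℂ} (hF : Differentiable ℂ F) {M : ℝ}
    (hM : ∀ q, ‖q‖ ≤ μ → 9 * |(P q).1| ≤ (P q).2 ∨ 9 * |(P q).2| ≤ (P q).1 → ‖F q‖ ≤ M)
    {q : ℂ × ℂ} (hq : ‖q‖ ≤ 3 / 100 * μ) (k1 : (P q).1 ≤ 7 * (P q).2)
    (k2 : (P q).2 ≤ 7 * (P q).1) : ‖F q‖ ≤ M := by
  have hq' : ‖q‖ ≤ μ := by linarith
  have na : ‖P q‖ ≤ 4 / 100 * μ := by
    have h := hP q hq' 0 (by simpa using hμ.le)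
    simp only [h0, sub_zero, Prod.fst_zero, Prod.snd_zero] at h
    have := norm_sub_norm_le (P q) (q.1.im, q.2.im)
    have := hull_im q
    linarith
  obtain ⟨a, ha⟩ : ∃ a, a = P q := ⟨_, rfl⟩
  rw [← ha] at k1 k2 na
  have h1 : 0 ≤ a.1 := by linarith
  have h2 : 0 ≤ a.2 := by linarith
  have u1 : a.1 ≤ 4 / 100 * μ := (le_abs_self _).trans ((norm_fst_le a).trans na)
  have u2 : a.2 ≤ 4 / 100 * μ := (le_abs_self _).trans ((norm_snd_le a).trans na)
  have q1 := abs_le.1 ((abs_re_le_norm _).trans ((norm_fst_le q).trans hq))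
  have q2 := abs_le.1 ((abs_re_le_norm _).trans ((norm_snd_le q).trans hq))
  obtain ⟨g, hg, g0, g1, g2⟩ := hull_edge hμ h0 hP (x := (q.1.re - 3 * a.1, q.2.re + 3 * a.2))
    (max_le (abs_le.2 ⟨by linarith, by linarith⟩) (abs_le.2 ⟨by linarith, by linarith⟩))
  obtain ⟨g', hg', g0', g1', g2'⟩ := hull_edge hμ h0 hP
    (x := (q.1.re + 2 * a.1, q.2.re - 2 * a.2))
    (max_le (abs_le.2 ⟨by linarith, by linarith⟩) (abs_le.2 ⟨by linarith, by linarith⟩))
  have p0 : (1 + I) / (1 + (1 + I)) = (3 + I) / 5 := by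
    rw [div_eq_div_iff (hull_pf (h := 1 + I) (by simp)).1 (by norm_num)]
    linear_combination (-1 : ℂ) * I_sq
  have p0' : -I * (1 + I) / (1 + -I * (1 + I)) = (3 - I) / 5 := by
    rw [div_eq_div_iff (hull_pf (h := -I * (1 + I)) (by simp)).1 (by norm_num)]
    linear_combination (-3 - I) * I_sq
  have w0 := hull_w h1 h2 (p := (3 + I) / 5) (p' := (3 - I) / 5) (s := 1)
    (p0 ▸ (hull_pf (h := 1 + I) (by simp)).2.1) (p0' ▸ (hull_pf (h := -I * (1 + I)) (by simp)).2.1)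
  have w1 := hull_w h1 h2 (p := 1) (p' := 1) (s := 1) norm_one.le norm_one.le
  have ec := hull_err hP hg' hg (w := (5 * a.1 * (1 : ℂ), -(5 * a.2 * (1 : ℂ))))
    (by simp [g1, g1']; ring) (by simp [g2, g2']; ring) (by simp [g0, g0', Prod.ext_iff])
  have ec' := hull_err hP hq' hg (w := (5 * a.1 * ((3 + I) / 5), -(5 * a.2 * ((3 - I) / 5))))
    (by simp [g1]; ring) (by simp [g2]; ring)
    (by rw [g0, sub_zero, ← ha]; ext <;> simp <;> ring)
  obtain ⟨c, hc⟩ : ∃ c : ℂ × ℂ, c = g' - g - (5 * a.1 * (1 : ℂ), -(5 * a.2 * (1 : ℂ))) :=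
    ⟨_, rfl⟩
  obtain ⟨c', hc'⟩ : ∃ c' : ℂ × ℂ,
      c' = q - g - (5 * a.1 * ((3 + I) / 5), -(5 * a.2 * ((3 - I) / 5))) := ⟨_, rfl⟩
  rw [← hc] at ec
  rw [← hc'] at ec'
  have nc : ‖c‖ ≤ (a.1 + a.2) / 500 := by linarith
  have nc' : ‖c'‖ ≤ (a.1 + a.2) / 500 := by linarith
  have ng : ‖g‖ ≤ μ / 2 := by
    have : g = q - (5 * a.1 * ((3 + I) / 5), -(5 * a.2 * ((3 - I) / 5))) - c' := by
      rw [hc']; abel
    rw [this]
    refine (norm_sub_le _ _).trans ((add_le_add_left (norm_sub_le _ _) _).trans ?_)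
    linarith
  set f : ℂ → ℂ × ℂ := fun h => hullD g a c c' (h / (1 + h)) (-I * h / (1 + -I * h)) with hf
  have nf : ∀ h : ℂ, 0 ≤ h.re → 0 ≤ h.im → ‖f h‖ ≤ μ := fun h r i => by
    obtain ⟨-, b1, b2, -⟩ := hull_pf r
    obtain ⟨-, b3, -⟩ := hull_pf (h := -I * h) (by simpa using i)
    have := hull_w h1 h2 b1 b3
    have := hull_e nc nc' (hull_x1 b1 b1) (hull_y b2 b1)
    refine (norm_add_le _ _).trans ((add_le_add_left (norm_add_le _ _) _).trans ?_)
    linarith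
  have df : DifferentiableOn ℂ (fun h => F (f h)) (Ici 0 ×ℂ Ici 0) := fun h hh => by
    have n1 := (hull_pf (h := h) hh.1).1
    have n2 := (hull_pf (h := -I * h) (by simpa using hh.2)).1
    refine ((hF _).comp h ?_).differentiableWithinAt
    simp only [hf, hullD]
    fun_prop (disch := assumption)
  obtain ⟨N, hN⟩ := (isCompact_closedBall (0 : ℂ × ℂ) μ).exists_bound_of_continuousOn
    hF.continuous.continuousOn
  have bd := fun h (r : 0 ≤ h.re) (i : 0 ≤ h.im) t (n : ‖h‖ = t) =>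
    hull_bd hP h1 h2 nc nc' hg g0 hg' g0' hc r (h' := -I * h) (by simpa using i) n
      (by simpa using n) (nf h r i)
  have ii : ∀ x : ℝ, (x * I / (1 + x * I) : ℂ).im = x / (1 + x ^ 2) := fun x => by
    simp [div_im, normSq_apply]
    field_simp
  have ir : ∀ x : ℝ, (x / (1 + x) : ℂ).im = 0 := fun x => by
    norm_cast
  have key := PhragmenLindelof.quadrant_I (f := fun h => F (f h)) (C := M) (z := 1 + I)
    (DifferentiableOn.diffContOnCl (by simpa only [closure_reProdIm, closure_Ioi] using df))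
    ⟨0, two_pos, 0, .of_bound N (mem_inf_of_right fun h hh => by
      simpa using hN _ (mem_closedBall_zero_iff.2 (nf h hh.1.le hh.2.le)))⟩
    (fun x hx => by
      refine hM _ (nf x (by simpa) (by simp)) (Or.inl ?_)
      have b := bd x (by simpa) (by simp) x (by simpa)
      have e : (-I * x / (1 + -I * x) : ℂ).im = -(x / (1 + x ^ 2)) := by
        have := ii (-x)
        rw [neg_sq, neg_div, ofReal_neg, neg_mul, mul_comm, ← neg_mul] at this
        exact this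
      rw [ir, e] at b
      have b1 := abs_le.1 ((norm_fst_le _).trans b)
      have b2 := abs_le.1 ((norm_snd_le _).trans b)
      have t0 : 0 ≤ x / (1 + x ^ 2) := by positivity
      have := mul_le_mul_of_nonneg_right k1 t0
      have := mul_nonneg h2 t0
      simp only [Prod.fst_sub, Prod.snd_sub] at b1 b2
      change 9 * |(P (hullD _ _ _ _ _ _)).1| ≤ (P (hullD _ _ _ _ _ _)).2
      rcases abs_cases (P (hullD g a c c' (x / (1 + x)) (-I * x / (1 + -I * x)))).1 with h | h <;>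
        rw [h.1] <;> linarith)
    (fun x hx => by
      refine hM _ (nf (x * I) (by simp) (by simpa)) (Or.inr ?_)
      have b := bd (x * I) (by simp) (by simpa) x (by simpa)
      have e : (-I * (x * I) / (1 + -I * (x * I)) : ℂ).im = 0 := by
        have : -I * (x * I) = x := by linear_combination (-x : ℂ) * I_sq
        rw [this, ir]
      rw [ii, e] at b
      have b1 := abs_le.1 ((norm_fst_le _).trans b)
      have b2 := abs_le.1 ((norm_snd_le _).trans b)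
      have t0 : 0 ≤ x / (1 + x ^ 2) := by positivity
      have := mul_le_mul_of_nonneg_right k2 t0
      have := mul_nonneg h1 t0
      simp only [Prod.fst_sub, Prod.snd_sub] at b1 b2
      change 9 * |(P (hullD _ _ _ _ _ _)).2| ≤ (P (hullD _ _ _ _ _ _)).1
      rcases abs_cases (P (hullD g a c c' (x * I / (1 + x * I))
        (-I * (x * I) / (1 + -I * (x * I))))).2 with h | h <;> rw [h.1] <;> linarith)
    (by simp) (by simp)
  have e : f (1 + I) = q := by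
    simp only [hf, p0, p0', hullD]
    have e1 : (3 + I) / 5 * ((2 + I) * ((3 + I) / 5) - (1 + I)) = 0 := by
      linear_combination ((3 + I) / 25) * I_sq
    have e2 : (7 + I) / 2 * ((3 + I) / 5 * (1 - (3 + I) / 5)) = 1 := by
      linear_combination (-(8 + I) / 50) * I_sq
    rw [e1, e2, zero_smul, one_smul, zero_add, hc']
    abel
  rwa [e] at key

theorem hull {Pi : ℂ × ℂ → ℝ × ℝ} {c : ℂ × ℂ} {μ : ℝ} (hμ : 0 < μ) (hc : Pi c = 0)
    (hP : ∀ q ∈ closedBall c μ, ∀ q' ∈ closedBall c μ,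
      ‖Pi q - Pi q' - ((q.1 - q'.1).im, (q.2 - q'.2).im)‖ ≤ 1 / 10 ^ 4 * ‖q - q'‖)
    {F : ℂ × ℂ → ℂ} (hF : Differentiable ℂ F) {M : ℝ}
    (hM : ∀ q ∈ closedBall c μ, LR (Pi q) → ‖F q‖ ≤ M) :
    ∀ q ∈ closedBall c (μ / 100), |(Pi q).2| ≤ 3 / 2 * (Pi q).1 → ‖F q‖ ≤ M := by
  intro q hq hn
  set L : ℂ × ℂ → ℂ × ℂ := fun z => (z.1 + z.2, 2 * z.1 - 2 * z.2) with hL
  have nL : ∀ z, ‖L z‖ ≤ 4 * ‖z‖ := fun z => by
    have := norm_fst_le z
    have := norm_snd_le z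
    have := norm_nonneg z
    refine max_le ((norm_add_le _ _).trans (by linarith)) ((norm_sub_le _ _).trans ?_)
    simp only [norm_mul, Complex.norm_two]
    linarith
  have mL : ∀ z, ‖z‖ ≤ μ / 4 → c + L z ∈ closedBall c μ := fun z hz => by
    rw [add_mem_closedBall_iff_norm]
    linarith [nL z]
  obtain ⟨z, hz, ez⟩ : ∃ z : ℂ × ℂ, ‖z‖ ≤ 3 / 100 * (μ / 4) ∧ c + L z = q := by
    refine ⟨((2 * (q - c).1 + (q - c).2) / 4, (2 * (q - c).1 - (q - c).2) / 4), ?_, ?_⟩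
    · rw [mem_closedBall, dist_eq_norm] at hq
      have := norm_fst_le (q - c)
      have := norm_snd_le (q - c)
      have a1 := norm_add_le (2 * (q - c).1) (q - c).2
      have a2 := norm_sub_le (2 * (q - c).1) (q - c).2
      rw [norm_mul, Complex.norm_two] at a1 a2
      refine max_le ?_ ?_ <;> simp only [norm_div, Complex.norm_ofNat] <;> linarith
    · ext <;> simp [hL] <;> ring
  subst ez
  have hn' := abs_le.1 hn
  refine hull_core (μ := μ / 4) (P := fun z => ((2 * (Pi (c + L z)).1 + (Pi (c + L z)).2) / 4,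
    (2 * (Pi (c + L z)).1 - (Pi (c + L z)).2) / 4)) (F := fun z => F (c + L z)) (by positivity)
    (by simp [hL, ← Prod.zero_eq_mk, hc]) (fun u hu v hv => ?_)
    (hF.comp (by simp only [hL]; fun_prop)) (fun u hu h => hM _ (mL u hu) ?_) hz
    (by dsimp only; linarith) (by dsimp only; linarith)
  · have h := hP _ (mL u hu) _ (mL v hv)
    have e : c + L u - (c + L v) = L (u - v) := by ext <;> simp [hL] <;> ring
    rw [e] at h
    replace h := h.trans (mul_le_mul_of_nonneg_left (nL (u - v)) (by norm_num))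
    have b1 := abs_le.1 ((norm_fst_le _).trans h)
    have b2 := abs_le.1 ((norm_snd_le _).trans h)
    simp only [hL, Prod.fst_sub, Prod.snd_sub, Prod.fst_add, Prod.snd_add, sub_im, add_im, mul_im,
      re_ofNat, im_ofNat] at b1 b2
    refine max_le (abs_le.2 ⟨?_, ?_⟩) (abs_le.2 ⟨?_, ?_⟩) <;>
      simp only [hL, Prod.fst_sub, Prod.snd_sub, sub_im] <;> linarith
  · dsimp only at h
    generalize Pi (c + L u) = n at h
    refine h.symm.imp (fun h => ?_) fun h => ?_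
    · rcases abs_cases ((2 * n.1 - n.2) / 4) with k | k <;> rw [k.1] at h <;>
        exact abs_le.2 ⟨by linarith, by linarith⟩
    · rcases abs_cases ((2 * n.1 + n.2) / 4) with k | k <;> rw [k.1] at h <;>
        exact abs_le.2 ⟨by linarith, by linarith⟩

open MeasureTheory in
/-- holomorphy of parametric integrals from a bound of the integral of the norm -/
theorem hull_holo {X : Type} [MeasurableSpace X] (ν : Measure X) [SFinite ν]
    {f : ℂ → X → ℂ} {S : Set ℂ} (hS : IsOpen S) {M : ℝ}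
    (hm : ∀ t ∈ S, Measurable (f t)) (hd : ∀ x, DifferentiableOn ℂ (fun t => f t x) S)
    (hi : ∀ t ∈ S, Integrable (f t) ν) (hb : ∀ t ∈ S, ∫ x, ‖f t x‖ ∂ν ≤ M) :
    DifferentiableOn ℂ (fun t => ∫ x, f t x ∂ν) S := by
  intro t₀ ht₀
  obtain ⟨r, r0, hr⟩ := Metric.nhds_basis_closedBall.mem_iff.1 (hS.mem_nhds ht₀)
  lift r to NNReal using r0.le
  have cS : ∀ θ, circleMap t₀ r θ ∈ S := fun θ => hr (circleMap_mem_closedBall t₀ r0.le θ)
  have gm : Measurable (Function.uncurry fun θ x => f (circleMap t₀ r θ) x) :=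
    measurable_uncurry_of_continuous_of_measurable
      (fun x => (hd x).continuousOn.comp_continuous (continuous_circleMap t₀ r) cS)
      fun θ => hm _ (cS θ)
  have gi : Integrable (Function.uncurry fun θ x => f (circleMap t₀ r θ) x)
      ((volume.restrict (uIoc 0 (2 * π))).prod ν) := by
    have : IsFiniteMeasure (volume.restrict (uIoc 0 (2 * π))) :=
      isFiniteMeasure_restrict.2 (by simp [uIoc])
    refine (integrable_prod_iff gm.aestronglyMeasurable).2 ⟨.of_forall fun θ => hi _ (cS θ), ?_⟩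
    refine .of_bound gm.norm.stronglyMeasurable.integral_prod_right'.aestronglyMeasurable M
      (.of_forall fun θ => ?_)
    rw [Real.norm_of_nonneg (integral_nonneg fun _ => norm_nonneg _)]
    exact hb _ (cS θ)
  have ci : CircleIntegrable (fun t => ∫ x, f t x ∂ν) t₀ r :=
    intervalIntegrable_iff.2 gi.integral_prod_left
  have key : ∀ w ∈ ball t₀ r, ∫ x, f w x ∂ν =
      (2 * π * I : ℂ)⁻¹ • ∮ z in C(t₀, r), (z - w)⁻¹ • ∫ x, f z x ∂ν := by
    intro w hw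
    have e : ∀ x, f w x = (2 * π * I : ℂ)⁻¹ • ∮ z in C(t₀, r), (z - w)⁻¹ • f z x := fun x =>
      ((((hd x).mono hr).diffContOnCl_ball subset_rfl).two_pi_i_inv_smul_circleIntegral_sub_inv_smul
        hw).symm
    have c : Continuous fun θ => deriv (circleMap t₀ r) θ * (circleMap t₀ r θ - w)⁻¹ := by
      simp only [deriv_circleMap]
      exact ((continuous_circleMap 0 r).mul_const _).mul (continuous_circleMap_inv hw)
    obtain ⟨C, hC⟩ :=
      isCompact_uIcc.exists_bound_of_continuousOn (c.continuousOn (s := uIcc 0 (2 * π)))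
    have gi' := gi.bdd_mul (c := C) (c.measurable.comp measurable_fst).aestronglyMeasurable
      (Measure.quasiMeasurePreserving_fst.ae
        ((ae_restrict_mem measurableSet_uIoc).mono fun θ h => hC θ (uIoc_subset_uIcc h)))
    rw [integral_congr_ae (.of_forall e), integral_smul]
    congr 1
    simp only [circleIntegral, smul_eq_mul, ← mul_assoc]
    rw [← intervalIntegral_integral_swap gi']
    simp only [integral_const_mul]
  have := (hasFPowerSeriesOn_cauchy_integral ci r0).analyticAt.differentiableAt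
  exact (this.congr_of_eventuallyEq
    (mem_of_superset (ball_mem_nhds _ r0) key)).differentiableWithinAt

theorem hull_nce (θ : ℝ) : ‖ce θ‖ = 1 := norm_exp_ofReal_mul_I θ

theorem hull_cce : Continuous ce := by unfold ce; fun_prop

theorem hull_cauchy {g : ℂ → ℂ} (hg : DiffContOnCl ℂ g (ball 0 1)) :
    ∫ θ in (0 : ℝ)..π, g (ce (2 * θ)) * ce (2 * θ) = 0 := by
  have h := hg.circleIntegral_eq_zero zero_le_one
  have e : ∀ θ, circleMap 0 1 θ = ce θ := fun θ => by simp [circleMap, ce]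
  simp only [circleIntegral, deriv_circleMap, e, smul_eq_mul] at h
  rw [intervalIntegral.integral_comp_mul_left (fun θ => g (ce θ) * ce θ) two_ne_zero, mul_zero]
  have : ∫ θ in (0 : ℝ)..2 * π, g (ce θ) * ce θ = 0 := by
    have h2 : (∫ θ in (0 : ℝ)..2 * π, g (ce θ) * ce θ) * I = 0 := by
      rw [← intervalIntegral.integral_mul_const, ← h]
      congr 1
      ext θ
      ring
    exact (mul_eq_zero.1 h2).resolve_right I_ne_zero
  rw [this, smul_zero]

open MeasureTheory in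
theorem hull_boost {D : Set (ℂ × ℂ)} {H : ℂ × ℂ → ℂ} (hH : DifferentiableOn ℂ H D)
    {a y : ℝ → ℂ × ℂ} {p : ℝ → ℂ} (ha : Continuous a) (hy : Continuous y) (hp : Continuous p)
    (hD : ∀ θ, ∀ l : ℂ, ‖l‖ ≤ 2 → a θ + l • y θ ∈ D) {η : ℝ} (hη : 0 < η)
    (h0 : ∀ l : ℂ, ‖l‖ < η → ∫ θ in (0 : ℝ)..π, H (a θ + l • y θ) * p θ = 0) :
    ∫ θ in (0 : ℝ)..π, H (a θ + y θ) * p θ = 0 := by
  have cj : ContinuousOn (fun x : ℂ × ℝ => H (a x.2 + x.1 • y x.2) * p x.2)
      (closedBall 0 2 ×ˢ univ) :=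
    (hH.continuousOn.comp (by fun_prop) fun x hx => hD _ _ (by simpa using hx.1)).mul (by fun_prop)
  have c1 : ∀ l ∈ ball (0 : ℂ) 2, Continuous fun θ => H (a θ + l • y θ) * p θ := fun l hl =>
    cj.comp_continuous (f := fun θ => (l, θ)) (by fun_prop) fun θ =>
      ⟨ball_subset_closedBall hl, trivial⟩
  obtain ⟨C, hC⟩ := ((isCompact_closedBall (0 : ℂ) 2).prod (isCompact_Icc (a := 0) (b := π))
    ).exists_bound_of_continuousOn (cj.mono (prod_mono subset_rfl (subset_univ _)))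
  have : IsFiniteMeasure (volume.restrict (Ioc 0 π)) := isFiniteMeasure_restrict.2 (by simp)
  have hd := hull_holo (volume.restrict (Ioc 0 π)) (f := fun l θ => H (a θ + l • y θ) * p θ)
    (isOpen_ball (x := 0) (ε := 2)) (M := ∫ _ in Ioc 0 π, C) (fun l hl => (c1 l hl).measurable)
    (fun θ => (hH.comp (by fun_prop) fun l hl =>
      hD θ l (le_of_lt (by simpa using hl))).mul_const _)
    (fun l hl => (c1 l hl).integrableOn_Ioc)
    (fun l hl => setIntegral_mono_on (c1 l hl).norm.integrableOn_Ioc (integrable_const _)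
      measurableSet_Ioc fun θ h => hC (l, θ) ⟨ball_subset_closedBall hl, Ioc_subset_Icc_self h⟩)
  have key := (hd.analyticOnNhd isOpen_ball).eqOn_zero_of_preconnected_of_eventuallyEq_zero
    (convex_ball 0 2).isPreconnected (mem_ball_self two_pos)
    (mem_of_superset (ball_mem_nhds 0 hη) fun l hl => by
      have := h0 l (by simpa using hl)
      rwa [intervalIntegral.integral_of_le Real.pi_pos.le] at this)
    (show (1 : ℂ) ∈ ball 0 2 by simp)
  rw [intervalIntegral.integral_of_le Real.pi_pos.le]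
  simpa using key

theorem moments {S : Type} [PseudoMetricSpace S] {K : Set S} (hK : IsCompact K)
    (hK' : IsPreconnected K) {D : Set (ℂ × ℂ)} (hD : IsOpen D) {H : ℂ × ℂ → ℂ}
    (hH : DifferentiableOn ℂ H D) {A : S × ℂ → ℂ × ℂ}
    (hA : ContinuousOn A (K ×ˢ closedBall 0 1))
    (hA' : ∀ s ∈ K, DifferentiableOn ℂ (fun w => A (s, w)) (ball 0 1))
    (hb : ∀ s ∈ K, ∀ w, ‖w‖ = 1 → A (s, w) ∈ D) {s0 : S} (h0 : s0 ∈ K)
    (hi : ∀ w, ‖w‖ ≤ 1 → A (s0, w) ∈ D) {ψ : ℂ → ℂ} (hψ : DiffContOnCl ℂ ψ (ball 0 1)) :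
    ∀ s ∈ K, ∫ θ in (0 : ℝ)..π, H (A (s, ce (2 * θ))) * ψ (ce (2 * θ)) * ce (2 * θ) = 0 := by
  have cl : closure (ball (0 : ℂ) 1) = closedBall 0 1 := closure_ball 0 one_ne_zero
  have dA : ∀ s ∈ K, DiffContOnCl ℂ (fun w => A (s, w)) (ball 0 1) := fun s hs =>
    ⟨hA' s hs, cl ▸ hA.comp (by fun_prop) fun w hw => ⟨hs, hw⟩⟩
  have mb : ∀ θ, ce (2 * θ) ∈ closedBall (0 : ℂ) 1 := fun θ => by simp [hull_nce]
  have cc : Continuous fun θ : ℝ => ce (2 * θ) := hull_cce.comp (by fun_prop)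
  have cb : ∀ {E : Type} [NormedAddCommGroup E] [NormedSpace ℂ E] {g : ℂ → E},
      DiffContOnCl ℂ g (ball 0 1) → Continuous fun θ : ℝ => g (ce (2 * θ)) := fun hg =>
    hg.continuousOn_ball.comp_continuous cc mb
  have th : ∀ {T : Set (ℂ × ℂ)}, IsCompact T → T ⊆ D →
      ∃ d > 0, ∀ x ∈ T, ∀ v : ℂ × ℂ, ‖v‖ ≤ d → x + v ∈ D := fun hT hTD => by
    obtain ⟨d, d0, hd⟩ := hT.exists_cthickening_subset_open hD hTD
    exact ⟨d, d0, fun x hx v hv => hd (mem_cthickening_of_dist_le _ x d _ hx (by simpa using hv))⟩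
  obtain ⟨d, d0, hd⟩ := th ((hK.prod (isCompact_sphere (0 : ℂ) 1)).image_of_continuousOn
    (hA.mono (prod_mono subset_rfl sphere_subset_closedBall)))
    (by rintro _ ⟨⟨s, w⟩, h, rfl⟩; exact hb s h.1 w (by simpa using h.2))
  set Q : ℝ → S → Prop := fun η s => ∀ Z : ℂ → ℂ × ℂ, DiffContOnCl ℂ Z (ball 0 1) →
    (∀ w ∈ closedBall (0 : ℂ) 1, ‖Z w‖ ≤ η) → ∫ θ in (0 : ℝ)..π,
      H (A (s, ce (2 * θ)) + Z (ce (2 * θ))) * (ψ (ce (2 * θ)) * ce (2 * θ)) = 0 with hQ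
  have boost : ∀ s ∈ K, (∃ η > 0, Q η s) → Q (d / 2) s := by
    rintro s hs ⟨η, η0, h⟩ Z hZ hZ'
    refine hull_boost hH (cb (dA s hs)) (cb hZ) ((cb hψ).mul cc) (fun θ l hl => ?_)
      (η := 2 * η / d) (by positivity) fun l hl => h (l • Z) (hZ.const_smul l) fun w hw => ?_
    · refine hd _ ⟨(s, ce (2 * θ)), ⟨hs, by simp [hull_nce]⟩, rfl⟩ _ ?_
      rw [norm_smul]
      have := mul_le_mul hl (hZ' _ (mb θ)) (norm_nonneg _) zero_le_two
      linarith
    · rw [Pi.smul_apply, norm_smul]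
      refine (mul_le_mul hl.le (hZ' w hw) (norm_nonneg _) (by positivity)).trans_eq ?_
      field_simp
  have base : ∃ η > 0, Q η s0 := by
    obtain ⟨η, η0, hη⟩ := th ((isCompact_closedBall (0 : ℂ) 1).image_of_continuousOn
      (dA s0 h0).continuousOn_ball) (by rintro _ ⟨w, h, rfl⟩; exact hi w (by simpa using h))
    refine ⟨η, η0, fun Z hZ hZ' => ?_⟩
    have hg : DiffContOnCl ℂ (fun w => H (A (s0, w) + Z w)) (ball 0 1) := by
      have hs := (dA s0 h0).add hZ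
      have mp : ∀ w ∈ closedBall (0 : ℂ) 1, A (s0, w) + Z w ∈ D := fun w hw =>
        hη _ ⟨w, hw, rfl⟩ _ (hZ' w hw)
      exact ⟨hH.comp hs.differentiableOn fun w hw => mp w (ball_subset_closedBall hw),
        hH.continuousOn.comp hs.continuousOn fun w hw => mp w (cl ▸ hw)⟩
    have := hull_cauchy (g := fun w => H (A (s0, w) + Z w) * ψ w)
      ⟨hg.differentiableOn.mul hψ.differentiableOn, hg.continuousOn.mul hψ.continuousOn⟩
    simpa only [mul_assoc] using this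
  obtain ⟨ρ, ρ0, hρ⟩ := Metric.uniformContinuousOn_iff.1
    ((hK.prod (isCompact_closedBall (0 : ℂ) 1)).uniformContinuousOn_of_continuous hA) (d / 4)
    (by positivity)
  have step : ∀ s ∈ K, ∀ t ∈ K, dist t s < ρ → (∃ η > 0, Q η s) → ∃ η > 0, Q η t := by
    intro s hs t ht hst h
    refine ⟨d / 4, by positivity, fun Z hZ hZ' => ?_⟩
    have := boost s hs h (fun w => A (t, w) - A (s, w) + Z w) (((dA t ht).sub (dA s hs)).add hZ)
      fun w hw => by
        have h1 := hρ (t, w) ⟨ht, hw⟩ (s, w) ⟨hs, hw⟩ (by simpa using hst)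
        rw [dist_eq_norm] at h1
        have h2 := hZ' w hw
        have h3 := norm_add_le (A (t, w) - A (s, w)) (Z w)
        linarith
    simpa only [← add_assoc, add_sub_cancel] using this
  intro s hs
  obtain ⟨η, η0, h⟩ := hK'.induction₂' (fun s t => (∃ η > 0, Q η s) → ∃ η > 0, Q η t)
    (fun x hx => by
      filter_upwards [self_mem_nhdsWithin, mem_nhdsWithin_of_mem_nhds (ball_mem_nhds x ρ0)]
        with y hy hy'
      exact ⟨step x hx y hy hy', step y hy x hx (by rwa [dist_comm])⟩)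
    (fun x y z _ _ _ h1 h2 h => h2 (h1 h)) h0 hs base
  have := h 0 diffContOnCl_const fun w _ => by simpa using η0.le
  simpa only [Pi.zero_apply, add_zero, mul_assoc] using this

theorem hull_real {a b x y n m r : ℝ} (hn : n ^ 2 = a * a + b * b) (hm : m ^ 2 = x * x + y * y)
    (hw : n < 1) (hr : 1 - n ≤ r / 4) (hr' : r ≤ 1)
    (h0 : (a + x) ^ 2 + (b + y) ^ 2 ≤ 1) (h1 : (a + -y) ^ 2 + (b + x) ^ 2 ≤ 1)
    (h2 : (a + -x) ^ 2 + (b + -y) ^ 2 ≤ 1) (h3 : (a + y) ^ 2 + (b + -x) ^ 2 ≤ 1) :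
    m ^ 2 < r ^ 2 := by
  have q := add_nonneg (sq_nonneg x) (sq_nonneg y)
  have hW2 : 1 - 2 * (1 - n) ≤ a ^ 2 + b ^ 2 := by nlinarith [sq_nonneg (1 - n)]
  have hW3 : 9 / 16 ≤ a ^ 2 + b ^ 2 := by
    have : (3 / 4 : ℝ) ^ 2 ≤ n ^ 2 := pow_le_pow_left₀ (by norm_num) (by linarith) 2
    linarith
  have ha : (a * x + b * y) ^ 2 ≤ (1 - n) ^ 2 := sq_le_sq' (by linarith) (by linarith)
  have hb : (a * y - b * x) ^ 2 ≤ (1 - n) ^ 2 := sq_le_sq' (by linarith) (by linarith)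
  have hc := mul_le_mul_of_nonneg_right hW3 q
  have hd : (4 * (1 - n)) ^ 2 ≤ r ^ 2 := pow_le_pow_left₀ (by linarith) (by linarith) 2
  have he : 0 < (1 - n) ^ 2 := pow_pos (by linarith) 2
  linarith

theorem hull_four {w u : ℂ} {r : ℝ} (hw : ‖w‖ < 1) (hr : 1 - ‖w‖ ≤ r / 4) (hr' : r ≤ 1)
    (h : ∀ j : Fin 4, ‖w + I ^ (j : ℕ) * u‖ ≤ 1) : ‖u‖ < r := by
  have sq : ∀ z : ℂ, ‖z‖ ≤ 1 → z.re ^ 2 + z.im ^ 2 ≤ 1 := fun z hz => by
    have := Complex.sq_norm z
    rw [normSq_apply] at this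
    nlinarith [norm_nonneg z]
  have h0 := sq _ (h 0)
  have h1 := sq _ (h 1)
  have h2 := sq _ (h 2)
  have h3 := sq _ (h 3)
  have e2 : ((2 : Fin 4) : ℕ) = 2 := rfl
  have e3 : ((3 : Fin 4) : ℕ) = 3 := rfl
  simp only [Fin.val_zero, Fin.val_one, e2, e3, pow_zero, one_mul, pow_one, I_sq, I_pow_three,
    add_re, add_im, mul_re, mul_im, I_re, I_im, neg_re, neg_im, zero_mul,
    neg_mul, zero_sub, zero_add, neg_neg] at h0 h1 h2 h3
  exact lt_of_pow_lt_pow_left₀ 2 (by linarith)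
    (hull_real ((Complex.sq_norm w).trans (normSq_apply w))
      ((Complex.sq_norm u).trans (normSq_apply u)) hw hr hr' h0 h1 h2 h3)

theorem arc_uniq {f : ℂ → ℂ} {w : ℂ} {r : ℝ} (hw : ‖w‖ < 1) (hr : 1 - ‖w‖ ≤ r / 4) (hr' : r ≤ 1)
    (hf : DifferentiableOn ℂ f (ball 0 1 ∩ ball w r))
    (hc : ContinuousOn f (closedBall 0 1 ∩ ball w r))
    (h0 : ∀ u ∈ ball w r, ‖u‖ = 1 → f u = 0) : f w = 0 := by
  set O : Set ℂ := {u | ∀ j : Fin 4, ‖w + I ^ (j : ℕ) * u‖ < 1} with hO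
  have ct : ∀ j : Fin 4, Continuous fun u : ℂ => w + I ^ (j : ℕ) * u := fun j => by fun_prop
  have oO : IsOpen O := by
    rw [hO, ofPred_forall]
    exact isOpen_iInter_of_finite fun j => isOpen_lt (ct j).norm continuous_const
  have cO : ∀ u ∈ closure O, ∀ j : Fin 4, ‖w + I ^ (j : ℕ) * u‖ ≤ 1 := fun u hu j =>
    closure_minimal (t := {u | ‖w + I ^ (j : ℕ) * u‖ ≤ 1}) (fun v hv => (hv j).le)
      (isClosed_le (ct j).norm continuous_const) hu
  have bl : ∀ u ∈ closure O, ∀ j : Fin 4, w + I ^ (j : ℕ) * u ∈ ball w r := fun u hu j => by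
    simpa [mem_ball, dist_eq_norm] using hull_four hw hr hr' (cO u hu)
  have bO : Bornology.IsBounded O :=
    (isBounded_ball (x := (0 : ℂ)) (r := r)).subset fun u hu => by
      simpa using hull_four hw hr hr' (cO u (subset_closure hu))
  have dg : DiffContOnCl ℂ (fun u => ∏ j : Fin 4, f (w + I ^ (j : ℕ) * u)) O := by
    constructor
    · refine DifferentiableOn.fun_finsetProd fun j _ => hf.comp (by fun_prop) fun u hu => ?_
      exact ⟨by simpa using hu j, bl u (subset_closure hu) j⟩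
    · refine continuousOn_finsetProd _ fun j _ => hc.comp (ct j).continuousOn fun u hu => ?_
      exact ⟨by simpa using cO u hu j, bl u hu j⟩
  have key := Complex.norm_le_of_forall_mem_frontier_norm_le bO dg (C := 0) (z := 0)
    (fun u hu => by
      have h1 : u ∉ O := by rw [oO.frontier_eq] at hu; exact hu.2
      obtain ⟨j, hj⟩ := not_forall.1 h1
      rw [Finset.prod_eq_zero (Finset.mem_univ j)
        (h0 _ (bl u hu.1 j) (le_antisymm (cO u hu.1 j) (not_lt.1 hj))), norm_zero])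
    (subset_closure fun j => by simpa using hw)
  have k2 : ‖f w‖ ^ 4 ≤ 0 := by simpa using key
  exact norm_eq_zero.1 (pow_eq_zero_iff (by norm_num) |>.1 (le_antisymm k2 (by positivity)))

end Pool.Agent.Lib.MP_0cc5e8_gt
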