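import Pool.Agent.Lib.MP_0cc5e8_gt.KerA

namespace Pool.Agent.Lib.MP_0cc5e8_gt

open Complex Set Filter Topology Metric
open scoped ComplexConjugate ContDiff Real

theorem ker_cramer (τ n a : ℂ) (h : (conj τ * n).im ≠ 0) :
    a = ((conj a * n).im * ((conj τ * n).im)⁻¹) • τ + ((conj τ * a).im * ((conj τ * n).im)⁻¹) • n := by
  generalize hD : (conj τ * n).im = D at h
  simp only [mul_im, conj_re, conj_im] at hD
  apply Complex.ext
  · simp; field_simp; rw [← hD]; ring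
  · simp; field_simp; rw [← hD]; ring

theorem ker_conj {f : KP → ℂ} (hf : ContDiff ℝ ∞ f) : ContDiff ℝ ∞ fun p => conj (f p) :=
  conjCLE.contDiff.comp hf

theorem ker_im {f : KP → ℂ} (hf : ContDiff ℝ ∞ f) : ContDiff ℝ ∞ fun p => (f p).im :=
  imCLM.contDiff.comp hf

theorem ker_ofReal {f : KP → ℝ} (hf : ContDiff ℝ ∞ f) : ContDiff ℝ ∞ fun p => (f p : ℂ) :=
  ofRealCLM.contDiff.comp hf

theorem ker_sq (θ : ℝ) : (ce θ).re ^ 2 + (ce θ).im ^ 2 = 1 := by
  have := Complex.sq_norm (ce θ)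
  rw [flow_norm_ce, normSq_apply] at this
  linarith

theorem kernel {κ : ℂ → Co} {Ψ : ℝ × ℝ × St → St} (h : Fam κ Ψ) :
    ∃ k : ℝ × ℂ × ℝ × ℝ → ℂ, ContDiff ℝ ∞ k ∧ (∀ p, k (0, p) = 0) ∧
      ∀ᶠ ε in 𝓝 (0 : ℝ), ∀ z : ℂ, ‖z‖ ≤ 12 → ∀ g : ℂ → ℂ, ContDiff ℝ 1 g →
        (∀ θ, g (Ψ (ε, 30, z, θ, 0)).1 = 0) →
        cc (scl κ ε) (Vp (fun p => Ψ (ε, p)) fun y => g y.1) z = g z / 2 +
          ∫ θ in (0 : ℝ)..2 * π, ∫ t in (0 : ℝ)..30,
            k (ε, z, θ, t) * g (Ψ (ε, t, z, θ, 0)).1 := by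
  have hΨ := h.smooth
  have hκ := h.sk
  have le1 : (1 : WithTop ℕ∞) ≤ ∞ := by exact_mod_cast le_top
  have dif : ∀ {f : KP → ℂ}, ContDiff ℝ ∞ f → Differentiable ℝ f := fun hf =>
    (hf.of_le le1).differentiable one_ne_zero
  let W : KP → St := fun p => Ψ (p.1.1, p.2, p.1.2.1, p.1.2.2, 0)
  have sW : ContDiff ℝ ∞ W := by fun_prop
  let Z : KP → ℂ := fun p => (W p).1
  let τ : KP → ℂ := fun p => ce (W p).2.1
  let X : KP → ℂ := fun p => (Real.exp (-(W p).2.2) : ℂ)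
  let e : KP → ℂ := fun p => ce p.1.2.2
  have sZ : ContDiff ℝ ∞ Z := by fun_prop
  have sτ : ContDiff ℝ ∞ τ := by fun_prop
  have sX : ContDiff ℝ ∞ X := ker_ofReal (by fun_prop)
  have se : ContDiff ℝ ∞ e := by fun_prop
  have pW : ∀ ε z θ t, W ((ε, z, θ + 2 * π), t) = W ((ε, z, θ), t) + (0, 2 * π, 0) :=
    fun ε z θ t => (h.flow ε).per t z θ 0
  have pZ : KPer Z := fun ε z θ t => by simp [Z, pW]
  have pτ : KPer τ := fun ε z θ t => by simp [τ, pW, flow_ce_add, flow_ce_two_pi]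
  have pX : KPer X := fun ε z θ t => by simp [X, pW]
  have pe : KPer e := fun ε z θ t => by simp [e, flow_ce_add, flow_ce_two_pi]
  have fW : ∀ ε t : ℝ, ε = 0 ∨ t = 0 → ∀ z θ, W ((ε, z, θ), t) = (z + t * ce θ, θ, 0) := by
    rintro ε t (rfl | rfl) z θ
    · exact h.flat t z θ 0
    · simpa using (h.flow ε).zero (z, θ, 0)
  have hτ : ∀ p, kD kvT Z p = τ p := fun p =>
    (kD_T (dif sZ) p.1 p.2).unique ((h.flow p.1.1).flow_d1 (p.1.2.1, p.1.2.2, 0) p.2)
  obtain ⟨E, sE, pE, hE, hE0⟩ := ker_had sZ pZ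
  have hZE : ∀ ε z θ t, Z ((ε, z, θ), t) = z + t * E ((ε, z, θ), t) := fun ε z θ t => by
    rw [hE]; simp [Z, fW ε 0 (Or.inr rfl)]
  set n := kD kvA E with hn
  have sn : ContDiff ℝ ∞ n := kD_contDiff sE _
  have pn : KPer n := kD_per pE _
  have hZn : ∀ ε z θ (t : ℝ), kD kvA Z ((ε, z, θ), t) = t * n ((ε, z, θ), t) := fun ε z θ t => by
    refine (kD_A (dif sZ) ε z θ t).unique ?_
    simp only [hZE]
    exact ((kD_A (dif sE) ε z θ t).const_mul (t : ℂ)).const_add z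
  have fE : ∀ ε t : ℝ, ε = 0 ∨ t = 0 → ∀ z θ, E ((ε, z, θ), t) = ce θ := by
    intro ε t hs z θ
    by_cases ht : t = 0
    · subst ht; rw [hE0, hτ]; simp [τ, fW ε 0 hs]
    · have := hZE ε z θ t
      simp only [Z, fW ε t hs, add_right_inj] at this
      exact (mul_left_cancel₀ (by exact_mod_cast ht) this).symm
  have fn : ∀ ε t : ℝ, ε = 0 ∨ t = 0 → ∀ z θ, n ((ε, z, θ), t) = I * ce θ := fun ε t hs z θ => by
    refine (kD_A (dif sE) ε z θ t).unique ?_
    simp only [fE ε t hs]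
    exact flow_hasDerivAt_ce θ
  have fa : ∀ ε t : ℝ, ε = 0 ∨ t = 0 → ∀ z d θ, kD (kvZ d) Z ((ε, z, θ), t) = d :=
    fun ε t hs z d θ => by
      refine (kD_Z (dif sZ) ε z d θ t).unique ?_
      simp only [Z, fW ε t hs]
      simpa using (((hasDerivAt_id (0 : ℝ)).smul_const d).const_add z).add_const (t * ce θ)
  obtain ⟨ι, sι, hι⟩ := ker_inv
  let D : KP → ℝ := fun p => (conj (τ p) * n p).im
  have sD : ContDiff ℝ ∞ D := ker_im ((ker_conj sτ).mul sn)
  have fD : ∀ ε t : ℝ, ε = 0 ∨ t = 0 → ∀ z θ, D ((ε, z, θ), t) = 1 := fun ε t hs z θ => by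
    have := ker_sq θ
    simp [D, τ, fW ε t hs, fn ε t hs]; linarith
  let μ' : ℂ → KP → ℝ := fun d p => (conj (kD (kvZ d) Z p) * n p).im * ι (D p)
  let ν' : ℂ → KP → ℝ := fun d p => (conj (τ p) * kD (kvZ d) Z p).im * ι (D p)
  have sμ' : ∀ d, ContDiff ℝ ∞ (μ' d) := fun d =>
    (ker_im ((ker_conj (kD_contDiff sZ _)).mul sn)).mul (sι.comp sD)
  have sν' : ∀ d, ContDiff ℝ ∞ (ν' d) := fun d =>
    (ker_im ((ker_conj sτ).mul (kD_contDiff sZ _))).mul (sι.comp sD)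
  let μ : KP → ℂ := fun p => (μ' 1 p - I * μ' I p) / 2 * e p * X p
  let ν : KP → ℂ := fun p => (ν' 1 p - I * ν' I p) / 2 * e p * X p
  have sμ : ContDiff ℝ ∞ μ := by
    have a1 := ker_ofReal (sμ' 1)
    have a2 := ker_ofReal (sμ' I)
    fun_prop
  have sν : ContDiff ℝ ∞ ν := by
    have a1 := ker_ofReal (sν' 1)
    have a2 := ker_ofReal (sν' I)
    fun_prop
  have pν : KPer ν := fun ε z θ t => by
    simp only [ν, ν', D, pτ ε z θ t, pn ε z θ t, pe ε z θ t, pX ε z θ t, kD_per pZ _ ε z θ t]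
  have ι1 : ι 1 = 1 := by rw [hι 1 (by norm_num), inv_one]
  have fμ : ∀ ε t : ℝ, ε = 0 ∨ t = 0 → ∀ z θ, μ ((ε, z, θ), t) = 1 / 2 := fun ε t hs z θ => by
    have := ker_sq θ
    simp only [μ, μ', fD ε t hs, fa ε t hs, fn ε t hs, ι1, e, X, fW ε t hs]
    apply Complex.ext <;> simp <;> linarith
  have fν : ∀ ε t : ℝ, ε = 0 ∨ t = 0 → ∀ z θ, ν ((ε, z, θ), t) = -(I / 2) := fun ε t hs z θ => by
    have := ker_sq θ
    simp only [ν, ν', fD ε t hs, fa ε t hs, τ, ι1, e, X, fW ε t hs]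
    apply Complex.ext <;> simp <;> linarith
  obtain ⟨ν₁, sν₁, pν₁, hν₁, hν₁0⟩ := ker_had sν pν
  have fν₁ : ∀ z θ t, ν₁ ((0, z, θ), t) = 0 := by
    intro z θ t
    by_cases ht : t = 0
    · subst ht
      rw [hν₁0]
      refine (kD_T (dif sν) _ 0).unique ?_
      simp only [fν 0 _ (Or.inl rfl)]
      exact hasDerivAt_const _ _
    · have := hν₁ (0, z, θ) t
      rw [fν 0 _ (Or.inl rfl), fν 0 _ (Or.inl rfl), left_eq_add, mul_eq_zero] at this
      exact this.resolve_left (by exact_mod_cast ht)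
  let c : KP → ℂ := fun p => (scl κ p.1.1 p.1.2.1).1 * e p -
    conj (scl κ p.1.1 p.1.2.1).2.2 * ce (3 * p.1.2.2)
  have sc : ContDiff ℝ ∞ c := by
    have a1 : ContDiff ℝ ∞ fun p : KP => conj (scl κ p.1.1 p.1.2.1).2.2 :=
      ker_conj (by unfold scl; fun_prop)
    have a2 : ContDiff ℝ ∞ fun p : KP => (scl κ p.1.1 p.1.2.1).1 := by unfold scl; fun_prop
    fun_prop
  let m : KP → ℂ := fun p => e p * (kD (kvZ 1) X p - I * kD (kvZ I) X p) / 2 + c p * X p
  have sm : ContDiff ℝ ∞ m := by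
    have a1 := kD_contDiff sX (kvZ 1)
    have a2 := kD_contDiff sX (kvZ I)
    fun_prop
  let k : KP → ℂ := fun p => -(2 * π : ℂ)⁻¹ * (m p - kD kvT μ p - kD kvA ν₁ p)
  have sk : ContDiff ℝ ∞ k := by
    have a1 := kD_contDiff sμ kvT
    have a2 := kD_contDiff sν₁ kvA
    fun_prop
  refine ⟨fun q => k ((q.1, q.2.1, q.2.2.1), q.2.2.2), by fun_prop, ?_, ?_⟩
  · rintro ⟨z, θ, t⟩
    have a1 : kD kvT μ ((0, z, θ), t) = 0 := by
      refine (kD_T (dif sμ) _ t).unique ?_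
      simp only [fμ 0 _ (Or.inl rfl)]
      exact hasDerivAt_const _ _
    have a2 : kD kvA ν₁ ((0, z, θ), t) = 0 := by
      refine (kD_A (dif sν₁) 0 z θ t).unique ?_
      simp only [fν₁]
      exact hasDerivAt_const _ _
    have a3 : ∀ d, kD (kvZ d) X ((0, z, θ), t) = 0 := fun d => by
      refine (kD_Z (dif sX) 0 z d θ t).unique ?_
      simp only [X, fW 0 _ (Or.inl rfl)]
      exact hasDerivAt_const _ _
    simp [k, m, c, scl, a1, a2, a3]
  have hK : IsCompact (closedBall (0 : ℂ) 12 ×ˢ Icc (0 : ℝ) (2 * π) ×ˢ Icc (0 : ℝ) 30) :=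
    (isCompact_closedBall _ _).prod (isCompact_Icc.prod isCompact_Icc)
  have hev := hK.eventually_forall_of_forall_eventually (x₀ := (0 : ℝ))
    (P := fun ε y => 1 / 2 < D ((ε, y.1, y.2.1), y.2.2)) (fun y _ => by
      have := sD.continuous
      refine ContinuousAt.eventually_lt continuousAt_const (Continuous.continuousAt (by fun_prop))
        (by simp only [fD 0 _ (Or.inl rfl)]; norm_num))
  filter_upwards [hev] with ε hε z hz g hg hg0
  have dg := hg.differentiable one_ne_zero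
  let G : KP → ℂ := fun p => g (Z p)
  let H : KP → ℂ := fun p => X p * G p
  have sG : ContDiff ℝ 1 G := hg.comp (sZ.of_le le1)
  have sH : ContDiff ℝ 1 H := (sX.of_le le1).mul sG
  have dG := sG.differentiable one_ne_zero
  have dH := sH.differentiable one_ne_zero
  have hG : ∀ v p, kD v G p = fderiv ℝ g (Z p) (kD v Z p) := fun v p => by
    simp only [kD, G]
    rw [show (fun p => g (Z p)) = g ∘ Z from rfl, fderiv_comp p (dg _) (dif sZ p)]
    rfl
  have hH : ∀ d θ t, kD (kvZ d) H ((ε, z, θ), t) = kD (kvZ d) X ((ε, z, θ), t) * G ((ε, z, θ), t) +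
      X ((ε, z, θ), t) * kD (kvZ d) G ((ε, z, θ), t) := fun d θ t =>
    (kD_Z dH ε z d θ t).unique (((kD_Z (dif sX) ε z d θ t).mul (kD_Z dG ε z d θ t)).congr_deriv
      (by simp))
  let J : KP → ℂ := fun p => e p * (kD (kvZ 1) H p - I * kD (kvZ I) H p) / 2 + c p * H p
  have core := ker_core (μ := μ) (ν := ν₁) (G := G) (N := fun p => fderiv ℝ g (Z p) (n p)) (m := m)
    (J := J) (sμ.of_le le1) (sν₁.of_le le1) sG
    (((hg.continuous_fderiv one_ne_zero).comp sZ.continuous).clm_apply sn.continuous)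
    sm.continuous pν₁ (fun ε z θ t => by simp only [G, pZ ε z θ t]) ε z (g z)
    (fun θ t => by rw [hG, hZn, ← real_smul, ← real_smul, map_smul])
    (fun θ => fμ ε 0 (Or.inr rfl) z θ) (fun θ => by simp [G, Z, fW ε 0 (Or.inr rfl)]) hg0
    (fun θ hθ t ht => by
      have hD := hε (z, θ, t) ⟨by simpa using hz, hθ, ht⟩
      have a1 : ∀ d, kD (kvZ d) G ((ε, z, θ), t) =
          μ' d ((ε, z, θ), t) * kD kvT G ((ε, z, θ), t) +
            ν' d ((ε, z, θ), t) * fderiv ℝ g (Z ((ε, z, θ), t)) (n ((ε, z, θ), t)) := fun d => by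
        rw [hG, hG, hτ, ← real_smul, ← real_smul, ← map_smul, ← map_smul, ← map_add]
        congr 1
        simp only [μ', ν', hι _ hD.le]
        exact ker_cramer _ _ _ (by have : (0 : ℝ) < D ((ε, z, θ), t) := by linarith
                                   exact this.ne')
      have a2 := hν₁ (ε, z, θ) t
      rw [fν ε 0 (Or.inr rfl)] at a2
      have a3 : kD kvA G ((ε, z, θ), t) =
          t * fderiv ℝ g (Z ((ε, z, θ), t)) (n ((ε, z, θ), t)) := by
        rw [hG, hZn, ← real_smul, ← real_smul, map_smul]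
      simp only [J, hH, a1, a3, m, μ, H]
      simp only [ν] at a2
      linear_combination fderiv ℝ g (Z ((ε, z, θ), t)) (n ((ε, z, θ), t)) * a2)
  have hV : ∀ θ d, fderiv ℝ (Vp (fun p => Ψ (ε, p)) fun y => g y.1) (z, θ) (d, 0) =
      -∫ t in (0 : ℝ)..30, kD (kvZ d) H ((ε, z, θ), t) := by
    intro θ d
    have sF : ContDiff ℝ 1 fun r : (ℂ × ℝ) × ℝ => H ((ε, r.1.1, r.1.2), r.2) := by fun_prop
    have b1 : (Vp (fun p => Ψ (ε, p)) fun y => g y.1) =
        fun q : ℂ × ℝ => -∫ t in (0 : ℝ)..30, H ((ε, q.1, q.2), t) := rfl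
    rw [b1, fderiv_fun_neg, neg_apply, fderiv_int sF]
    congr 2; ext t
    have l : HasDerivAt (fun s : ℝ => z + s • d) d 0 := by
      simpa using ((hasDerivAt_id (0 : ℝ)).smul_const d).const_add z
    exact ((sF.differentiable one_ne_zero ((z, θ), t)).hasFDerivAt.comp_hasDerivAt_of_eq 0
      ((l.prodMk (hasDerivAt_const 0 θ)).prodMk (hasDerivAt_const 0 t)) (by simp)).unique
      (kD_Z dH ε z d θ t)
  have hJ : ∀ θ, ∫ t in (0 : ℝ)..30, J ((ε, z, θ), t) =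
      ce θ * ((∫ t in (0 : ℝ)..30, kD (kvZ 1) H ((ε, z, θ), t)) -
        I * ∫ t in (0 : ℝ)..30, kD (kvZ I) H ((ε, z, θ), t)) / 2 +
      ((scl κ ε z).1 * ce θ - conj (scl κ ε z).2.2 * ce (3 * θ)) *
        ∫ t in (0 : ℝ)..30, H ((ε, z, θ), t) := by
    intro θ
    have c1 := kD_cont sH (kvZ 1)
    have c2 := kD_cont sH (kvZ I)
    have c3 := sH.continuous
    rw [← intervalIntegral.integral_const_mul, ← intervalIntegral.integral_const_mul,
      ← intervalIntegral.integral_sub (Continuous.intervalIntegrable (by fun_prop) _ _)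
        (Continuous.intervalIntegrable (by fun_prop) _ _), ← intervalIntegral.integral_const_mul,
      ← intervalIntegral.integral_div,
      ← intervalIntegral.integral_add (Continuous.intervalIntegrable (by fun_prop) _ _)
        (Continuous.intervalIntegrable (by fun_prop) _ _)]
  have hcc : cc (scl κ ε) (Vp (fun p => Ψ (ε, p)) fun y => g y.1) z =
      (2 * π : ℂ)⁻¹ * -∫ θ in (0 : ℝ)..2 * π, ∫ t in (0 : ℝ)..30, J ((ε, z, θ), t) := by
    rw [cc, ← intervalIntegral.integral_neg]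
    congr 2; ext θ
    rw [hV, hV, hJ]
    have : (Vp (fun p => Ψ (ε, p)) fun y => g y.1) (z, θ) =
      -∫ t in (0 : ℝ)..30, H ((ε, z, θ), t) := rfl
    rw [this]; ring
  have hπ : (π : ℂ) ≠ 0 := by exact_mod_cast Real.pi_ne_zero
  rw [hcc, core]
  simp only [k, mul_assoc, intervalIntegral.integral_const_mul]
  change _ = _ + _ * ∫ θ in (0 : ℝ)..2 * π, ∫ t in (0 : ℝ)..30,
    (m ((ε, z, θ), t) - kD kvT μ ((ε, z, θ), t) - kD kvA ν₁ ((ε, z, θ), t)) * G ((ε, z, θ), t)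
  field_simp
  ring

end Pool.Agent.Lib.MP_0cc5e8_gt
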