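import Pool.Agent.Lib.MP_0cc5e8_gt.Flow

namespace Pool.Agent.Lib.MP_0cc5e8_gt

open Complex Set Filter Topology Metric MeasureTheory
open scoped ComplexConjugate ContDiff Real

noncomputable section

abbrev KP := (ℝ × ℂ × ℝ) × ℝ

def kD (v : KP) (F : KP → ℂ) (p : KP) : ℂ := fderiv ℝ F p v
def kvT : KP := ((0, 0, 0), 1)
def kvA : KP := ((0, 0, 1), 0)
def kvZ (d : ℂ) : KP := ((0, d, 0), 0)
def KPer (F : KP → ℂ) : Prop := ∀ ε z θ t, F ((ε, z, θ + 2 * π), t) = F ((ε, z, θ), t)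

variable {F : KP → ℂ}

theorem kD_contDiff (hF : ContDiff ℝ ∞ F) (v : KP) : ContDiff ℝ ∞ (kD v F) :=
  (hF.fderiv_right (m := ∞) (by exact_mod_cast le_rfl)).clm_apply contDiff_const

theorem kD_cont (hF : ContDiff ℝ 1 F) (v : KP) : Continuous (kD v F) :=
  (hF.continuous_fderiv one_ne_zero).clm_apply continuous_const

theorem kD_T (hF : Differentiable ℝ F) (y : ℝ × ℂ × ℝ) (t : ℝ) :
    HasDerivAt (fun s => F (y, s)) (kD kvT F (y, t)) t :=
  (hF (y, t)).hasFDerivAt.comp_hasDerivAt t ((hasDerivAt_const t y).prodMk (hasDerivAt_id t))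

theorem kD_A (hF : Differentiable ℝ F) (ε : ℝ) (z : ℂ) (θ t : ℝ) :
    HasDerivAt (fun s => F ((ε, z, s), t)) (kD kvA F ((ε, z, θ), t)) θ :=
  (hF ((ε, z, θ), t)).hasFDerivAt.comp_hasDerivAt θ
    (((hasDerivAt_const θ ε).prodMk ((hasDerivAt_const θ z).prodMk (hasDerivAt_id θ))).prodMk
      (hasDerivAt_const θ t))

theorem kD_Z (hF : Differentiable ℝ F) (ε : ℝ) (z d : ℂ) (θ t : ℝ) :
    HasDerivAt (fun s : ℝ => F ((ε, z + s • d, θ), t)) (kD (kvZ d) F ((ε, z, θ), t)) 0 := by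
  have l : HasDerivAt (fun s : ℝ => z + s • d) d 0 := by
    simpa using ((hasDerivAt_id (0 : ℝ)).smul_const d).const_add z
  exact (hF ((ε, z, θ), t)).hasFDerivAt.comp_hasDerivAt_of_eq 0
    (((hasDerivAt_const 0 ε).prodMk (l.prodMk (hasDerivAt_const 0 θ))).prodMk
      (hasDerivAt_const 0 t)) (by simp)

theorem kD_per (h : KPer F) (v : KP) : KPer (kD v F) := by
  intro ε z θ t
  have e : (fun x => F (x + ((0, 0, 2 * π), 0))) = F := by
    ext ⟨⟨ε, z, θ⟩, t⟩; simpa using h ε z θ t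
  have := fderiv_comp_add_right (𝕜 := ℝ) (f := F) (x := ((ε, z, θ), t)) (((0, 0, 2 * π), 0) : KP)
  rw [e] at this
  simp only [kD, this, Prod.mk_add_mk, add_zero]

theorem ker_had (hF : ContDiff ℝ ∞ F) (h : KPer F) : ∃ G : KP → ℂ, ContDiff ℝ ∞ G ∧ KPer G ∧
    (∀ y t, F (y, t) = F (y, 0) + t * G (y, t)) ∧ ∀ y, G (y, 0) = kD kvT F (y, 0) := by
  obtain ⟨G, h1, h2, h3⟩ := hadamard (n := ⊤) (F := F) (by exact_mod_cast hF)
  refine ⟨G, h1, fun ε z θ t => ?_, fun y t => by simpa using h2 y t, h3⟩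
  by_cases ht : t = 0
  · subst ht
    rw [h3, h3]; exact kD_per h kvT ε z θ 0
  · have a1 := h2 (ε, z, θ + 2 * π) t
    rw [h, h, h2 (ε, z, θ) t, add_right_inj] at a1
    exact (smul_right_injective ℂ ht a1).symm

theorem ker_inv : ∃ ι : ℝ → ℝ, ContDiff ℝ ∞ ι ∧ ∀ s, 1 / 2 ≤ s → ι s = s⁻¹ := by
  refine ⟨fun s => Real.smoothTransition (4 * s - 1) * s⁻¹, contDiff_iff_contDiffAt.2 fun s => ?_,
    fun s hs => by
      simp only; rw [Real.smoothTransition.one_of_one_le (by linarith), one_mul]⟩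
  by_cases hs : s = 0
  · subst hs
    refine (contDiffAt_const (c := 0)).congr_of_eventuallyEq ?_
    filter_upwards [Iio_mem_nhds (show (0 : ℝ) < 1 / 4 by norm_num)] with s hs
    rw [Real.smoothTransition.zero_of_nonpos (by simp at hs; linarith), zero_mul]
  · exact (Real.smoothTransition.contDiffAt.comp s (f := fun s : ℝ => 4 * s - 1)
      (by fun_prop)).mul (contDiffAt_inv ℝ hs)

theorem ker_swap {f : ℝ → ℝ → ℂ} (hf : Continuous f.uncurry) (a b c d : ℝ) :
    ∫ x in a..b, ∫ y in c..d, f x y = ∫ y in c..d, ∫ x in a..b, f x y :=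
  intervalIntegral_intervalIntegral_swap
    ((hf.continuousOn.integrableOn_compact (isCompact_uIcc.prod isCompact_uIcc)).mono_set
      (prod_mono uIoc_subset_uIcc uIoc_subset_uIcc))

theorem ker_core {μ ν G N m J : KP → ℂ} (hμ : ContDiff ℝ 1 μ) (hν : ContDiff ℝ 1 ν)
    (hG : ContDiff ℝ 1 G) (hN : Continuous N) (hm : Continuous m) (pν : KPer ν) (pG : KPer G)
    (ε : ℝ) (z c : ℂ) (hNG : ∀ θ (t : ℝ), t * N ((ε, z, θ), t) = kD kvA G ((ε, z, θ), t))
    (hμ0 : ∀ θ, μ ((ε, z, θ), 0) = 1 / 2) (hG0 : ∀ θ, G ((ε, z, θ), 0) = c)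
    (hG1 : ∀ θ, G ((ε, z, θ), 30) = 0)
    (hJ : ∀ θ ∈ Icc 0 (2 * π), ∀ t ∈ Icc (0 : ℝ) 30, J ((ε, z, θ), t) =
      μ ((ε, z, θ), t) * kD kvT G ((ε, z, θ), t) - I / 2 * N ((ε, z, θ), t) +
        ν ((ε, z, θ), t) * kD kvA G ((ε, z, θ), t) + m ((ε, z, θ), t) * G ((ε, z, θ), t)) :
    ∫ θ in (0 : ℝ)..2 * π, ∫ t in (0 : ℝ)..30, J ((ε, z, θ), t) = -(π * c) +
      ∫ θ in (0 : ℝ)..2 * π, ∫ t in (0 : ℝ)..30,
        (m ((ε, z, θ), t) - kD kvT μ ((ε, z, θ), t) - kD kvA ν ((ε, z, θ), t)) *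
          G ((ε, z, θ), t) := by
  have dμ := hμ.differentiable one_ne_zero
  have dν := hν.differentiable one_ne_zero
  have dG := hG.differentiable one_ne_zero
  have c1 := hμ.continuous
  have c2 := hν.continuous
  have c3 := hG.continuous
  have c4 := kD_cont hμ kvT
  have c5 := kD_cont hν kvA
  have c6 := kD_cont hG kvT
  have c7 := kD_cont hG kvA
  let A : KP → ℂ := fun p => kD kvT μ p * G p + μ p * kD kvT G p
  let B : KP → ℂ := fun p => kD kvA ν p * G p + ν p * kD kvA G p - I / 2 * N p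
  let K : KP → ℂ := fun p => (m p - kD kvT μ p - kD kvA ν p) * G p
  have cA : Continuous A := by fun_prop
  have cB : Continuous B := by fun_prop
  have cK : Continuous K := by fun_prop
  have hA : ∀ θ, ∫ t in (0 : ℝ)..30, A ((ε, z, θ), t) = -(c / 2) := by
    intro θ
    rw [intervalIntegral.integral_eq_sub_of_hasDerivAt
      (f := fun t => μ ((ε, z, θ), t) * G ((ε, z, θ), t))
      (fun t _ => (kD_T dμ _ t).mul (kD_T dG _ t))
      (Continuous.intervalIntegrable (by fun_prop) _ _), hG1, hG0, hμ0]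
    ring
  have hB : ∫ θ in (0 : ℝ)..2 * π, ∫ t in (0 : ℝ)..30, B ((ε, z, θ), t) = 0 := by
    rw [ker_swap (f := fun θ t => B ((ε, z, θ), t)) (by unfold Function.uncurry; fun_prop),
      intervalIntegral.integral_congr_ae (g := fun _ => 0), intervalIntegral.integral_zero]
    refine Eventually.of_forall fun t ht => ?_
    have ht0 : (t : ℂ) ≠ 0 := by
      rw [uIoc_of_le (by norm_num)] at ht; exact_mod_cast ht.1.ne'
    rw [intervalIntegral.integral_eq_sub_of_hasDerivAt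
      (f := fun θ => (ν ((ε, z, θ), t) - I / 2 / t) * G ((ε, z, θ), t))
      (fun θ _ => (((kD_A dν ε z θ t).sub_const _).mul (kD_A dG ε z θ t)).congr_deriv ?_)
      (Continuous.intervalIntegrable (by fun_prop) _ _)]
    · have a1 := pν ε z 0 t
      have a2 := pG ε z 0 t
      rw [zero_add] at a1 a2
      rw [a1, a2, sub_self]
    · simp only [B, ← hNG]; field_simp; ring
  have ci : ∀ {f : KP → ℂ}, Continuous f →
      Continuous fun θ : ℝ => ∫ t in (0 : ℝ)..30, f ((ε, z, θ), t) := fun hf =>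
    intervalIntegral.continuous_parametric_intervalIntegral_of_continuous'
      (by unfold Function.uncurry; fun_prop) _ _
  have e1 : ∫ θ in (0 : ℝ)..2 * π, ∫ t in (0 : ℝ)..30, J ((ε, z, θ), t) =
      ∫ θ in (0 : ℝ)..2 * π, (-(c / 2) + (∫ t in (0 : ℝ)..30, B ((ε, z, θ), t)) +
        ∫ t in (0 : ℝ)..30, K ((ε, z, θ), t)) := by
    refine intervalIntegral.integral_congr fun θ hθ => ?_
    rw [uIcc_of_le Real.two_pi_pos.le] at hθ
    rw [← hA θ, ← intervalIntegral.integral_add (Continuous.intervalIntegrable (by fun_prop) _ _)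
      (Continuous.intervalIntegrable (by fun_prop) _ _),
      ← intervalIntegral.integral_add (Continuous.intervalIntegrable (by fun_prop) _ _)
      (Continuous.intervalIntegrable (by fun_prop) _ _)]
    refine intervalIntegral.integral_congr fun t ht => ?_
    rw [uIcc_of_le (by norm_num)] at ht
    simp only [hJ θ hθ t ht, A, B, K]; ring
  rw [e1, intervalIntegral.integral_add
    (f := fun θ => -(c / 2) + (∫ t in (0 : ℝ)..30, B ((ε, z, θ), t)))
    ((continuous_const.add (ci cB)).intervalIntegrable _ _) ((ci cK).intervalIntegrable _ _),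
    intervalIntegral.integral_add (continuous_const.intervalIntegrable _ _)
    ((ci cB).intervalIntegrable _ _), hB]
  simp [K]; ring

end

end Pool.Agent.Lib.MP_0cc5e8_gt
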