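import Pool.Agent.Lib.MP_0cc5e8_gt.TensB

namespace Pool.Agent.Lib.MP_0cc5e8_gt

open Complex Set Filter Topology Metric
open scoped ComplexConjugate ContDiff Real

/-- the rotated differential of the boundary function -/
noncomputable def Glob.eta (G : Glob) (x v : ℂ) : ℝ :=
  v.im * fderiv ℝ G.ρ x 1 - v.re * fderiv ℝ G.ρ x I

theorem Glob.Tens_cd (G : Glob) (w : ℂ) : ContDiff ℝ ∞ fun x => fderiv ℝ G.ρ x w :=
  (G.cρ.fderiv_right (m := ∞) le_rfl).clm_apply contDiff_const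

theorem Glob.Tens_eta_pow (G : Glob) (k : ℕ) : Ten ⊤ (k + 1) fun x v => G.eta x v ^ k := by
  induction k with
  | zero => exact (Ten.const (c := fun _ => 1) contDiff_const).congr fun x v => by simp
  | succ k ih =>
    exact ((Ten.smul (G.Tens_cd 1) ih).im.sub (Ten.smul (G.Tens_cd I) ih).re).congr
      fun x v => by simp only [Glob.eta]; ring

theorem Glob.Tens_pos (G : Glob) (x : ℂ) :
    0 < fderiv ℝ G.ρ x 1 ^ 2 + fderiv ℝ G.ρ x I ^ 2 + G.ρ x ^ 2 := by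
  by_contra h
  have h1 : fderiv ℝ G.ρ x 1 = 0 := by nlinarith [sq_nonneg (fderiv ℝ G.ρ x 1), sq_nonneg (fderiv ℝ G.ρ x I), sq_nonneg (G.ρ x)]
  have h2 : fderiv ℝ G.ρ x I = 0 := by nlinarith [sq_nonneg (fderiv ℝ G.ρ x 1), sq_nonneg (fderiv ℝ G.ρ x I), sq_nonneg (G.ρ x)]
  have h3 : G.ρ x = 0 := by nlinarith [sq_nonneg (fderiv ℝ G.ρ x 1), sq_nonneg (fderiv ℝ G.ρ x I), sq_nonneg (G.ρ x)]
  refine G.dρ x h3 ?_
  ext v
  rw [Tens_lin, h1, h2]; simp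

/-- normal, tangential and interior part -/
def Glob.Dec (G : Glob) (n : ℕ) (P : ℂ → ℂ → ℝ) : Prop :=
  ∃ (Q : ℂ → ℂ → ℝ) (a : ℂ → ℝ) (R : ℂ → ℂ → ℝ), Ten ⊤ (n - 1) Q ∧ ContDiff ℝ ∞ a ∧ Ten ⊤ n R ∧
    ∀ x v, P x v = fderiv ℝ G.ρ x v * Q x v + a x * G.eta x v ^ (n - 1) + G.ρ x * R x v

theorem Glob.Dec.step {G : Glob} {n : ℕ} {P : ℂ → ℂ → ℝ} (hP : Ten ⊤ n P) (h : G.Dec n P)
    {l : ℂ → ℝ} (hl : ∀ n P, Ten ⊤ n P → Ten ⊤ (n + 1) fun x v => l v * P x v)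
    {α β e : ℂ → ℝ} (hα : ContDiff ℝ ∞ α) (hβ : ContDiff ℝ ∞ β) (he : ContDiff ℝ ∞ e)
    (hl' : ∀ x v, l v = α x * fderiv ℝ G.ρ x v + β x * G.eta x v + G.ρ x * (e x * l v)) :
    G.Dec (n + 1) fun x v => l v * P x v := by
  rcases n with _ | n
  · exact ⟨_, fun _ => 0, _, Ten.zero _, contDiff_const, Ten.zero _, fun x v => by
      simp [hP.eq_zero]⟩
  obtain ⟨Q, a, R, hQ, ha, hR, h⟩ := h
  refine ⟨_, fun x => a x * β x, _,
    (hl _ _ hQ).add (Ten.smul (ha.mul hα) (G.Tens_eta_pow n)), ha.mul hβ,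
    (hl _ _ hR).add (Ten.smul (ha.mul he) (hl _ _ (G.Tens_eta_pow n))), fun x v => ?_⟩
  simp only [h, Nat.add_sub_cancel]
  linear_combination (a x * G.eta x v ^ n) * hl' x v

theorem Glob.dec (G : Glob) {n : ℕ} {P : ℂ → ℂ → ℝ} (hP : Ten ⊤ n P) : G.Dec n P := by
  have hc : ContDiff ℝ ∞ fun x =>
      (fderiv ℝ G.ρ x 1 ^ 2 + fderiv ℝ G.ρ x I ^ 2 + G.ρ x ^ 2)⁻¹ :=
    ((((G.Tens_cd 1).pow 2).add ((G.Tens_cd I).pow 2)).add (G.cρ.pow 2)).inv
      fun x => (G.Tens_pos x).ne'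
  induction hP with
  | zero n => exact ⟨_, fun _ => 0, _, Ten.zero _, contDiff_const, Ten.zero _, fun x v => by simp⟩
  | @const c hc => exact ⟨_, c, _, Ten.zero _, hc, Ten.zero _, fun x v => by simp⟩
  | re h ih =>
    refine Glob.Dec.step h ih (l := Complex.re) (fun _ _ h => h.re) (hc.mul (G.Tens_cd 1))
      (hc.mul (G.Tens_cd I)).neg (hc.mul G.cρ) fun x v => ?_
    have := (G.Tens_pos x).ne'
    rw [Tens_lin (fderiv ℝ G.ρ x) v, Glob.eta]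
    field_simp; ring
  | im h ih =>
    refine Glob.Dec.step h ih (l := Complex.im) (fun _ _ h => h.im) (hc.mul (G.Tens_cd I))
      (hc.mul (G.Tens_cd 1)) (hc.mul G.cρ) fun x v => ?_
    have := (G.Tens_pos x).ne'
    rw [Tens_lin (fderiv ℝ G.ρ x) v, Glob.eta]
    field_simp; ring
  | add h1 h2 ih1 ih2 =>
    obtain ⟨Q, a, R, hQ, ha, hR, h⟩ := ih1
    obtain ⟨Q', a', R', hQ', ha', hR', h'⟩ := ih2
    exact ⟨_, _, _, hQ.add hQ', ha.add ha', hR.add hR', fun x v => by simp only [h, h']; ring⟩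
  | smul hc h ih =>
    obtain ⟨Q, a, R, hQ, ha, hR, h⟩ := ih
    exact ⟨_, _, _, Ten.smul hc hQ, hc.mul ha, Ten.smul hc hR, fun x v => by simp only [h]; ring⟩

theorem Ten.Tens_cont_st {r : ℕ∞} {n : ℕ} {P : ℂ → ℂ → ℝ} (hP : Ten r n P) :
    Continuous fun y : St => P y.1 (ce y.2.1) :=
  hP.contDiff.continuous.comp (f := fun y : St => (y.1, ce y.2.1))
    (continuous_fst.prodMk (Tens_continuous_ce.comp continuous_snd.fst))

theorem Glob.Tens_cont_line (G : Glob) (x : St) : Continuous fun t : ℝ => G.Φ (t, x) :=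
  G.flow.smooth.continuous.comp (continuous_id.prodMk continuous_const)

theorem Glob.Tens_cont_w (G : Glob) {r : ℕ∞} {n : ℕ} {P : ℂ → ℂ → ℝ} (hP : Ten r n P) (m : ℕ)
    (x : St) : Continuous (G.w m P x) :=
  (hP.Tens_cont_st.comp (G.Tens_cont_line x)).mul
    (Real.continuous_exp.comp (continuous_const.mul (G.Tens_cont_line x).snd.snd))

theorem Glob.Van.sub {G : Glob} {r : ℕ∞} {n m : ℕ} {P Q : ℂ → ℂ → ℝ} (hP : Ten r n P)
    (hQ : Ten r n Q) (h1 : G.Van m P) (h2 : G.Van m Q) : G.Van m fun x v => P x v - Q x v := by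
  intro x a b hab ha hb hi
  have e : ∀ t, G.w m (fun x v => P x v - Q x v) x t = G.w m P x t - G.w m Q x t := by
    intro t; simp only [Glob.w]; ring
  simp only [e]
  rw [intervalIntegral.integral_sub ((G.Tens_cont_w hP m x).intervalIntegrable _ _)
    ((G.Tens_cont_w hQ m x).intervalIntegrable _ _), h1 x a b hab ha hb hi, h2 x a b hab ha hb hi,
    sub_zero]

/-- potential tensors are in the kernel -/
theorem Glob.van_dsym (G : Glob) {m : ℕ} {h : ℂ → ℂ → ℝ} (hh : Ten ⊤ m h)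
    (h0 : ∀ x v, G.ρ x = 0 → h x v = 0) : G.Van m (dsym G.Γ h) := by
  intro x a b hab ha hb hi
  have hd : Ten ⊤ (m + 1) (dsym G.Γ h) := Ten.dsym' (r := ⊤) hh G.cΓ
  have hu : Differentiable ℝ fun p : ℂ × ℝ => (h p.1 (ce p.2) : ℂ) := by
    have h1 : ContDiff ℝ ∞ fun p : ℂ × ℝ => h p.1 (ce p.2) :=
      hh.contDiff.comp (f := fun p : ℂ × ℝ => (p.1, ce p.2))
        (contDiff_fst.prodMk (Tens_contDiff_ce.comp contDiff_snd))
    exact (ofRealCLM.contDiff.comp h1).differentiable (by simp)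
  have hder : ∀ t, HasDerivAt (fun s => (Real.exp (((m : ℝ) - 1) * (G.Φ (s, x)).2.2) : ℂ) *
      (h (G.Φ (s, x)).1 (ce (G.Φ (s, x)).2.1) : ℂ)) ((G.w m (dsym G.Γ h) x t : ℝ) : ℂ) t := by
    intro t
    have := G.flow.hasDerivAt_Xd ((m : ℝ) - 1) x t (hu _)
    rw [G.Xd_ten (hh.mono le_top)] at this
    convert this using 1
    simp only [Glob.w]; push_cast; ring
  have hint := intervalIntegral.integral_eq_sub_of_hasDerivAt (a := a) (b := b)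
    (fun t _ => hder t)
    ((continuous_ofReal.comp (G.Tens_cont_w hd m x)).intervalIntegrable _ _)
  rw [h0 _ _ ha, h0 _ _ hb, intervalIntegral.integral_ofReal] at hint
  simpa using hint

theorem Tens_pos_right {g : ℝ → ℝ} {c : ℝ} (hg : HasDerivAt g c 0) (h0 : g 0 = 0) (hc : 0 < c) :
    ∀ᶠ t in 𝓝[>] (0 : ℝ), 0 < g t := by
  have h1 := hg.tendsto_slope_zero_right
  filter_upwards [h1.eventually (lt_mem_nhds hc), self_mem_nhdsWithin] with t ht ht0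
  simp only [zero_add, h0, sub_zero, smul_eq_mul] at ht
  exact (mul_pos_iff_of_pos_left (inv_pos.2 ht0)).1 ht

/-- the first zero -/
theorem Tens_first_zero {g : ℝ → ℝ} (hg : Continuous g) {t1 : ℝ} (ht1 : 0 < t1) (h1 : 0 < g t1)
    (h0 : ∀ᶠ t in 𝓝[>] (0 : ℝ), g t < 0) :
    ∃ b ∈ Ioo 0 t1, g b = 0 ∧ ∀ t ∈ Ioo 0 b, g t < 0 := by
  obtain ⟨ε, hε, hs⟩ := (mem_nhdsGT_iff_exists_Ioc_subset).1 h0
  have hε' : 0 < ε := hε
  have hK : IsCompact (Icc ε (max ε t1) ∩ {t | 0 ≤ g t}) :=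
    isCompact_Icc.inter_right (isClosed_le continuous_const hg)
  have hεt : ε < t1 := by
    by_contra h
    exact absurd (hs ⟨ht1, not_lt.1 h⟩) (not_lt.2 h1.le)
  obtain ⟨b, hb⟩ := hK.exists_isLeast ⟨t1, ⟨hεt.le, le_max_right _ _⟩, h1.le⟩
  have hb1 : b ≤ t1 := hb.2 ⟨⟨hεt.le, le_max_right _ _⟩, h1.le⟩
  have hlt : ∀ t ∈ Ioo 0 b, g t < 0 := by
    intro t ht
    rcases le_or_gt t ε with h | h
    · exact hs ⟨ht.1, h⟩
    · by_contra hn
      exact absurd (hb.2 ⟨⟨h.le, (ht.2.le.trans hb1).trans (le_max_right _ _)⟩, not_lt.1 hn⟩)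
        (not_le.2 ht.2)
  have hb0 : 0 < b := hε'.trans_le hb.1.1.1
  have hgb : g b = 0 := by
    refine le_antisymm ?_ hb.1.2
    have : b ∈ closure (Ioo 0 b) := by rw [closure_Ioo hb0.ne]; exact right_mem_Icc.2 hb0.le
    exact le_on_closure (f := g) (g := fun _ => 0) (fun t ht => (hlt t ht).le) hg.continuousOn
      continuousOn_const this
  refine ⟨b, ⟨hb0, lt_of_le_of_ne hb1 ?_⟩, hgb, hlt⟩
  rintro rfl
  exact h1.ne' hgb

/-- short chords near a tangent direction -/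
theorem Glob.Tens_chord (G : Glob) {x : ℂ} (hx : G.ρ x = 0) : ∃ θ0, G.eta x (ce θ0) ≠ 0 ∧
    ∀ U ∈ 𝓝 ((x, θ0, 0) : St), ∃ (y : St) (b : ℝ), 0 < b ∧ G.ρ (G.Φ (0, y)).1 = 0 ∧
      G.ρ (G.Φ (b, y)).1 = 0 ∧ (∀ t ∈ Ioo 0 b, G.ρ (G.Φ (t, y)).1 < 0) ∧
      ∀ t ∈ Ioo 0 b, G.Φ (t, y) ∈ U := by
  set p := fderiv ℝ G.ρ x 1 with hp
  set q := fderiv ℝ G.ρ x I with hq
  have hpos : 0 < p ^ 2 + q ^ 2 := by simpa [hx] using G.Tens_pos x
  set g : ℂ := -q + p * I with hg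
  have hgn : 0 < ‖g‖ := by
    refine norm_pos_iff.2 fun h => ?_
    have h1 : q = 0 := by simpa [hg] using congrArg Complex.re h
    have h2 : p = 0 := by simpa [hg] using congrArg Complex.im h
    simp [h1, h2] at hpos
  have hce : (‖g‖ : ℂ) * ce (arg g) = g := norm_mul_exp_arg_mul_I g
  have hre : ‖g‖ * (ce (arg g)).re = -q := by simpa [hg] using congrArg Complex.re hce
  have him : ‖g‖ * (ce (arg g)).im = p := by simpa [hg] using congrArg Complex.im hce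
  have heta : 0 < G.eta x (ce (arg g)) := by
    refine (mul_pos_iff_of_pos_left hgn).1 ?_
    have : ‖g‖ * G.eta x (ce (arg g)) = p ^ 2 + q ^ 2 := by
      rw [Glob.eta, ← hp, ← hq]; linear_combination p * him - q * hre
    rwa [this]
  have htan : fderiv ℝ G.ρ x (ce (arg g)) = 0 := by
    refine mul_left_cancel₀ hgn.ne' ?_
    rw [Tens_lin, ← hp, ← hq]; linear_combination p * hre + q * him
  refine ⟨arg g, heta.ne', fun U hU => ?_⟩
  set θ0 := arg g with hθ0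
  have h2 : ContDiff ℝ 2 G.ρ := contDiff_infty.1 G.cρ 2
  -- the tangent line leaves the domain
  have hA : ∀ᶠ t in 𝓝[>] (0 : ℝ), 0 < fderiv ℝ G.ρ (G.Φ (t, x, θ0, 0)).1
      (ce (G.Φ (t, x, θ0, 0)).2.1) := by
    have h3 := (G.flow.hasDerivAt_hess h2 (x, θ0, 0) 0).2
    have h4 := Tens_pos_right h3 (by simp [G.flow.zero, htan])
      (by simpa [G.flow.zero] using G.bd x θ0 hx htan)
    filter_upwards [h4] with t ht
    exact (mul_pos_iff_of_pos_left (Real.exp_pos _)).1 ht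
  have hB : ∀ᶠ t in 𝓝[>] (0 : ℝ), 0 < G.ρ (G.Φ (t, x, θ0, 0)).1 := by
    obtain ⟨ε, hε, hs⟩ := (mem_nhdsGT_iff_exists_Ioo_subset).1 hA
    filter_upwards [Ioo_mem_nhdsGT hε] with t ht
    obtain ⟨s, hs', e⟩ := exists_hasDerivAt_eq_slope (fun s => G.ρ (G.Φ (s, x, θ0, 0)).1) _ ht.1
      (G.cρ.continuous.comp (G.Tens_cont_line _).fst).continuousOn
      (fun s _ => (G.flow.hasDerivAt_hess h2 (x, θ0, 0) s).1)
    have h5 := hs ⟨hs'.1, hs'.2.trans ht.2⟩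
    simp only [mem_ofPred_eq, e, G.flow.zero, hx, sub_zero] at h5
    exact (div_pos_iff_of_pos_right ht.1).1 h5
  have hcont : Continuous fun s : ℝ × ℝ => G.Φ (s.1, x, s.2, 0) :=
    G.flow.smooth.continuous.comp (by fun_prop)
  have hC : ∀ᶠ s in 𝓝 ((0 : ℝ), θ0), G.Φ (s.1, x, s.2, 0) ∈ U :=
    hcont.continuousAt.preimage_mem_nhds (by simpa [G.flow.zero] using hU)
  obtain ⟨V, hV, W, hW, hVW⟩ := mem_nhds_prod_iff.1 hC
  obtain ⟨ε, hε, hεV⟩ := (mem_nhdsGT_iff_exists_Ioo_subset).1 (mem_nhdsWithin_of_mem_nhds hV)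
  obtain ⟨t1, ht1, ht1'⟩ := (hB.and (Ioo_mem_nhdsGT hε)).exists
  have hD : ∀ᶠ θ in 𝓝 θ0, 0 < G.ρ (G.Φ (t1, x, θ, 0)).1 := by
    have : Continuous fun θ : ℝ => G.ρ (G.Φ (t1, x, θ, 0)).1 :=
      G.cρ.continuous.comp (hcont.comp (f := fun θ : ℝ => (t1, θ)) (by fun_prop)).fst
    exact this.continuousAt.eventually (lt_mem_nhds ht1)
  have hE : ∀ᶠ s in 𝓝[>] (0 : ℝ), 0 < -fderiv ℝ G.ρ x (ce (θ0 + s)) := by
    have h3 : HasDerivAt (fun s => ce (θ0 + s)) (I * ce θ0) 0 := by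
      have := Tens_hasDerivAt_ce (θ0 + 0)
      simpa using this.comp_const_add θ0 0
    have h4 := ((fderiv ℝ G.ρ x).hasFDerivAt.comp_hasDerivAt 0 h3).neg
    refine Tens_pos_right h4 (by simp [htan]) ?_
    rw [Tens_lin]
    simp only [Glob.eta] at heta
    simp only [I_mul_re, I_mul_im]
    linarith
  have hT : Tendsto (fun s => θ0 + s) (𝓝[>] (0 : ℝ)) (𝓝 θ0) := by
    have : Continuous fun s : ℝ => θ0 + s := by fun_prop
    simpa using (this.tendsto 0).mono_left nhdsWithin_le_nhds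
  obtain ⟨s, hs1, hs2, hs3⟩ := (hE.and ((hT.eventually hD).and (hT.eventually hW))).exists
  have hF : ∀ᶠ t in 𝓝[>] (0 : ℝ), G.ρ (G.Φ (t, x, θ0 + s, 0)).1 < 0 := by
    have h3 := (G.flow.hasDerivAt_hess h2 (x, θ0 + s, 0) 0).1.neg
    have h4 := Tens_pos_right h3 (by simp [G.flow.zero, hx]) (by simpa [G.flow.zero] using hs1)
    filter_upwards [h4] with t ht
    simpa using ht
  obtain ⟨b, hb, hb0, hb1⟩ := Tens_first_zero (g := fun t => G.ρ (G.Φ (t, x, θ0 + s, 0)).1)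
    (G.cρ.continuous.comp (G.Tens_cont_line _).fst) ht1'.1 hs2 hF
  refine ⟨(x, θ0 + s, 0), b, hb.1, by simp [G.flow.zero, hx], hb0, hb1, fun t ht => ?_⟩
  exact hVW (a := (t, θ0 + s)) ⟨hεV ⟨ht.1, (ht.2.trans hb.2).trans ht1'.2⟩, hs3⟩

/-- the tangential part vanishes at the boundary -/
theorem Glob.Tens_tan (G : Glob) {m k : ℕ} {a : ℂ → ℝ} {R : ℂ → ℂ → ℝ} (ha : ContDiff ℝ ∞ a)
    (hR : Ten ⊤ (m + 1) R)
    (hv : G.Van m fun x v => G.ρ x ^ k * (a x * G.eta x v ^ m + G.ρ x * R x v)) {x : ℂ}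
    (hx : G.ρ x = 0) : a x = 0 := by
  by_contra hne
  obtain ⟨θ0, heta, hU⟩ := G.Tens_chord hx
  have hS : Ten ⊤ (m + 1) fun x v => a x * G.eta x v ^ m + G.ρ x * R x v :=
    (Ten.smul ha (G.Tens_eta_pow m)).add (Ten.smul G.cρ hR)
  set c := a x * G.eta x (ce θ0) ^ m with hc
  have hc0 : c ≠ 0 := mul_ne_zero hne (pow_ne_zero _ heta)
  have hn : ∀ᶠ y : St in 𝓝 (x, θ0, 0),
      0 < c * (a y.1 * G.eta y.1 (ce y.2.1) ^ m + G.ρ y.1 * R y.1 (ce y.2.1)) := by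
    refine (continuous_const.mul hS.Tens_cont_st).continuousAt.eventually (lt_mem_nhds ?_)
    simpa [hx, ← hc] using hc0
  obtain ⟨y, b, hb, h0, h1, h2, h3⟩ := hU _ hn
  have h4 := hv y 0 b hb h0 h1 h2
  have h5 := intervalIntegral.intervalIntegral_pos_of_pos_on (a := 0) (b := b)
    (f := fun t => (-1) ^ k * c * G.w m
      (fun x v => G.ρ x ^ k * (a x * G.eta x v ^ m + G.ρ x * R x v)) y t)
    ((continuous_const.mul (G.Tens_cont_w (Ten.smul (G.cρ.pow k) hS) m y)).intervalIntegrable _ _)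
    (fun t ht => by
      have h6 := mul_pos (mul_pos (pow_pos (neg_pos.2 (h2 t ht)) k) (h3 t ht))
        (Real.exp_pos (((m : ℝ) - 1) * (G.Φ (t, y)).2.2))
      simp only [Glob.w]
      rw [neg_pow] at h6
      refine h6.trans_eq ?_
      ring) hb
  rw [intervalIntegral.integral_const_mul, h4, mul_zero] at h5
  exact lt_irrefl _ h5

theorem Glob.Tens_div (G : Glob) {a : ℂ → ℝ} (ha : ContDiff ℝ ∞ a) (h0 : ∀ x, G.ρ x = 0 → a x = 0) :
    ∃ a' : ℂ → ℝ, ContDiff ℝ ∞ a' ∧ ∀ x, a x = G.ρ x * a' x := by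
  obtain ⟨Q, hQ⟩ := exists_quo G.ρ a
  have h : ∀ (n : ℕ) (x : ℂ), ContDiffAt ℝ n Q x ∧ ∀ᶠ y in 𝓝 x, a y = G.ρ y • Q y := fun n x =>
    hQ n x (G.cρ.of_le (by exact_mod_cast le_top)).contDiffAt
      (ha.of_le (by exact_mod_cast le_top)).contDiffAt (G.dρ x) (Eventually.of_forall h0)
  exact ⟨Q, contDiff_infty.2 fun n => contDiff_iff_contDiffAt.2 fun x => (h n x).1,
    fun x => (h 0 x).2.self_of_nhds⟩

theorem Glob.gauge (G : Glob) {m : ℕ} {f : ℂ → ℂ → ℝ} (hf : Ten ⊤ (m + 1) f) (hv : G.Van m f)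
    (N : ℕ) : ∃ h R, Ten ⊤ m h ∧ Ten ⊤ (m + 1) R ∧ (∀ x v, G.ρ x = 0 → h x v = 0) ∧
      G.Van m (fun x v => G.ρ x ^ N * R x v) ∧
      ∀ x v, f x v = dsym G.Γ h x v + G.ρ x ^ N * R x v := by
  induction N with
  | zero =>
    refine ⟨_, f, Ten.zero m, hf, fun _ _ _ => rfl, by simpa using hv, fun x v => ?_⟩
    simp [dsym_zero]
  | succ k ih =>
    obtain ⟨h, R, hh, hR, h0, hV, he⟩ := ih
    obtain ⟨Q, a, R', hQ, ha, hR', hd⟩ := G.dec hR
    simp only [Nat.add_sub_cancel] at hQ hd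
    have hk : ((k : ℝ) + 1) ≠ 0 := by positivity
    have hc : ContDiff ℝ ∞ fun x => ((k : ℝ) + 1)⁻¹ * G.ρ x ^ (k + 1) :=
      contDiff_const.mul (G.cρ.pow _)
    have hh' := Ten.smul hc hQ
    have h0' : ∀ x v, G.ρ x = 0 → ((k : ℝ) + 1)⁻¹ * G.ρ x ^ (k + 1) * Q x v = 0 := by
      intro x v hx; simp [hx]
    have hdQ : Ten ⊤ (m + 1) (dsym G.Γ Q) := Ten.dsym' (r := ⊤) hQ G.cΓ
    have hds : ∀ x v, dsym G.Γ (fun x v => ((k : ℝ) + 1)⁻¹ * G.ρ x ^ (k + 1) * Q x v) x v =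
        ((k : ℝ) + 1)⁻¹ * G.ρ x ^ (k + 1) * dsym G.Γ Q x v +
          G.ρ x ^ k * fderiv ℝ G.ρ x v * Q x v := by
      intro x v
      rw [dsym_smul (hc.differentiable (by simp)) hQ (by simp)]
      have h1 := (((G.cρ.differentiable (by simp) x).hasFDerivAt.pow (k + 1)).const_mul
        ((k : ℝ) + 1)⁻¹).fderiv
      rw [h1]
      simp only [smul_apply, smul_eq_mul, nsmul_eq_mul, Nat.add_sub_cancel]
      push_cast; field_simp
    have hR2 : Ten ⊤ (m + 1) fun x v => R' x v - ((k : ℝ) + 1)⁻¹ * dsym G.Γ Q x v :=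
      hR'.sub (Ten.smul contDiff_const hdQ)
    have hV2 := Glob.Van.sub (Ten.smul (G.cρ.pow k) hR) (Ten.dsym' (r := ⊤) hh' G.cΓ) hV
      (G.van_dsym hh' h0')
    have e1 : (fun x v => G.ρ x ^ k * R x v -
        dsym G.Γ (fun x v => ((k : ℝ) + 1)⁻¹ * G.ρ x ^ (k + 1) * Q x v) x v) =
        fun x v => G.ρ x ^ k * (a x * G.eta x v ^ m +
          G.ρ x * (R' x v - ((k : ℝ) + 1)⁻¹ * dsym G.Γ Q x v)) := by
      funext x v; rw [hds, hd]; ring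
    rw [e1] at hV2
    obtain ⟨a', ha', hdiv⟩ := G.Tens_div ha fun x hx => G.Tens_tan ha hR2 hV2 hx
    refine ⟨_, _, hh.add hh', (Ten.smul ha' (G.Tens_eta_pow m)).add hR2, fun x v hx => ?_, ?_,
      fun x v => ?_⟩
    · simp only [h0 x v hx, h0' x v hx, add_zero]
    · convert hV2 using 3 with x v
      rw [hdiv]; ring
    · rw [dsym_add hh hh' (by simp), he, hds, hd, hdiv]; ring

end Pool.Agent.Lib.MP_0cc5e8_gt
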