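import Pool.Agent.Lib.MP_0cc5e8_gt.PkgE
import Pool.Agent.Lib.MP_0cc5e8_gt.Disc
import Pool.Agent.Lib.MP_0cc5e8_gt.Tens

/-! The local theorem. -/

namespace Pool.Agent.Lib.MP_0cc5e8_gt

open Complex Set Filter Topology Metric
open scoped ComplexConjugate ContDiff Real

namespace Lc

theorem ce_nat (n : ℕ) (θ : ℝ) : ce (n * θ) = ce θ ^ n := by
  rw [ce, ce, ← Complex.exp_nat_mul]
  push_cast
  ring_nf

theorem ce_pi (θ : ℝ) : ce (θ + π) = -ce θ := by
  rw [flow_ce_add, show ce π = -1 from Complex.exp_pi_mul_I, mul_neg_one]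

theorem ce_eq (θ : ℝ) : ce θ = Real.cos θ • (1 : ℂ) + Real.sin θ • I := by
  simp [ce, Complex.exp_mul_I]

theorem ce_surj {w : ℂ} (h : ‖w‖ = 1) : w = ce (arg w) := by
  simpa [h, ce] using (norm_mul_exp_arg_mul_I w).symm

theorem poly {r : ℕ∞} {n : ℕ} {P : ℂ → ℂ → ℝ} (h : Ten r n P) : ∃ F : ℂ × ℂ → ℂ, ContDiff ℝ r F ∧
    (∀ x, Differentiable ℂ fun w => F (x, w)) ∧
      ∀ x θ, ce θ * F (x, ce (2 * θ)) = ce θ ^ n * P x (ce θ) := by
  induction h with
  | zero n => exact ⟨0, contDiff_const, fun _ => differentiable_const _, by simp⟩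
  | @const c hc => exact ⟨fun y => c y.1, ofRealCLM.contDiff.comp (hc.comp contDiff_fst),
      fun x => differentiable_const (c x : ℂ), by simp⟩
  | re _ ih =>
    obtain ⟨F, h1, h2, h3⟩ := ih
    refine ⟨fun y => (y.2 + 1) / 2 * F y, by fun_prop, fun x => (by fun_prop : Differentiable ℂ
      fun w : ℂ => (w + 1) / 2).mul (h2 x), fun x θ => ?_⟩
    have := flow_ce_ne θ
    rw [mul_left_comm, h3, ofReal_mul, flow_re_eq, flow_conj_ce, flow_ce_two]
    field_simp
    ring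
  | im _ ih =>
    obtain ⟨F, h1, h2, h3⟩ := ih
    refine ⟨fun y => (y.2 - 1) / (2 * I) * F y, by fun_prop, fun x => (by fun_prop :
      Differentiable ℂ fun w : ℂ => (w - 1) / (2 * I)).mul (h2 x), fun x θ => ?_⟩
    have := flow_ce_ne θ
    rw [mul_left_comm, h3, ofReal_mul, flow_im_eq, flow_conj_ce, flow_ce_two]
    field_simp
    ring
  | add _ _ i1 i2 =>
    obtain ⟨F, h1, h2, h3⟩ := i1
    obtain ⟨G, g1, g2, g3⟩ := i2
    exact ⟨F + G, h1.add g1, fun x => (h2 x).add (g2 x), fun x θ => by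
      rw [Pi.add_apply, mul_add, h3, g3, ofReal_add, mul_add]⟩
  | @smul _ _ c hc _ ih =>
    obtain ⟨F, h1, h2, h3⟩ := ih
    exact ⟨fun y => c y.1 * F y, (ofRealCLM.contDiff.comp (hc.comp contDiff_fst)).mul h1,
      fun x => (h2 x).const_mul (c x : ℂ), fun x θ => by rw [mul_left_comm, h3, ofReal_mul]; ring⟩

theorem cauchy {G : ℂ → ℂ} (h : DiffContOnCl ℂ G (ball 0 1)) :
    ∫ θ in (0 : ℝ)..π, G (ce (2 * θ)) * ce (2 * θ) = 0 := by
  have := h.circleIntegral_eq_zero zero_le_one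
  simp only [circleIntegral, deriv_circleMap, circleMap, smul_eq_mul, ofReal_one, one_mul,
    zero_add] at this
  rw [intervalIntegral.integral_comp_mul_left (fun θ => G (ce θ) * ce θ) two_ne_zero, mul_zero,
    smul_eq_zero_iff_right (by norm_num), ← mul_eq_zero_iff_left I_ne_zero,
    ← intervalIntegral.integral_const_mul, ← this]
  simp only [ce]
  congr 1
  funext θ
  ring

variable {κ : ℂ → Co} {δ : ℝ} {φ : ℂ → ℝ}

theorem Xd_sub_mul {a b c : ℂ × ℝ → ℂ} {p : ℂ × ℝ} (d : ℝ) (ha : DifferentiableAt ℝ a p)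
    (hb : DifferentiableAt ℝ b p) (hc : DifferentiableAt ℝ c p) :
    Xd κ 0 (fun p => a p - b p * c p) p =
      Xd κ 0 a p - (Xd κ (-d) b p * c p + b p * Xd κ d c p) := by
  simp only [Xd, (ha.hasFDerivAt.fun_sub (hb.hasFDerivAt.fun_mul hc.hasFDerivAt)).fderiv,
    sub_apply, add_apply, smul_apply, smul_eq_mul]
  push_cast
  ring

theorem sol_pw {k : Co} {N : ℂ × ℂ → ℂ} {y : ℂ × ℂ} {r : ℂ} (h : Sol k N y (r * N y))
    (h0 : N y ≠ 0) (m : ℕ) :
    Sol k (fun y => N y ^ m * (N y)⁻¹) y ((m - 1) * r * (N y ^ m * (N y)⁻¹)) := by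
  induction m with
  | zero =>
    convert h.inv h0 using 1
    · simp
    · field_simp
      simp
  | succ m ih =>
    convert h.mul ih using 1
    · funext y
      ring
    · push_cast
      ring

theorem conv (P : Pkg κ δ) (hδ : δ ≤ 1) (hφ : ContDiff ℝ 2 φ)
    (hh : ∀ z θ, ‖z‖ ≤ 5 → 0 < hessK κ φ z θ) {x : ℂ} (hx : ‖x‖ ≤ 1) {θ t : ℝ} (ht : |t| ≤ 3)
    (h : 0 < t ∧ 0 ≤ fderiv ℝ φ x (ce θ) ∨ t < 0 ∧ fderiv ℝ φ x (ce θ) ≤ 0) :
    φ x < φ (P.Φ (t, x, θ, 0)).1 := by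
  have d := fun s => P.flow.hasDerivAt_hess hφ (x, θ, 0) s
  have m : StrictMonoOn _ (Icc (-3 : ℝ) 3) := strictMonoOn_of_deriv_pos (convex_Icc _ _)
    (fun s _ => (d s).2.continuousAt.continuousWithinAt) fun s hs => by
      have h1 := abs_le.2 (mem_Icc.1 (interior_subset hs))
      have h2 := norm_le_insert' (P.Φ (s, x, θ, 0)).1 (x + s * ce θ)
      have h3 := norm_add_le x (s * ce θ)
      rw [norm_mul, flow_norm_ce, norm_real, Real.norm_eq_abs] at h3
      rw [(d s).2.deriv]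
      exact mul_pos (Real.exp_pos _) (hh _ _ (by
        linarith [(P.close x θ s (by linarith) (by linarith)).1]))
  have z : (0 : ℝ) ∈ Icc (-3 : ℝ) 3 := by norm_num
  have c : Continuous fun s => φ (P.Φ (s, x, θ, 0)).1 :=
    continuous_iff_continuousAt.2 fun s => (d s).1.continuousAt
  obtain ⟨t1, t2⟩ := abs_le.1 ht
  obtain ⟨h1, h2⟩ | ⟨h1, h2⟩ := h
  · simpa only [P.flow.zero] using strictMonoOn_of_deriv_pos (convex_Icc 0 t) c.continuousOn
      (fun s hs => by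
        rw [interior_Icc] at hs
        have := m z ⟨by linarith [hs.1], by linarith [hs.2]⟩ hs.1
        simp only [P.flow.zero, Real.exp_zero, one_mul] at this
        rw [(d s).1.deriv]
        exact (mul_pos_iff_of_pos_left (Real.exp_pos _)).1 (h2.trans_lt this))
      ⟨le_rfl, h1.le⟩ ⟨h1.le, le_rfl⟩ h1
  · simpa only [P.flow.zero] using strictAntiOn_of_deriv_neg (convex_Icc t 0) c.continuousOn
      (fun s hs => by
        rw [interior_Icc] at hs
        have := m ⟨by linarith [hs.1], by linarith [hs.2]⟩ z hs.2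
        simp only [P.flow.zero, Real.exp_zero, one_mul] at this
        rw [(d s).1.deriv]
        exact neg_of_mul_neg_right (this.trans_le h2) (Real.exp_pos _).le)
      ⟨le_rfl, h1.le⟩ ⟨h1.le, le_rfl⟩ h1

theorem base (P : Pkg κ δ) (hδ : δ ≤ 1) (hφ : ContDiff ℝ 2 φ)
    (hh : ∀ z θ, ‖z‖ ≤ 5 → 0 < hessK κ φ z θ) (d1 : fderiv ℝ φ 0 1 = 0) (d2 : 0 < fderiv ℝ φ 0 I)
    (θ0 : ℝ) (h0 : 0 < θ0) : ∃ᶠ x in 𝓝 (0 : ℂ), ∀ θ ∈ Icc θ0 (π - θ0), ∀ t ∈ Icc (0 : ℝ) 3,
      φ 0 < φ (P.Φ (t, x, θ, 0)).1 := by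
  have c : Tendsto (fun t => (P.Φ (t, 0, 0, 0)).1) (𝓝[>] 0) (𝓝 0) := by
    simpa only [P.flow.zero] using
      ((P.flow.flow_d1 (0, 0, 0) 0).continuousAt.tendsto.mono_left nhdsWithin_le_nhds)
  have f : ∃ᶠ x in 𝓝 (0 : ℂ), φ 0 < φ x := c.frequently (Eventually.frequently (by
    filter_upwards [Ioo_mem_nhdsGT (show (0 : ℝ) < 3 by norm_num)] with t ht
    exact conv P hδ hφ hh (by simp) (abs_le.2 ⟨by linarith [ht.1], ht.2.le⟩)
      (.inl ⟨ht.1, by rw [flow_ce_zero, d1]⟩)))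
  have e : ∀ᶠ x in 𝓝 (0 : ℂ), ∀ θ ∈ Icc θ0 (π - θ0), 0 < fderiv ℝ φ x (ce θ) :=
    isCompact_Icc.eventually_forall_of_forall_eventually fun θ hθ =>
      (((hφ.continuous_fderiv two_ne_zero).comp continuous_fst).clm_apply
        (flow_continuous_ce.comp continuous_snd)).continuousAt.eventually_const_lt (by
          simp only [Function.comp, ce_eq θ, map_add, map_smul, d1, smul_eq_mul, mul_zero, zero_add]
          exact mul_pos (Real.sin_pos_of_pos_of_lt_pi (by linarith [hθ.1]) (by linarith [hθ.2])) d2)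
  refine (f.and_eventually (e.and (closedBall_mem_nhds 0 one_pos))).mono
    fun x ⟨h1, h2, h3⟩ θ hθ t ht => ?_
  obtain rfl | h := ht.1.eq_or_lt
  · simpa only [P.flow.zero] using h1
  · exact h1.trans (conv P hδ hφ hh (by simpa using h3) (abs_le.2 ⟨by linarith, ht.2⟩)
      (.inl ⟨h, (h2 θ hθ).le⟩))

theorem norm (P : Pkg κ δ) (hδ : δ ≤ 1 / 10 ^ 6) (hφ : ContDiff ℝ 2 φ)
    (hh : ∀ z θ, ‖z‖ ≤ 5 → 0 < hessK κ φ z θ) (d1 : fderiv ℝ φ 0 1 = 0) (d2 : 0 < fderiv ℝ φ 0 I)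
    (m : ℕ) {u : ℂ × ℝ → ℂ} (hu : ContDiff ℝ 1 u)
    (hp : ∀ z θ, u (z, θ + π) = (-1) ^ (m + 1) * u (z, θ)) {f : ℂ × ℂ → ℂ} (f1 : ContDiff ℝ 5 f)
    (f2 : ∀ x, Differentiable ℂ fun w => f (x, w))
    (pde : ∀ z θ, ‖z‖ ≤ 5 → ce θ ^ m * Xd κ (m - 1) u (z, θ) = f (z, ce (2 * θ)))
    (h0 : ∀ z θ, ‖z‖ < 6 → φ 0 < φ z → u (z, θ) = 0) :
    ∀ᶠ z in 𝓝 (0 : ℂ), ∀ k : ℕ, ∫ θ in (0 : ℝ)..π, u (z, θ) * ce ((m + 1 + 2 * k) * θ) = 0 := by
  have hδ1 : δ ≤ 1 := hδ.trans (by norm_num)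
  have hN : ∀ z, ‖z‖ ≤ 10 → ∀ w ∈ closure (ball (0 : ℂ) 1),
      P.N (z, w) ≠ 0 ∧ DifferentiableAt ℂ (fun w => P.N (z, w)) w := fun z hz w hw => by
    have := P.solN (z, w) hz (by simpa [closure_ball] using hw)
    exact ⟨this.1, this.2.differentiableAt⟩
  obtain ⟨W, W1, W2⟩ := P.solve (fun y => P.N y ^ m * f y) ((P.cN.pow m).mul f1) fun z hz =>
    DifferentiableOn.diffContOnCl fun w hw =>
      (((hN z hz w hw).2.pow m).mul (f2 z w)).differentiableWithinAt
  have sU : ∀ y : ℂ × ℂ, ‖y.1‖ ≤ 5 → ‖y.2‖ ≤ 1 → Sol (κ y.1) (fun y => W y * (P.N y)⁻¹) y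
      (P.N y ^ m * (P.N y)⁻¹ * f y) := fun y h1 h2 => by
    obtain ⟨h3, h4⟩ := P.solN y (by linarith) h2
    convert (W2 y (by linarith) h2).mul (h4.inv h3) using 1
    field_simp
    ring
  have cI : ∀ y : ℂ × ℂ, ‖y.1‖ ≤ 5 → ‖y.2‖ ≤ 1 → ContDiffAt ℝ 1 (fun y => (P.N y)⁻¹) y :=
    fun y h1 h2 => (P.cN.contDiffAt.of_le (by norm_num)).inv (P.solN y (by linarith) h2).1
  have cc : ∀ p, ContDiffAt ℝ 1 (fun p : ℂ × ℝ => (p.1, ce (2 * p.2))) p := fun p => by fun_prop
  let a : ℂ × ℝ → ℂ := fun p => W (p.1, ce (2 * p.2)) * (P.N (p.1, ce (2 * p.2)))⁻¹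
  let b : ℂ × ℝ → ℂ := fun p => ce (-(-(m - 1) * p.2)) *
    (P.N (p.1, ce (2 * p.2)) ^ m * (P.N (p.1, ce (2 * p.2)))⁻¹)
  have ca : ∀ p : ℂ × ℝ, ‖p.1‖ ≤ 5 → ContDiffAt ℝ 1 a p := fun p h =>
    ContDiffAt.comp (g := fun y => W y * (P.N y)⁻¹) p
      (W1.contDiffAt.mul (cI (p.1, _) h (flow_norm_ce _).le)) (cc p)
  have cb : ∀ p : ℂ × ℝ, ‖p.1‖ ≤ 5 → ContDiffAt ℝ 1 b p := fun p h =>
    ContDiffAt.mul (by fun_prop) (ContDiffAt.comp (g := fun y => P.N y ^ m * (P.N y)⁻¹) p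
      (((P.cN.contDiffAt.of_le (by norm_num)).pow m).mul (cI (p.1, _) h (flow_norm_ce _).le)) (cc p))
  have eb : ∀ θ, ce (-(-(m - 1) * θ)) = ce θ ^ m * (ce θ)⁻¹ := fun θ => by
    rw [← ce_nat, ← flow_ce_neg, ← flow_ce_add]
    congr 1
    ring
  have e2 : ∀ θ, ce (2 * (θ + π)) = ce (2 * θ) := fun θ => by
    rw [mul_add, flow_ce_add, flow_ce_two_pi, mul_one]
  have oE : IsOpen {z | φ 0 < φ z} := isOpen_lt continuous_const hφ.continuous
  let L : Loc P :=
    { E := {z | φ 0 < φ z}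
      U := fun y => W y * (P.N y)⁻¹
      B := fun p => a p - b p * u p
      opn := oE
      cU := fun y h1 h2 => W1.contDiffAt.mul (cI y h1 h2)
      solU := fun y h1 h2 h3 => by
        have : f (y.1, y.2) = 0 := eqOn_closure_of_eqOn_frontier isBounded_ball
          (f2 y.1).diffContOnCl diffContOnCl_const (U := ball 0 1) (fun w hw => by
            rw [frontier_ball _ one_ne_zero, mem_sphere_zero_iff_norm] at hw
            have : u =ᶠ[𝓝 (y.1, arg w / 2)] fun _ => 0 := by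
              filter_upwards [continuous_fst.continuousAt.eventually ((oE.eventually_mem h1).and
                (continuous_norm.continuousAt.eventually_lt_const
                  (show ‖y.1‖ < 6 by linarith)))] with p hp
              exact h0 p.1 p.2 hp.2 hp.1
            show f (y.1, w) = 0
            rw [ce_surj hw, ← mul_div_cancel₀ (arg w) two_ne_zero, ← pde _ _ h2, Xd, this.fderiv_eq,
              this.self_of_nhds]
            simp) (by simpa [closure_ball] using h3)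
        simpa only [this, mul_zero] using sU y h2 h3
      cB := fun p h => (ca p h).sub ((cb p h).mul hu.contDiffAt)
      inv := fun ⟨z, θ⟩ h => by
        have h1 := (sU (z, ce (2 * θ)) h (flow_norm_ce _).le).toXd 0
        obtain ⟨h2, h3⟩ := P.solN (z, ce (2 * θ)) (by linarith) (flow_norm_ce _).le
        have h4 := (sol_pw h3 h2 m).toXd (-(m - 1))
        simp only [zero_mul, neg_zero, flow_ce_zero, one_mul, zero_add, ofReal_zero, add_zero,
          flow_ce_neg, ← pde z θ h] at h1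
        rw [Xd_sub_mul (m - 1) ((ca _ h).differentiableAt one_ne_zero)
          ((cb _ h).differentiableAt one_ne_zero) (hu.differentiable one_ne_zero _), h1, h4]
        simp only [b, eb]
        push_cast
        ring
      per := fun z θ => by
        simp only [a, b, eb, e2, hp, ce_pi, neg_pow (ce θ), inv_neg]
        rcases neg_one_pow_eq_or ℂ m with h | h <;> simp only [pow_succ, h] <;> ring
      ext := fun z h1 h2 θ => by simp only [a, h0 z θ (by linarith) h1, mul_zero, sub_zero]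
      up := fun θ hθ t ht => conv P hδ1 hφ hh (by simp) (abs_le.2 ⟨by linarith [ht.1], ht.2⟩)
        (.inl ⟨ht.1, by
          simp only [ce_eq θ, map_add, map_smul, d1, smul_eq_mul, mul_zero, zero_add]
          exact mul_nonneg (Real.sin_nonneg_of_mem_Icc hθ) d2.le⟩)
      left := fun t ht => conv P hδ1 hφ hh (by simp) (abs_le.2 ⟨ht.1, by linarith [ht.2]⟩)
        (.inr ⟨ht.2, by rw [flow_ce_zero, d1]⟩)
      base := base P hδ1 hφ hh d1 d2 }
  filter_upwards [L.hardy hδ, closedBall_mem_nhds 0 one_pos] with x H hx k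
  have hx : ‖x‖ ≤ 5 := by linarith [mem_closedBall_zero_iff.1 hx]
  have dψ : ∀ w ∈ closure (ball (0 : ℂ) 1), DifferentiableAt ℂ
      (fun w => P.N (x, w) * (P.N (x, w) ^ m)⁻¹ * w ^ k) w := fun w hw => by
    obtain ⟨h1, h2⟩ := hN x (by linarith) w hw
    exact (h2.mul ((h2.pow m).inv (pow_ne_zero _ h1))).mul (differentiableAt_pow k)
  have h1 := H _ (DifferentiableOn.diffContOnCl fun w hw => (dψ w hw).differentiableWithinAt)
  have dG : DifferentiableOn ℂ (fun w => W (x, w) * (P.N (x, w))⁻¹ *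
      (P.N (x, w) * (P.N (x, w) ^ m)⁻¹ * w ^ k)) (closure (ball 0 1)) := fun w hw =>
    ((sU (x, w) hx (by simpa [closure_ball] using hw)).differentiableAt.mul
      (dψ w hw)).differentiableWithinAt
  have h2 := cauchy dG.diffContOnCl
  have c1 : Continuous fun θ : ℝ => ce (2 * θ) := by fun_prop
  have i2 := (hu.continuous.comp (Continuous.prodMk_right x)).mul
    (show Continuous fun θ : ℝ => ce ((m + 1 + 2 * k) * θ) by fun_prop)
  have h3 := intervalIntegral.integral_sub (((dG.continuousOn.comp_continuous c1 fun θ => by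
    simp [closure_ball, flow_norm_ce]).mul c1).intervalIntegrable (μ := MeasureTheory.volume) 0 π)
    (i2.intervalIntegrable 0 π)
  refine neg_eq_zero.1 (((zero_sub _).symm.trans (congrArg (· - _) h2.symm)).trans
    ((h3.symm.trans (intervalIntegral.integral_congr fun θ _ => ?_)).trans h1))
  have n0 := (P.solN (x, ce (2 * θ)) (by linarith) (flow_norm_ce _).le).1
  have := flow_ce_ne θ
  have e3 : ce ((m + 1 + 2 * k) * θ) = ce θ ^ (m + 1 + 2 * k) := by
    rw [← ce_nat]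
    push_cast
    rfl
  simp only [L, a, b, eb, Function.comp, Pi.mul_apply, e3]
  generalize P.N (x, ce (2 * θ)) = N at n0
  rw [flow_ce_two]
  field_simp
  ring

end Lc

open Lc

theorem local_thm {κ : ℂ → Co} (hκ : ContDiff ℝ ∞ κ) (hc : HasCompactSupport κ) {φ : ℂ → ℝ}
    (hφ : ContDiff ℝ ∞ φ) {p : ℂ} (hd : fderiv ℝ φ p ≠ 0) (hh : ∀ θ, 0 < hessK κ φ p θ) (m : ℕ)
    {u : ℂ × ℝ → ℂ} (hu : ContDiff ℝ 1 u) (hp : ∀ z θ, u (z, θ + π) = (-1) ^ (m + 1) * u (z, θ))
    {f : ℂ → ℂ → ℝ} (hf : Ten 5 (m + 1) f)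
    (pde : ∀ᶠ z in 𝓝 p, ∀ θ, Xd κ (m - 1) u (z, θ) = f z (ce θ))
    (h0 : ∀ᶠ z in 𝓝 p, φ p < φ z → ∀ θ, u (z, θ) = 0) :
    ∀ᶠ z in 𝓝 p, ∀ k : ℕ, ∫ θ in (0 : ℝ)..π, u (z, θ) * ce ((m + 1 + 2 * k) * θ) = 0 := by
  obtain ⟨α, d1, d2⟩ : ∃ α, fderiv ℝ φ p (ce α) = 0 ∧ 0 < fderiv ℝ φ p (ce α * I) := by
    set L := fderiv ℝ φ p
    have e : ∀ v : ℂ, L v = v.re * L 1 + v.im * L I := fun v => by
      conv_lhs => rw [show v = v.re • (1 : ℂ) + v.im • I by simp, map_add, map_smul, map_smul]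
      rfl
    have q : 0 < L 1 ^ 2 + L I ^ 2 := by
      by_contra h
      refine hd (ContinuousLinearMap.ext fun v => ?_)
      rw [e, show L 1 = 0 by nlinarith, show L I = 0 by nlinarith]
      simp
    have n : (L I - L 1 * I : ℂ) ≠ 0 := fun h => by
      have h1 := congrArg re h
      have h2 := congrArg im h
      simp at h1 h2
      simp [h1, h2] at q
    have n1 := norm_pos_iff.2 n
    have c : ce (arg (L I - L 1 * I)) = ‖(L I - L 1 * I : ℂ)‖⁻¹ • (L I - L 1 * I : ℂ) := by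
      rw [eq_inv_smul_iff₀ n1.ne']
      exact norm_mul_exp_arg_mul_I _
    refine ⟨arg (L I - L 1 * I), ?_, ?_⟩
    · rw [c, map_smul, e (_ - _)]
      simp [mul_comm]
    · rw [c, smul_mul_assoc, map_smul, e (_ * _)]
      exact mul_pos (inv_pos.2 n1) (by simpa [sq] using q)
  have h2 : ContDiff ℝ 2 φ := contDiff_infty.1 hφ 2
  have c1 : ContDiff ℝ 1 (fderiv ℝ φ) := h2.fderiv_right (by norm_num)
  have hs : ∀ᶠ z in 𝓝 p, ∀ θ, 0 < hessK κ φ z θ := by
    have c : Continuous fun q : ℂ × ℝ => hessK κ φ q.1 q.2 := by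
      have := c1.continuous
      have := c1.continuous_fderiv one_ne_zero
      have := hκ.continuous
      unfold hessK Gk
      fun_prop
    filter_upwards [(isCompact_Icc (a := -π) (b := π)).eventually_forall_of_forall_eventually
      (P := fun z θ => 0 < hessK κ φ z θ) fun θ _ => (c.tendsto (p, θ)).eventually_const_lt (hh θ)] with z h θ
    have := h _ (Ioc_subset_Icc_self (arg_mem_Ioc (ce θ)))
    simpa only [hessK, Gk, flow_ce_neg, flow_ce_two, ← ce_surj (flow_norm_ce θ)] using this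
  obtain ⟨r, r0, hr⟩ := Metric.eventually_nhds_iff.1 (pde.and (h0.and hs))
  have a0 := flow_ce_ne α
  let R : Co → Co := fun k => (k.1 * ce α, k.2.1 * (ce α)⁻¹, k.2.2 * (ce α)⁻¹ ^ 3)
  obtain ⟨ε, ⟨ε0, ε1⟩, ⟨P⟩⟩ := exists_pkg (κ := fun z => R (κ (p + ce α * z))) (by fun_prop)
    ((hc.comp_homeomorph ((Homeomorph.mulLeft₀ _ a0).trans (Homeomorph.addLeft p))).comp_left
      (g := R) (by simp [R])) (δ := 1 / 10 ^ 6) (r := r / 6) (by norm_num) (by positivity)
  let A : ℂ →L[ℝ] ℂ := ε • ContinuousLinearMap.mul ℝ ℂ (ce α)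
  let S : ℂ → ℂ := fun z => p + A z
  have cS : ∀ n, ContDiff ℝ n S := fun n => by fun_prop
  have dS : ∀ z, HasFDerivAt S A z := fun z => A.hasFDerivAt.const_add p
  have eA : ∀ z, A z = ε • (ce α * z) := fun _ => rfl
  have eκ : ∀ z, scl (fun z => R (κ (p + ce α * z))) ε z = ε • R (κ (S z)) := fun z => by
    simp only [scl, S, eA, mul_smul_comm]
  have hS : ∀ z, ‖z‖ < 6 → dist (S z) p < r := fun z h => by
    rw [dist_self_add_left, eA, norm_smul, norm_mul, flow_norm_ce, Real.norm_of_nonneg ε0.le]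
    nlinarith
  have S0 : S 0 = p := by simp [S]
  have eb : ∀ k θ, ba (R k) θ = ba k (θ + α) := fun k θ => by
    simp only [flow_ba_eq, R, flow_ce_add, mul_inv]
    ring
  have eG : ∀ k θ, ce α * Gk (R k) θ = Gk k (θ + α) := fun k θ => by
    have := flow_ce_ne θ
    simp only [Gk, R, flow_ce_neg, flow_ce_two, flow_ce_add]
    field_simp
  have dφ : fderiv ℝ (φ ∘ S) = fun z => (fderiv ℝ φ (S z)).comp A := funext fun z =>
    ((h2.differentiable two_ne_zero _).hasFDerivAt.comp z (dS z)).fderiv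
  obtain ⟨F, F1, F2, F3⟩ := poly hf
  have H := Lc.norm P le_rfl (h2.comp (cS _)) (fun z θ hz => ?_) ?_ ?_ m
    (u := fun q => u (S q.1, q.2 + α)) (hu.comp (((cS _).comp contDiff_fst).prodMk (by fun_prop)))
    (fun z θ => by simp only [add_right_comm θ π α, hp])
    (f := fun y => ε * (ce α)⁻¹ ^ m * F (S y.1, ce α ^ 2 * y.2)) (contDiff_const.mul (F1.comp
      (((cS _).comp contDiff_fst).prodMk (by fun_prop))))
    (fun x => ((F2 (S x)).comp (differentiable_id.const_mul (ce α ^ 2))).const_mul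
      (ε * (ce α)⁻¹ ^ m)) (fun z θ hz => ?_)
    fun z θ hz h => (hr (hS z hz)).2.1 (by simpa only [Function.comp, S0] using h) _
  · have t : Tendsto (fun z => (ε * ce α)⁻¹ * (z - p)) (𝓝 p) (𝓝 0) :=
      Continuous.tendsto' (by fun_prop) _ _ (by simp)
    filter_upwards [t.eventually H] with z h k
    have e : S ((ε * ce α)⁻¹ * (z - p)) = z := by
      have := ofReal_ne_zero.2 ε0.ne'
      simp only [S, eA, real_smul]
      field_simp
      ring
    have g : Function.Periodic (fun θ => u (z, θ) * ce ((m + 1 + 2 * k) * θ)) π := fun θ => by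
      have := ce_nat (m + 1 + 2 * k)
      push_cast at this
      simp only [hp, this, ce_pi, neg_pow (ce θ), pow_add, pow_mul, neg_one_sq, one_pow]
      rcases neg_one_pow_eq_or ℂ m with h | h <;> simp only [h] <;> ring
    have := (intervalIntegral.integral_comp_add_right (a := 0) (b := π) _ α).trans
      (by simpa only [zero_add, add_comm α] using g.intervalIntegral_add_eq α 0)
    simp only [← this, mul_add _ _ α, flow_ce_add, ← mul_assoc, intervalIntegral.integral_mul_const]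
    rw [← e, h, zero_mul]
  · have := (hr (hS z (by linarith))).2.2 (θ + α)
    rw [hessK, dφ, show fderiv ℝ (fun z => (fderiv ℝ φ (S z)).comp A) z = _ from
      (((c1.differentiable one_ne_zero _).hasFDerivAt.comp z (dS z)).clm_comp
      (hasFDerivAt_const A z)).fderiv, eκ]
    have e : Gk (ε • R (κ (S z))) θ = ε • Gk (R (κ (S z))) θ := by
      simp only [Gk, Prod.smul_fst, Prod.smul_snd, real_smul]
      ring
    rw [hessK, ← eG, flow_ce_add, mul_comm (ce θ)] at this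
    simp [e, eA, -real_smul]
    nlinarith [mul_pos (mul_pos ε0 ε0) this]
  · simp [dφ, S0, eA, d1, -real_smul]
  · simp [dφ, S0, eA, d2, ε0, -real_smul]
  · have h1 := (hr (hS z (by linarith))).1 (θ + α)
    have h3 := F3 (S z) (θ + α)
    have d : HasFDerivAt (fun q : ℂ × ℝ => (S q.1, q.2 + α)) (A.prodMap (.id ℝ ℝ)) (z, θ) :=
      (dS z).prodMap (z, θ) ((hasFDerivAt_id θ).add_const α)
    have e : Xd (scl (fun z => R (κ (p + ce α * z))) ε) (m - 1) (fun q => u (S q.1, q.2 + α))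
        (z, θ) = ε * Xd κ (m - 1) u (S z, θ + α) := by
      have e : (A.prodMap (.id ℝ ℝ)) (ce θ, (ε * ba (κ (S z)) (θ + α)).im) =
          ε • (ce (θ + α), (ba (κ (S z)) (θ + α)).im) := by
        simp [eA, flow_ce_add, mul_comm]
      simp only [Xd, eκ, flow_ba_smul, eb]
      rw [show fderiv ℝ (fun q : ℂ × ℝ => u (S q.1, q.2 + α)) (z, θ) = _ from
        ((hu.differentiable one_ne_zero _).hasFDerivAt.comp (z, θ) d).fderiv,
        ContinuousLinearMap.comp_apply, e, map_smul]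
      simp
      ring
    have := flow_ce_ne θ
    rw [e, h1, show ce α ^ 2 * ce (2 * θ) = ce (2 * (θ + α)) by
      rw [mul_add, flow_ce_add, flow_ce_two α, mul_comm],
      (eq_inv_mul_iff_mul_eq₀ (flow_ce_ne _)).2 h3, flow_ce_add, inv_pow]
    field_simp
    ring

end Pool.Agent.Lib.MP_0cc5e8_gt
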