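import Pool.Agent.Lib.MP_0cc5e8_gt.Tens

/-! The global transport equation. -/

namespace Pool.Agent.Lib.MP_0cc5e8_gt

open Complex Set Filter Topology Metric
open scoped ComplexConjugate ContDiff Real

namespace Tr

lemma norm_ce (θ : ℝ) : ‖ce θ‖ = 1 := norm_exp_ofReal_mul_I θ

lemma ce_ne (θ : ℝ) : ce θ ≠ 0 := exp_ne_zero _

lemma ce_add (a b : ℝ) : ce (a + b) = ce a * ce b := by
  simp [ce, add_mul, Complex.exp_add]

lemma ce_pi (θ : ℝ) : ce (θ + π) = -ce θ := by simp [ce, add_mul, Complex.exp_add]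

lemma ce_two_pi (θ : ℝ) : ce (θ + 2 * π) = ce θ := by
  rw [show θ + 2 * π = θ + π + π by ring, ce_pi, ce_pi, neg_neg]

lemma ce_neg (θ : ℝ) : ce (-θ) = conj (ce θ) := by
  simp [ce, ← Complex.exp_conj]

lemma ce_neg_mul (θ : ℝ) : ce (-θ) * ce θ = 1 := by rw [← ce_add]; simp [ce]

lemma contDiff_ce {n : WithTop ℕ∞} : ContDiff ℝ n ce :=
  (Complex.contDiff_exp (𝕜 := ℝ)).comp (ofRealCLM.contDiff.mul contDiff_const)

lemma hasDerivAt_ce (θ : ℝ) : HasDerivAt ce (ce θ * I) θ :=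
  (((hasDerivAt_id θ).ofReal_comp.mul_const I).cexp).congr_deriv (by simp [ce])

lemma polar (v : ℂ) : v = ‖v‖ • ce (arg v) := by
  rw [real_smul, ce, norm_mul_exp_arg_mul_I]

lemma ten_ext {r r' : ℕ∞} {n : ℕ} {P Q : ℂ → ℂ → ℝ} (hP : Ten r n P) (hQ : Ten r' n Q) {x : ℂ}
    (h : ∀ θ, P x (ce θ) = Q x (ce θ)) (v : ℂ) : P x v = Q x v := by
  rw [polar v, hP.homog, hQ.homog, h]

lemma ba_pi (k : Co) (θ : ℝ) : ba k (θ + π) = -ba k θ := by
  have h1 : ce (-(θ + π)) = -ce (-θ) := by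
    rw [← ce_pi, ← ce_two_pi (-(θ + π))]; congr 1; ring
  have h2 : ce (2 * (θ + π)) = ce (2 * θ) := by rw [mul_add, ce_two_pi]
  have h3 : ce (-(2 * (θ + π))) = ce (-(2 * θ)) := by
    rw [← ce_two_pi (-(2 * (θ + π)))]; congr 1; ring
  simp only [ba, Gk, h1, h2, h3]
  ring

lemma grow {F F' : ℝ → ℝ} {c B t₀ : ℝ} (hc : 0 < c) (hF : ∀ t, HasDerivAt F (F' t) t)
    (h1 : ∀ t, t₀ ≤ t → c ≤ F' t) (h2 : ∀ t, t₀ ≤ t → |F t| ≤ B) : False := by
  have hB : 0 ≤ B := (abs_nonneg _).trans (h2 _ le_rfl)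
  have h0 : 0 < (2 * B + 1) / c := by positivity
  obtain ⟨s, hs, e⟩ := exists_hasDerivAt_eq_slope F F' (lt_add_of_pos_right t₀ h0)
    (fun t _ => (hF t).continuousAt.continuousWithinAt) fun t _ => hF t
  have a1 := h1 s hs.1.le
  rw [e, add_sub_cancel_left, le_div_iff₀ h0, mul_div_cancel₀ _ hc.ne'] at a1
  linarith [abs_le.1 (h2 t₀ le_rfl), abs_le.1 (h2 _ (le_add_of_nonneg_right h0.le))]

lemma first_hit {r : ℝ → ℝ} (hr : Continuous r) {a b : ℝ} (hab : a ≤ b) (ha : r a < 0)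
    (hb : 0 ≤ r b) : ∃ T ∈ Ioc a b, r T = 0 ∧ ∀ t ∈ Ico a T, r t < 0 := by
  obtain ⟨T, ⟨h1, h2⟩, h3⟩ := (isCompact_Icc.inter_right (isClosed_eq hr continuous_const)).exists_isLeast
    (intermediate_value_Icc hab hr.continuousOn ⟨ha.le, hb⟩)
  refine ⟨T, ⟨lt_of_le_of_ne h1.1 fun e => ha.ne (e ▸ h2), h1.2⟩, h2, fun t ht => ?_⟩
  by_contra! h
  obtain ⟨s, hs, e⟩ := intermediate_value_Icc ht.1 hr.continuousOn ⟨ha.le, h⟩
  exact (hs.2.trans_lt ht.2).not_ge (h3 ⟨⟨hs.1, hs.2.trans (ht.2.le.trans h1.2)⟩, e⟩)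

lemma int_zero {r w : ℝ → ℝ} (hr : Continuous r) (hw : Continuous w)
    (h0 : ∀ t, 0 ≤ r t → w t = 0)
    (hv : ∀ a b, a < b → r a = 0 → r b = 0 → (∀ t ∈ Ioo a b, r t < 0) → ∫ t in a..b, w t = 0)
    {a b : ℝ} (ha : 0 ≤ r a) (hb : 0 ≤ r b) : ∫ t in a..b, w t = 0 := by
  wlog hab : a ≤ b generalizing a b
  · rw [intervalIntegral.integral_symm, this hb ha (le_of_not_ge hab), neg_zero]
  have hI : Continuous fun t => ∫ s in a..t, w s := continuous_iff_continuousAt.2 fun t =>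
    (hw.integral_hasStrictDerivAt a t).hasDerivAt.continuousAt
  have add : ∀ s t, ∫ u in a..t, w u = (∫ u in a..s, w u) + ∫ u in s..t, w u := fun s t =>
    (intervalIntegral.integral_add_adjacent_intervals (hw.intervalIntegrable _ _)
      (hw.intervalIntegrable _ _)).symm
  have key : ∀ ε > 0, |∫ t in a..b, w t| ≤ ε * (b - a) := by
    intro ε hε
    obtain ⟨s, ⟨s1, s2, s3⟩, s4⟩ := (isCompact_Icc (a := a) (b := b).inter_right
      ((isClosed_le continuous_const hr).inter (isClosed_le hI.abs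
        (by fun_prop : Continuous fun t => ε * (t - a))))).exists_isGreatest
      ⟨a, ⟨le_rfl, hab⟩, ha, by simp⟩
    rcases s1.2.eq_or_lt with rfl | hlt
    · exact s3
    exfalso
    obtain ⟨δ, hδ, h1⟩ := Metric.continuous_iff.1 hw s ε hε
    rw [h0 s s2] at h1
    have h2 : ∀ t ∈ Ioc s b, t < s + δ → r t < 0 := fun t ht htδ => by
      by_contra! h
      refine ht.1.not_ge (s4 ⟨⟨s1.1.trans ht.1.le, ht.2⟩, h, ?_⟩)
      have a1 := intervalIntegral.norm_integral_le_of_norm_le_const (a := s) (b := t) (C := ε)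
        (f := w) fun u hu => by
          rw [uIoc_of_le ht.1.le] at hu
          simpa using (h1 u (by rw [Real.dist_eq, abs_lt]; constructor <;> linarith [hu.1, hu.2])).le
      rw [abs_of_pos (sub_pos.2 ht.1), Real.norm_eq_abs] at a1
      simp only [mem_ofPred_eq] at s3 ⊢
      rw [add s t]
      linarith [abs_add_le (∫ u in a..s, w u) (∫ u in s..t, w u)]
    obtain ⟨t, t1, t2⟩ := exists_between (lt_min hlt (lt_add_of_pos_right s hδ))
    rw [lt_min_iff] at t2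
    obtain ⟨T, T1, T2, T3⟩ := first_hit hr t2.1.le (h2 t ⟨t1, t2.1.le⟩ t2.2) hb
    have h3 : ∀ u ∈ Ioo s T, r u < 0 := fun u hu => by
      rcases le_total u t with h | h
      · exact h2 u ⟨hu.1, h.trans t2.1.le⟩ (h.trans_lt t2.2)
      · exact T3 u ⟨h, hu.2⟩
    have h4 : r s = 0 := le_antisymm (le_of_tendsto (hr.continuousWithinAt (s := Ioi s)).tendsto
      (mem_of_superset (Ioo_mem_nhdsGT (t1.trans T1.1)) fun u hu => (h3 u hu).le)) s2
    refine (t1.trans T1.1).not_ge (s4 ⟨⟨s1.1.trans (t1.trans T1.1).le, T1.2⟩, T2.ge, ?_⟩)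
    simp only [mem_ofPred_eq] at s3 ⊢
    rw [add s T, hv s T (t1.trans T1.1) h4 T2 h3, add_zero]
    nlinarith [t1.trans T1.1]
  refine abs_nonpos_iff.1 (le_of_forall_pos_le_add fun ε hε => ?_)
  have h1 := key (ε / (b - a + 1)) (div_pos hε (by linarith))
  rw [div_mul_eq_mul_div, le_div_iff₀ (by linarith)] at h1
  nlinarith [abs_nonneg (∫ t in a..b, w t)]

variable {κ : ℂ → Co} {Φ : ℝ × St → St}

lemma cont (h : IsFlow κ Φ) (x : St) : Continuous fun t => Φ (t, x) :=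
  h.smooth.continuous.comp (by fun_prop)

lemma dz (h : IsFlow κ Φ) (x : St) (t : ℝ) :
    HasDerivAt (fun s => (Φ (s, x)).1) (ce (Φ (t, x)).2.1) t := (h.deriv x t).fst

lemma dth (h : IsFlow κ Φ) (x : St) (t : ℝ) :
    HasDerivAt (fun s => (Φ (s, x)).2.1) (ba (κ (Φ (t, x)).1) (Φ (t, x)).2.1).im t :=
  (h.deriv x t).snd.fst

lemma dl (h : IsFlow κ Φ) (x : St) (t : ℝ) :
    HasDerivAt (fun s => (Φ (s, x)).2.2) (ba (κ (Φ (t, x)).1) (Φ (t, x)).2.1).re t :=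
  (h.deriv x t).snd.snd

end Tr

open Tr

theorem Glob.exit (G : Glob) (x : St) : ∃ t ≥ 0, 0 < G.ρ (G.Φ (t, x)).1 := by
  by_contra! h
  have hK := G.cpt.prod (isCompact_sphere (0 : ℂ) 1)
  have mem : ∀ t, 0 ≤ t → ((G.Φ (t, x)).1, ce (G.Φ (t, x)).2.1) ∈ {x | G.ρ x ≤ 0} ×ˢ sphere (0 : ℂ) 1 :=
    fun t ht => ⟨h t ht, by simp [norm_ce]⟩
  have c0 := G.cφ.continuous
  have c1 : ContDiff ℝ 1 (fderiv ℝ G.φ) := G.cφ.fderiv_right (by norm_cast)
  have c2 := c1.continuous_fderiv one_ne_zero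
  have c3 := G.cΓ.continuous
  have c4 := c1.continuous
  obtain ⟨p, hp, h1⟩ := hK.exists_isMinOn ⟨_, mem 0 le_rfl⟩
    (f := fun p => hess G.Γ G.φ p.1 p.2) (by unfold hess; fun_prop)
  have hc : 0 < hess G.Γ G.φ p.1 p.2 := by
    have := G.conv p.1 (arg p.2) hp.1
    have e := polar p.2
    rw [mem_sphere_zero_iff_norm.1 hp.2, one_smul] at e
    rwa [hessK, G.eqG, ← e] at this
  obtain ⟨C, h2⟩ := hK.exists_bound_of_continuousOn
    (f := fun p => (-(conj p.2 * G.Γ p.1 p.2 p.2)).re) (by fun_prop)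
  have grow' : ∀ (D t₀ : ℝ), 0 ≤ t₀ → (∀ t, t₀ ≤ t → 0 ≤ (D - (ba (G.κ (G.Φ (t, x)).1)
      (G.Φ (t, x)).2.1).re) * fderiv ℝ G.φ (G.Φ (t, x)).1 (ce (G.Φ (t, x)).2.1)) → False := by
    intro D t₀ h0 h3
    obtain ⟨B, h4⟩ := hK.exists_bound_of_continuousOn
      (f := fun p => fderiv ℝ G.φ p.1 p.2 + D * G.φ p.1) (by fun_prop)
    have d := fun t => G.flow.hasDerivAt_hess (G.cφ.of_le (by norm_cast)) x t
    refine grow hc (t₀ := t₀) (B := B)
      (fun t => ((dl G.flow x t).neg.exp.mul (d t).2).add ((d t).1.const_mul D))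
      (fun t ht => ?_) fun t ht => ?_
    · have a1 : hess G.Γ G.φ p.1 p.2 ≤ hessK G.κ G.φ (G.Φ (t, x)).1 (G.Φ (t, x)).2.1 := by
        rw [hessK, G.eqG]; exact h1 (mem t (h0.trans ht))
      have a2 := h3 t ht
      simp only [Pi.neg_apply, Real.exp_neg]
      field_simp
      linarith
    · have := h4 _ (mem t (h0.trans ht))
      simp only [Pi.add_apply, Pi.mul_apply, Pi.neg_apply, Real.exp_neg]
      rwa [inv_mul_cancel_left₀ (Real.exp_ne_zero _)]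
  have hb : ∀ t, 0 ≤ t → |(ba (G.κ (G.Φ (t, x)).1) (G.Φ (t, x)).2.1).re| ≤ C := fun t ht => by
    rw [ba, G.eqG, ce_neg]; exact h2 _ (mem t ht)
  by_cases h3 : ∃ t₀, 0 ≤ t₀ ∧ 0 ≤ fderiv ℝ G.φ (G.Φ (t₀, x)).1 (ce (G.Φ (t₀, x)).2.1)
  · obtain ⟨t₀, h0, h3⟩ := h3
    refine grow' C t₀ h0 fun t ht => mul_nonneg (by linarith [abs_le.1 (hb t (h0.trans ht))]) ?_
    have d := fun t => (G.flow.hasDerivAt_hess (G.cφ.of_le (by norm_cast)) x t).2
    have := monotoneOn_of_deriv_nonneg (convex_Ici t₀)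
      (fun t _ => (d t).continuousAt.continuousWithinAt)
      (fun t _ => (d t).differentiableAt.differentiableWithinAt) (fun t ht => by
        rw [(d t).deriv]
        exact (mul_pos (Real.exp_pos _) (G.conv _ _ (h t (h0.trans (interior_subset ht))))).le)
      self_mem_Ici ht ht
    exact nonneg_of_mul_nonneg_right ((mul_nonneg (Real.exp_pos _).le h3).trans this)
      (Real.exp_pos _)
  · push Not at h3
    exact grow' (-C) 0 le_rfl fun t ht =>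
      mul_nonneg_of_nonpos_of_nonpos (by linarith [abs_le.1 (hb t ht)]) (h3 t ht).le

theorem Glob.uniq (G : Glob) {m : ℕ} {h : ℂ → ℂ → ℝ} (hh : Ten 1 m h)
    (h0 : ∀ x v, G.ρ x = 0 → h x v = 0) (hd : ∀ x v, G.ρ x < 0 → dsym G.Γ h x v = 0) :
    ∀ x v, G.ρ x ≤ 0 → h x v = 0 := by
  intro x v hx
  rcases hx.eq_or_lt with hx | hx
  · exact h0 x v hx
  refine ten_ext hh (Ten.zero (r := 1) m) (fun θ => ?_) v
  obtain ⟨b, hb, h1⟩ := G.exit (x, θ, 0)
  obtain ⟨T, T1, T2, T3⟩ := first_hit (r := fun t => G.ρ (G.Φ (t, x, θ, 0)).1)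
    (G.cρ.continuous.comp (cont G.flow _).fst) hb (by simpa [G.flow.zero] using hx) h1.le
  have hu : ContDiff ℝ 1 fun p : ℂ × ℝ => (h p.1 (ce p.2) : ℂ) := ofRealCLM.contDiff.comp
    (hh.contDiff.comp (contDiff_fst.prodMk (contDiff_ce.comp contDiff_snd)))
  have d := fun t => G.flow.hasDerivAt_Xd (m - 1) (x, θ, 0) t (hu.differentiable one_ne_zero _)
  have := constant_of_has_deriv_right_zero (a := 0) (b := T)
    (fun t _ => (d t).continuousAt.continuousWithinAt) (fun t ht => by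
      have := (d t).hasDerivWithinAt (s := Ici t)
      rwa [G.Xd_ten hh, hd _ _ (T3 t ht), ofReal_zero, mul_zero] at this) T ⟨T1.1.le, le_rfl⟩
  simpa [G.flow.zero, h0 _ _ T2] using this.symm

theorem Glob.transport (G : Glob) {m r : ℕ} (hr : 1 ≤ r) {f : ℂ → ℂ → ℝ} (hf : Ten r (m + 1) f)
    (hv : G.Van m f) (h0 : ∀ x v, 0 ≤ G.ρ x → f x v = 0) :
    ∃ u : ℂ × ℝ → ℝ, ContDiff ℝ r u ∧ (∀ z θ, u (z, θ + π) = (-1) ^ (m + 1) * u (z, θ)) ∧
      (∀ z θ, 0 ≤ G.ρ z → u (z, θ) = 0) ∧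
      ∀ z θ, Xd G.κ (m - 1) (fun p => (u p : ℂ)) (z, θ) = f z (ce θ) := by
  have cΦ : ContDiff ℝ r G.Φ := G.flow.smooth.of_le (by exact_mod_cast le_top)
  have cw : ContDiff ℝ r fun q : St × ℝ => G.w m f q.1 q.2 := by
    have c1 : ContDiff ℝ r fun q : St × ℝ => G.Φ (q.2, q.1) := cΦ.comp (by fun_prop)
    exact (hf.contDiff.comp (c1.fst.prodMk (contDiff_ce.comp c1.snd.fst))).mul
      (contDiff_const.mul c1.snd.snd).exp
  have cw1 : ∀ x, Continuous (G.w m f x) := fun x => cw.continuous.comp (Continuous.prodMk_right x)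
  have Z : ∀ x a b, 0 ≤ G.ρ (G.Φ (a, x)).1 → 0 ≤ G.ρ (G.Φ (b, x)).1 →
      ∫ t in a..b, G.w m f x t = 0 := fun x a b =>
    int_zero (G.cρ.continuous.comp (cont G.flow _).fst) (cw1 x)
      (fun t ht => by rw [Glob.w, h0 _ _ ht, zero_mul]) (hv x)
  choose T _ hT using G.exit
  let u : ℂ × ℝ → ℝ := fun p => -∫ t in (0 : ℝ)..T (p.1, p.2, 0), G.w m f (p.1, p.2, 0) t
  have hu : ∀ z θ b, 0 ≤ G.ρ (G.Φ (b, z, θ, 0)).1 →
      u (z, θ) = -∫ t in (0 : ℝ)..b, G.w m f (z, θ, 0) t := fun z θ b hb => by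
    rw [← intervalIntegral.integral_add_adjacent_intervals ((cw1 _).intervalIntegrable 0 (T (z, θ, 0)))
      ((cw1 _).intervalIntegrable _ b), Z _ _ _ (hT _).le hb, add_zero]
  have cu : ContDiff ℝ r u := contDiff_iff_contDiffAt.2 fun p => by
    have c1 := (contDiff_int (n := r) (F := fun q : (ℂ × ℝ) × ℝ => G.w m f (q.1.1, q.1.2, 0) q.2)
      (cw.comp (f := fun q : (ℂ × ℝ) × ℝ => (((q.1.1, q.1.2, 0) : St), q.2)) (by fun_prop))
      0 (T (p.1, p.2, 0))).neg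
    refine c1.contDiffAt.congr_of_eventuallyEq ?_
    have c2 : Continuous fun q : ℂ × ℝ => G.ρ (G.Φ (T (p.1, p.2, 0), q.1, q.2, 0)).1 :=
      G.cρ.continuous.comp (cΦ.continuous.comp (by fun_prop)).fst
    filter_upwards [c2.continuousAt.eventually (lt_mem_nhds (hT (p.1, p.2, 0)))] with q hq
    exact hu q.1 q.2 _ hq.le
  have du : Differentiable ℝ fun p => (u p : ℂ) :=
    (ofRealCLM.contDiff.comp cu).differentiable (by exact_mod_cast (by omega : r ≠ 0))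
  have per : ∀ z θ, u (z, θ + 2 * π) = u (z, θ) := fun z θ => by
    rw [hu z (θ + 2 * π) (T (z, θ, 0)) (by simpa [G.flow.per] using (hT (z, θ, 0)).le)]
    simp [u, Glob.w, G.flow.per, ce_two_pi]
  have pde : ∀ z θ, Xd G.κ (m - 1) (fun p => (u p : ℂ)) (z, θ) = f z (ce θ) := fun z θ => by
    have d1 := G.flow.hasDerivAt_Xd (m - 1) (z, θ, 0) 0 (du _)
    have e : ∀ s, Real.exp (((m : ℝ) - 1) * (G.Φ (s, z, θ, 0)).2.2) *
        u ((G.Φ (s, z, θ, 0)).1, (G.Φ (s, z, θ, 0)).2.1) =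
        ∫ t in T (z, θ, 0)..s, G.w m f (z, θ, 0) t := fun s => by
      have a : ∀ t, G.Φ (t + s, z, θ, 0) = G.Φ (t, (G.Φ (s, z, θ, 0)).1, (G.Φ (s, z, θ, 0)).2.1, 0) +
          (0, 0, (G.Φ (s, z, θ, 0)).2.2) := fun t => by rw [G.flow.add, ← G.flow.shift]
      have a1 := a (T (z, θ, 0) - s)
      rw [sub_add_cancel] at a1
      rw [hu _ _ (T (z, θ, 0) - s) (by simpa [a1] using (hT (z, θ, 0)).le), mul_neg,
        ← intervalIntegral.integral_const_mul, intervalIntegral.integral_symm s]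
      congr 1
      have := intervalIntegral.integral_comp_add_right (a := 0) (b := T (z, θ, 0) - s)
        (G.w m f (z, θ, 0)) s
      rw [zero_add, sub_add_cancel] at this
      rw [← this]
      congr 1
      funext t
      simp only [Glob.w, a, Prod.fst_add, Prod.snd_add, add_zero, mul_add, Real.exp_add]
      ring
    have d2 := ((cw1 (z, θ, 0)).integral_hasStrictDerivAt (T (z, θ, 0)) 0).hasDerivAt.ofReal_comp
    simp only [← e, ofReal_mul] at d2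
    simpa [Glob.w, G.flow.zero] using d1.unique d2
  have u0 : ∀ z θ, 0 ≤ G.ρ z → u (z, θ) = 0 := fun z θ h => by
    simpa using hu z θ 0 (by simpa [G.flow.zero] using h)
  refine ⟨fun p => (u p + (-1) ^ (m + 1) * u (p.1, p.2 + π)) / 2, by fun_prop, fun z θ => ?_,
    fun z θ h => by simp [u0 _ _ h], fun z θ => ?_⟩
  · have : ((-1 : ℝ) ^ (m + 1)) * (-1) ^ (m + 1) = 1 := by rw [← mul_pow]; simp
    simp only [add_assoc, ← two_mul, per]
    linear_combination (-u (z, θ + π) / 2) * this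
  · have p1 := pde z θ
    have p2 := pde z (θ + π)
    have d1 := (du (z, θ)).hasFDerivAt
    have d2 := (du (z, θ + π)).hasFDerivAt.comp (f := fun p : ℂ × ℝ => (p.1, p.2 + π)) (z, θ)
      (hasFDerivAt_fst.prodMk (hasFDerivAt_snd.add_const π))
    have d3 := (d1.add (d2.const_mul ((-1 : ℂ) ^ (m + 1)))).mul_const (2 : ℂ)⁻¹
    have e : f z (ce (θ + π)) = (-1) ^ m * f z (ce θ) := by
      rw [ce_pi, ← neg_one_smul ℝ, hf.homog]; rfl
    have e2 : (ce (θ + π), (ba (G.κ z) (θ + π)).im) = -(ce θ, (ba (G.κ z) θ).im) := by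
      simp [ce_pi, ba_pi]
    have e3 : ((-1 : ℂ) ^ m) * (-1) ^ m = 1 := by rw [← mul_pow]; simp
    simp only [Xd] at p1 p2 ⊢
    rw [e, e2, map_neg, ba_pi] at p2
    push_cast at p1 p2 ⊢
    simp only [div_eq_mul_inv]
    erw [d3.fderiv]
    simp [pow_succ] at p2 ⊢
    linear_combination p1 / 2 + (-1) ^ m * p2 / 2 + (f z (ce θ) : ℂ) / 2 * e3

namespace Tr

/-- the bilinear map with given values on the basis -/
noncomputable def bil (a b c d : ℂ) : ℂ →L[ℝ] ℂ →L[ℝ] ℂ :=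
  reCLM.smulRight (reCLM.smulRight a + imCLM.smulRight b) +
    imCLM.smulRight (reCLM.smulRight c + imCLM.smulRight d)

lemma bil_apply (a b c d u v : ℂ) :
    bil a b c d u v = u.re • (v.re • a + v.im • b) + u.im • (v.re • c + v.im • d) := rfl

lemma lin_eq {E : Type} [NormedAddCommGroup E] [NormedSpace ℝ E] (L : ℂ →L[ℝ] E) (v : ℂ) :
    L v = v.re • L 1 + v.im • L I := by
  rw [← map_smul, ← map_smul, ← map_add]
  congr 1
  simp

lemma bil_eq (L : ℂ →L[ℝ] ℂ →L[ℝ] ℂ) : bil (L 1 1) (L 1 I) (L I 1) (L I I) = L := by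
  ext1 u
  ext1 v
  rw [bil_apply, ← lin_eq, ← lin_eq, lin_eq L u]
  rfl

/-- the coefficients of a quadratic map -/
noncomputable def co (L : ℂ →L[ℝ] ℂ →L[ℝ] ℂ) : Co :=
  ((L 1 1 - L I I - I * (L 1 I + L I 1)) / 4, (L 1 1 + L I I) / 2,
    (L 1 1 - L I I + I * (L 1 I + L I 1)) / 4)

lemma Gk_co (L : ℂ →L[ℝ] ℂ →L[ℝ] ℂ) (θ : ℝ) : Gk (co L) θ = L (ce θ) (ce θ) := by
  have h1 : ce (2 * θ) = ce θ * ce θ := by rw [two_mul, ce_add]
  have h2 := ce_neg_mul θ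
  rw [ce_neg] at h2
  conv_rhs => rw [← bil_eq L, bil_apply]
  simp only [Gk, co, ce_neg, h1, map_mul, real_smul, re_eq_add_conj, im_eq_sub_conj]
  have : (2 * I)⁻¹ = -I / 2 := by field_simp; simp
  simp only [div_eq_mul_inv _ (2 * I), this]
  linear_combination (-(L 1 1 + L I I) / 2) * h2 -
    (L I I * (ce θ - conj (ce θ)) ^ 2 / 4) * I_mul_I

lemma exists_inv {M : Set ℂ} (hM : IsCompact M) {D : ℂ → ℝ} (hD : ContDiff ℝ ∞ D)
    (h : ∀ x ∈ M, 0 < D x) :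
    ∃ j : ℂ → ℝ, ContDiff ℝ ∞ j ∧ HasCompactSupport j ∧ ∀ x ∈ M, j x * D x = 1 := by
  obtain ⟨c, hc, h1⟩ := hM.exists_forall_le' hD.continuous.continuousOn h
  obtain ⟨R, hR, h2⟩ := hM.isBounded.subset_closedBall_lt 0 0
  let χ : ContDiffBump (0 : ℂ) := ⟨R, R + 1, hR, by linarith⟩
  have c1 : ContDiff ℝ ∞ fun s : ℝ => Real.smoothTransition (2 * s / c - 1) / s := by
    refine contDiff_iff_contDiffAt.2 fun s => ?_
    by_cases hs : s = 0
    · refine (contDiffAt_const (c := 0)).congr_of_eventuallyEq ?_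
      filter_upwards [gt_mem_nhds (show s < c / 2 by linarith)] with t ht
      rw [Real.smoothTransition.zero_of_nonpos, zero_div]
      rw [sub_nonpos, div_le_one hc]
      linarith
    · exact (Real.smoothTransition.contDiffAt.comp s (by fun_prop)).div contDiffAt_id hs
  refine ⟨fun x => χ x * (Real.smoothTransition (2 * D x / c - 1) / D x),
    χ.contDiff.mul (c1.comp hD), χ.hasCompactSupport.mul_right, fun x hx => ?_⟩
  beta_reduce
  rw [χ.one_of_mem_closedBall (h2 hx), Real.smoothTransition.one_of_one_le, one_mul, one_div,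
    inv_mul_cancel₀ (h x hx).ne']
  rw [le_sub_iff_add_le, le_div_iff₀ hc]
  linarith [h1 x hx]

lemma exists_ext {M : Set ℂ} (hM : IsCompact M) {g : ℂ → ℂ →L[ℝ] ℂ →L[ℝ] ℝ}
    {Γ : ℂ → ℂ →L[ℝ] ℂ →L[ℝ] ℂ} (hg : ContDiff ℝ ∞ g) (hs : ∀ x u v, g x u v = g x v u)
    (hpos : ∀ x ∈ M, ∀ v ≠ 0, 0 < g x v v)
    (hΓ : ∀ x ∈ M, ∀ u v w, 2 * g x (Γ x u v) w =
      fderiv ℝ g x u v w + fderiv ℝ g x v u w - fderiv ℝ g x w u v) :
    ∃ Γ' : ℂ → ℂ →L[ℝ] ℂ →L[ℝ] ℂ, ContDiff ℝ ∞ Γ' ∧ HasCompactSupport Γ' ∧ ∀ x ∈ M, Γ' x = Γ x := by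
  have c0 : ∀ u v, ContDiff ℝ ∞ fun x => g x u v := fun u v =>
    (hg.clm_apply contDiff_const).clm_apply contDiff_const
  obtain ⟨j, j1, j2, j3⟩ := exists_inv hM (D := fun x => g x 1 1 * g x I I - g x 1 I ^ 2)
    (((c0 _ _).mul (c0 _ _)).sub ((c0 _ _).pow 2)) fun x hx => by
      have a := hpos x hx 1 one_ne_zero
      have b := hpos x hx (g x 1 1 • I - g x 1 I • 1) fun h => a.ne' (by simpa using congrArg im h)
      simp only [map_sub, map_smul, sub_apply, smul_apply,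
        smul_eq_mul, hs x I 1] at b
      exact pos_of_mul_pos_left (a := g x 1 1 * g x I I - g x 1 I ^ 2) (b := g x 1 1)
        (by linarith) a.le
  let K : ℂ → ℂ → ℂ → ℂ → ℝ := fun u v w x =>
    (fderiv ℝ g x u v w + fderiv ℝ g x v u w - fderiv ℝ g x w u v) / 2
  have c1 : ∀ u v w, ContDiff ℝ ∞ fun x => fderiv ℝ g x u v w := fun u v w =>
    (((hg.fderiv_right (m := ∞) le_rfl).clm_apply contDiff_const).clm_apply
      contDiff_const).clm_apply contDiff_const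
  have c2 : ∀ u v w, ContDiff ℝ ∞ (K u v w) := fun u v w =>
    (((c1 _ _ _).add (c1 _ _ _)).sub (c1 _ _ _)).div_const 2
  obtain ⟨c, c3, c4, c5⟩ : ∃ c : ℂ → ℂ → ℂ → ℂ, (∀ u v, ContDiff ℝ ∞ (c u v)) ∧
      (∀ u v x, j x = 0 → c u v x = 0) ∧ ∀ u v, ∀ x ∈ M, c u v x = Γ x u v := by
    refine ⟨fun u v x => (j x * (g x I I * K u v 1 x - g x 1 I * K u v I x)) • (1 : ℂ) +
      (j x * (g x 1 1 * K u v I x - g x 1 I * K u v 1 x)) • I, fun u v =>
      ((j1.mul (((c0 _ _).mul (c2 _ _ _)).sub ((c0 _ _).mul (c2 _ _ _)))).smul contDiff_const).add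
      ((j1.mul (((c0 _ _).mul (c2 _ _ _)).sub ((c0 _ _).mul (c2 _ _ _)))).smul contDiff_const),
      fun u v x h => by simp [h], fun u v x hx => ?_⟩
    have a1 := hΓ x hx u v 1
    have a2 := hΓ x hx u v I
    have a3 := j3 x hx
    rw [lin_eq (g x)] at a1 a2
    simp only [add_apply, smul_apply, smul_eq_mul, hs x I 1] at a1 a2
    simp only [K, ← a1, ← a2]
    apply Complex.ext <;> simp
    · linear_combination (Γ x u v).re * a3
    · linear_combination (Γ x u v).im * a3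
  refine ⟨fun x => bil (c 1 1 x) (c 1 I x) (c I 1 x) (c I I x), ?_,
    j2.mono fun x hx h => hx ?_, fun x hx => ?_⟩
  · refine contDiff_clm_apply_iff.2 fun u => contDiff_clm_apply_iff.2 fun v => ?_
    simp only [bil_apply]
    fun_prop
  · simp only [c4 _ _ x h]
    exact bil_eq 0
  · simpa only [c5 _ _ x hx] using bil_eq _

lemma inward (G : Glob) (x : St) {a b : ℝ} (hab : a < b) (ha : G.ρ (G.Φ (a, x)).1 = 0)
    (h : ∀ t ∈ Ioo a b, G.ρ (G.Φ (t, x)).1 < 0) :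
    fderiv ℝ G.ρ (G.Φ (a, x)).1 (ce (G.Φ (a, x)).2.1) < 0 := by
  by_contra! h0
  have d := fun t => G.flow.hasDerivAt_hess (G.cρ.of_le (by norm_cast)) x t
  have h1 : ∀ᶠ t in 𝓝[>] a, 0 < Real.exp (G.Φ (t, x)).2.2 *
      fderiv ℝ G.ρ (G.Φ (t, x)).1 (ce (G.Φ (t, x)).2.1) := by
    rcases h0.eq_or_lt with h0 | h0
    · have := eventually_nhdsWithin_sign_eq_of_deriv_pos (x₀ := a) ((d a).2.deriv ▸
        mul_pos (Real.exp_pos _) (G.bd _ _ ha h0.symm)) (by rw [← h0, mul_zero])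
      filter_upwards [nhdsWithin_le_nhds this, self_mem_nhdsWithin] with t h1 h2
      rwa [sign_pos (sub_pos.2 h2), sign_eq_one_iff] at h1
    · exact nhdsWithin_le_nhds ((d a).2.continuousAt.eventually
        (lt_mem_nhds (mul_pos (Real.exp_pos _) h0)))
  obtain ⟨c, hc, h2⟩ := mem_nhdsGT_iff_exists_Ioo_subset.1 h1
  obtain ⟨t, t1, t2⟩ := exists_between (lt_min hab hc)
  rw [lt_min_iff] at t2
  obtain ⟨s, hs, e⟩ := exists_hasDerivAt_eq_slope _ _ t1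
    (fun t _ => (d t).1.continuousAt.continuousWithinAt) fun t _ => (d t).1
  have a1 := (mul_pos_iff_of_pos_left (Real.exp_pos _)).1 (h2 ⟨hs.1, hs.2.trans t2.2⟩)
  rw [e, ha, sub_zero] at a1
  exact (div_neg_of_neg_of_pos (h t ⟨t1, t2.1⟩) (sub_pos.2 t1)).not_gt a1

end Tr

theorem exists_glob {ρ φ : ℂ → ℝ} {g : ℂ → ℂ →L[ℝ] ℂ →L[ℝ] ℝ} {Γ : ℂ → ℂ →L[ℝ] ℂ →L[ℝ] ℂ}
    (hρ : ContDiff ℝ ∞ ρ) (hM : IsCompact {x | ρ x ≤ 0}) (hd : ∀ x, ρ x = 0 → fderiv ℝ ρ x ≠ 0)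
    (hg : ContDiff ℝ ∞ g) (hs : ∀ x u v, g x u v = g x v u)
    (hpos : ∀ x, ρ x ≤ 0 → ∀ v ≠ 0, 0 < g x v v)
    (hΓ : ∀ x, ρ x ≤ 0 → ∀ u v w, 2 * g x (Γ x u v) w =
      fderiv ℝ g x u v w + fderiv ℝ g x v u w - fderiv ℝ g x w u v)
    (hb : ∀ x, ρ x = 0 → ∀ v ≠ 0, fderiv ℝ ρ x v = 0 → 0 < hess Γ ρ x v)
    (hφ : ContDiff ℝ ∞ φ) (hc : ∀ x, ρ x ≤ 0 → ∀ v ≠ 0, 0 < hess Γ φ x v) :
    ∃ G : Glob, G.ρ = ρ ∧ (∀ x, ρ x ≤ 0 → G.Γ x = Γ x) ∧ ∀ (m : ℕ) (f : ℂ → ℂ → ℝ),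
      Ten ⊤ (m + 1) f → (∀ τ > 0, ∀ γ γ' : ℝ → ℂ,
        (∀ t ∈ Icc 0 τ, HasDerivAt γ (γ' t) t ∧ HasDerivAt γ' (-Γ (γ t) (γ' t) (γ' t)) t) →
        ρ (γ 0) = 0 → g (γ 0) (γ' 0) (γ' 0) = 1 → fderiv ℝ ρ (γ 0) (γ' 0) < 0 →
        (∀ t ∈ Ioo 0 τ, ρ (γ t) < 0) → ρ (γ τ) = 0 → ∫ t in (0 : ℝ)..τ, f (γ t) (γ' t) = 0) →
      G.Van m f := by
  obtain ⟨Γ', c1, c2, c3⟩ := exists_ext hM hg hs hpos hΓ
  have c4 : ∀ u v, ContDiff ℝ ∞ fun x => Γ' x u v := fun u v =>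
    (c1.clm_apply contDiff_const).clm_apply contDiff_const
  have cκ : ContDiff ℝ ∞ fun x => co (Γ' x) := by unfold co; fun_prop
  have sκ : HasCompactSupport fun x => co (Γ' x) := c2.comp_left (g := co) (by simp [co])
  obtain ⟨Φ, hΦ⟩ := exists_flow cκ sκ
  have eh : ∀ ψ x θ, ρ x ≤ 0 → hessK (fun x => co (Γ' x)) ψ x θ = hess Γ ψ x (ce θ) :=
    fun ψ x θ hx => by rw [hessK, Gk_co, c3 x hx, hess]
  let G : Glob := ⟨ρ, φ, Γ', _, Φ, hρ, hφ, c1, sκ, hΦ, fun z θ => Gk_co _ _, hM, hd,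
    fun x θ hx h => eh ρ x θ hx.le ▸ hb x hx _ (ce_ne θ) h,
    fun x θ hx => eh φ x θ hx ▸ hc x hx _ (ce_ne θ)⟩
  refine ⟨G, rfl, c3, fun m f hf hI x a b hab ha hb' hin => ?_⟩
  have hin' := inward G x hab ha hin
  have hM' : ∀ t ∈ Icc a b, ρ (Φ (t, x)).1 ≤ 0 := fun t ht => by
    rcases ht.1.eq_or_lt with rfl | h1
    · exact ha.le
    rcases ht.2.eq_or_lt with rfl | h2
    · exact hb'.le
    · exact (hin t ⟨h1, h2⟩).le
  have g0 := hpos (Φ (a, x)).1 ha.le _ (ce_ne (Φ (a, x)).2.1)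
  obtain ⟨c, hc0, hc1⟩ : ∃ c : ℝ, 0 < c ∧ (c * Real.exp (Φ (a, x)).2.2) ^ 2 *
      g (Φ (a, x)).1 (ce (Φ (a, x)).2.1) (ce (Φ (a, x)).2.1) = 1 :=
    ⟨(Real.exp (Φ (a, x)).2.2 * √(g (Φ (a, x)).1 (ce (Φ (a, x)).2.1) (ce (Φ (a, x)).2.1)))⁻¹,
      inv_pos.2 (mul_pos (Real.exp_pos _) (Real.sqrt_pos.2 g0)), by
        have := Real.sqrt_pos.2 g0
        field_simp
        exact (Real.sq_sqrt g0.le).symm⟩
  let v : ℝ → ℝ := fun t => c * Real.exp (Φ (t, x)).2.2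
  have v0 : ∀ t, 0 < v t := fun t => mul_pos hc0 (Real.exp_pos _)
  have dv : ∀ t, HasDerivAt v (v t * (ba (co (Γ' (Φ (t, x)).1)) (Φ (t, x)).2.1).re) t := fun t =>
    ((dl hΦ x t).exp.const_mul c).congr_deriv (mul_assoc _ _ _).symm
  have cv : Continuous fun t => (v t)⁻¹ :=
    (continuous_iff_continuousAt.2 fun t => (dv t).continuousAt).inv₀ fun t => (v0 t).ne'
  let s : ℝ → ℝ := fun t => ∫ u in a..t, (v u)⁻¹
  have ds : ∀ t, HasStrictDerivAt s (v t)⁻¹ t := fun t => cv.integral_hasStrictDerivAt a t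
  have sm : StrictMono s := strictMono_of_deriv_pos fun t => by
    rw [(ds t).hasDerivAt.deriv]; exact inv_pos.2 (v0 t)
  have s0 : s a = 0 := intervalIntegral.integral_same
  have li := Function.leftInverse_invFun sm.injective
  have dσ : ∀ t, HasDerivAt (Function.invFun s) (v t) (s t) := fun t => by
    simpa using ((ds t).to_local_left_inverse (inv_pos.2 (v0 t)).ne' (.of_forall li)).hasDerivAt
  have su : ∀ y ∈ Icc 0 (s b), ∃ t ∈ Icc a b, s t = y := fun y hy =>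
    intermediate_value_Icc hab.le (fun t _ => (ds t).hasDerivAt.continuousAt.continuousWithinAt)
      (s0 ▸ hy)
  have D : ∀ y ∈ Icc 0 (s b), HasDerivAt (fun y => (Φ (Function.invFun s y, x)).1)
      (v (Function.invFun s y) • ce (Φ (Function.invFun s y, x)).2.1) y ∧
      HasDerivAt (fun y => v (Function.invFun s y) • ce (Φ (Function.invFun s y, x)).2.1)
        (-Γ (Φ (Function.invFun s y, x)).1
          (v (Function.invFun s y) • ce (Φ (Function.invFun s y, x)).2.1)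
          (v (Function.invFun s y) • ce (Φ (Function.invFun s y, x)).2.1)) y := by
    intro y hy
    obtain ⟨t, ht, rfl⟩ := su y hy
    rw [li t]
    refine ⟨(dz hΦ x t).scomp_of_eq _ (dσ t) (li t).symm, ?_⟩
    refine (((dv t).smul ((hasDerivAt_ce _).scomp t (dth hΦ x t))).scomp_of_eq _ (dσ t)
      (li t).symm).congr_deriv ?_
    rw [← c3 _ (hM' t ht), map_smul, map_smul, smul_apply, ← Gk_co]
    have e1 := re_add_im (ba (co (Γ' (Φ (t, x)).1)) (Φ (t, x)).2.1)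
    have e2 : ba (co (Γ' (Φ (t, x)).1)) (Φ (t, x)).2.1 * ce (Φ (t, x)).2.1 =
        -Gk (co (Γ' (Φ (t, x)).1)) (Φ (t, x)).2.1 := by
      rw [ba]; linear_combination (-Gk (co (Γ' (Φ (t, x)).1)) (Φ (t, x)).2.1) * ce_neg_mul _
    simp only [Function.comp, real_smul, ofReal_mul]
    linear_combination (v t : ℂ) ^ 2 * e2 + (v t : ℂ) ^ 2 * ce (Φ (t, x)).2.1 * e1
  have σ0 : Function.invFun s 0 = a := s0 ▸ li a
  have key := hI (s b) (s0 ▸ sm hab) _ _ D (by rw [σ0]; exact ha)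
    (by rw [σ0]; simp only [map_smul, smul_apply, smul_eq_mul]
        linear_combination hc1)
    (by rw [σ0, map_smul]; exact mul_neg_of_pos_of_neg (v0 a) hin')
    (fun y hy => by
      obtain ⟨t, -, rfl⟩ := su y (Ioo_subset_Icc_self hy)
      rw [li t]
      exact hin t ⟨sm.lt_iff_lt.1 (s0 ▸ hy.1), sm.lt_iff_lt.1 hy.2⟩)
    (by rw [li b]; exact hb')
  rw [← s0, ← intervalIntegral.integral_comp_mul_deriv' (fun t _ => (ds t).hasDerivAt)
    cv.continuousOn, s0] at key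
  · have e : ∀ t, G.w m f x t = c / c ^ m * (f (Φ (t, x)).1 (v t • ce (Φ (t, x)).2.1) * (v t)⁻¹) :=
      fun t => by
      have := Real.exp_pos (Φ (t, x)).2.2
      simp only [Glob.w, G, hf.homog, v, Nat.add_sub_cancel, sub_mul, one_mul, Real.exp_sub,
        Real.exp_nat_mul, mul_pow]
      field_simp
    simp only [Function.comp, li _] at key
    simp only [e, intervalIntegral.integral_const_mul, key, mul_zero]
  · rintro _ ⟨t, ht, rfl⟩
    rw [uIcc_of_le hab.le] at ht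
    have := D (s t) ⟨s0 ▸ sm.monotone ht.1, sm.monotone ht.2⟩
    exact (hf.contDiff.continuous.continuousAt.comp
      (this.1.continuousAt.prodMk this.2.continuousAt)).continuousWithinAt

end Pool.Agent.Lib.MP_0cc5e8_gt
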