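import Pool.Agent.Lib.MP_0cc5e8_gt.Local
import Pool.Agent.Lib.MP_0cc5e8_gt.Trans

/-! Layer stripping. -/

namespace Pool.Agent.Lib.MP_0cc5e8_gt

open Complex Set Filter Topology Metric
open scoped ComplexConjugate ContDiff Real

namespace Mn

open Tr

lemma d_min (n : ℕ) (t : ℝ) :
    HasDerivAt (fun t : ℝ => min t 0 ^ (n + 2)) ((n + 2) * min t 0 ^ (n + 1)) t := by
  rcases lt_trichotomy t 0 with h | rfl | h
  · refine ((hasDerivAt_pow (n + 2) t).congr_of_eventuallyEq ?_).congr_deriv (by simp [h.le])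
    filter_upwards [gt_mem_nhds h] with s hs
    rw [min_eq_left hs.le]
  · have a1 : HasDerivWithinAt (fun t : ℝ => min t 0 ^ (n + 2)) 0 (Iic 0) 0 :=
      ((hasDerivAt_pow (n + 2) (0 : ℝ)).hasDerivWithinAt.congr
        (fun s hs => by rw [min_eq_left hs]) (by simp)).congr_deriv (by simp)
    have a2 : HasDerivWithinAt (fun t : ℝ => min t 0 ^ (n + 2)) 0 (Ici 0) 0 :=
      (hasDerivWithinAt_const (0 : ℝ) _ (0 : ℝ)).congr
        (fun s hs => by simp [min_eq_right (mem_Ici.1 hs)]) (by simp)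
    simpa using a1.union a2
  · refine ((hasDerivAt_const t (0 : ℝ)).congr_of_eventuallyEq ?_).congr_deriv (by simp [h.le])
    filter_upwards [lt_mem_nhds h] with s hs
    simp [min_eq_right hs.le]

lemma contDiff_min (n : ℕ) : ContDiff ℝ n fun t : ℝ => min t 0 ^ (n + 1) := by
  induction n with
  | zero => exact contDiff_zero.2 (by fun_prop)
  | succ n ih =>
    rw [Nat.cast_succ, contDiff_succ_iff_deriv]
    refine ⟨fun t => (d_min n t).differentiableAt, by simp, ?_⟩
    rw [funext fun t => (d_min n t).deriv]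
    exact contDiff_const.mul ih

lemma strict_min {φ : ℂ → ℝ} (hφ : ContDiff ℝ ∞ φ) {p : ℂ} (h0 : fderiv ℝ φ p = 0)
    (h : ∀ θ, 0 < fderiv ℝ (fderiv ℝ φ) p (ce θ) (ce θ)) : ∀ᶠ z in 𝓝[≠] p, φ p < φ z := by
  have c1 : ContDiff ℝ 1 (fderiv ℝ φ) := hφ.fderiv_right (by norm_cast)
  have c2 := c1.continuous_fderiv one_ne_zero
  have h1 : ∀ᶠ z in 𝓝 p, ∀ v ∈ sphere (0 : ℂ) 1, 0 < fderiv ℝ (fderiv ℝ φ) z v v := by
    refine (isCompact_sphere _ _).eventually_forall_of_forall_eventually fun v hv => ?_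
    have e := polar v
    rw [mem_sphere_zero_iff_norm.1 hv, one_smul] at e
    exact (by fun_prop : Continuous fun q : ℂ × ℂ =>
      fderiv ℝ (fderiv ℝ φ) q.1 q.2 q.2).continuousAt.eventually (lt_mem_nhds (e ▸ h (arg v)))
  obtain ⟨δ, hδ, h2⟩ := Metric.eventually_nhds_iff.1 h1
  filter_upwards [nhdsWithin_le_nhds (ball_mem_nhds p hδ), self_mem_nhdsWithin] with z hz hp
  obtain ⟨e, he, r, hr, rfl⟩ : ∃ e : ℂ, ‖e‖ = 1 ∧ ∃ r : ℝ, 0 < r ∧ z = p + r • e :=
    ⟨_, norm_ce _, _, norm_pos_iff.2 (sub_ne_zero.2 hp), by rw [← polar, add_sub_cancel]⟩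
  have hr' : r < δ := by simpa [he, abs_of_pos hr] using hz
  have l : ∀ t : ℝ, HasDerivAt (fun t : ℝ => p + t • e) e t := fun t => by
    simpa using ((hasDerivAt_id t).smul_const e).const_add p
  have d1 : ∀ t : ℝ, HasDerivAt (fun t : ℝ => φ (p + t • e)) (fderiv ℝ φ (p + t • e) e) t := fun t =>
    (hφ.differentiable (by simp) _).hasFDerivAt.comp_hasDerivAt t (l t)
  have d2 : ∀ t : ℝ, HasDerivAt (fun t : ℝ => fderiv ℝ φ (p + t • e) e)
      (fderiv ℝ (fderiv ℝ φ) (p + t • e) e e) t := fun t => by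
    simpa using ((c1.differentiable one_ne_zero _).hasFDerivAt.comp_hasDerivAt t (l t)).clm_apply
      (hasDerivAt_const t e)
  obtain ⟨s, hs, e1⟩ := exists_hasDerivAt_eq_slope _ _ hr
    (fun t _ => (d1 t).continuousAt.continuousWithinAt) fun t _ => d1 t
  obtain ⟨u, hu, e2⟩ := exists_hasDerivAt_eq_slope _ _ hs.1
    (fun t _ => (d2 t).continuousAt.continuousWithinAt) fun t _ => d2 t
  have a1 := h2 (y := p + u • e) (by
    simpa [he, abs_of_pos hu.1] using hu.2.trans (hs.2.trans hr')) e (by simp [he])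
  rw [e2, e1] at a1
  simp only [zero_smul, add_zero, h0, sub_zero, zero_apply] at a1
  exact sub_pos.1 ((div_pos_iff_of_pos_right hr).1 ((div_pos_iff_of_pos_right hs.1).1 a1))

lemma dsym_add_mul {n : ℕ} {P Q : ℂ → ℂ → ℝ} (hP : Ten 1 n P) (hQ : Ten 1 n Q) (c : ℝ)
    (Γ : ℂ → ℂ →L[ℝ] ℂ →L[ℝ] ℂ) (x v : ℂ) :
    dsym Γ (fun x v => P x v + c * Q x v) x v = dsym Γ P x v + c * dsym Γ Q x v := by
  have a : ∀ {P : ℂ → ℂ → ℝ}, Ten 1 n P → DifferentiableAt ℝ (fun y => P y v) x ∧
      DifferentiableAt ℝ (P x) v := fun h =>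
    ⟨(h.contDiff.differentiable one_ne_zero _).comp (f := fun y => (y, v)) x (by fun_prop),
      (h.contDiff.differentiable one_ne_zero _).comp (f := fun y => (x, y)) v (by fun_prop)⟩
  have b1 := ((a hP).1.hasFDerivAt.add ((a hQ).1.hasFDerivAt.const_mul c)).fderiv
  have b2 := ((a hP).2.hasFDerivAt.add ((a hQ).2.hasFDerivAt.const_mul c)).fderiv
  simp only [dsym]
  erw [b1, b2]
  simp
  ring

lemma ten_comb {r : ℕ∞} {n : ℕ} {P Q : ℂ → ℂ → ℝ} (hP : Ten r n P) (hQ : Ten r n Q) (c : ℝ) :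
    Ten r n fun x v => P x v + c * Q x v := hP.add (hQ.smul (c := fun _ => c) contDiff_const)

lemma solve (G : Glob) {m r : ℕ} (hr : 6 ≤ r) {f : ℂ → ℂ → ℝ} (hf : Ten r (m + 1) f)
    (hv : G.Van m f) (h0 : ∀ x v, 0 ≤ G.ρ x → f x v = 0) :
    ∃ P, Ten r m P ∧ (∀ x v, 0 ≤ G.ρ x → P x v = 0) ∧ ∀ x v, dsym G.Γ P x v = f x v := by
  obtain ⟨u, cu, per, u0, pde⟩ := G.transport (by omega) hf hv h0
  obtain ⟨P, hP, pr⟩ := exists_proj m cu per
  have P1 : Ten 1 m P := hP.mono (by exact_mod_cast (by omega : 1 ≤ r))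
  have P5 : Ten 5 (m + 1) (dsym G.Γ P) :=
    Ten.dsym' (hP.mono (by exact_mod_cast hr)) G.cΓ
  have out : ∀ z, 0 ≤ G.ρ z → ∀ θ, u (z, θ) = P z (ce θ) := fun z hz =>
    pr z fun k => by simp [u0 _ _ hz]
  have cu' : ContDiff ℝ 1 fun p => (u p : ℂ) :=
    ofRealCLM.contDiff.comp (cu.of_le (by exact_mod_cast (by omega : 1 ≤ r)))
  have cP : ContDiff ℝ 1 fun p : ℂ × ℝ => (P p.1 (ce p.2) : ℂ) := ofRealCLM.contDiff.comp
    (P1.contDiff.comp (contDiff_fst.prodMk (contDiff_ce.comp contDiff_snd)))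
  have all : ∀ z θ, u (z, θ) = P z (ce θ) := by
    by_contra hne
    set S := {z | ¬ ∀ θ, u (z, θ) = P z (ce θ)} with hS
    have s1 : closure S ⊆ {x | G.ρ x ≤ 0} :=
      closure_minimal (fun z hz => le_of_not_ge fun h => hz (out z h)) G.cpt.isClosed
    obtain ⟨p, hp, hmax⟩ := (G.cpt.of_isClosed_subset isClosed_closure s1).exists_isMaxOn
      (Set.Nonempty.closure (not_forall.1 hne)) G.cφ.continuous.continuousOn
    have up : ∀ z, G.φ p < G.φ z → ∀ θ, u (z, θ) = P z (ce θ) := fun z hz => by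
      by_contra h
      exact hz.not_ge (hmax (subset_closure h))
    refine mem_closure_iff_frequently.1 hp ?_
    simp only [hS, mem_ofPred_eq, not_not]
    by_cases hd : fderiv ℝ G.φ p = 0
    · have h1 := (strict_min G.cφ hd fun θ => by
        simpa [hessK, hd] using G.conv p θ (s1 hp)).mono up
      rw [← nhdsNE_sup_pure, eventually_sup, eventually_pure]
      refine ⟨h1, fun θ => ofReal_injective (tendsto_nhds_unique_of_eventuallyEq (l := 𝓝[≠] p)
        ((cu'.continuous.comp (Continuous.prodMk_left θ)).continuousWithinAt.tendsto)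
        ((cP.continuous.comp (Continuous.prodMk_left θ)).continuousWithinAt.tendsto)
        (h1.mono fun z hz => congrArg _ (hz θ)))⟩
    · have h1 := local_thm G.flow.sk G.supp G.cφ hd (fun θ => G.conv p θ (s1 hp)) m (cu'.sub cP)
        (fun z θ => by
          have : P z (ce (θ + π)) = (-1) ^ (m + 1) * P z (ce θ) := by
            rcases m with _ | m
            · obtain ⟨c, -, rfl⟩ := ten_iff.1 hP
              simp [sym]
            · rw [ce_pi, ← neg_one_smul ℝ, hP.homog]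
              simp [pow_succ]
          simp only [per, this]
          push_cast
          ring)
        (ten_comb (hf.mono (by exact_mod_cast (by omega : 5 ≤ r))) P5 (-1))
        (.of_forall fun z θ => by
          have a1 := pde z θ
          have a2 := G.Xd_ten P1 z θ
          simp only [Xd] at a1 a2 ⊢
          rw [fderiv_fun_sub (cu'.differentiable one_ne_zero _) (cP.differentiable one_ne_zero _),
            sub_apply]
          push_cast at a1 a2 ⊢
          linear_combination a1 - a2)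
        (.of_forall fun z hz θ => by simp [up z hz])
      refine h1.mono fun z hz => pr z fun k => ?_
      have c : Continuous fun θ : ℝ => ce ((m + 1 + 2 * k) * θ) :=
        (contDiff_ce (n := 0)).continuous.comp (by fun_prop)
      have := hz k
      simp only [sub_mul] at this
      have c1 : Continuous fun θ : ℝ => (u (z, θ) : ℂ) * ce ((m + 1 + 2 * k) * θ) :=
        (cu'.continuous.comp (Continuous.prodMk_right z)).mul c
      have c2 : Continuous fun θ : ℝ => (P z (ce θ) : ℂ) * ce ((m + 1 + 2 * k) * θ) :=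
        (cP.continuous.comp (Continuous.prodMk_right z)).mul c
      rwa [intervalIntegral.integral_sub (c1.intervalIntegrable _ _) (c2.intervalIntegrable _ _),
        hP.modes, sub_zero] at this
  refine ⟨P, hP, fun x v hx => ten_ext hP (Ten.zero (r := 1) m) (fun θ => ?_) v,
    fun x => ten_ext P5 hf fun θ => ofReal_injective ?_⟩
  · rw [← all, u0 _ _ hx]
  · rw [← G.Xd_ten P1, ← pde]
    simp only [← all]

lemma level (G : Glob) {m : ℕ} {f : ℂ → ℂ → ℝ} (hf : Ten ⊤ (m + 1) f) (hv : G.Van m f) (n : ℕ) :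
    ∃ H, Ten (n + 6 : ℕ) m H ∧ (∀ x v, G.ρ x = 0 → H x v = 0) ∧
      ∀ x v, G.ρ x ≤ 0 → f x v = dsym G.Γ H x v := by
  obtain ⟨h, R, hh, hR, h0, hV, e⟩ := G.gauge hf hv (n + 6 + 1)
  obtain ⟨P, hP, P0, eP⟩ := solve G (r := n + 6) (by omega)
    (f := fun x v => min (G.ρ x) 0 ^ (n + 6 + 1) * R x v)
    ((hR.mono le_top).smul ((contDiff_min (n + 6)).comp
      (contDiff_infty.1 G.cρ _)))
    (fun x a b hab ha hb hin => by
      refine (intervalIntegral.integral_congr fun t ht => ?_).trans (hV x a b hab ha hb hin)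
      rw [uIcc_of_le hab.le] at ht
      have : G.ρ (G.Φ (t, x)).1 ≤ 0 := by
        rcases ht.1.eq_or_lt with rfl | h1
        · exact ha.le
        rcases ht.2.eq_or_lt with rfl | h2
        · exact hb.le
        · exact (hin t ⟨h1, h2⟩).le
      simp only [Glob.w, min_eq_left this])
    fun x v hx => by simp [min_eq_right hx]
  refine ⟨_, ten_comb (hh.mono le_top) hP 1, fun x v hx => by simp [h0 x v hx, P0 x v hx.ge],
    fun x v hx => ?_⟩
  rw [dsym_add_mul (hh.mono le_top) (hP.mono (by exact_mod_cast (by omega : 1 ≤ n + 6))), eP, e,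
    min_eq_left hx, one_mul]

end Mn

open Mn in
theorem Glob.main (G : Glob) {m : ℕ} {f : ℂ → ℂ → ℝ} (hf : Ten ⊤ (m + 1) f) (hv : G.Van m f) :
    ∃ h : Fin m → ℂ → ℝ, (∀ j, ContDiffOn ℝ ∞ (h j) {x | G.ρ x ≤ 0}) ∧
      (∀ j x, G.ρ x = 0 → h j x = 0) ∧
      ∀ x, G.ρ x < 0 → ∀ v, f x v = dsym G.Γ (sym m h) x v := by
  choose H h1 h2 h3 using level G hf hv
  choose c c1 c2 using fun n => ten_iff.1 (h1 n)
  have h4 : ∀ n, Ten 1 m (H n) := fun n => (h1 n).mono (by exact_mod_cast (by omega : 1 ≤ n + 6))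
  refine ⟨c 0, fun j => contDiffOn_infty.2 fun n => ((c1 n j).of_le
    (by exact_mod_cast (by omega : n ≤ n + 6))).contDiffOn.congr fun x hx =>
    sym_inj (fun θ => ?_) j, fun j x hx => sym_inj (c' := fun _ _ => 0) (fun θ => ?_) j,
    fun x hx v => c2 0 ▸ h3 0 x v hx.le⟩
  · have := G.uniq (ten_comb (h4 0) (h4 n) (-1)) (fun x v hx => by simp [h2 _ x v hx])
      (fun x v hx => by rw [dsym_add_mul (h4 0) (h4 n), ← h3 _ _ _ hx.le, ← h3 _ _ _ hx.le]; ring)
      x (ce θ) hx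
    rw [← c2, ← c2]
    linarith
  · rw [← c2, h2 _ _ _ hx]
    simp [sym]

end Pool.Agent.Lib.MP_0cc5e8_gt
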