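import Pool.Agent.Lib.MP_0cc5e8_gt.MidC
import Pool.Agent.Lib.MP_0cc5e8_gt.Hull

/-! Edge of the wedge: holomorphic extension to the middle cone. -/

namespace Pool.Agent.Lib.MP_0cc5e8_gt

open Complex Set Filter Topology Metric
open scoped ComplexConjugate ContDiff Real

lemma mid_pi_cont : Continuous pi0 := by unfold pi0; fun_prop

theorem exists_mid {κ : ℂ → Co} {δ : ℝ} {P : Pkg κ δ} (L : Loc P) (hδ : δ ≤ 1 / 10 ^ 6) :
    ∃ μ > 0, ∃ H : ℂ × ℂ → ℂ,
      ContinuousOn H {q | q ∈ closedBall (P.β (0, 1)) μ ∧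
        |(pi0 (P.Ψ q)).2| ≤ 3 / 2 * (pi0 (P.Ψ q)).1} ∧
      DifferentiableOn ℂ H {q | q ∈ ball (P.β (0, 1)) μ ∧
        |(pi0 (P.Ψ q)).2| < 3 / 2 * (pi0 (P.Ψ q)).1} ∧
      ∀ z θ, ‖z‖ ≤ 2 → P.β (z, ce (2 * θ)) ∈ closedBall (P.β (0, 1)) μ →
        H (P.β (z, ce (2 * θ))) = L.B (z, θ) := by
  obtain ⟨μ, μ0, μ1, H, hH, f, ap, ed⟩ := L.approx hδ
  set c := P.β (0, 1) with hc
  let ki : ℂ × ℂ → ℂ × ℂ := fun q => (2 * I * q.1, -2 * I * q.2)
  have k1 : ∀ q, ki (kh q) = q := fun q => Prod.ext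
    (by simp only [ki, kh_apply]; linear_combination (-q.1) * I_mul_I)
    (by simp only [ki, kh_apply]; linear_combination (-q.2) * I_mul_I)
  have k2 : ∀ q, kh (ki q) = q := fun q => Prod.ext
    (by simp only [ki, kh_apply]; linear_combination (-q.1) * I_mul_I)
    (by simp only [ki, kh_apply]; linear_combination (-q.2) * I_mul_I)
  have k3 : ∀ q q', ‖ki q - ki q'‖ = 2 * ‖q - q'‖ := fun q q' => by
    have := kh_norm (ki q - ki q')
    rw [map_sub, k2, k2] at this; linarith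
  have k4 : ∀ q ∈ closedBall (kh c) (μ / 2), ‖ki q - c‖ ≤ μ := fun q hq => by
    rw [← k1 c, k3]; linarith [mem_closedBall_iff_norm.1 hq]
  have m40 : ∀ {q}, ‖q - c‖ ≤ μ → q ∈ closedBall (0 : ℂ × ℂ) 40 := fun h =>
    closedBall_subset_closedBall (by norm_num) (P.near_mem hδ (h.trans (by linarith)))
  have nr : ∀ {q}, ‖q - c‖ ≤ μ → ‖P.Ψ q - (1, 0)‖ ≤ 3 / 10 ^ 6 := fun {q} h => by
    have h1 : ‖P.Ψ q - q‖ ≤ δ := (P.nΨ q (m40 h)).2.1
    linarith [norm_sub_le_norm_sub_add_norm_sub (P.Ψ q) q (1, 0),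
      norm_sub_le_norm_sub_add_norm_sub q c (1, 0), P.c_near]
  have m0 : ((0, 1) : ℂ × ℂ) ∈ closedBall (0 : ℂ × ℂ) 5 := by simp
  have hu : ∀ {F : ℂ × ℂ → ℂ}, Differentiable ℂ F → ∀ {M : ℝ}, (∀ q, ‖q - c‖ ≤ μ →
      LR (pi0 (P.Ψ q)) → ‖F (kh q)‖ ≤ M) → ∀ q ∈ closedBall c (μ / 100),
      |(pi0 (P.Ψ q)).2| ≤ 3 / 2 * (pi0 (P.Ψ q)).1 → ‖F (kh q)‖ ≤ M := by
    intro F hF M hM q hq h
    refine hull (Pi := fun q => pi0 (P.Ψ (ki q))) (c := kh c) (half_pos μ0) ?_ ?_ hF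
      (fun q hq h => by simpa only [k2] using hM _ (k4 q hq) h) _ ?_ (by simpa only [k1] using h)
    · simp [k1, hc, P.key _ m0, mid_pi0, (P.sgn _ m0).2.2 norm_one, Prod.ext_iff]
    · intro q hq q' hq'
      have h1 := mid_pi_lip (nr (k4 q hq)) (nr (k4 q' hq'))
      have h2 := P.nΨ.lip le_rfl (m40 (k4 q hq)) (m40 (k4 q' hq'))
      have h3 := P.nΨ.lip' le_rfl (by linarith) (m40 (k4 q hq)) (m40 (k4 q' hq'))
      rw [k3] at h2 h3
      set D := P.Ψ (ki q) - P.Ψ (ki q') - (ki q - ki q') with hD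
      have h4 : ‖((-D.1.re / 2, D.2.re / 2) : ℝ × ℝ)‖ ≤ ‖D‖ / 2 := by
        refine max_le ?_ ?_ <;> simp only [Real.norm_eq_abs, abs_div, abs_neg, Nat.abs_ofNat]
        · linarith [abs_re_le_norm D.1, norm_fst_le D]
        · linarith [abs_re_le_norm D.2, norm_snd_le D]
      refine le_trans (le_of_eq (congrArg norm ?_)) ((norm_add_le _ _).trans
        ((add_le_add h1 h4).trans (by nlinarith [norm_nonneg (q - q')])))
      refine Prod.ext ?_ ?_ <;> simp [hD, ki] <;> ring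
    · rw [mem_closedBall_iff_norm] at hq ⊢
      rw [← map_sub, kh_norm]; linarith
  have hC : UniformCauchySeqOn (fun n q => H n (kh q)) atTop {q | q ∈ closedBall c (μ / 100) ∧
      |(pi0 (P.Ψ q)).2| ≤ 3 / 2 * (pi0 (P.Ψ q)).1} := by
    rw [Metric.uniformCauchySeqOn_iff]
    intro ε hε
    obtain ⟨N, hN⟩ := eventually_atTop.1 (ap (ε / 3) (by positivity))
    refine ⟨N, fun m hm n hn q hq => ?_⟩
    rw [dist_eq_norm]
    refine (hu ((hH m).sub (hH n)) (M := ε / 3 + ε / 3) (fun q h1 h2 => ?_) q hq.1 hq.2).trans_lt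
      (by linarith)
    have := norm_sub_le_norm_sub_add_norm_sub (H m (kh q)) (f q) (H n (kh q))
    rw [norm_sub_rev (f q)] at this
    exact this.trans (add_le_add (hN m hm q h1 h2) (hN n hn q h1 h2))
  have hT := hC.tendstoUniformlyOn_of_tendsto (f := fun q => limUnder atTop fun n => H n (kh q))
    fun q hq => (hC.cauchySeq hq).tendsto_limUnder
  have dH : ∀ n, Differentiable ℂ fun q => H n (kh q) := fun n =>
    (hH n).comp (by simp only [funext kh_apply]; fun_prop)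
  refine ⟨μ / 100, by positivity, _, hT.continuousOn (Frequently.of_forall fun n =>
    (dH n).continuous.continuousOn), fun q hq => (mid_diff_lim dH hT ?_).differentiableWithinAt,
    fun z θ hz h => ?_⟩
  · have h1 : ContinuousAt (fun q => pi0 (P.Ψ q)) q := mid_pi_cont.continuousAt.comp
      (P.nΨ q (m40 ((mem_ball_iff_norm.1 hq.1).le.trans (by linarith)))).1.continuousAt
    filter_upwards [isOpen_ball.mem_nhds hq.1,
      h1.snd.abs.eventually_lt (h1.fst.const_mul (3 / 2)) hq.2] with x a b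
    exact ⟨ball_subset_closedBall a, b.le⟩
  · have mz : (z, ce (2 * θ)) ∈ closedBall (0 : ℂ × ℂ) 5 :=
      mid_ball.2 ⟨by linarith, by simp [mid_norm_ce]⟩
    have h0 : pi0 (P.Ψ (P.β (z, ce (2 * θ)))) = 0 := by
      simp [P.key _ mz, mid_pi0, (P.sgn _ mz).2.2 (mid_norm_ce _), Prod.ext_iff]
    have h1 := (mem_closedBall_iff_norm.1 h).trans (show μ / 100 ≤ μ by linarith)
    rw [← ed z θ hz h1]
    refine tendsto_nhds_unique (hT.tendsto_at ⟨h, by simp [h0]⟩) (Metric.tendsto_nhds.2 fun ε hε =>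
      (ap (ε / 2) (half_pos hε)).mono fun n hn => ?_)
    rw [dist_eq_norm]
    exact (hn _ h1 (by simp [h0, LR])).trans_lt (half_lt_self hε)

end Pool.Agent.Lib.MP_0cc5e8_gt
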