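import Pool.Agent.Lib.MP_0cc5e8_gt.Flow

/-! Elementary geometry of the twistor package. -/

namespace Pool.Agent.Lib.MP_0cc5e8_gt

open Complex Set Filter Topology Metric
open scoped ComplexConjugate ContDiff Real

lemma mid_norm_ce (θ : ℝ) : ‖ce θ‖ = 1 := norm_exp_ofReal_mul_I θ
lemma mid_ce_add (a b : ℝ) : ce (a + b) = ce a * ce b := by
  simp only [ce, ← Complex.exp_add]; congr 1; push_cast; ring
lemma mid_ce_zero : ce 0 = 1 := by simp [ce]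
lemma mid_ce_neg (θ : ℝ) : ce θ * ce (-θ) = 1 := by rw [← mid_ce_add, add_neg_cancel, mid_ce_zero]
lemma mid_conj_ce (θ : ℝ) : conj (ce θ) = ce (-θ) := by
  simp only [ce, ← Complex.exp_conj, map_mul, conj_ofReal, conj_I]; congr 1; push_cast; ring
lemma mid_ce_two (θ : ℝ) : ce (2 * θ) = ce θ * ce θ := by rw [two_mul, mid_ce_add]
lemma mid_ce_cd {n : WithTop ℕ∞} : ContDiff ℝ n ce :=
  (ofRealCLM.contDiff.mul contDiff_const).cexp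
lemma mid_ce_cont : Continuous ce := (mid_ce_cd (n := 0)).continuous
lemma mid_ce_sub (a b : ℝ) : ‖ce a - ce b‖ ≤ |a - b| := by
  have : ce a - ce b = ce b * (ce (a - b) - 1) := by rw [mul_sub, ← mid_ce_add]; simp
  rw [this, norm_mul, mid_norm_ce, one_mul, ce, mul_comm]
  exact Real.norm_exp_I_mul_ofReal_sub_one_le
lemma mid_ce_surj {w : ℂ} (h : ‖w‖ = 1) : ∃ θ, ce (2 * θ) = w :=
  ⟨arg w / 2, by
    have := norm_mul_exp_arg_mul_I w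
    rw [h] at this
    simpa [ce, mul_div_cancel₀] using this⟩

lemma mid_ball {y : ℂ × ℂ} {R : ℝ} : y ∈ closedBall (0 : ℂ × ℂ) R ↔ ‖y.1‖ ≤ R ∧ ‖y.2‖ ≤ R := by
  rw [mem_closedBall_zero_iff, Prod.norm_def, max_le_iff]

lemma Near.lip {n : ℕ} (hn : 1 ≤ n) {δ R : ℝ} {F : ℂ × ℂ → ℂ × ℂ} (h : Near n δ R F id)
    {y y' : ℂ × ℂ} (hy : y ∈ closedBall (0 : ℂ × ℂ) R) (hy' : y' ∈ closedBall (0 : ℂ × ℂ) R) :
    ‖F y - F y' - (y - y')‖ ≤ δ * ‖y - y'‖ := by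
  have := (convex_closedBall (0 : ℂ × ℂ) R).norm_image_sub_le_of_norm_fderiv_le' (𝕜 := ℝ)
    (f := F) (φ := ContinuousLinearMap.id ℝ _) (C := δ)
    (fun x hx => (h x hx).1.differentiableAt (by exact_mod_cast Nat.one_le_iff_ne_zero.1 hn))
    (fun x hx => by simpa using (h x hx).2.2) hy' hy
  simpa using this

lemma Near.lip' {n : ℕ} (hn : 1 ≤ n) {δ R : ℝ} {F : ℂ × ℂ → ℂ × ℂ} (h : Near n δ R F id)
    (hδ : δ ≤ 1) {y y' : ℂ × ℂ} (hy : y ∈ closedBall (0 : ℂ × ℂ) R)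
    (hy' : y' ∈ closedBall (0 : ℂ × ℂ) R) : ‖F y - F y'‖ ≤ 2 * ‖y - y'‖ := by
  have h1 := h.lip hn hy hy'
  have h2 := norm_le_norm_sub_add (F y - F y') (y - y')
  nlinarith [norm_nonneg (y - y')]

lemma Near.fst {n : ℕ} {δ R : ℝ} {F : ℂ × ℂ → ℂ × ℂ} (h : Near n δ R F id) {y : ℂ × ℂ}
    (hy : y ∈ closedBall (0 : ℂ × ℂ) R) : ‖(F y).1 - y.1‖ ≤ δ :=
  (norm_fst_le (F y - y)).trans (h y hy).2.1

lemma Near.snd {n : ℕ} {δ R : ℝ} {F : ℂ × ℂ → ℂ × ℂ} (h : Near n δ R F id) {y : ℂ × ℂ}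
    (hy : y ∈ closedBall (0 : ℂ × ℂ) R) : ‖(F y).2 - y.2‖ ≤ δ :=
  (norm_snd_le (F y - y)).trans (h y hy).2.1

lemma mid_b0_norm {y : ℂ × ℂ} (hy : y ∈ closedBall (0 : ℂ × ℂ) 5) : ‖b0 y‖ ≤ 30 := by
  obtain ⟨h1, h2⟩ := mid_ball.1 hy
  rw [Prod.norm_def, max_le_iff]
  refine ⟨by simp only [b0]; linarith, (norm_sub_le _ _).trans ?_⟩
  rw [norm_mul, norm_conj]
  nlinarith [norm_nonneg y.1, norm_nonneg y.2]

lemma mid_b0_b0i {q : ℂ × ℂ} (h : ‖q.1‖ < 1) : b0 (b0i q) = q := by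
  have h1 : (1 - (‖q.1‖ : ℂ) ^ 2) ≠ 0 := by
    have : (1 - ‖q.1‖ ^ 2 : ℝ) ≠ 0 := by nlinarith [norm_nonneg q.1]
    exact_mod_cast this
  have h2 : q.1 * conj q.1 = (‖q.1‖ : ℂ) ^ 2 := Complex.mul_conj' q.1
  refine Prod.ext rfl ?_
  simp only [b0, b0i, map_div₀, map_neg, map_add, map_mul, conj_conj, map_sub, map_one, map_pow,
    conj_ofReal]
  field_simp
  linear_combination (-q.2) * h2

lemma mid_num (y : ℂ × ℂ) :
    (b0 y).2 + (b0 y).1 * conj (b0 y).2 = -y.1 * (1 - (‖y.2‖ : ℂ) ^ 2) := by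
  simp only [b0, map_sub, map_mul, conj_conj]
  linear_combination y.1 * Complex.mul_conj' y.2

lemma mid_b0i_b0 {y : ℂ × ℂ} (h : ‖y.2‖ < 1) : b0i (b0 y) = y := by
  have h1 : (1 - (‖y.2‖ : ℂ) ^ 2) ≠ 0 := by
    have : (1 - ‖y.2‖ ^ 2 : ℝ) ≠ 0 := by nlinarith [norm_nonneg y.2]
    exact_mod_cast this
  refine Prod.ext ?_ rfl
  change -((b0 y).2 + (b0 y).1 * conj (b0 y).2) / (1 - (‖y.2‖ : ℂ) ^ 2) = y.1
  rw [mid_num]; field_simp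

lemma mid_pi0 (y : ℂ × ℂ) : pi0 (b0 y) = ((1 - ‖y.2‖ ^ 2) / 4, -y.1.re * ((1 - ‖y.2‖ ^ 2) / 4)) := by
  refine Prod.ext rfl ?_
  simp only [pi0, mid_num]
  rw [show (1 - (‖y.2‖ : ℂ) ^ 2) = ((1 - ‖y.2‖ ^ 2 : ℝ) : ℂ) by push_cast; rfl, re_mul_ofReal]
  simp; ring

variable {κ : ℂ → Co} {δ : ℝ}

/-- the lifted flow line -/
noncomputable def Pkg.y (P : Pkg κ δ) (z : ℂ) (θ t : ℝ) : ℂ × ℂ :=
  ((P.Φ (t, z, θ, 0)).1, ce (2 * (P.Φ (t, z, θ, 0)).2.1))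

lemma Pkg.y_zero (P : Pkg κ δ) (z : ℂ) (θ : ℝ) : P.y z θ 0 = (z, ce (2 * θ)) := by
  simp [Pkg.y, P.flow.zero]

lemma Pkg.δ0 (P : Pkg κ δ) : 0 ≤ δ := (norm_nonneg _).trans (P.nΘ 0 (by simp)).2.1

lemma Pkg.pos_le (P : Pkg κ δ) {z : ℂ} {θ t : ℝ} (h : ‖z‖ + |t| ≤ 10) :
    ‖(P.Φ (t, z, θ, 0)).1‖ ≤ ‖z‖ + |t| + δ := by
  have h1 := (P.close z θ t (by linarith [abs_nonneg t]) (by linarith [norm_nonneg z])).1
  have h2 := norm_le_norm_sub_add (P.Φ (t, z, θ, 0)).1 (z + t * ce θ)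
  have h3 := norm_add_le z (t * ce θ)
  rw [norm_mul, mid_norm_ce, norm_real, Real.norm_eq_abs] at h3
  linarith

lemma Pkg.y_mem (P : Pkg κ δ) (hδ : δ ≤ 1 / 10 ^ 6) {z : ℂ} {θ t : ℝ} (h : ‖z‖ + |t| ≤ 49 / 10) :
    P.y z θ t ∈ closedBall (0 : ℂ × ℂ) 5 :=
  mid_ball.2 ⟨(P.pos_le (by linarith)).trans (by linarith), by simp [Pkg.y, mid_norm_ce]⟩

lemma Pkg.y_cont (P : Pkg κ δ) : Continuous fun p : ℂ × ℝ × ℝ => P.y p.1 p.2.1 p.2.2 := by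
  have := P.flow.smooth.continuous
  have := mid_ce_cont
  unfold Pkg.y
  fun_prop

lemma Pkg.inv_flow (P : Pkg κ δ) (hδ : δ ≤ 1 / 10 ^ 6) {u : ℂ × ℝ → ℂ}
    (hu : ∀ p : ℂ × ℝ, ‖p.1‖ ≤ 5 → DifferentiableAt ℝ u p ∧ Xd κ 0 u p = 0) {z : ℂ} {θ t : ℝ}
    (hz : ‖z‖ + |t| ≤ 49 / 10) :
    u ((P.Φ (t, z, θ, 0)).1, (P.Φ (t, z, θ, 0)).2.1) = u (z, θ) := by
  have := intervalIntegral.integral_eq_sub_of_hasDerivAt (a := 0) (b := t) (f' := fun _ => (0 : ℂ))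
    (f := fun s => u ((P.Φ (s, z, θ, 0)).1, (P.Φ (s, z, θ, 0)).2.1)) (fun s hs => by
      have h1 := MMT.abs_le_of_uIoc hs le_rfl
      have h2 := hu ((P.Φ (s, z, θ, 0)).1, (P.Φ (s, z, θ, 0)).2.1)
        ((P.pos_le (by linarith)).trans (by linarith))
      simpa [h2.2] using P.flow.hasDerivAt_Xd 0 (z, θ, 0) s h2.1) intervalIntegrable_const
  simp only [intervalIntegral.integral_zero, P.flow.zero] at this
  exact sub_eq_zero.1 this.symm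

lemma Pkg.β_flow (P : Pkg κ δ) (hδ : δ ≤ 1 / 10 ^ 6) {z : ℂ} {θ t : ℝ} (hz : ‖z‖ + |t| ≤ 49 / 10) :
    P.β (P.y z θ t) = P.β (z, ce (2 * θ)) := by
  have key : ∀ W : ℂ × ℂ → ℂ, (∀ y : ℂ × ℂ, ‖y.1‖ ≤ 5 → ‖y.2‖ ≤ 1 → Sol (κ y.1) W y 0) →
      W (P.y z θ t) = W (z, ce (2 * θ)) := fun W hW =>
    P.inv_flow hδ (u := fun p => W (p.1, ce (2 * p.2))) (fun p hp => by
      have h1 := hW (p.1, ce (2 * p.2)) hp (mid_norm_ce _).le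
      refine ⟨h1.1.comp p (differentiableAt_fst.prodMk
        ((mid_ce_cd (n := 1)).differentiable one_ne_zero _ |>.comp p (by fun_prop))), ?_⟩
      simpa [mid_ce_zero] using h1.toXd 0) hz
  exact Prod.ext (key _ fun y h1 h2 => (P.sol y h1 h2).1) (key _ fun y h1 h2 => (P.sol y h1 h2).2)

lemma Pkg.line (P : Pkg κ δ) (hδ : δ ≤ 1 / 10 ^ 6) {z : ℂ} {θ t : ℝ} (hz : ‖z‖ + |t| ≤ 49 / 10) :
    b0 (P.Θ' (P.y z θ t)) = b0 (P.Θ' (z, ce (2 * θ))) := by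
  rw [← P.key _ (P.y_mem hδ hz), P.β_flow hδ hz, ← P.y_zero,
    P.key _ (P.y_mem hδ (by simp; linarith [abs_nonneg t]))]

lemma Pkg.posn (P : Pkg κ δ) (hδ : δ ≤ 1 / 10 ^ 6) {z : ℂ} {θ t : ℝ} (hz : ‖z‖ + |t| ≤ 49 / 10) :
    |((P.Θ' (P.y z θ t)).1 * ce (-θ)).re - ((z * ce (-θ)).re + t)| ≤ 2 * δ := by
  have h1 := (P.close z θ t (by linarith [abs_nonneg t]) (by linarith [norm_nonneg z])).1
  have h2 := P.nΘ'.fst (P.y_mem hδ hz (θ := θ))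
  have e : ((P.Θ' (P.y z θ t)).1 * ce (-θ)).re - ((z * ce (-θ)).re + t) =
      ((((P.Θ' (P.y z θ t)).1 - (P.y z θ t).1) + ((P.y z θ t).1 - (z + t * ce θ))) * ce (-θ)).re := by
    have : (((P.Θ' (P.y z θ t)).1 - (P.y z θ t).1) + ((P.y z θ t).1 - (z + t * ce θ))) * ce (-θ) =
        (P.Θ' (P.y z θ t)).1 * ce (-θ) - (z * ce (-θ) + t) := by
      linear_combination (-t : ℂ) * mid_ce_neg θ
    rw [this]; simp
  rw [e]
  refine (abs_re_le_norm _).trans ?_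
  rw [norm_mul, mid_norm_ce, mul_one]
  exact (norm_add_le _ _).trans (by simp only [Pkg.y] at h2 ⊢; linarith)

theorem Pkg.lift {κ : ℂ → Co} {δ : ℝ} (P : Pkg κ δ) (hδ : δ ≤ 1 / 10 ^ 6) {z z' : ℂ} {θ a b : ℝ}
    (hz : ‖z‖ ≤ 1) (ha : -3 ≤ a) (hab : a ≤ b) (hb : b ≤ 3)
    (e : b0 (z', (P.Θ' (z, ce (2 * θ))).2) = b0 (P.Θ' (z, ce (2 * θ))))
    (h1 : ((P.Θ' (P.y z θ a)).1 * ce (-θ)).re ≤ (z' * ce (-θ)).re)
    (h2 : (z' * ce (-θ)).re ≤ ((P.Θ' (P.y z θ b)).1 * ce (-θ)).re) :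
    ∃ t ∈ Icc a b, P.Θ' (P.y z θ t) = (z', (P.Θ' (z, ce (2 * θ))).2) := by
  have hm : ∀ t ∈ Icc a b, ‖z‖ + |t| ≤ 49 / 10 := fun t ht => by
    have : |t| ≤ 3 := abs_le.2 ⟨by linarith [ht.1], by linarith [ht.2]⟩
    linarith
  have hc : ContinuousOn (fun t => ((P.Θ' (P.y z θ t)).1 * ce (-θ)).re) (Icc a b) := fun t ht => by
    have h3 : ContinuousAt (fun t => P.Θ' (P.y z θ t)) t :=
      (P.nΘ' _ (P.y_mem hδ (hm t ht))).1.continuousAt.comp (f := fun t => P.y z θ t)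
        (P.y_cont.comp (f := fun t => (z, θ, t)) (by fun_prop)).continuousAt
    exact (continuous_re.continuousAt.comp (h3.fst.mul continuousAt_const)).continuousWithinAt
  obtain ⟨t, ht, h3⟩ := intermediate_value_Icc hab hc ⟨h1, h2⟩
  refine ⟨t, ht, ?_⟩
  have h4 := P.line hδ (hm t ht) (θ := θ)
  have h5 : (P.Θ' (P.y z θ t)).2 = (P.Θ' (z, ce (2 * θ))).2 := congrArg Prod.fst h4
  refine Prod.ext ?_ h5
  have h6 := congrArg Prod.snd (h4.trans e.symm)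
  simp only [b0, h5] at h6
  have h7 := P.nΘ'.snd (y := (z, ce (2 * θ))) (mid_ball.2 ⟨by linarith, by simp [mid_norm_ce]⟩)
  set u := (P.Θ' (z, ce (2 * θ))).2
  set d := (P.Θ' (P.y z θ t)).1 - z' with hd
  have h8 : d * ce (-θ) + conj d * ce θ = 0 := by
    have : (d * ce (-θ)).re = 0 := by rw [hd, sub_mul, sub_re]; simp only at h3; linarith
    have h9 := add_conj (d * ce (-θ))
    rw [this, map_mul, mid_conj_ce, neg_neg] at h9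
    simpa using h9
  have h9 : conj d * (u + ce (2 * θ)) = 0 := by
    rw [mid_ce_two]
    simp only [hd, map_sub] at h8 ⊢
    linear_combination h6 + ce θ * h8 - ((P.Θ' (P.y z θ t)).1 - z') * mid_ce_neg θ
  have h10 : u + ce (2 * θ) ≠ 0 := fun h => by
    have : u - ce (2 * θ) = -2 * ce (2 * θ) := by linear_combination h
    simp only [this, norm_mul, mid_norm_ce] at h7
    norm_num at h7; linarith
  exact sub_eq_zero.1 (by simpa using (mul_eq_zero.1 h9).resolve_right h10)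

lemma Pkg.Ψ_inj (P : Pkg κ δ) (hδ : δ ≤ 1 / 10 ^ 6) {q q' : ℂ × ℂ}
    (hq : q ∈ closedBall (0 : ℂ × ℂ) 40) (hq' : q' ∈ closedBall (0 : ℂ × ℂ) 40)
    (e : P.Ψ q = P.Ψ q') : q = q' := by
  have := P.nΨ.lip le_rfl hq hq'
  rw [e, sub_self, zero_sub, norm_neg] at this
  exact sub_eq_zero.1 (norm_le_zero_iff.1 (by nlinarith [norm_nonneg (q - q')]))

lemma Pkg.β_mem (P : Pkg κ δ) (hδ : δ ≤ 1 / 10 ^ 6) {y : ℂ × ℂ} (hy : y ∈ closedBall (0 : ℂ × ℂ) 5) :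
    P.β y ∈ closedBall (0 : ℂ × ℂ) 40 := by
  have := norm_le_norm_sub_add (P.β y) (b0 y)
  exact mem_closedBall_zero_iff.2 (by linarith [(P.nβ y hy).2.1, mid_b0_norm hy])

lemma Pkg.Θ_mem (P : Pkg κ δ) (hδ : δ ≤ 1 / 10 ^ 6) {y : ℂ × ℂ}
    (hy : y ∈ closedBall (0 : ℂ × ℂ) (49 / 10)) : P.Θ y ∈ closedBall (0 : ℂ × ℂ) 5 := by
  have h1 := (P.nΘ y (closedBall_subset_closedBall (by norm_num) hy)).2.1
  have := norm_le_norm_sub_add (P.Θ y) y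
  rw [mem_closedBall_zero_iff] at hy ⊢
  simp only [id] at h1
  linarith

/-- lifting a point of the blown down space -/
lemma Pkg.up (P : Pkg κ δ) (hδ : δ ≤ 1 / 10 ^ 6) {q y : ℂ × ℂ} (hq : q ∈ closedBall (0 : ℂ × ℂ) 40)
    (hy : y ∈ closedBall (0 : ℂ × ℂ) (49 / 10)) (e : b0 y = P.Ψ q) :
    P.β (P.Θ y) = q ∧ (‖y.2‖ < 1 ↔ ‖(P.Θ y).2‖ < 1) ∧ (‖y.2‖ = 1 ↔ ‖(P.Θ y).2‖ = 1) := by
  have h1 := P.Θ_mem hδ hy
  have h2 := P.rinv y (closedBall_subset_closedBall (by norm_num) hy)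
  refine ⟨P.Ψ_inj hδ (P.β_mem hδ h1) hq (by rw [P.key _ h1, h2, e]), ?_⟩
  simpa only [h2] using P.sgn _ h1

theorem Loc.flow {κ : ℂ → Co} {δ : ℝ} {P : Pkg κ δ} (L : Loc P) (hδ : δ ≤ 1 / 10 ^ 6) {z : ℂ}
    {θ t : ℝ} (hz : ‖z‖ + |t| ≤ 49 / 10) :
    L.B ((P.Φ (t, z, θ, 0)).1, (P.Φ (t, z, θ, 0)).2.1) = L.B (z, θ) :=
  P.inv_flow hδ (fun p hp => ⟨(L.cB p hp).differentiableAt one_ne_zero, L.inv p hp⟩) hz

lemma Loc.congr {P : Pkg κ δ} (L : Loc P) (z : ℂ) {θ θ' : ℝ} (e : ce (2 * θ) = ce (2 * θ')) :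
    L.B (z, θ) = L.B (z, θ') := by
  obtain ⟨n, hn⟩ := Complex.exp_eq_exp_iff_exists_int.1 e
  have h1 : θ = θ' + n * π := by
    have := congrArg im hn
    simp at this
    linarith
  have hp : Function.Periodic (fun θ => L.B (z, θ)) π := L.per z
  rw [h1]
  exact hp.int_mul n θ'

/-- B only depends on the point of the edge -/
lemma Loc.edge {P : Pkg κ δ} (L : Loc P) (hδ : δ ≤ 1 / 10 ^ 6) {z z' : ℂ} {θ θ' : ℝ}
    (hz : ‖z‖ ≤ 28 / 10) (hz' : ‖z'‖ ≤ 28 / 10) (e : P.β (z, ce (2 * θ)) = P.β (z', ce (2 * θ')))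
    (hW : ‖(P.Ψ (P.β (z, ce (2 * θ)))).2‖ ≤ 1 / 10) : L.B (z, θ) = L.B (z', θ') := by
  have mem : ∀ {z : ℂ} (θ : ℝ), ‖z‖ ≤ 28 / 10 → (z, ce (2 * θ)) ∈ closedBall (0 : ℂ × ℂ) 5 :=
    fun θ hz => mid_ball.2 ⟨by linarith, by simp [mid_norm_ce]⟩
  set q := P.β (z, ce (2 * θ)) with hq
  have k1 := P.key _ (mem θ hz)
  have hu : ‖(P.Ψ q).1‖ = 1 := by
    rw [hq, k1]; exact (P.sgn _ (mem θ hz)).2.2 (mid_norm_ce _)
  have hn : (P.Ψ q).2 + (P.Ψ q).1 * conj (P.Ψ q).2 = 0 := by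
    have := mid_num (P.Θ' (z, ce (2 * θ)))
    rw [← k1, (P.sgn _ (mem θ hz)).2.2 (mid_norm_ce _)] at this
    simpa using this
  set y : ℂ × ℂ := (-(P.Ψ q).2 / 2, (P.Ψ q).1) with hy
  have y1 : ‖y.1‖ ≤ 1 / 20 := by
    simp only [hy, norm_div, norm_neg, Complex.norm_ofNat]; linarith
  have hym : y ∈ closedBall (0 : ℂ × ℂ) (49 / 10) := mid_ball.2 ⟨by linarith, by rw [hu]; norm_num⟩
  have hb : b0 y = P.Ψ q := Prod.ext rfl (by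
    simp only [b0, hy, map_div₀, map_neg, map_ofNat]; linear_combination (-1 / 2) * hn)
  obtain ⟨-, -, u3⟩ := P.up hδ (P.β_mem hδ (mem θ hz)) hym hb
  obtain ⟨θ0, h0⟩ := mid_ce_surj (u3.1 hu)
  have r0 : P.Θ' ((P.Θ y).1, ce (2 * θ0)) = y := by
    rw [h0]; exact P.rinv y (closedBall_subset_closedBall (by norm_num) hym)
  have z0 : ‖(P.Θ y).1‖ ≤ 1 / 10 := by
    have h1 := P.nΘ.fst (closedBall_subset_closedBall (by norm_num) hym)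
    linarith [norm_le_norm_sub_add (P.Θ y).1 y.1]
  have main : ∀ {x : ℂ} {α : ℝ}, ‖x‖ ≤ 28 / 10 → P.β (x, ce (2 * α)) = q →
      L.B (x, α) = L.B ((P.Θ y).1, θ0) := by
    intro x α hx ex
    have k2 := P.key _ (mem α hx)
    rw [ex] at k2
    have k3 : (P.Θ' (x, ce (2 * α))).2 = y.2 := (congrArg Prod.fst k2).symm
    have k4 : ‖(P.Θ' (x, ce (2 * α))).1‖ ≤ 28 / 10 + δ := by
      linarith [P.nΘ'.fst (mem α hx), norm_le_norm_sub_add (P.Θ' (x, ce (2 * α))).1 x]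
    have k5 := abs_le.1 ((abs_re_le_norm ((P.Θ' (x, ce (2 * α))).1 * ce (-θ0))).trans
      (by rw [norm_mul, mid_norm_ce, mul_one]; exact k4 : _ ≤ 28 / 10 + δ))
    have k6 := abs_le.1 ((abs_re_le_norm ((P.Θ y).1 * ce (-θ0))).trans
      (by rw [norm_mul, mid_norm_ce, mul_one]; exact z0 : _ ≤ (1 / 10 : ℝ)))
    have k7 := abs_le.1 (P.posn hδ (z := (P.Θ y).1) (θ := θ0) (t := -3) (by norm_num; linarith))
    have k8 := abs_le.1 (P.posn hδ (z := (P.Θ y).1) (θ := θ0) (t := 3) (by norm_num; linarith))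
    obtain ⟨t, ht, e1⟩ := P.lift hδ (z := (P.Θ y).1) (z' := (P.Θ' (x, ce (2 * α))).1) (θ := θ0)
      (a := -3) (b := 3) (by linarith) le_rfl (by norm_num) le_rfl
      (by rw [r0, ← k3, hb, k2]) (by linarith) (by linarith)
    have ht' : ‖(P.Θ y).1‖ + |t| ≤ 49 / 10 := by linarith [abs_le.2 ht]
    have e2 : P.y (P.Θ y).1 θ0 t = (x, ce (2 * α)) := by
      rw [← P.linv _ (P.y_mem hδ ht'), e1, r0, ← k3, P.linv _ (mem α hx)]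
    rw [← L.flow hδ ht', show (P.Φ (t, (P.Θ y).1, θ0, 0)).1 = x from congrArg Prod.fst e2]
    exact L.congr x (congrArg Prod.snd e2).symm
  rw [main hz rfl, main hz' e.symm]

end Pool.Agent.Lib.MP_0cc5e8_gt
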