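import Pool.Agent.Lib.MP_0cc5e8_gt.MidA

/-! Lifting points of the left and right cones; uniform limits. -/

namespace Pool.Agent.Lib.MP_0cc5e8_gt

open Complex Set Filter Topology Metric
open scoped ComplexConjugate ContDiff Real

lemma mid_line (z : ℂ) {u : ℂ} (hu : ‖u‖ = 1) (hu' : 0 < 1 + u.re) (r : ℝ) :
    ∃ z', b0 (z', u) = b0 (z, u) ∧ z'.re = r := by
  have h := Complex.mul_conj' u
  rw [hu] at h
  refine ⟨z + ((r - z.re) / (1 + u.re) : ℝ) * (1 + u), Prod.ext rfl ?_, ?_⟩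
  · simp only [b0, map_add, map_mul, conj_ofReal, map_one]
    push_cast at h ⊢
    linear_combination ((r - z.re) / (1 + u.re) : ℂ) * h
  · rw [add_re, re_ofReal_mul, add_re, one_re]; field_simp; ring

lemma mid_flat {Q : ℂ × ℂ} (h : 0 < 1 + Q.1.re) (hL : LR (pi0 Q)) :
    ‖Q.1‖ ≤ 1 ∧ ∃ z, b0 (z, Q.1) = Q ∧ 3 / 2 ≤ |z.re| ∧ |z.re| ≤ 5 / 2 := by
  have h0 : 0 ≤ (pi0 Q).1 := by rcases hL with h | h <;> linarith [abs_nonneg _ |>.trans h]
  have h1 : ‖Q.1‖ ≤ 1 := by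
    simp only [pi0] at h0; nlinarith [norm_nonneg Q.1]
  refine ⟨h1, ?_⟩
  rcases h1.lt_or_eq with h1 | h1
  · have e := mid_b0_b0i h1
    have e2 := mid_pi0 (b0i Q)
    rw [e] at e2
    have hp : 0 < (1 - ‖(b0i Q).2‖ ^ 2) / 4 := by
      simp only [b0i]; nlinarith [norm_nonneg Q.1]
    refine ⟨(b0i Q).1, e, ?_⟩
    rw [e2] at hL
    generalize (b0i Q).1.re = x at *
    generalize (1 - ‖(b0i Q).2‖ ^ 2) / 4 = n at *
    rcases hL with h | h <;> obtain ⟨h2, h3⟩ := abs_le.1 h <;> simp only at h2 h3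
    · rw [abs_of_neg (by nlinarith)]; constructor <;> nlinarith
    · rw [abs_of_pos (by nlinarith)]; constructor <;> nlinarith
  · have hu := Complex.mul_conj' Q.1
    have n1 : (pi0 Q).1 = 0 := by simp [pi0, h1]
    have n2 : (Q.2 + Q.1 * conj Q.2).re = 0 := by
      have : (pi0 Q).2 = 0 := by rcases hL with h | h <;> simpa [n1] using h
      simp only [pi0] at this; linarith
    rw [h1] at hu
    have n3 : (Q.2 + Q.1 * conj Q.2) * (1 + Q.1) = 0 := by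
      have := add_conj (Q.2 + Q.1 * conj Q.2)
      simp only [n2, map_add, map_mul, conj_conj] at this
      push_cast at this hu
      linear_combination Q.1 * this - Q.2 * hu
    have n4 := (mul_eq_zero.1 n3).resolve_right fun e => by
      have := congrArg re e
      simp at this; linarith
    obtain ⟨z, e, hz⟩ := mid_line (-Q.2 / 2) h1 h 2
    refine ⟨z, e.trans (Prod.ext rfl ?_), by rw [hz]; norm_num, by rw [hz]; norm_num⟩
    simp only [b0, map_div₀, map_neg, map_ofNat]; linear_combination (-1 / 2) * n4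

variable {κ : ℂ → Co} {δ : ℝ}

lemma Pkg.c_near (P : Pkg κ δ) : ‖P.β (0, 1) - (1, 0)‖ ≤ δ := by
  simpa [b0] using (P.nβ (0, 1) (by simp)).2.1

lemma Pkg.near_mem (P : Pkg κ δ) (hδ : δ ≤ 1 / 10 ^ 6) {q : ℂ × ℂ} (hq : ‖q - P.β (0, 1)‖ ≤ 1) :
    q ∈ closedBall (0 : ℂ × ℂ) 39 := by
  have h1 := norm_le_norm_sub_add q (P.β (0, 1))
  have h2 := norm_le_norm_sub_add (P.β (0, 1)) (1, 0)
  simp only [Prod.norm_mk, norm_one, norm_zero, zero_le_one, sup_of_le_left] at h2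
  exact mem_closedBall_zero_iff.2 (by linarith [P.c_near])

lemma Pkg.mid_lift (P : Pkg κ δ) (hδ : δ ≤ 1 / 10 ^ 6) {q : ℂ × ℂ}
    (hq : ‖q - P.β (0, 1)‖ ≤ 1 / 1000) (hL : LR (pi0 (P.Ψ q))) :
    ∃ t, 1 ≤ |t| ∧ |t| ≤ 26 / 10 ∧ ∃ y : ℂ × ℂ, ‖y - P.y 0 0 t‖ ≤ 16 * ‖q - P.β (0, 1)‖ ∧
      ‖y.2‖ ≤ 1 ∧ P.β y = q ∧ (‖(P.Ψ q).1‖ = 1 → ‖y.2‖ = 1) := by
  have m0 : ((0, 1) : ℂ × ℂ) ∈ closedBall (0 : ℂ × ℂ) 5 := by simp
  have mq := closedBall_subset_closedBall (show (39 : ℝ) ≤ 40 by norm_num) (P.near_mem hδ (hq.trans (by norm_num)))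
  have k0 := P.key _ m0
  have l1 := P.nΨ.lip' le_rfl (by linarith) mq (P.β_mem hδ m0)
  rw [k0] at l1
  set y0 := P.Θ' (0, 1) with hy0
  have u0 : ‖y0.2‖ = 1 := (P.sgn _ m0).2.2 (by simp)
  have u1 : ‖y0.2 - 1‖ ≤ δ := P.nΘ'.snd m0
  have u2 : ‖(P.Ψ q).1 - y0.2‖ ≤ 2 * ‖q - P.β (0, 1)‖ := (norm_fst_le (P.Ψ q - b0 y0)).trans l1
  have u3 := abs_le.1 ((abs_re_le_norm _).trans u1)
  have u4 := abs_le.1 ((abs_re_le_norm _).trans u2)
  simp only [sub_re, one_re] at u3 u4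
  obtain ⟨hu, z, e, hz1, hz2⟩ := mid_flat (by linarith) hL
  obtain ⟨z', e', hz'⟩ := mid_line y0.1 u0 (by linarith) z.re
  have c0 : ce (2 * 0) = 1 := by simp [mid_ce_zero]
  have p1 := abs_le.1 (P.posn hδ (z := 0) (θ := 0) (t := -3) (by norm_num))
  have p2 := abs_le.1 (P.posn hδ (z := 0) (θ := 0) (t := 3) (by norm_num))
  have hz3 := abs_le.1 hz2
  simp only [neg_zero, mid_ce_zero, mul_one, zero_re] at p1 p2
  obtain ⟨t, ht, e1⟩ := P.lift hδ (z := 0) (z' := z') (θ := 0) (a := -3) (b := 3) (by simp) le_rfl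
    (by norm_num) le_rfl (by rw [c0, e']) (by simp only [neg_zero, mid_ce_zero, mul_one]; linarith)
    (by simp only [neg_zero, mid_ce_zero, mul_one]; linarith)
  rw [c0] at e1
  have ht' : ‖(0 : ℂ)‖ + |t| ≤ 49 / 10 := by rw [norm_zero]; linarith [abs_le.2 ht]
  have p3 := P.posn hδ ht' (θ := 0)
  simp only [neg_zero, mid_ce_zero, mul_one, zero_re, e1, hz', zero_add] at p3
  have t1 := abs_sub_abs_le_abs_sub z.re t
  have t2 := abs_sub_abs_le_abs_sub t z.re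
  rw [abs_sub_comm] at t2
  have z3 : ‖z'‖ ≤ 3 := by
    have h1 := P.nΘ'.fst (P.y_mem hδ ht' (θ := 0))
    have h2 := P.pos_le (z := 0) (θ := 0) (t := t) (by linarith)
    rw [e1] at h1
    simp only [norm_zero, Pkg.y] at h1 h2
    linarith [norm_le_norm_sub_add z' (P.Φ (t, 0, 0, 0)).1]
  have d1 : ‖z - z'‖ ≤ 4 * (2 * ‖q - P.β (0, 1)‖) := by
    have h1 : conj (z - z') = -(z - z') := by
      have := add_conj (z - z')
      rw [sub_re, hz', sub_self] at this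
      push_cast at this
      linear_combination this
    have h2 : (z - z') * (1 + y0.2) =
        (conj (z - z') + conj z') * ((P.Ψ q).1 - y0.2) - ((P.Ψ q).2 - (b0 y0).2) := by
      have e2 := congrArg Prod.snd e
      have e3 := congrArg Prod.snd e'
      simp only [b0, map_sub] at e2 e3 h1 ⊢
      linear_combination -e2 + e3 + y0.2 * h1
    have h3 : ‖(P.Ψ q).2 - (b0 y0).2‖ ≤ 2 * ‖q - P.β (0, 1)‖ :=
      (norm_snd_le (P.Ψ q - b0 y0)).trans l1
    have h4 : 3 / 2 ≤ ‖1 + y0.2‖ := by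
      have := re_le_norm (1 + y0.2)
      rw [add_re, one_re] at this; linarith
    have h5 := congrArg norm h2
    have h6 := norm_sub_le ((conj (z - z') + conj z') * ((P.Ψ q).1 - y0.2))
      ((P.Ψ q).2 - (b0 y0).2)
    have h7 := norm_add_le (conj (z - z')) (conj z')
    rw [norm_mul] at h5 h6
    rw [norm_conj, norm_conj] at h7
    nlinarith [norm_nonneg (z - z'), norm_nonneg ((P.Ψ q).1 - y0.2),
      norm_nonneg (conj (z - z') + conj z')]
  have my : (z, (P.Ψ q).1) ∈ closedBall (0 : ℂ × ℂ) (49 / 10) :=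
    mid_ball.2 ⟨by linarith [norm_le_norm_sub_add z z'], by linarith⟩
  obtain ⟨b1, b2, b3⟩ := P.up hδ mq my e
  refine ⟨t, by linarith, by linarith, _, ?_, ?_, b1, b3.1⟩
  · rw [← P.linv _ (P.y_mem hδ ht'), e1]
    refine (P.nΘ.lip' le_rfl (by linarith) (closedBall_subset_closedBall (by norm_num) my)
      (mid_ball.2 ⟨by linarith, by linarith⟩)).trans ?_
    have : ‖(z, (P.Ψ q).1) - (z', y0.2)‖ ≤ 8 * ‖q - P.β (0, 1)‖ :=
      max_le (by simp only [Prod.fst_sub]; linarith)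
        (by simp only [Prod.snd_sub]; linarith [norm_nonneg (q - P.β (0, 1))])
    linarith
  · rcases hu.lt_or_eq with h | h
    exacts [(b2.1 h).le, (b3.1 h).le]

lemma mid_pi_lip {Q Q' : ℂ × ℂ} {r : ℝ} (h : ‖Q - (1, 0)‖ ≤ r) (h' : ‖Q' - (1, 0)‖ ≤ r) :
    ‖pi0 Q - pi0 Q' - (-(Q - Q').1.re / 2, (Q - Q').2.re / 2)‖ ≤ r / 2 * ‖Q - Q'‖ := by
  have a1 : ‖Q.1 - 1‖ ≤ r := (norm_fst_le (Q - (1, 0))).trans h
  have a2 : ‖Q'.1 - 1‖ ≤ r := (norm_fst_le (Q' - (1, 0))).trans h'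
  have a3 : ‖Q'.2‖ ≤ r := by simpa using (norm_snd_le (Q' - (1, 0))).trans h'
  have b1 := norm_fst_le (Q - Q')
  have b2 := norm_snd_le (Q - Q')
  have r0 : 0 ≤ r := (norm_nonneg _).trans h
  refine max_le ?_ ?_
  · have e : (pi0 Q - pi0 Q' - (-(Q - Q').1.re / 2, (Q - Q').2.re / 2)).1 =
        -((Q - Q').1 * conj (Q.1 - 1 + (Q'.1 - 1))).re / 4 := by
      simp [pi0, Complex.sq_norm, normSq_apply]; ring
    have := abs_re_le_norm ((Q - Q').1 * conj (Q.1 - 1 + (Q'.1 - 1)))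
    rw [norm_mul, norm_conj] at this
    rw [e, Real.norm_eq_abs, abs_div, abs_neg, Nat.abs_ofNat]
    nlinarith [mul_le_mul b1 ((norm_add_le _ _).trans (add_le_add a1 a2)) (norm_nonneg _)
      (norm_nonneg _)]
  · have e : (pi0 Q - pi0 Q' - (-(Q - Q').1.re / 2, (Q - Q').2.re / 2)).2 =
        ((Q.1 - 1) * conj (Q - Q').2 + (Q - Q').1 * conj Q'.2).re / 4 := by
      simp [pi0]; ring
    have := (abs_re_le_norm ((Q.1 - 1) * conj (Q - Q').2 + (Q - Q').1 * conj Q'.2)).trans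
      (norm_add_le _ _)
    rw [norm_mul, norm_conj, norm_mul, norm_conj] at this
    rw [e, Real.norm_eq_abs, abs_div, Nat.abs_ofNat]
    nlinarith [mul_le_mul a1 b2 (norm_nonneg _) r0, mul_le_mul b1 a3 (norm_nonneg _)
      (norm_nonneg _)]

lemma mid_fderiv_le {G : ℂ × ℂ → ℂ} (hG : Differentiable ℂ G) {x : ℂ × ℂ} {r C : ℝ} (hr : 0 < r)
    (h : ∀ q ∈ closedBall x r, ‖G q‖ ≤ C) : ‖fderiv ℂ G x‖ ≤ C / r := by
  refine ContinuousLinearMap.opNorm_le_of_unit_norm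
    (div_nonneg ((norm_nonneg _).trans (h x (mem_closedBall_self hr.le))) hr.le) fun v hv => ?_
  have h1 : HasDerivAt (fun l : ℂ => G (x + l • v)) (fderiv ℂ G x v) 0 := by
    have := (hG (x + (0 : ℂ) • v)).hasFDerivAt.comp_hasDerivAt (0 : ℂ)
      (((hasDerivAt_id (0 : ℂ)).smul_const v).const_add x)
    rwa [one_smul, zero_smul, add_zero] at this
  rw [← h1.deriv]
  refine Complex.norm_deriv_le_of_forall_mem_sphere_norm_le hr
    (Differentiable.diffContOnCl (by fun_prop)) fun l hl => h _ ?_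
  rw [mem_sphere_zero_iff_norm] at hl
  simp [norm_smul, hl, hv]

lemma mid_diff_lim {F : ℕ → ℂ × ℂ → ℂ} (hF : ∀ n, Differentiable ℂ (F n)) {f : ℂ × ℂ → ℂ}
    {S : Set (ℂ × ℂ)} (h : TendstoUniformlyOn F f atTop S) {x : ℂ × ℂ} (hx : S ∈ 𝓝 x) :
    DifferentiableAt ℂ f x := by
  obtain ⟨r, hr, hb⟩ := Metric.mem_nhds_iff.1 hx
  have hc : UniformCauchySeqOn (fun n q => fderiv ℂ (F n) q) atTop (ball x (r / 2)) := by
    rw [Metric.uniformCauchySeqOn_iff]
    intro ε hε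
    obtain ⟨N, hN⟩ := Metric.uniformCauchySeqOn_iff.1 h.uniformCauchySeqOn (ε / 2 * (r / 2))
      (by positivity)
    refine ⟨N, fun m hm n hn q hq => ?_⟩
    rw [dist_eq_norm, ← fderiv_sub (hF m q) (hF n q)]
    refine (mid_fderiv_le ((hF m).sub (hF n)) (half_pos hr) (C := ε / 2 * (r / 2))
      fun p hp => ?_).trans_lt (by field_simp; linarith)
    refine (dist_eq_norm _ _).symm.le.trans (hN m hm n hn p (hb ?_)).le
    rw [mem_closedBall] at hp
    rw [mem_ball] at hq ⊢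
    linarith [dist_triangle p q x]
  have := hc.tendstoUniformlyOn_of_tendsto (f := fun q => limUnder atTop fun n => fderiv ℂ (F n) q)
    fun q hq => (hc.cauchySeq hq).tendsto_limUnder
  exact (hasFDerivAt_of_tendstoUniformlyOn isOpen_ball this (fun n q _ => (hF n q).hasFDerivAt)
    (fun q hq => h.tendsto_at (hb (ball_subset_ball (half_le_self hr.le) hq)))
    (mem_ball_self (half_pos hr))).differentiableAt

end Pool.Agent.Lib.MP_0cc5e8_gt
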