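import Pool.Agent.Lib.MP_0cc5e8_gt.MidB
import Pool.Agent.Lib.MP_0cc5e8_gt.BT

/-! Polynomial approximation on the left and right cones. -/

namespace Pool.Agent.Lib.MP_0cc5e8_gt

open Complex Set Filter Topology Metric
open scoped ComplexConjugate ContDiff Real

noncomputable def ex (p : ℂ × ℂ) : ℂ × ℂ := (p.1, cexp (2 * p.2 * I))
noncomputable def kh : ℂ × ℂ →L[ℝ] ℂ × ℂ :=
  ((-I / 2) • ContinuousLinearMap.fst ℝ ℂ ℂ).prod ((I / 2) • ContinuousLinearMap.snd ℝ ℂ ℂ)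

lemma kh_apply (q : ℂ × ℂ) : kh q = (-I / 2 * q.1, I / 2 * q.2) := rfl

lemma kh_norm (q : ℂ × ℂ) : ‖kh q‖ = ‖q‖ / 2 := by
  simp only [kh_apply, Prod.norm_def, norm_mul, norm_div, norm_neg, norm_I, Complex.norm_ofNat]
  rw [← mul_max_of_nonneg _ _ (by norm_num)]; ring

lemma ex_cd {n : WithTop ℕ∞} : ContDiff ℝ n ex :=
  contDiff_fst.prodMk ((contDiff_const.mul contDiff_snd).mul contDiff_const).cexp

lemma ex_real (z : ℂ) (θ : ℝ) : ex (z, θ) = (z, ce (2 * θ)) := by simp [ex, ce]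

lemma ex_norm {p : ℂ × ℂ} (h : 0 ≤ p.2.im) : ‖(ex p).2‖ ≤ 1 := by
  simp [ex, Complex.norm_exp, h]

lemma ex_fderiv (p v : ℂ × ℂ) : fderiv ℝ ex p v = (v.1, (ex p).2 * (2 * v.2 * I)) := by
  have := (hasFDerivAt_fst (𝕜 := ℝ) (p := p)).prodMk
    (((hasFDerivAt_snd (𝕜 := ℝ) (p := p)).const_mul 2).mul_const I).cexp
  rw [show fderiv ℝ ex p = _ from this.fderiv]
  simp [ex]; ring

lemma b0_fderiv (y d : ℂ × ℂ) :
    fderiv ℝ b0 y d = (d.2, conj d.1 * y.2 + conj y.1 * d.2 - d.1) := by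
  have := (hasFDerivAt_snd (𝕜 := ℝ) (p := y)).prodMk
    (((conjCLE.hasFDerivAt.comp y hasFDerivAt_fst).mul hasFDerivAt_snd).sub hasFDerivAt_fst)
  rw [show fderiv ℝ b0 y = _ from this.fderiv]
  simp; ring

lemma mid_wedge1 {D1 D2 D3 : ℂ × ℂ →L[ℝ] ℂ} {X u : ℂ × ℂ} (h1 : D1 X = 0) (h2 : D2 X = 0)
    (h3 : D3 X = 0) (hX : X.1.re ≠ 0) (hX' : X.2.im = 0) (hu : u.2.im = 0) :
    wedge3 D1 D2 D3 u (iot (1, 0)) (iot (0, 1)) = 0 := by
  have : u = (u.1.re / X.1.re) • X + (u.2.re - u.1.re / X.1.re * X.2.re) • iot (1, 0) +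
      (u.1.im - u.1.re / X.1.re * X.1.im) • iot (0, 1) := by
    refine Prod.ext (Complex.ext ?_ ?_) (Complex.ext ?_ ?_) <;> simp [iot, hX, hX', hu]
  rw [this]
  simp only [wedge3, map_add, map_smul, h1, h2, h3, real_smul]
  ring

variable {κ : ℂ → Co} {δ : ℝ}

lemma Sol.cmul {k : Co} {W : ℂ × ℂ → ℂ} {y : ℂ × ℂ} (h : Sol k W y 0) (c : ℂ) :
    Sol k (fun y => c * W y) y 0 := by
  obtain ⟨h, a, b, e⟩ := h
  refine ⟨h.const_mul c, c * a, c * b, fun d => ?_⟩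
  rw [fderiv_const_mul h]
  simp only [smul_apply, e, smul_eq_mul]; ring

lemma mid_wedge2 {k : Co} {W1 W2 W3 : ℂ × ℂ → ℂ} {p : ℂ × ℂ} (h1 : Sol k W1 (ex p) 0)
    (h2 : Sol k W2 (ex p) 0) (h3 : Sol k W3 (ex p) 0) (u v w : ℂ × ℂ) :
    wedge3 (fderiv ℝ (W1 ∘ ex) p) (fderiv ℝ (W2 ∘ ex) p) (fderiv ℝ (W3 ∘ ex) p) u v w = 0 := by
  have := (ex_cd (n := 1)).differentiable one_ne_zero p
  obtain ⟨d1, a1, b1, e1⟩ := h1
  obtain ⟨d2, a2, b2, e2⟩ := h2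
  obtain ⟨d3, a3, b3, e3⟩ := h3
  simp only [wedge3, fderiv_comp p d1 this, fderiv_comp p d2 this, fderiv_comp p d3 this,
    ContinuousLinearMap.comp_apply, e1, e2, e3]
  ring

lemma mid_X {F : ℂ × ℂ → ℂ} {z : ℂ} {θ : ℝ} (hF : DifferentiableAt ℝ F (z, θ))
    (h : Xd κ 0 (fun p => F (p.1, p.2)) (z, θ) = 0) :
    fderiv ℝ F (z, θ) (ce θ, (ba (κ z) θ).im) = 0 := by
  have := hF.hasFDerivAt.comp (z, θ)
    ((ContinuousLinearMap.id ℝ ℂ).prodMap ofRealCLM).hasFDerivAt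
  simp only [Xd] at h
  rw [show fderiv ℝ (fun p : ℂ × ℝ => F (p.1, p.2)) (z, θ) = _ from this.fderiv] at h
  simpa using h

lemma Sol.exX {W : ℂ × ℂ → ℂ} {z : ℂ} {θ : ℝ} (h : Sol (κ z) W (ex (z, θ)) 0) :
    fderiv ℝ (W ∘ ex) (z, θ) (ce θ, (ba (κ z) θ).im) = 0 :=
  mid_X (h.1.comp _ ((ex_cd (n := 1)).differentiable one_ne_zero _)) (by
    rw [ex_real] at h
    simpa [mid_ce_zero, ex_real] using h.toXd 0)

lemma Pkg.Z_est (P : Pkg κ δ) (hδ : δ ≤ 1 / 10 ^ 6) {p : ℂ × ℂ} (h1 : ‖p.1‖ ≤ 4)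
    (h2 : |p.1.im| ≤ 3 / 10 ^ 6) (h3 : ‖p.2‖ ≤ 3 / 10 ^ 6) (h4 : 0 ≤ p.2.im) (a : ℝ × ℝ) :
    ‖fderiv ℝ (fun p => kh (P.β (ex p))) p (iot a) - ((a.1 : ℂ), ((a.2 - p.1.re * a.1 : ℝ) : ℂ))‖ ≤
      1 / 10 ^ 4 * ‖a‖ := by
  have w1 := ex_norm h4
  obtain ⟨n1, -, n2⟩ := P.nβ (ex p) (mid_ball.2 ⟨h1.trans (by norm_num), w1.trans (by norm_num)⟩)
  have := kh.hasFDerivAt.comp p ((n1.differentiableAt (by norm_num)).hasFDerivAt.comp p
    ((ex_cd (n := 1)).differentiable one_ne_zero p).hasFDerivAt)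
  rw [show fderiv ℝ (fun p => kh (P.β (ex p))) p = _ from this.fderiv]
  have w2 : ‖(ex p).2 - 1‖ ≤ 12 / 10 ^ 6 := by
    have e : ‖2 * p.2 * I‖ = 2 * ‖p.2‖ := by simp
    have := Complex.norm_exp_sub_one_le (x := 2 * p.2 * I) (by rw [e]; linarith)
    rw [e] at this
    simp only [ex]; linarith
  have a1 : |a.1| ≤ ‖a‖ := norm_fst_le a
  have a2 : |a.2| ≤ ‖a‖ := norm_snd_le a
  set d := fderiv ℝ ex p (iot a) with hd
  have d1 : ‖d‖ ≤ 2 * ‖a‖ := by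
    rw [hd, ex_fderiv]
    refine max_le ?_ ?_ <;> simp [iot] <;> nlinarith [abs_nonneg a.1, norm_nonneg (ex p).2]
  have e : kh (fderiv ℝ P.β (ex p) d) - ((a.1 : ℂ), ((a.2 - p.1.re * a.1 : ℝ) : ℂ)) =
      kh ((fderiv ℝ P.β (ex p) - fderiv ℝ b0 (ex p)) d) + (((ex p).2 - 1) * a.1,
        ((ex p).2 - 1) * a.2 / 2 - (conj p.1 * ((ex p).2 - 1) - p.1.im * I) * a.1) := by
    rw [sub_apply, map_sub, b0_fderiv, hd, ex_fderiv]
    have : conj p.1 = p.1.re - p.1.im * I := by apply Complex.ext <;> simp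
    refine Prod.ext ?_ ?_ <;> simp [kh_apply, iot, show (ex p).1 = p.1 from rfl]
    · linear_combination (-(ex p).2 * a.1) * I_mul_I
    · linear_combination (-a.1 : ℂ) * this +
        (conj p.1 * (ex p).2 * a.1 - a.2 * ((ex p).2 + 1) / 2) * I_mul_I
  simp only [ContinuousLinearMap.comp_apply, ← hd]
  rw [e]
  refine (norm_add_le _ _).trans ?_
  have k1 := (fderiv ℝ P.β (ex p) - fderiv ℝ b0 (ex p)).le_of_opNorm_le_of_le n2 d1
  have k2 : ‖conj p.1 * ((ex p).2 - 1) - p.1.im * I‖ ≤ 51 / 10 ^ 6 := by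
    refine (norm_sub_le _ _).trans ?_
    simp only [norm_mul, norm_conj, norm_I, norm_real, Real.norm_eq_abs]
    nlinarith [norm_nonneg p.1, norm_nonneg ((ex p).2 - 1)]
  have k3 : ‖(((ex p).2 - 1) * a.1, ((ex p).2 - 1) * a.2 / 2 -
      (conj p.1 * ((ex p).2 - 1) - p.1.im * I) * a.1)‖ ≤ 57 / 10 ^ 6 * ‖a‖ := by
    have m1 := mul_le_mul w2 a1 (abs_nonneg _) (by norm_num)
    have m2 := mul_le_mul w2 a2 (abs_nonneg _) (by norm_num)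
    have m3 := mul_le_mul k2 a1 (abs_nonneg _) (by norm_num)
    refine max_le ?_ ((norm_sub_le _ _).trans ?_) <;>
      simp only [norm_mul, norm_div, norm_real, Real.norm_eq_abs, Complex.norm_ofNat] <;>
      linarith [norm_nonneg a]
  rw [kh_norm]
  nlinarith [norm_nonneg a]

noncomputable def Pkg.G (P : Pkg κ δ) (t : ℝ) : ℂ × ℂ :=
  ((P.Φ (t, 0, 0, 0)).1, (P.Φ (t, 0, 0, 0)).2.1)

noncomputable def Loc.V {P : Pkg κ δ} (L : Loc P) (p : ℂ × ℂ) : ℂ :=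
  L.U (ex p) - L.U (p.1, ce (2 * p.2.re)) + L.B (p.1, p.2.re)

lemma Pkg.G_cd (P : Pkg κ δ) : ContDiff ℝ 2 P.G := by
  have : ContDiff ℝ 2 fun t : ℝ => P.Φ (t, 0, 0, 0) :=
    (P.flow.smooth.of_le (by norm_cast)).comp (contDiff_id.prodMk contDiff_const)
  exact this.fst.prodMk (ofRealCLM.contDiff.comp this.snd.fst)

lemma Pkg.G_im (P : Pkg κ δ) (t : ℝ) : (deriv P.G t).2.im = 0 := by
  have h := P.flow.deriv (0, 0, 0) t
  have := (((ContinuousLinearMap.id ℝ ℂ).prodMap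
    (ofRealCLM.comp (ContinuousLinearMap.fst ℝ ℝ ℝ))).hasFDerivAt.comp_hasDerivAt t h).deriv
  rw [show deriv P.G t = _ from this]
  simp

lemma Pkg.G_ex (P : Pkg κ δ) (t : ℝ) : ex (P.G t) = P.y 0 0 t := ex_real _ _

lemma Loc.V_cd {P : Pkg κ δ} (L : Loc P) {p : ℂ × ℂ} (h1 : ‖p.1‖ ≤ 5) (h : 0 ≤ p.2.im) :
    ContDiffAt ℝ 1 L.V p := by
  have r : ContDiff ℝ 1 fun p : ℂ × ℂ => p.2.re := reCLM.contDiff.comp contDiff_snd
  refine (((L.cU (ex p) h1 (ex_norm h)).comp p ex_cd.contDiffAt).sub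
    ((L.cU (p.1, ce (2 * p.2.re)) h1 (mid_norm_ce _).le).comp p (contDiff_fst.prodMk
      (mid_ce_cd.comp (contDiff_const.mul r))).contDiffAt)).add
    ((L.cB (p.1, p.2.re) h1).comp p (contDiff_fst.prodMk r).contDiffAt)

lemma Loc.V_eq {P : Pkg κ δ} (L : Loc P) {p : ℂ × ℂ} (h1 : ‖p.1‖ < 5) (h : p.1 ∈ L.E) :
    L.V =ᶠ[𝓝 p] L.U ∘ ex := by
  filter_upwards [continuous_fst.continuousAt.eventually (L.opn.mem_nhds h),
    continuous_fst.norm.continuousAt.eventually (gt_mem_nhds h1)] with x a b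
  simp [Loc.V, L.ext _ a b.le]

lemma mid_log {w : ℂ} {θ : ℝ} (h : ‖w - ce (2 * θ)‖ ≤ 1 / 2) (h1 : ‖w‖ ≤ 1) :
    ∃ d : ℂ, ‖d‖ ≤ ‖w - ce (2 * θ)‖ ∧ 0 ≤ d.im ∧ cexp (2 * (θ + d) * I) = w := by
  have e : w * ce (-(2 * θ)) = 1 + (w - ce (2 * θ)) * ce (-(2 * θ)) := by
    linear_combination mid_ce_neg (2 * θ)
  have n : ‖(w - ce (2 * θ)) * ce (-(2 * θ))‖ = ‖w - ce (2 * θ)‖ := by
    rw [norm_mul, mid_norm_ce, mul_one]
  have n1 : ‖w * ce (-(2 * θ))‖ ≤ 1 := by rwa [norm_mul, mid_norm_ce, mul_one]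
  have h0 : w * ce (-(2 * θ)) ≠ 0 := fun h0 => by
    rw [show (w - ce (2 * θ)) * ce (-(2 * θ)) = -1 by linear_combination h0 - e] at n
    rw [← n] at h; norm_num at h
  refine ⟨-I / 2 * log (w * ce (-(2 * θ))), ?_, ?_, ?_⟩
  · have := Complex.norm_log_one_add_half_le_self (n.trans_le h)
    rw [← e, n] at this
    simp only [norm_mul, norm_div, norm_neg, norm_I, Complex.norm_ofNat]
    linarith [norm_nonneg (w - ce (2 * θ))]
  · have := Real.log_nonpos (norm_nonneg _) n1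
    rw [← log_re] at this
    simp; linarith
  · rw [show 2 * (θ + -I / 2 * log (w * ce (-(2 * θ)))) * I =
      (2 * θ : ℝ) * I + log (w * ce (-(2 * θ))) by
        push_cast; linear_combination (-log (w * ce (-(2 * θ)))) * I_mul_I,
      Complex.exp_add, exp_log h0]
    exact (by linear_combination w * mid_ce_neg (2 * θ) : ce (2 * θ) * (w * ce (-(2 * θ))) = w)

theorem Loc.approx {P : Pkg κ δ} (L : Loc P) (hδ : δ ≤ 1 / 10 ^ 6) :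
    ∃ μ > 0, μ ≤ 1 / 10 ^ 6 ∧ ∃ H : ℕ → ℂ × ℂ → ℂ, (∀ n, Differentiable ℂ (H n)) ∧
      ∃ f : ℂ × ℂ → ℂ, (∀ ε > 0, ∀ᶠ n in atTop, ∀ q, ‖q - P.β (0, 1)‖ ≤ μ → LR (pi0 (P.Ψ q)) →
        ‖H n (kh q) - f q‖ ≤ ε) ∧ ∀ z θ, ‖z‖ ≤ 2 → ‖P.β (z, ce (2 * θ)) - P.β (0, 1)‖ ≤ μ →
          f (P.β (z, ce (2 * θ))) = L.B (z, θ) := by
  have Gc := P.G_cd.continuous
  have hT : IsCompact ({t | 1 ≤ |t|} ∩ Icc (-3 : ℝ) 3) :=
    isCompact_Icc.inter_left (isClosed_le continuous_const continuous_abs)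
  obtain ⟨r, hr, hE⟩ := (hT.image Gc.fst).exists_thickening_subset_open L.opn (by
    rintro _ ⟨t, ⟨h1, h2⟩, rfl⟩
    rcases le_abs.1 (show 1 ≤ |t| from h1) with h | h
    exacts [L.up 0 ⟨le_rfl, Real.pi_pos.le⟩ t ⟨by linarith, h2.2⟩, L.left t ⟨h2.1, by linarith⟩])
  obtain ⟨s, s0, s1, s2⟩ : ∃ s : ℝ, 0 < s ∧ s ≤ 1 / 10 ^ 6 ∧ s ≤ r / 3 :=
    ⟨min _ _, by positivity, min_le_left _ _, min_le_right _ _⟩
  set Z : ℂ × ℂ → ℂ × ℂ := fun p => kh (P.β (ex p)) with hZ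
  set R := (fun a : ℝ × ℂ × ℂ => P.G a.1 + a.2) ''
    (Icc (-3) 3 ×ˢ (closedBall 0 (2 * s) ∩ {d | 0 ≤ d.2.im})) with hR
  have mR : ∀ t ∈ Icc (-3 : ℝ) 3, ∀ d : ℂ × ℂ, ‖d‖ ≤ 2 * s → 0 ≤ d.2.im → P.G t + d ∈ R :=
    fun t ht d h1 h2 => ⟨(t, d), ⟨ht, mem_closedBall_zero_iff.2 h1, h2⟩, rfl⟩
  have pR : ∀ p ∈ R, ‖p.1‖ ≤ 4 ∧ |p.1.im| ≤ 3 / 10 ^ 6 ∧ ‖p.2‖ ≤ 3 / 10 ^ 6 ∧ 0 ≤ p.2.im := by
    rintro _ ⟨⟨t, d⟩, ⟨ht, h1, h2⟩, rfl⟩
    have t3 := abs_le.2 ht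
    obtain ⟨c1, c2⟩ := P.close 0 0 t (by simp) (by linarith)
    have c3 := P.pos_le (z := 0) (θ := 0) (t := t) (by simp; linarith)
    obtain ⟨d1, d2⟩ := mid_ball.1 h1
    have c4 := (abs_im_le_norm _).trans c1
    have c5 := (abs_im_le_norm _).trans d1
    simp only [mid_ce_zero, zero_add, mul_one, sub_im, ofReal_im, sub_zero, norm_zero] at c2 c3 c4
    refine ⟨(norm_add_le _ _).trans ?_, (abs_add_le _ _).trans ?_, (norm_add_le _ _).trans ?_, ?_⟩ <;>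
      simp only [Pkg.G, norm_real, Real.norm_eq_abs]
    · linarith
    · linarith
    · linarith
    · simpa using h2
  have cZ : ∀ p ∈ R, ContDiffAt ℝ 2 Z p := fun p hp =>
    kh.contDiff.contDiffAt.comp p ((P.nβ (ex p) (mid_ball.2 ⟨(pR p hp).1.trans (by norm_num),
      (ex_norm (pR p hp).2.2.2).trans (by norm_num)⟩)).1.comp p ex_cd.contDiffAt)
  have cV : ∀ p ∈ R, ContDiffAt ℝ 1 L.V p := fun p hp =>
    L.V_cd ((pR p hp).1.trans (by norm_num)) (pR p hp).2.2.2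
  have sZ : ∀ p ∈ R, Sol (κ p.1) (fun y => -I / 2 * (P.β y).1) (ex p) 0 ∧
      Sol (κ p.1) (fun y => I / 2 * (P.β y).2) (ex p) 0 := fun p hp =>
    (P.sol (ex p) ((pR p hp).1.trans (by norm_num)) (ex_norm (pR p hp).2.2.2)).imp
      (·.cmul _) (·.cmul _)
  have ZG : ∀ t ∈ Icc (-3 : ℝ) 3, Z (P.G t) = kh (P.β (0, 1)) := fun t ht => by
    simp only [hZ, P.G_ex]
    rw [P.β_flow hδ (by rw [norm_zero]; linarith [abs_le.2 ht])]
    simp [mid_ce_zero]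
  obtain ⟨C, hC⟩ := (isCompact_Icc (a := (-3 : ℝ)) (b := 3)).exists_bound_of_continuousOn
    (P.G_cd.continuous_deriv (by norm_num)).continuousOn
  have C0 : 0 ≤ C := (norm_nonneg _).trans (hC 0 (by simp))
  obtain ⟨ν, ν0, hν⟩ := Metric.eventually_nhds_iff.1 ((isCompact_Icc (a := (-3 : ℝ)) (b := 3)
    ).eventually_forall_of_forall_eventually (x₀ := (0 : ℂ × ℂ))
    (P := fun d t => ‖Z (P.G t + d) - kh (P.β (0, 1))‖ ≤ s / 100) fun t ht => by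
      have : ContinuousAt (fun a : (ℂ × ℂ) × ℝ => ‖Z (P.G a.2 + a.1) - kh (P.β (0, 1))‖) (0, t) :=
        (((cZ _ (mR t ht 0 (by simp [s0.le]) (by simp))).continuousAt.comp (x := (0, t))
          (f := fun a : (ℂ × ℂ) × ℝ => P.G a.2 + a.1) (by fun_prop)).sub continuousAt_const).norm
      exact this.eventually (ge_mem_nhds (by simp [ZG t ht, s0])))
  obtain ⟨H, hH, ap⟩ := bt_approx ((isCompact_Icc.prod ((isCompact_closedBall _ _).inter_right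
    (isClosed_le continuous_const (by fun_prop)))).image (by fun_prop) : IsCompact R) cZ cV
    (fun p hp => ⟨(abs_re_le_norm _).trans (pR p hp).1, P.Z_est hδ (pR p hp).1 (pR p hp).2.1
      (pR p hp).2.2.1 (pR p hp).2.2.2⟩) (c := kh (P.β (0, 1))) (m0 := P.G 0) (L := 3 * C + 1) s0
  have ia : ∀ a : ℝ × ℝ, ‖iot a‖ = ‖a‖ := fun a => by simp [iot, Prod.norm_def, max_comm]
  have st1 : ∀ t ∈ Icc (-3 : ℝ) 3, Step Z L.V R (kh (P.β (0, 1))) s (3 * C + 1) (P.G 0) (P.G t) := by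
    refine fun t ht => ⟨fun l => P.G (l * t), P.G_cd.comp (by fun_prop), by simp, by simp,
      fun l hl => ?_⟩
    have h1 : l * t ∈ Icc (-3 : ℝ) 3 := ⟨by nlinarith [hl.1, hl.2, ht.1, ht.2],
      by nlinarith [hl.1, hl.2, ht.1, ht.2]⟩
    have h2 : deriv (fun l => P.G (l * t)) l = t • deriv P.G (l * t) := by
      have := ((P.G_cd.differentiable (by norm_num) (l * t)).hasDerivAt.scomp l
        (hasDerivAt_mul_const t)).deriv
      exact this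
    refine ⟨?_, by simp [ZG _ h1]; linarith, fun a ha => ?_⟩
    · rw [h2, norm_smul]
      linarith [mul_le_mul (show ‖t‖ ≤ 3 from abs_le.2 ht) (hC _ h1) (norm_nonneg _) (by norm_num)]
    have h3 := mR _ h1 (iot a) (by rw [ia]; linarith) (by simp [iot])
    refine ⟨h3, ?_⟩
    obtain ⟨z, θ, e⟩ : ∃ (z : ℂ) (θ : ℝ), P.G (l * t) + iot a = (z, (θ : ℂ)) :=
      ⟨_, (P.Φ (l * t, 0, 0, 0)).2.1 + a.1, Prod.ext rfl (by simp [Pkg.G, iot])⟩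
    simp only [e] at h3 ⊢
    obtain ⟨p1, -, p2, -⟩ := pR _ h3
    refine mid_wedge1 (mid_X ((cV _ h3).differentiableAt one_ne_zero) ?_) (sZ _ h3).1.exX
      (sZ _ h3).2.exX ?_ (by simp) (by simp [h2, P.G_im])
    · simpa [Loc.V, ex_real] using L.inv (z, θ) (p1.trans (by norm_num))
    · simp only [norm_real, Real.norm_eq_abs] at p2
      simp only [ce, exp_ofReal_mul_I_re]
      exact (Real.cos_pos_of_mem_Ioo (abs_lt.1 (by linarith [Real.pi_gt_three]))).ne'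
  have mE : ∀ t, 1 ≤ |t| → t ∈ Icc (-3 : ℝ) 3 → ∀ d : ℂ × ℂ, ‖d‖ ≤ 2 * s → (P.G t + d).1 ∈ L.E :=
    fun t h1 ht d hd => hE (mem_thickening_iff.2 ⟨_, ⟨t, ⟨h1, ht⟩, rfl⟩, by
      simp only [Prod.fst_add, dist_self_add_left]; linarith [norm_fst_le d]⟩)
  have st2 : ∀ t, 1 ≤ |t| → t ∈ Icc (-3 : ℝ) 3 → ∀ d : ℂ × ℂ, ‖d‖ < ν → ‖d‖ ≤ s → 0 ≤ d.2.im →
      Step Z L.V R (kh (P.β (0, 1))) s (3 * C + 1) (P.G t) (P.G t + d) := by
    refine fun t h1 ht d d1 d2 d3 => ⟨fun l => P.G t + l • d, by fun_prop, by simp, by simp,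
      fun l hl => ?_⟩
    have h2 : ‖l • d‖ ≤ ‖d‖ := by
      rw [norm_smul, Real.norm_of_nonneg hl.1]; nlinarith [hl.2, norm_nonneg d]
    refine ⟨by simp [deriv_smul_const]; linarith, hν (by simpa using h2.trans_lt d1) t ht, fun a ha => ?_⟩
    have h4 : ‖l • d + iot a‖ ≤ 2 * s := (norm_add_le _ _).trans (by rw [ia]; linarith)
    have h3 := mR t ht _ h4 (by simpa [iot] using mul_nonneg hl.1 d3)
    have h5 := mE t h1 ht _ h4
    simp only [add_assoc]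
    refine ⟨h3, ?_⟩
    rw [(L.V_eq ((pR _ h3).1.trans_lt (by norm_num)) h5).fderiv_eq]
    exact mid_wedge2 (L.solU (ex (P.G t + (l • d + iot a))) h5 ((pR _ h3).1.trans (by norm_num))
      (ex_norm (pR _ h3).2.2.2)) (sZ _ h3).1 (sZ _ h3).2 _ _ _
  obtain ⟨μ, μ0, μ1, μ2⟩ : ∃ μ : ℝ, 0 < μ ∧ μ ≤ s / 16 ∧ μ ≤ ν / 17 :=
    ⟨min _ _, by positivity, min_le_left _ _, min_le_right _ _⟩
  have key : ∀ q, ∃ v, ‖q - P.β (0, 1)‖ ≤ μ → LR (pi0 (P.Ψ q)) → (∃ m m1,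
      Step Z L.V R (kh (P.β (0, 1))) s (3 * C + 1) (P.G 0) m1 ∧
      Step Z L.V R (kh (P.β (0, 1))) s (3 * C + 1) m1 m ∧ Z m = kh q ∧ L.V m = v) ∧
      ∀ z θ, ‖z‖ ≤ 2 → P.β (z, ce (2 * θ)) = q → v = L.B (z, θ) := by
    intro q
    by_cases h : ‖q - P.β (0, 1)‖ ≤ μ ∧ LR (pi0 (P.Ψ q)); swap
    · exact ⟨0, fun a b => (h ⟨a, b⟩).elim⟩
    obtain ⟨t, t1, t2, y, y1, y2, y3, y4⟩ := P.mid_lift hδ (h.1.trans (by linarith)) h.2
    have ht : t ∈ Icc (-3 : ℝ) 3 := abs_le.1 (by linarith)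
    have y5 := (norm_snd_le _).trans y1
    have y6 := (norm_fst_le _).trans y1
    obtain ⟨d, d1, d2, d3⟩ := mid_log (θ := (P.Φ (t, 0, 0, 0)).2.1) (y5.trans (by linarith)) y2
    have d4 : ‖(y.1 - (P.G t).1, d)‖ ≤ 16 * μ :=
      max_le (y6.trans (by linarith)) ((d1.trans y5).trans (by linarith))
    have e : ex (P.G t + (y.1 - (P.G t).1, d)) = y := Prod.ext (by simp [ex]) d3
    have h5 := mE t t1 ht _ (d4.trans (by linarith))
    have h6 := (pR _ (mR t ht _ (d4.trans (by linarith)) d2)).1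
    refine ⟨L.U y, fun _ _ => ⟨⟨_, _, st1 t ht, st2 t t1 ht _ (by linarith) (by linarith) d2,
      by simp only [hZ, e, y3], ?_⟩, fun z θ hz eq => ?_⟩⟩
    · rw [(L.V_eq (h6.trans_lt (by norm_num)) h5).eq_of_nhds, Function.comp, e]
    have mz : (z, ce (2 * θ)) ∈ closedBall (0 : ℂ × ℂ) 5 :=
      mid_ball.2 ⟨by linarith, by simp [mid_norm_ce]⟩
    obtain ⟨α, hα⟩ := mid_ce_surj (y4 (by
      rw [← eq, P.key _ mz]; exact (P.sgn _ mz).2.2 (mid_norm_ce _)))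
    simp only [Prod.fst_add, add_sub_cancel] at h5 h6
    have c3 := P.pos_le (z := 0) (θ := 0) (t := t) (by simp; linarith)
    have c4 := norm_le_norm_sub_add y.1 (P.Φ (t, 0, 0, 0)).1
    have c5 := (norm_snd_le _).trans P.c_near
    have c6 := (norm_snd_le _).trans h.1
    have c7 := P.nΨ.snd (closedBall_subset_closedBall (by norm_num) (P.near_mem hδ (h.1.trans
      (by linarith))))
    have c8 := norm_le_norm_sub_add (P.Ψ q).2 q.2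
    have c9 := norm_le_norm_sub_add q.2 (P.β (0, 1)).2
    simp only [norm_zero, Pkg.y, Prod.fst_sub, Prod.snd_sub, sub_zero] at c3 y6 c5 c6
    rw [L.edge hδ (z' := y.1) (θ' := α) (by linarith) (by linarith) (by rw [eq, hα, y3])
      (by rw [eq]; linarith), L.ext _ h5 (by linarith), hα]
  choose f hf using key
  refine ⟨μ, μ0, by linarith, H, hH, f, fun ε hε => (ap ε hε).mono fun n hn q h1 h2 => ?_,
    fun z θ hz h => (hf _ h ?_).2 z θ hz rfl⟩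
  · obtain ⟨m, m1, a, b, c, d⟩ := (hf q h1 h2).1
    rw [← c, ← d]
    exact hn m m1 a b
  · have mz : (z, ce (2 * θ)) ∈ closedBall (0 : ℂ × ℂ) 5 :=
      mid_ball.2 ⟨by linarith, by simp [mid_norm_ce]⟩
    rw [P.key _ mz, mid_pi0, (P.sgn _ mz).2.2 (mid_norm_ce _)]
    simp [LR]

end Pool.Agent.Lib.MP_0cc5e8_gt
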