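import Pool.Agent.Lib.MP_0cc5e8_gt.Calc

/-! Neumann series in C^n. -/

namespace Pool.Agent.Lib.MP_0cc5e8_gt

open Complex Set Filter Topology Metric
open scoped ComplexConjugate ContDiff Real

variable {Y V : Type} [NormedAddCommGroup Y] [NormedSpace ℝ Y] [FiniteDimensional ℝ Y]
  [NormedAddCommGroup V] [NormedSpace ℝ V] [CompleteSpace V]

namespace Neu

/-- `g` is C^j with all derivatives up to order `j` bounded by `b` -/
def Bd (j : ℕ) (b : ℝ) (g : Y → ℂ) : Prop :=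
  ContDiff ℝ j g ∧ ∀ i ≤ j, ∀ y, ‖iteratedFDeriv ℝ i g y‖ ≤ b

omit [FiniteDimensional ℝ Y]

theorem abs {j : ℕ} {K : (Y → ℂ) → Y → ℂ}
    (hA : ∀ f g, Continuous f → Continuous g → K (f + g) = K f + K g)
    (hK : ∀ i ≤ j, ∀ g b, Bd i b g → Bd i (b / 2) (K g)) {g0 : Y → ℂ} {b : ℝ} (h0 : Bd j b g0) :
    ∃ g : Y → ℂ, ContDiff ℝ j g ∧ ∀ y, g y = g0 y + K g y := by
  have u : ∀ m, Bd j (b / 2 ^ m) (K^[m] g0) := fun m => by
    induction m with
    | zero => simpa using h0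
    | succ m ih =>
      rw [Function.iterate_succ_apply', pow_succ, ← div_div]
      exact hK j le_rfl _ _ ih
  have sm : ∀ N, HasSum (fun m => b / 2 ^ (m + N)) (2 * (b / 2 ^ N)) := fun N => by
    convert hasSum_geometric_two' (2 * (b / 2 ^ N)) using 2
    ring
  have n0 : ∀ m y, ‖K^[m] g0 y‖ ≤ b / 2 ^ m := fun m y => by simpa using (u m).2 0 j.zero_le y
  let r : ℕ → Y → ℂ := fun N y => ∑' m, K^[m + N] g0 y
  have cr : ∀ N, ContDiff ℝ j (r N) := fun N => contDiff_tsum (N := j)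
    (v := fun _ m => b / 2 ^ (m + N)) (fun m => (u _).1) (fun _ _ => (sm N).summable)
    fun i m y hi => (u _).2 i (by simpa using hi) y
  have br : ∀ N y, ‖r N y‖ ≤ 2 * (b / 2 ^ N) := fun N y =>
    tsum_of_norm_bounded (sm N) fun m => n0 _ y
  have e : ∀ N, r N = K^[N] g0 + r (N + 1) := fun N => funext fun y => by
    simp only [r, Pi.add_apply]
    rw [(Summable.of_norm_bounded (sm N).summable fun m => n0 _ y).tsum_eq_zero_add]
    simp only [zero_add, add_assoc, add_comm 1]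
  have k : ∀ N, K (r 0) - r 1 = K (r N) - r (N + 1) := fun N => by
    induction N with
    | zero => rfl
    | succ N ih =>
      have h1 := e (N + 1)
      rw [Function.iterate_succ_apply'] at h1
      rw [ih, e N, hA _ _ (u N).1.continuous (cr _).continuous, sub_eq_sub_iff_add_eq_add,
        add_right_comm, ← h1, add_comm]
  refine ⟨r 0, cr 0, fun y => ?_⟩
  have z : (K (r 0) - r 1) y = 0 := by
    refine norm_le_zero_iff.1 (ge_of_tendsto' (x := atTop) (f := fun N => 4 * (b / 2 ^ N))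
      (by simpa using ((sm 0).summable.tendsto_atTop_zero).const_mul 4) fun N => ?_)
    have h1 := (hK 0 j.zero_le (r N) _ ⟨(cr N).of_le (by simp), fun i hi y => by
      rw [Nat.le_zero.1 hi, norm_iteratedFDeriv_zero]; exact br N y⟩).2 0 le_rfl y
    have h2 := br (N + 1) y
    have h3 := (norm_nonneg _).trans (br N y)
    rw [norm_iteratedFDeriv_zero] at h1
    rw [pow_succ, ← div_div] at h2
    rw [k N]
    exact (norm_sub_le _ _).trans (by linarith)
  exact (congrFun (e 0) y).trans (congrArg (g0 y + ·) (sub_eq_zero.1 z).symm)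

omit [CompleteSpace V] in
theorem cont {A : ℝ × Y → V} (h : ContDiff ℝ ∞ A) (i : ℕ) :
    Continuous fun q : ℝ × Y => ‖iteratedFDeriv ℝ i (fun p => A (q.1, p)) q.2‖ := by
  induction i generalizing V with
  | zero => simpa using h.continuous.norm
  | succ i ih =>
    simp only [← norm_iteratedFDeriv_fderiv]
    exact ih (A := fun q => fderiv ℝ (fun p => A (q.1, p)) q.2)
      (ContDiff.fderiv (f := fun (q : ℝ × Y) p => A (q.1, p)) (m := ∞)
        (h.comp (contDiff_fst.fst.prodMk contDiff_snd)) contDiff_snd (by simp))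

omit [CompleteSpace V] in
theorem ev {A : ℝ × Y → V} (h : ContDiff ℝ ∞ A) (n : ℕ) {S : Set Y} (hS : IsCompact S) {c : ℝ}
    (h0 : ∀ i ≤ n, ∀ p ∈ S, ‖iteratedFDeriv ℝ i (fun p => A (0, p)) p‖ < c) :
    ∀ᶠ e in 𝓝 (0 : ℝ), ∀ i ≤ n, ∀ p ∈ S, ‖iteratedFDeriv ℝ i (fun p => A (e, p)) p‖ ≤ c :=
  (eventually_all_finite (finite_Iic n)).2 fun i hi =>
    hS.eventually_forall_of_forall_eventually fun p hp =>
      (((cont h i).tendsto (0, p)).eventually_lt_const (h0 i hi p hp)).mono fun _ => le_of_lt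

omit [CompleteSpace V] in
theorem bound {j n : ℕ} {g : Y → V} (h : ContDiff ℝ j g) (hn : n ≤ j) {S : Set Y}
    (hS : IsCompact S) : ∃ D ≥ 1, ∀ i ≤ n, ∀ p ∈ S, ‖iteratedFDeriv ℝ i g p‖ < D := by
  obtain ⟨M, hM⟩ := hS.bddAbove_image (f := fun p => ∑ i ∈ Finset.Iic n, ‖iteratedFDeriv ℝ i g p‖)
    (continuous_finsetSum _ fun i hi => (h.continuous_iteratedFDeriv
      (by exact_mod_cast (Finset.mem_Iic.1 hi).trans hn)).norm).continuousOn
  refine ⟨|M| + 1, by simp, fun i hi p hp => ?_⟩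
  have := (Finset.single_le_sum (f := fun i => ‖iteratedFDeriv ℝ i g p‖)
    (fun _ _ => norm_nonneg _) (Finset.mem_Iic.2 hi)).trans (hM ⟨p, hp, rfl⟩)
  linarith [le_abs_self M]

theorem prod {P : Type} [NormedAddCommGroup P] [NormedSpace ℝ P] {a : P → ℂ} {Z : P → Y}
    {g : Y → ℂ} {i j n : ℕ} {ε D b : ℝ} {p : P} (ha : ContDiff ℝ j a) (hZ : ContDiff ℝ j Z)
    (hg : Bd j b g) (hi : i ≤ j) (hj : j ≤ n) (hD : 1 ≤ D)
    (h1 : ∀ l ≤ n, ‖iteratedFDeriv ℝ l a p‖ ≤ ε) (h2 : ∀ l ≤ n, ‖iteratedFDeriv ℝ l Z p‖ ≤ D) :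
    ‖iteratedFDeriv ℝ i (fun p => a p * g (Z p)) p‖ ≤ 2 ^ n * (n.factorial * D ^ n) * ε * b := by
  have b0 := (norm_nonneg _).trans (hg.2 0 j.zero_le 0)
  have e0 := (norm_nonneg _).trans (h1 0 n.zero_le)
  refine (norm_iteratedFDeriv_mul_le ha (hg.1.comp hZ) p (by exact_mod_cast hi)).trans
    ((Finset.sum_le_sum (g := fun l => (i.choose l : ℝ) * (ε * (n.factorial * b * D ^ n)))
      fun l hl => ?_).trans ?_)
  · have := Finset.mem_range.1 hl
    rw [mul_assoc]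
    gcongr
    · exact h1 l (by omega)
    · refine (norm_iteratedFDeriv_comp_le hg.1 hZ (by exact_mod_cast (by omega : i - l ≤ j)) p
        (fun m hm => hg.2 m (by omega) _) fun m h3 h4 =>
          (h2 m (by omega)).trans (le_self_pow₀ hD (by omega))).trans ?_
      gcongr <;> omega
  · rw [← Finset.sum_mul, ← Nat.cast_sum, Nat.sum_range_choose]
    calc _ ≤ (2 : ℝ) ^ n * (ε * (n.factorial * b * D ^ n)) := by
          push_cast
          gcongr
          exacts [one_le_two, by omega]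
      _ = _ := by ring

end Neu

open Neu

theorem neumann (n : ℕ) {χ : Y → ℝ} (hχ : ContDiff ℝ ∞ χ) (hc : HasCompactSupport χ)
    {k : ℝ × Y × ℝ × ℝ → ℂ} {Z : ℝ × Y × ℝ × ℝ → Y} (hk : ContDiff ℝ ∞ k) (hZ : ContDiff ℝ ∞ Z)
    (h0 : ∀ p, k (0, p) = 0) (T : ℝ) :
    ∀ᶠ e in 𝓝 (0 : ℝ), ∀ j ≤ n, ∀ g0 : Y → ℂ, ContDiff ℝ j g0 → HasCompactSupport g0 →
      ∃ g : Y → ℂ, ContDiff ℝ j g ∧ ∀ y, g y = g0 y + χ y *
        ∫ θ in (0 : ℝ)..2 * π, ∫ t in (0 : ℝ)..T, k (e, y, θ, t) * g (Z (e, y, θ, t)) := by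
  let s : ℝ × (Y × ℝ) × ℝ → ℝ × Y × ℝ × ℝ := fun q => (q.1, q.2.1.1, q.2.1.2, q.2.2)
  have cs : ContDiff ℝ ∞ s := by fun_prop
  let a : ℝ × (Y × ℝ) × ℝ → ℂ := fun q => χ q.2.1.1 * k (s q)
  have ca : ContDiff ℝ ∞ a :=
    (ofRealCLM.contDiff.comp (hχ.comp contDiff_snd.fst.fst)).mul (hk.comp cs)
  have cZ : ContDiff ℝ ∞ (Z ∘ s) := hZ.comp cs
  have sl : ∀ (e : ℝ) (j : ℕ), ContDiff ℝ j fun p : (Y × ℝ) × ℝ => (e, p) := fun _ _ => by fun_prop
  have hS := (hc.isCompact.prod (isCompact_uIcc (a := (0 : ℝ)) (b := 2 * π))).prod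
    (isCompact_uIcc (a := (0 : ℝ)) (b := T))
  obtain ⟨D, D1, hD⟩ := bound ((cZ.of_le (by exact_mod_cast le_top)).comp (sl 0 n)) le_rfl hS
  set M := |2 * π - 0| * (|T - 0| * (2 ^ n * (n.factorial * D ^ n))) with hM
  have M0 : 0 ≤ M := by positivity
  filter_upwards [ev cZ n hS hD, ev ca n hS (c := 1 / (2 * (M + 1))) fun i _ p _ => by
    simp only [a, s, h0, mul_zero, iteratedFDeriv_fun_zero, Pi.zero_apply, norm_zero]
    positivity] with e e1 e2 j hj g0 g1 g2
  let K : (Y → ℂ) → Y → ℂ := fun g y => ∫ θ in (0 : ℝ)..2 * π, ∫ t in (0 : ℝ)..T,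
    a (e, (y, θ), t) * g (Z (s (e, (y, θ), t)))
  have eK : ∀ g y, K g y = χ y *
      ∫ θ in (0 : ℝ)..2 * π, ∫ t in (0 : ℝ)..T, k (e, y, θ, t) * g (Z (e, y, θ, t)) := fun g y => by
    simp only [K, a, s, mul_assoc, intervalIntegral.integral_const_mul]
  have cI : ∀ {i : ℕ} {g : Y → ℂ}, ContDiff ℝ i g →
      ContDiff ℝ i fun p : (Y × ℝ) × ℝ => a (e, p) * g (Z (s (e, p))) := fun h =>
    ((ca.of_le (by exact_mod_cast le_top)).comp (sl e _)).mul
      (h.comp ((cZ.of_le (by exact_mod_cast le_top)).comp (sl e _)))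
  obtain ⟨b, -, hb⟩ := bound g1 le_rfl g2.isCompact
  have hb : Bd j |b| g0 := ⟨g1, fun i hi y => by
    by_cases hy : y ∈ tsupport g0
    · exact (hb i hi y hy).le.trans (le_abs_self b)
    · rw [((notMem_tsupport_iff_eventuallyEq.1 hy).iteratedFDeriv ℝ i).self_of_nhds]
      simp⟩
  simp only [← eK]
  refine Neu.abs (fun f g hf hg => funext fun y => ?_) (fun i hi g b hg => ⟨?_, fun l hl y => ?_⟩) hb
  · have c1 := cI (i := 0) (contDiff_zero.2 hf)
    have c2 := cI (i := 0) (contDiff_zero.2 hg)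
    have sy : Continuous fun θ : ℝ => (y, θ) := by fun_prop
    simp only [K, Pi.add_apply, mul_add]
    refine (intervalIntegral.integral_congr fun θ _ => intervalIntegral.integral_add ?_ ?_).trans
      (intervalIntegral.integral_add
        (((contDiff_int (n := 0) c1 0 T).continuous.comp sy).intervalIntegrable _ _)
        (((contDiff_int (n := 0) c2 0 T).continuous.comp sy).intervalIntegrable _ _))
    exacts [(c1.continuous.comp (Continuous.prodMk_right (y, θ))).intervalIntegrable _ _,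
      (c2.continuous.comp (Continuous.prodMk_right (y, θ))).intervalIntegrable _ _]
  · exact contDiff_int (n := i) (contDiff_int (n := i) (cI hg.1) 0 T) 0 (2 * π)
  · have b0 := (norm_nonneg _).trans (hg.2 0 i.zero_le 0)
    by_cases hy : y ∈ tsupport χ
    · have c := cI (hg.1.of_le (m := l) (by exact_mod_cast hl))
      refine (iter_int_le (contDiff_int (n := l) c 0 T) 0 (2 * π) y fun θ hθ =>
        iter_int_le c 0 T (y, θ) fun t ht => Neu.prod ((ca.of_le (by exact_mod_cast le_top)).comp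
          (sl e _)) ((cZ.of_le (by exact_mod_cast le_top)).comp (sl e _)) hg hl (hi.trans hj) D1
          (fun m hm => e2 m hm _ ⟨⟨hy, hθ⟩, ht⟩) fun m hm => e1 m hm _ ⟨⟨hy, hθ⟩, ht⟩).trans ?_
      calc _ = M / (M + 1) * (b / 2) := by rw [hM]; field_simp
        _ ≤ _ := mul_le_of_le_one_left (by positivity) ((div_le_one (by positivity)).2 (by simp))
    · rw [(EventuallyEq.iteratedFDeriv ℝ (f₂ := 0) ((notMem_tsupport_iff_eventuallyEq.1 hy).mono
        fun x hx => by simp [eK, hx]) l).self_of_nhds]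
      simpa using by positivity

end Pool.Agent.Lib.MP_0cc5e8_gt
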