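import Pool.Agent.Lib.MP_0cc5e8_gt.Flow

/-! Auxiliary lemmas for the twistor package and the local theorem. -/

namespace Pool.Agent.Lib.MP_0cc5e8_gt.PL

open Complex Set Filter Topology Metric
open scoped ComplexConjugate ContDiff Real

lemma ce_add (a b : ℝ) : ce (a + b) = ce a * ce b := by
  simp [ce, add_mul, Complex.exp_add]

lemma ce_zero : ce 0 = 1 := by simp [ce]

lemma norm_ce (a : ℝ) : ‖ce a‖ = 1 := Complex.norm_exp_ofReal_mul_I a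

lemma ce_ne (a : ℝ) : ce a ≠ 0 := Complex.exp_ne_zero _

lemma ce_neg (a : ℝ) : ce (-a) = (ce a)⁻¹ := by
  simp [ce, Complex.exp_neg]

lemma conj_ce (a : ℝ) : conj (ce a) = (ce a)⁻¹ := by
  rw [← ce_neg, ce, ce, ← Complex.exp_conj]
  simp

lemma ce_nat (n : ℕ) (a : ℝ) : ce (n * a) = ce a ^ n := by
  rw [ce, ce, ← Complex.exp_nat_mul]
  push_cast
  ring_nf

lemma ce_two (a : ℝ) : ce (2 * a) = ce a ^ 2 := by exact_mod_cast ce_nat 2 a

lemma ce_three (a : ℝ) : ce (3 * a) = ce a ^ 3 := by exact_mod_cast ce_nat 3 a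

lemma ce_pi : ce π = -1 := Complex.exp_pi_mul_I

@[fun_prop]
lemma contDiff_ce {n : WithTop ℕ∞} : ContDiff ℝ n ce :=
  Complex.contDiff_exp.comp (ofRealCLM.contDiff.mul contDiff_const)

@[fun_prop]
lemma continuous_ce : Continuous ce := (contDiff_ce (n := 0)).continuous

@[fun_prop]
lemma contDiff_conj {n : WithTop ℕ∞} : ContDiff ℝ n fun z : ℂ => conj z := conjCLE.contDiff

lemma ce_arg {w : ℂ} (h : ‖w‖ = 1) : ce (arg w) = w := by
  have := Complex.norm_mul_exp_arg_mul_I w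
  rwa [h, ofReal_one, one_mul] at this

lemma ce_half {w : ℂ} (h : ‖w‖ = 1) : ce (2 * (arg w / 2)) = w := by
  rw [mul_div_cancel₀ _ two_ne_zero, ce_arg h]

lemma ce_lip (a b : ℝ) : ‖ce a - ce b‖ ≤ |a - b| := by
  have : ce a - ce b = ce b * (cexp (I * (a - b : ℝ)) - 1) := by
    rw [mul_sub, mul_one, mul_comm I, ← ce, ← ce_add, add_sub_cancel]
  rw [this, norm_mul, norm_ce, one_mul]
  exact Real.norm_exp_I_mul_ofReal_sub_one_le

lemma scl_zero (κ : ℂ → Co) (z : ℂ) : scl κ 0 z = 0 := by simp [scl]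

lemma qk_smul (c : ℝ) (k : Co) (w : ℂ) : qk (c • k) w = c * qk k w := by
  simp [qk]
  ring

lemma rk_smul (c : ℝ) (k : Co) (w : ℂ) : rk (c • k) w = c * rk k w := by
  simp [rk]
  ring

lemma sol_congr {k : Co} {W : ℂ × ℂ → ℂ} {y : ℂ × ℂ} {r r' : ℂ} (h : Sol k W y r) (e : r = r') :
    Sol k W y r' := e ▸ h

lemma sol_of {k : Co} {W : ℂ × ℂ → ℂ} {y : ℂ × ℂ} {r : ℂ} {L : ℂ × ℂ →L[ℝ] ℂ}
    (h : HasFDerivAt W L y) (a b : ℂ)
    (e : ∀ d, L d = a * lam1 y.2 d + b * lam2 (qk k y.2) d + r * conj d.1) : Sol k W y r :=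
  ⟨h.differentiableAt, a, b, fun d => by rw [h.fderiv, e]⟩

lemma sol_const (k : Co) (c : ℂ) (y : ℂ × ℂ) : Sol k (fun _ => c) y 0 :=
  sol_of (hasFDerivAt_const c y) 0 0 fun d => by simp

lemma sol_snd (k : Co) (y : ℂ × ℂ) : Sol k (fun y => y.2) y (qk k y.2) :=
  sol_of hasFDerivAt_snd 0 1 fun d => by simp [lam2]

lemma sol_fst (k : Co) (y : ℂ × ℂ) : Sol k (fun y => y.1) y y.2 :=
  sol_of hasFDerivAt_fst 1 0 fun d => by simp [lam1]

lemma sol_conj (k : Co) (y : ℂ × ℂ) : Sol k (fun y => conj y.1) y 1 :=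
  sol_of (conjCLE.hasFDerivAt.comp y hasFDerivAt_fst) 0 0 fun d => by simp

lemma sol_b0 (k : Co) (y : ℂ × ℂ) :
    Sol k (fun y => conj y.1 * y.2 - y.1) y (qk k y.2 * conj y.1) := by
  have := ((sol_conj k y).mul (sol_snd k y)).add ((sol_const k (-1) y).mul (sol_fst k y))
  simp only [neg_mul, one_mul, ← sub_eq_add_neg] at this
  exact sol_congr this (by ring)

lemma sol_div {k : Co} {M N : ℂ × ℂ → ℂ} {y : ℂ × ℂ} {F r : ℂ} (hM : Sol k M y (F + r * M y))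
    (hN : Sol k N y (r * N y)) (h0 : N y ≠ 0) : Sol k (fun y => M y * (N y)⁻¹) y (F * (N y)⁻¹) :=
  sol_congr (hM.mul (hN.inv h0)) (by field_simp; ring)

lemma sol_scale {k : Co} {W : ℂ × ℂ → ℂ} {z w r : ℂ} {c : ℝ} (hc : c ≠ 0)
    (h : Sol (c • k) W (c⁻¹ • z, w) r) :
    Sol k (fun y => (c : ℂ) * W (c⁻¹ • y.1, y.2)) (z, w) r := by
  obtain ⟨hd, a, b, e⟩ := h
  have h1 : HasFDerivAt (fun y : ℂ × ℂ => (c⁻¹ • y.1, y.2))
      ((c⁻¹ • ContinuousLinearMap.fst ℝ ℂ ℂ).prod (ContinuousLinearMap.snd ℝ ℂ ℂ)) (z, w) :=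
    (hasFDerivAt_fst.const_smul c⁻¹).prodMk hasFDerivAt_snd
  refine sol_of ((hd.hasFDerivAt.comp (z, w) h1).const_mul (c : ℂ)) a (c * b) fun d => ?_
  have hc' : (c : ℂ) ≠ 0 := by exact_mod_cast hc
  change (c : ℂ) * fderiv ℝ W (c⁻¹ • z, w) (c⁻¹ • d.1, d.2) = _
  rw [e]
  simp [lam1, lam2, qk_smul]
  field_simp

lemma flow_const {κ : ℂ → Co} {Φ : ℝ × St → St} (h : IsFlow κ Φ) {W : ℂ × ℂ → ℂ} {z : ℂ}
    {θ T : ℝ} (hW : ∀ t ∈ Ioo (-T) T, Sol (κ (Φ (t, z, θ, 0)).1) W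
      ((Φ (t, z, θ, 0)).1, ce (2 * (Φ (t, z, θ, 0)).2.1)) 0) {t : ℝ} (ht : t ∈ Ioo (-T) T) :
    W ((Φ (t, z, θ, 0)).1, ce (2 * (Φ (t, z, θ, 0)).2.1)) = W (z, ce (2 * θ)) := by
  have key : ∀ s ∈ Ioo (-T) T, HasDerivAt
      (fun s => W ((Φ (s, z, θ, 0)).1, ce (2 * (Φ (s, z, θ, 0)).2.1))) 0 s := fun s hs => by
    have h1 := (hW s hs).toXd 0
    have h2 := h.hasDerivAt_Xd 0 (u := fun p => ce (-(0 * p.2)) * W (p.1, ce (2 * p.2)))
      (z, θ, 0) s (by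
        refine DifferentiableAt.mul ?_ (DifferentiableAt.comp (g := W) _ (hW s hs).1 ?_)
        · exact ContDiff.differentiable (n := 1) (by fun_prop) one_ne_zero _
        · exact ContDiff.differentiable (n := 1) (by fun_prop) one_ne_zero _)
    rw [h1] at h2
    simpa [ce_zero] using h2
  have h0 : (0 : ℝ) ∈ Ioo (-T) T := ⟨by linarith [ht.1, ht.2], by linarith [ht.1, ht.2]⟩
  have := isOpen_Ioo.is_const_of_deriv_eq_zero isPreconnected_Ioo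
    (fun s hs => (key s hs).differentiableAt.differentiableWithinAt)
    (fun s hs => (key s hs).deriv) ht h0
  simpa [h.zero] using this

lemma foot {κ : ℂ → Co} {Φ : ℝ × St → St} (h : IsFlow κ Φ) {z : ℂ} {θ : ℝ} (hz : ‖z‖ ≤ 51 / 10)
    (hc : ∀ t : ℝ, |t| ≤ 10 → ‖(Φ (t, z, θ, 0)).1 - (z + t * ce θ)‖ ≤ 1 / 100 ∧
      |(Φ (t, z, θ, 0)).2.1 - θ| ≤ 1 / 100) :
    ∃ t ∈ Icc (-(53 / 10) : ℝ) (53 / 10),
      ((Φ (t, z, θ, 0)).1 * ce (-(Φ (t, z, θ, 0)).2.1)).re = 0 := by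
  have hΦ : Continuous fun t : ℝ => Φ (t, z, θ, 0) := h.smooth.continuous.comp (by fun_prop)
  have key : ∀ t : ℝ, |t| = 53 / 10 →
      |((Φ (t, z, θ, 0)).1 * ce (-(Φ (t, z, θ, 0)).2.1)).re - t| ≤ 525 / 100 := fun t ht => by
    obtain ⟨h1, h2⟩ := hc t (by linarith)
    set a := (Φ (t, z, θ, 0)).1
    set b := (Φ (t, z, θ, 0)).2.1
    have e : a * ce (-b) - t = (a - (z + t * ce θ)) * ce (-b) + z * ce (-b) +
        t * ce θ * (ce (-b) - ce (-θ)) := by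
      rw [ce_neg θ]
      field_simp [ce_ne θ]
      ring
    have h3 : ‖ce (-b) - ce (-θ)‖ ≤ 1 / 100 := (ce_lip _ _).trans (by
      rw [show -b - -θ = -(b - θ) by ring, abs_neg]; exact h2)
    have h4 : ‖a * ce (-b) - t‖ ≤ 525 / 100 := by
      rw [e]
      refine (norm_add₃_le).trans ?_
      simp only [norm_mul, norm_ce, mul_one, Complex.norm_real, Real.norm_eq_abs, ht]
      linarith
    have := (abs_re_le_norm _).trans h4
    simpa using this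
  have k1 := abs_le.1 (key (53 / 10) (by norm_num [abs_of_pos]))
  have k2 := abs_le.1 (key (-(53 / 10)) (by norm_num [abs_of_pos]))
  exact intermediate_value_Icc (f := fun t =>
    ((Φ (t, z, θ, 0)).1 * ce (-(Φ (t, z, θ, 0)).2.1)).re) (by norm_num)
    (continuous_re.comp (hΦ.fst.mul (continuous_ce.comp hΦ.snd.fst.neg))).continuousOn
    ⟨by linarith [k2.2], by linarith [k1.1]⟩

lemma eq_zero_of_smul {Y : Type} [NormedAddCommGroup Y] [NormedSpace ℝ Y] {ρ : Y → ℝ} {g : Y → ℂ}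
    {x : Y} (hρ : ρ x = 0 → fderiv ℝ ρ x ≠ 0) (hg : ContinuousAt g x)
    (h : ∀ᶠ y in 𝓝 x, ρ y • g y = 0) : g x = 0 := by
  have : ∃ᶠ y in 𝓝 x, ρ y ≠ 0 := fun h0 => by
    have h1 : ρ =ᶠ[𝓝 x] fun _ => 0 := h0.mono fun y hy => not_not.1 hy
    exact hρ h1.self_of_nhds (by rw [h1.fderiv_eq]; simp)
  exact tendsto_nhds_unique_of_frequently_eq hg tendsto_const_nhds
    ((this.and_eventually h).mono fun y hy => (smul_eq_zero.1 hy.2).resolve_left hy.1)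

lemma rho_fderiv {Y : Type} [NormedAddCommGroup Y] [NormedSpace ℝ Y] (L : Y →L[ℝ] ℂ)
    (x : Y) (h : 1 - ‖L x‖ ^ 2 = 0) :
    fderiv ℝ (fun y => 1 - ‖L y‖ ^ 2) x ≠ 0 := by
  intro h0
  have := ((L.hasFDerivAt (x := x)).norm_sq.const_sub 1).fderiv
  rw [h0] at this
  have := congrArg (fun T => T x) this
  simp at this
  rw [this] at h
  simp at h

end Pool.Agent.Lib.MP_0cc5e8_gt.PL
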