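import Pool.Agent.Lib.MP_0cc5e8_gt.Solve
import Pool.Agent.Lib.MP_0cc5e8_gt.PkgA

namespace Pool.Agent.Lib.MP_0cc5e8_gt

open Complex Set Filter Topology Metric
open scoped ComplexConjugate ContDiff Real

namespace PL

lemma ev_forall {X : Type} [TopologicalSpace X] {K : Set X} (hK : IsCompact K) {P : ℝ × X → Prop}
    (h : ∀ q ∈ K, ∀ᶠ p in 𝓝 ((0 : ℝ), q), P p) : ∀ᶠ η in 𝓝 (0 : ℝ), ∀ q ∈ K, P (η, q) :=
  hK.eventually_forall_of_forall_eventually (P := fun η q => P (η, q)) h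

lemma ev_fst {X : Type} [TopologicalSpace X] {q : X} {P : ℝ → Prop} (h : ∀ᶠ η in 𝓝 (0 : ℝ), P η) :
    ∀ᶠ p in 𝓝 ((0 : ℝ), q), P p.1 := (continuous_fst.tendsto ((0 : ℝ), q)).eventually h

lemma step1 {κ : ℂ → Co} (hκ : ContDiff ℝ ∞ κ) {e : ℝ}
    (hs : ∀ F : (ℝ × ℂ) × ℂ → ℂ, ContDiff ℝ (13 : ℕ) F →
      (∀ η z, |η| ≤ 1 → ‖z‖ ≤ 11 → DiffContOnCl ℂ (fun w => F ((η, z), w)) (ball 0 1)) →
      ∃ W : (ℝ × ℂ) × ℂ → ℂ, ContDiff ℝ (5 : ℕ) W ∧
        (∀ η z w, |η| ≤ 1 → ‖z‖ ≤ 11 → ‖w‖ ≤ 1 →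
          Sol (scl κ (e * η) z) (fun y => W ((η, y.1), y.2)) (z, w)
            (F ((η, z), w) + rk (scl κ (e * η) z) w * W ((η, z), w))) ∧
        ((∀ z w, F ((0, z), w) = 0) → ∀ z w, W ((0, z), w) = 0)) :
    ∃ (N : ℝ × ℂ × ℂ → ℂ) (β : ℝ × ℂ × ℂ → ℂ × ℂ), ContDiff ℝ 5 N ∧
      (∀ y, ContDiffAt ℝ 2 β (0, y)) ∧ (∀ y, β (0, y) = b0 y) ∧
      ∀ᶠ η in 𝓝 (0 : ℝ), ∀ y : ℂ × ℂ, ‖y.1‖ ≤ 11 → ‖y.2‖ ≤ 1 →
        (N (η, y) ≠ 0 ∧ Sol (scl κ (e * η) y.1) (fun y => N (η, y)) y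
          (rk (scl κ (e * η) y.1) y.2 * N (η, y))) ∧
        Sol (scl κ (e * η) y.1) (fun y => (β (η, y)).1) y 0 ∧
        Sol (scl κ (e * η) y.1) (fun y => (β (η, y)).2) y 0 := by
  have hκ' : ContDiff ℝ (13 : ℕ) κ := contDiff_infty.1 hκ 13
  have hk : ContDiff ℝ (13 : ℕ) fun p : (ℝ × ℂ) × ℂ => scl κ (e * p.1.1) p.1.2 := by
    unfold scl
    fun_prop
  have hr : ContDiff ℝ (13 : ℕ) fun p : (ℝ × ℂ) × ℂ => rk (scl κ (e * p.1.1) p.1.2) p.2 := by
    unfold rk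
    fun_prop
  have hq : ContDiff ℝ (13 : ℕ) fun p : (ℝ × ℂ) × ℂ => qk (scl κ (e * p.1.1) p.1.2) p.2 := by
    unfold qk
    fun_prop
  have dr : ∀ k, Differentiable ℂ (rk k) := fun k => by unfold rk; fun_prop
  have dq : ∀ k, Differentiable ℂ (qk k) := fun k => by unfold qk; fun_prop
  have r0 : ∀ z w, rk (scl κ (e * 0) z) w = 0 := fun z w => by simp [scl_zero, rk]
  have q0 : ∀ z w, qk (scl κ (e * 0) z) w = 0 := fun z w => by simp [scl_zero, qk]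
  obtain ⟨W0, c0, s0, z0⟩ := hs _ hr fun η z _ _ => (dr (scl κ (e * η) z)).diffContOnCl
  obtain ⟨W1, c1, s1, z1⟩ := hs (fun p => rk (scl κ (e * p.1.1) p.1.2) p.2 * p.2 -
    qk (scl κ (e * p.1.1) p.1.2) p.2) (by fun_prop) fun η z _ _ =>
      (((dr (scl κ (e * η) z)).mul differentiable_id).sub (dq (scl κ (e * η) z))).diffContOnCl
  obtain ⟨W2, c2, s2, z2⟩ := hs (fun p => rk (scl κ (e * p.1.1) p.1.2) p.2 *
    (conj p.1.2 * p.2 - p.1.2) - qk (scl κ (e * p.1.1) p.1.2) p.2 * conj p.1.2) (by fun_prop)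
      fun η z _ _ => (((dr (scl κ (e * η) z)).mul (b := fun w => conj z * w - z)
        (by fun_prop)).sub ((dq (scl κ (e * η) z)).mul_const (conj z))).diffContOnCl
  replace z0 := z0 r0
  replace z1 := z1 fun z w => by simp only [r0, q0]; simp
  replace z2 := z2 fun z w => by simp only [r0, q0]; simp
  have c0' : ContDiff ℝ 5 W0 := c0
  have d1 : ContDiff ℝ 2 W1 := c1.of_le (by norm_num)
  have d2 : ContDiff ℝ 2 W2 := c2.of_le (by norm_num)
  let N : ℝ × ℂ × ℂ → ℂ := fun x => 1 + W0 ((x.1, x.2.1), x.2.2)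
  have cN : ContDiff ℝ 5 N := by fun_prop
  have N0 : ∀ y, N (0, y) = 1 := fun y => by simp [N, z0]
  refine ⟨N, fun x => ((x.2.2 + W1 ((x.1, x.2.1), x.2.2)) * (N x)⁻¹,
    (conj x.2.1 * x.2.2 - x.2.1 + W2 ((x.1, x.2.1), x.2.2)) * (N x)⁻¹), cN, fun y => ?_,
    fun y => by simp [N0, z1, z2, b0], ?_⟩
  · have : ContDiffAt ℝ 2 (fun x => (N x)⁻¹) (0, y) :=
      (cN.of_le (by norm_num)).contDiffAt.inv (by simp [N0])
    exact (ContDiffAt.mul (by fun_prop) this).prodMk (ContDiffAt.mul (by fun_prop) this)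
  have e1 := ev_forall ((isCompact_closedBall (0 : ℂ) 11).prod (isCompact_closedBall (0 : ℂ) 1))
    (P := fun x => N x ≠ 0) fun q _ => cN.continuous.continuousAt.eventually_ne (by simp [N0])
  filter_upwards [e1, Icc_mem_nhds (show (-1 : ℝ) < 0 by norm_num) one_pos] with η h1 h2 y hz hw
  have hη : |η| ≤ 1 := abs_le.2 h2
  have hN := h1 y ⟨by simpa using hz, by simpa using hw⟩
  have sN : Sol (scl κ (e * η) y.1) (fun y => N (η, y)) y
      (rk (scl κ (e * η) y.1) y.2 * N (η, y)) :=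
    sol_congr ((sol_const _ 1 y).add (s0 η y.1 y.2 hη hz hw)) (by simp only [N]; ring)
  refine ⟨⟨hN, sN⟩, ?_, ?_⟩
  · exact sol_congr (sol_div (F := 0) (sol_congr ((sol_snd _ y).add (s1 η y.1 y.2 hη hz hw))
      (by ring)) sN hN) (zero_mul _)
  · exact sol_congr (sol_div (F := 0) (sol_congr ((sol_b0 _ y).add (s2 η y.1 y.2 hη hz hw))
      (by ring)) sN hN) (zero_mul _)

lemma norm_b0 {y : ℂ × ℂ} {R S : ℝ} (h1 : ‖y.1‖ ≤ R) (h2 : ‖y.2‖ ≤ S) (h : R * S + R ≤ 40)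
    (h' : S ≤ 40) : b0 y ∈ closedBall (0 : ℂ × ℂ) 40 := by
  rw [mem_closedBall_zero_iff, Prod.norm_def]
  refine max_le (h2.trans h') ((norm_sub_le _ _).trans ?_)
  rw [norm_mul, RCLike.norm_conj]
  have := mul_le_mul h1 h2 (norm_nonneg _) ((norm_nonneg _).trans h1)
  linarith

lemma step2 {β : ℝ × ℂ × ℂ → ℂ × ℂ} (hβ : ∀ y, ContDiffAt ℝ 2 β (0, y))
    (h0 : ∀ y, β (0, y) = b0 y) : ∃ G : ℝ × ℂ × ℂ → ℂ × ℂ,
      (∀ q ∈ closedBall (0 : ℂ × ℂ) 40, ContDiffAt ℝ 2 G (0, q)) ∧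
      (∀ᶠ q in 𝓝ˢ (closedBall (0 : ℂ × ℂ) 40), G (0, q) = q) ∧
      ∀ᶠ η in 𝓝 (0 : ℝ), ∀ z θ, ‖z‖ ≤ 11 → (z * ce (-θ)).re = 0 →
        G (η, β (η, z, ce (2 * θ))) = b0 (z, ce (2 * θ)) := by
  let χ : ContDiffBump (0 : ℂ) := ⟨1 / 4, 1 / 2, by norm_num, by norm_num⟩
  let u : ℂ × ℂ → ℂ := fun q => (‖q.1‖⁻¹ : ℝ) • q.1
  let s : ℂ × ℂ → ℂ × ℂ := fun q => ((u q * conj q.2 - q.2) / 4, u q)
  let Xi : ℝ × ℂ × ℂ → ℂ × ℂ := fun x => x.2 + (1 - χ x.2.1) • (β (x.1, s x.2) - b0 (s x.2))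
  have cb : ContDiff ℝ 2 b0 := by unfold b0; fun_prop
  obtain ⟨G, g0, g1⟩ := inv_near (n := 2) (by norm_num) (F := Xi)
    (isCompact_closedBall (0 : ℂ × ℂ) 40) (fun q _ => by
      by_cases hq : q.1 = 0
      · refine contDiffAt_snd.congr_of_eventuallyEq ?_
        have : ∀ᶠ x : ℝ × ℂ × ℂ in 𝓝 (0, q), χ x.2.1 = 1 :=
          (show Tendsto (fun x : ℝ × ℂ × ℂ => x.2.1) (𝓝 (0, q)) (𝓝 0) from
            hq ▸ (continuous_fst.comp continuous_snd).tendsto (0, q)).eventually χ.eventuallyEq_one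
        filter_upwards [this] with x hx
        simp [Xi, hx]
      · have cu : ContDiffAt ℝ 2 u q :=
          ((contDiffAt_fst.norm ℝ hq).inv (norm_ne_zero_iff.2 hq)).smul contDiffAt_fst
        have cs : ContDiffAt ℝ 2 s q := by
          refine ContDiffAt.prodMk (ContDiffAt.div_const (ContDiffAt.sub (cu.mul ?_) ?_) _) cu <;>
            fun_prop
        have cs' : ContDiffAt ℝ 2 (fun x : ℝ × ℂ × ℂ => s x.2) (0, q) :=
          ContDiffAt.comp (g := s) _ cs contDiffAt_snd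
        have cχ : ContDiff ℝ 2 χ := χ.contDiff
        have a : ContDiffAt ℝ 2 (fun x : ℝ × ℂ × ℂ => β (x.1, s x.2)) (0, q) :=
          ContDiffAt.comp (g := β) (f := fun x : ℝ × ℂ × ℂ => (x.1, s x.2)) (0, q) (hβ _)
            (contDiffAt_fst.prodMk cs')
        have b : ContDiffAt ℝ 2 (fun x : ℝ × ℂ × ℂ => b0 (s x.2)) (0, q) :=
          cb.contDiffAt.comp _ cs'
        have c : ContDiffAt ℝ 2 (fun x : ℝ × ℂ × ℂ => 1 - χ x.2.1) (0, q) := by fun_prop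
        exact contDiffAt_snd.add (c.smul (a.sub b))) (Eventually.of_forall fun q => by simp [Xi, h0])
  refine ⟨G, fun q hq => (g1 q hq).self_of_nhds.1, g0, ?_⟩
  filter_upwards [ev_forall (isCompact_closedBall _ _) g1] with η h z θ hz hre
  have hm := norm_b0 (y := (z, ce (2 * θ))) hz (norm_ce _).le (by norm_num) (by norm_num)
  have hz' : conj z * ce (2 * θ) = -z := by
    have : conj (z * ce (-θ)) = -(z * ce (-θ)) := 
      Complex.ext (by rw [conj_re, neg_re, hre, neg_zero]) (by rw [conj_im, neg_im])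
    rw [map_mul, conj_ce, ce_neg, inv_inv] at this
    rw [ce_two, sq, ← mul_assoc, this]
    field_simp [ce_ne θ]
  have hs : s (b0 (z, ce (2 * θ))) = (z, ce (2 * θ)) := by
    have h1 : conj (ce (2 * θ)) * ce (2 * θ) = 1 := by rw [conj_ce, inv_mul_cancel₀ (ce_ne _)]
    simp only [s, u, b0, norm_ce, inv_one, one_smul, map_sub, map_mul, conj_conj]
    congr 1
    linear_combination (z / 4) * h1 - (1 / 2) * hz'
  have hX : Xi (η, b0 (z, ce (2 * θ))) = β (η, z, ce (2 * θ)) := by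
    have : χ (b0 (z, ce (2 * θ))).1 = 0 := χ.zero_of_le_dist (by simp [χ, b0, norm_ce]; norm_num)
    simp only [Xi, hs, this]
    simp
  simpa only [hX] using (h _ hm).2.1

lemma step3 {P : ℝ × ℂ × ℂ → ℂ × ℂ}
    (hP : ∀ y ∈ ball (0 : ℂ × ℂ) (51 / 10), ContDiffAt ℝ 2 P (0, y) ∧ P (0, y) = b0 y)
    (hb : ∀ᶠ η in 𝓝 (0 : ℝ), ∀ y : ℂ × ℂ, ‖y.1‖ ≤ 51 / 10 → ‖y.2‖ = 1 →
      ∃ y' : ℂ × ℂ, ‖y'.2‖ = 1 ∧ P (η, y) = b0 y') :
    ∃ T : ℝ × ℂ × ℂ → ℂ × ℂ, (∀ y ∈ closedBall (0 : ℂ × ℂ) 5, ContDiffAt ℝ 1 T (0, y)) ∧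
      (∀ᶠ y in 𝓝ˢ (closedBall (0 : ℂ × ℂ) 5), T (0, y) = y) ∧
      ∀ᶠ η in 𝓝 (0 : ℝ), ∀ y ∈ closedBall (0 : ℂ × ℂ) 5, P (η, y) = b0 (T (η, y)) ∧
        (‖(T (η, y)).2‖ < 1 ↔ ‖y.2‖ < 1) ∧ (‖(T (η, y)).2‖ = 1 ↔ ‖y.2‖ = 1) := by
  let ρ : ℝ × ℂ × ℂ → ℝ := fun x => 1 - ‖x.2.2‖ ^ 2
  let F : ℝ × ℂ × ℂ → ℂ × ℝ := fun x => ((P x).2 + (P x).1 * conj (P x).2, 1 - ‖(P x).1‖ ^ 2)
  have cρ : ContDiff ℝ 2 ρ := contDiff_const.sub ((contDiff_norm_sq ℝ).comp (by fun_prop))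
  have dρ : ∀ x, ρ x = 0 → fderiv ℝ ρ x ≠ 0 := rho_fderiv
    (ContinuousLinearMap.snd ℝ ℂ ℂ ∘L ContinuousLinearMap.snd ℝ ℝ (ℂ × ℂ))
  have dρ' : ∀ y : ℂ × ℂ, ρ (0, y) = 0 → fderiv ℝ (fun y : ℂ × ℂ => ρ (0, y)) y ≠ 0 :=
    rho_fderiv (ContinuousLinearMap.snd ℝ ℂ ℂ)
  obtain ⟨Q, hQ⟩ := exists_quo ρ F
  have good : ∀ y ∈ ball (0 : ℂ × ℂ) (51 / 10),
      ContDiffAt ℝ 1 Q (0, y) ∧ ∀ᶠ x in 𝓝 ((0 : ℝ), y), F x = ρ x • Q x := fun y hy => by
    have h1 := (hP y hy).1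
    refine hQ 1 (0, y) cρ.contDiffAt ?_ (dρ _) ?_
    · exact ContDiffAt.prodMk (h1.snd.add (h1.fst.mul (contDiff_conj.contDiffAt.comp _ h1.snd)))
        (contDiffAt_const.sub (h1.fst.norm_sq ℝ))
    · filter_upwards [ev_fst hb, (continuous_snd.tendsto ((0 : ℝ), y)).eventually
        (isOpen_ball.mem_nhds hy)] with x h2 h3 h4
      have hw : ‖x.2.2‖ = 1 := by
        have : ‖x.2.2‖ ^ 2 = 1 := by simp only [ρ] at h4; linarith
        exact (pow_eq_one_iff_of_nonneg (norm_nonneg _) two_ne_zero).1 this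
      obtain ⟨y', h5, h6⟩ := h2 x.2 ((norm_fst_le _).trans (mem_ball_zero_iff.1 h3).le) hw
      have h7 : y'.2 * conj y'.2 = 1 := by rw [Complex.mul_conj', h5]; simp
      simp only [F, show P x = b0 y' from h6, b0, h5, map_sub, map_mul, conj_conj]
      refine Prod.ext ?_ (by simp)
      change _ = (0 : ℂ)
      linear_combination y'.1 * h7
  have Q0 : ∀ y ∈ ball (0 : ℂ × ℂ) (51 / 10), (Q (0, y)).1 = -y.1 ∧ (Q (0, y)).2 = 1 :=
    fun y hy => by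
    have c : ContinuousAt (fun y : ℂ × ℂ => Q (0, y)) y :=
      ContinuousAt.comp (g := Q) (good y hy).1.continuousAt (by fun_prop)
    have e : ∀ᶠ v in 𝓝 y, F (0, v) = ρ (0, v) • Q (0, v) ∧ P (0, v) = b0 v :=
      (((Continuous.prodMk_right (0 : ℝ)).tendsto y).eventually (good y hy).2).and
        ((isOpen_ball.eventually_mem hy).mono fun v hv => (hP v hv).2)
    constructor
    · refine eq_neg_of_add_eq_zero_left (eq_zero_of_smul (ρ := fun v => ρ (0, v))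
        (g := fun v => (Q (0, v)).1 + v.1)
        (dρ' y) (c.fst.add continuousAt_fst) (e.mono fun v hv => ?_))
      have := congrArg Prod.fst hv.1
      simp only [F, hv.2, b0, map_sub, map_mul, conj_conj, Prod.smul_fst] at this
      rw [smul_add, ← this, real_smul]
      simp only [ρ]
      push_cast
      rw [← Complex.mul_conj']
      ring
    · have := eq_zero_of_smul (ρ := fun v => ρ (0, v)) (g := fun v => ((Q (0, v)).2 : ℂ) - 1)
        (dρ' y) ((continuous_ofReal.continuousAt.comp c.snd).sub continuousAt_const)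
        (e.mono fun v hv => by
          have := congrArg Prod.snd hv.1
          simp only [F, hv.2, b0, Prod.smul_snd, smul_eq_mul] at this
          rw [real_smul, mul_sub, ← ofReal_mul, ← this]
          simp [ρ])
      exact_mod_cast sub_eq_zero.1 this
  have sub : closedBall (0 : ℂ × ℂ) 5 ⊆ ball 0 (51 / 10) := closedBall_subset_ball (by norm_num)
  refine ⟨fun x => (-(Q x).1 / (Q x).2, (P x).1), fun y hy => ?_, ?_,
    ev_forall (isCompact_closedBall _ _) (P := fun x => P x = b0 (-(Q x).1 / (Q x).2, (P x).1) ∧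
      (‖(P x).1‖ < 1 ↔ ‖x.2.2‖ < 1) ∧ (‖(P x).1‖ = 1 ↔ ‖x.2.2‖ = 1)) fun y hy => ?_⟩
  · have h1 := (good y (sub hy)).1
    have c2 : ContDiffAt ℝ 1 (fun x => ((Q x).2 : ℂ)) (0, y) :=
      ofRealCLM.contDiff.contDiffAt.comp _ h1.snd
    simp only [div_eq_mul_inv]
    exact (h1.fst.neg.mul (c2.inv (by simp [(Q0 y (sub hy)).2]))).prodMk
      ((hP y (sub hy)).1.of_le (show (1 : WithTop ℕ∞) ≤ 2 by norm_num)).fst
  · filter_upwards [isOpen_ball.mem_nhdsSet.2 sub] with y hy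
    simp [(Q0 y hy).1, (Q0 y hy).2, (hP y hy).2, b0]
  · obtain ⟨h1, h2⟩ := good y (sub hy)
    filter_upwards [h1.eventually (by simp), (hP y (sub hy)).1.eventually (by simp),
      h2.eventually_nhds, h1.continuousAt.snd.eventually
        (lt_mem_nhds (show 0 < (Q (0, y)).2 by simp [(Q0 y (sub hy)).2]))] with x c1 c2 e pos
    have c1 := c1.continuousAt
    have c2 := c2.continuousAt
    have hd : 1 - ‖(P x).1‖ ^ 2 = (1 - ‖x.2.2‖ ^ 2) * (Q x).2 := congrArg Prod.snd e.self_of_nhds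
    have n1 := norm_nonneg (P x).1
    have n2 := norm_nonneg x.2.2
    refine ⟨Prod.ext rfl ?_, ?_, ?_⟩
    · have := eq_zero_of_smul
        (g := fun v => (Q v).1 - conj (Q v).1 * (P v).1 - (Q v).2 * (P v).2) (dρ x)
        ((c1.fst.sub ((continuous_conj.continuousAt.comp c1.fst).mul c2.fst)).sub
          ((continuous_ofReal.continuousAt.comp c1.snd).mul c2.snd)) (e.mono fun v hv => by
          have a1 : (P v).2 + (P v).1 * conj (P v).2 = ρ v * (Q v).1 := congrArg Prod.fst hv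
          have a2 : 1 - ‖(P v).1‖ ^ 2 = ρ v * (Q v).2 := congrArg Prod.snd hv
          have a3 := congrArg conj a1
          have a4 : 1 - (P v).1 * conj (P v).1 = ρ v * (Q v).2 := by
            rw [Complex.mul_conj']; exact_mod_cast a2
          simp only [map_add, map_mul, conj_conj, conj_ofReal] at a3
          rw [real_smul]
          linear_combination (P v).1 * a3 - a1 + (P v).2 * a4)
      have h0 : ((Q x).2 : ℂ) ≠ 0 := by exact_mod_cast pos.ne'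
      simp only [b0, map_div₀, map_neg, conj_ofReal]
      field_simp
      linear_combination -this
    · rw [← sq_lt_one_iff₀ n1, ← sq_lt_one_iff₀ n2, ← sub_pos, hd, mul_pos_iff_of_pos_right pos,
        sub_pos]
    · rw [← pow_eq_one_iff_of_nonneg n1 two_ne_zero, ← pow_eq_one_iff_of_nonneg n2 two_ne_zero,
        eq_comm, ← sub_eq_zero, hd, mul_eq_zero, or_iff_left pos.ne', sub_eq_zero, eq_comm]

end PL

open PL

-- ===== FILE PkgE.lean (JOB P) : imports Solve =====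
theorem exists_pkg {κ : ℂ → Co} (hκ : ContDiff ℝ ∞ κ) (hc : HasCompactSupport κ) {δ r : ℝ}
    (hδ : 0 < δ) (hr : 0 < r) : ∃ ε ∈ Ioo 0 r, Nonempty (Pkg (scl κ ε) δ) := by
  obtain ⟨Φ, hΦ⟩ := exists_flow hκ hc
  obtain ⟨Ψ, hF⟩ := hΦ.fam
  obtain ⟨e, hs, he⟩ := (((solve_par hF).filter_mono nhdsWithin_le_nhds).and
    (Ioo_mem_nhdsGT hr)).exists
  obtain ⟨N, β, cN, cβ, β0, s1⟩ := step1 hκ (hs 5 (by norm_num) le_rfl)
  obtain ⟨G, cG, G0, s2⟩ := step2 cβ β0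
  have te : Tendsto (fun η : ℝ => e * η) (𝓝 0) (𝓝 0) := by
    simpa using (continuous_const.mul continuous_id).tendsto (0 : ℝ) (f := fun η : ℝ => e * η)
  obtain ⟨T, cT, T0, s3⟩ := step3 (P := fun x => G (x.1, β x)) (fun y hy => by
    have hy' := (mem_ball_zero_iff.1 hy).le
    have hm := norm_b0 ((norm_fst_le y).trans hy') ((norm_snd_le y).trans hy') (by norm_num)
      (by norm_num)
    exact ⟨ContDiffAt.comp (g := G) _ (by simpa only [β0] using cG _ hm)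
      (contDiffAt_fst.prodMk (cβ y)), by simpa only [β0] using G0.self_of_nhdsSet _ hm⟩) (by
    filter_upwards [s1, s2, te.eventually (hF.close 10 (δ := 1 / 100) (by norm_num))]
      with η h1 h2 h3 y hz hw
    have fl := hF.flow (e * η)
    have h4 := fun t => h3 y.1 (arg y.2 / 2) t (hz.trans (by norm_num))
    obtain ⟨t, ht, h5⟩ := foot fl hz h4
    have nz : ∀ s ∈ Ioo (-(54 / 10) : ℝ) (54 / 10),
        ‖(Ψ (e * η, s, y.1, arg y.2 / 2, 0)).1‖ ≤ 11 := fun s hs => by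
      have a : |s| ≤ 54 / 10 := (abs_lt.2 hs).le
      have b := norm_le_norm_add_norm_sub' (Ψ (e * η, s, y.1, arg y.2 / 2, 0)).1
        (y.1 + s * ce (arg y.2 / 2))
      have c := norm_add_le y.1 (s * ce (arg y.2 / 2))
      rw [norm_mul, norm_ce, Complex.norm_real, Real.norm_eq_abs] at c
      linarith [(h4 s (by linarith)).1]
    have ht' : t ∈ Ioo (-(54 / 10) : ℝ) (54 / 10) := ⟨by linarith [ht.1], by linarith [ht.2]⟩
    have b1 := flow_const fl (fun s hs => (h1 (_, _) (nz s hs) (norm_ce _).le).2.1) ht'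
    have b2 := flow_const fl (fun s hs => (h1 (_, _) (nz s hs) (norm_ce _).le).2.2) ht'
    refine ⟨(_, _), norm_ce _, Eq.trans ?_ (h2 _ _ (nz t ht') h5)⟩
    rw [ce_half hw] at b1 b2
    exact congrArg (fun q => G (η, q)) (Prod.ext b1 b2).symm)
  obtain ⟨H, H0, s4⟩ := inv_near (n := 1) le_rfl (isCompact_closedBall _ _) cT T0
  have n1 := near_of (n := 2) (R := 5) (by norm_num) (fun q _ => cβ q)
    (Eventually.of_forall β0) hδ
  have n2 := near_of (n := 1) (G := id) le_rfl (fun q hq => (cG q hq).of_le (by norm_num)) G0 hδ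
  have n3 := near_of (n := 1) (G := id) le_rfl (fun q hq => (s4 q hq).self_of_nhds.1) H0 hδ
  have n4 := near_of (n := 1) (G := id) le_rfl cT T0 hδ
  obtain ⟨η, ⟨⟨⟨h1, h3⟩, h4, h5⟩, ⟨m1, m2⟩, m3, m4⟩, hη⟩ := (((((s1.and s3).and
    ((ev_forall (isCompact_closedBall _ _) s4).and (te.eventually (hF.close 10 hδ)))).and
    ((n1.and n2).and (n3.and n4))).filter_mono nhdsWithin_le_nhds).and
    (Ioo_mem_nhdsGT one_pos)).exists
  refine ⟨e * η, ⟨mul_pos he.1 hη.1, (mul_lt_of_lt_one_right he.1 hη.2).trans he.2⟩, ⟨{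
    Φ := fun p => Ψ (e * η, p)
    flow := hF.flow _
    close := h5
    β := fun y => β (η, y)
    Ψ := fun y => G (η, y)
    Θ := fun y => H (η, y)
    Θ' := fun y => T (η, y)
    nβ := m1
    nΨ := m2
    nΘ := m3
    nΘ' := m4
    sol := fun y a b => (h1 y (by linarith) b).2
    linv := fun y hy => (h4 y hy).2.1
    rinv := fun y hy => (h4 y hy).2.2
    key := fun y hy => (h3 y hy).1
    sgn := fun y hy => (h3 y hy).2
    N := fun y => N (η, y)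
    cN := by fun_prop
    solN := fun y a b => (h1 y (by linarith) b).1
    solve := fun F cF dF => ?_ }⟩⟩
  obtain ⟨W, cW, sW, -⟩ := hs 1 le_rfl (by norm_num)
    (fun p => F ((10 / 11 : ℝ) • p.1.2, p.2)) (cF.comp (by fun_prop)) fun _ z _ hz =>
      dF ((10 / 11 : ℝ) • z) (by rw [norm_smul, Real.norm_of_nonneg (by norm_num)]; linarith)
  have cW' : ContDiff ℝ 1 W := cW
  refine ⟨fun y => ((10 / 11 : ℝ) : ℂ) * W ((10 / 11 * η, (10 / 11 : ℝ)⁻¹ • y.1), y.2),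
    by fun_prop, fun y a b => ?_⟩
  have := sW (10 / 11 * η) ((10 / 11 : ℝ)⁻¹ • y.1) y.2
    (by rw [abs_of_pos (by linarith [hη.1])]; linarith [hη.2])
    (by rw [norm_smul, Real.norm_of_nonneg (by norm_num)]; linarith) b
  have ek : scl κ (e * (10 / 11 * η)) ((10 / 11 : ℝ)⁻¹ • y.1) =
      (10 / 11 : ℝ) • scl κ (e * η) y.1 := by
    simp only [scl, smul_smul]
    rw [show e * (10 / 11 * η) * (10 / 11)⁻¹ = e * η by ring,
      show e * (10 / 11 * η) = 10 / 11 * (e * η) by ring]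
  rw [ek, smul_inv_smul₀ (by norm_num), rk_smul] at this
  exact sol_congr (sol_scale (by norm_num) this) (by ring)

end Pool.Agent.Lib.MP_0cc5e8_gt
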