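import Pool.Agent.Lib.MP_0cc5e8_gt.Main

/-! The theorem for plane domains. -/

namespace Pool.Agent.Lib.MP_0cc5e8_gt

open Set
open scoped ContDiff

theorem planar (ρ φ : ℂ → ℝ) (g : ℂ → ℂ →L[ℝ] ℂ →L[ℝ] ℝ) (Γ : ℂ → ℂ →L[ℝ] ℂ →L[ℝ] ℂ)
    (hρ : ContDiff ℝ ∞ ρ) (hM : IsCompact {x | ρ x ≤ 0})
    (hd : ∀ x, ρ x = 0 → fderiv ℝ ρ x ≠ 0)
    (hg : ContDiff ℝ ∞ g) (hs : ∀ x u v, g x u v = g x v u)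
    (hpos : ∀ x, ρ x ≤ 0 → ∀ v ≠ 0, 0 < g x v v)
    (hΓ : ∀ x, ρ x ≤ 0 → ∀ u v w, 2 * g x (Γ x u v) w =
      fderiv ℝ g x u v w + fderiv ℝ g x v u w - fderiv ℝ g x w u v)
    (hb : ∀ x, ρ x = 0 → ∀ v ≠ 0, fderiv ℝ ρ x v = 0 → 0 < hess Γ ρ x v)
    (hφ : ContDiff ℝ ∞ φ) (hc : ∀ x, ρ x ≤ 0 → ∀ v ≠ 0, 0 < hess Γ φ x v)
    (m : ℕ) (f : Fin (m + 1) → ℂ → ℝ) (hf : ∀ j, ContDiff ℝ ∞ (f j))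
    (hI : ∀ τ > 0, ∀ γ γ' : ℝ → ℂ,
      (∀ t ∈ Icc 0 τ, HasDerivAt γ (γ' t) t ∧ HasDerivAt γ' (-Γ (γ t) (γ' t) (γ' t)) t) →
      ρ (γ 0) = 0 → g (γ 0) (γ' 0) (γ' 0) = 1 → fderiv ℝ ρ (γ 0) (γ' 0) < 0 →
      (∀ t ∈ Ioo 0 τ, ρ (γ t) < 0) → ρ (γ τ) = 0 →
      ∫ t in (0 : ℝ)..τ, sym (m + 1) f (γ t) (γ' t) = 0) :
    ∃ h : Fin m → ℂ → ℝ, (∀ j, ContDiffOn ℝ ∞ (h j) {x | ρ x ≤ 0}) ∧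
      (∀ j x, ρ x = 0 → h j x = 0) ∧
      ∀ x, ρ x < 0 → ∀ v, sym (m + 1) f x v = dsym Γ (sym m h) x v := by
  obtain ⟨G, rfl, e, hv⟩ := exists_glob hρ hM hd hg hs hpos hΓ hb hφ hc
  have ht : Ten ⊤ (m + 1) (sym (m + 1) f) := ten_iff.2 ⟨f, hf, rfl⟩
  obtain ⟨h, h1, h2, h3⟩ := G.main ht (hv m _ ht hI)
  exact ⟨h, h1, h2, fun x hx v => by rw [h3 x hx v, dsym, dsym, e x hx.le]⟩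

end Pool.Agent.Lib.MP_0cc5e8_gt
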