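import Pool.Agent.Lib.MP_0cc5e8_gt.Neu
import Pool.Agent.Lib.MP_0cc5e8_gt.Cau
import Pool.Agent.Lib.MP_0cc5e8_gt.Ker

/-! The solution operator. -/

namespace Pool.Agent.Lib.MP_0cc5e8_gt

open Complex Set Filter Topology Metric
open scoped ComplexConjugate ContDiff Real

namespace Slv

open Cau

variable {κ : ℂ → Co} {Φ : ℝ × St → St} {Ψ : ℝ × ℝ × St → St} {G G' : ℂ × ℂ → ℂ}

theorem int_cont (h : IsFlow κ Φ) (hG : Continuous G) (x : St) : Continuous fun t =>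
    (Real.exp (-(Φ (t, x)).2.2) : ℂ) * G ((Φ (t, x)).1, ce (2 * (Φ (t, x)).2.1)) := by
  have := h.smooth.continuous
  have := ce_cont
  fun_prop

theorem xd_vp (h : IsFlow κ Φ) (hG : Continuous G) {z : ℂ} {θ : ℝ}
    (hV : DifferentiableAt ℝ (Vp Φ G) (z, θ)) (h0 : ∀ w, G ((Φ (30, z, θ, 0)).1, w) = 0) :
    Xd κ (-1) (Vp Φ G) (z, θ) = G (z, ce (2 * θ)) := by
  have c := int_cont h hG (z, θ, 0)
  have a := h.hasDerivAt_Xd (-1) (u := Vp Φ G) (z, θ, 0) 0 (by rwa [h.zero])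
  have b := (((c.integral_hasStrictDerivAt 0 (30 + 0)).hasDerivAt.comp_const_add 30 0).fun_sub
    (c.integral_hasStrictDerivAt 0 0).hasDerivAt).fun_neg
  have := a.unique (b.congr_of_eventuallyEq (.of_forall fun s => by
    simp only
    rw [intervalIntegral.integral_interval_sub_left (c.intervalIntegrable _ _)
      (c.intervalIntegrable _ _), Vp, mul_neg, ← intervalIntegral.integral_const_mul]
    have d := intervalIntegral.integral_comp_add_right (a := 0) (b := 30) (fun t =>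
      (Real.exp (-(Φ (t, z, θ, 0)).2.2) : ℂ) *
        G ((Φ (t, z, θ, 0)).1, ce (2 * (Φ (t, z, θ, 0)).2.1))) s
    rw [zero_add] at d
    rw [← d]
    refine congrArg _ (intervalIntegral.integral_congr fun t _ => ?_)
    simp only
    rw [h.add, show Φ (t, Φ (s, z, θ, 0)) = _ from h.shift t _ _ _]
    simp only [Prod.fst_add, Prod.snd_add, add_zero, neg_add, Real.exp_add, neg_one_mul,
      ofReal_mul]
    ring))
  simpa [h.zero, h0] using this

theorem vp_per (h : IsFlow κ Φ) (G : ℂ × ℂ → ℂ) (z : ℂ) (θ : ℝ) :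
    Vp Φ G (z, θ + 2 * π) = Vp Φ G (z, θ) := by
  simp only [Vp, h.per, Prod.fst_add, Prod.snd_add, add_zero, ce_two, ce_per]

theorem vp_add (h : IsFlow κ Φ) (hG : Continuous G) (hG' : Continuous G') :
    Vp Φ (fun y => G y + G' y) = fun p => Vp Φ G p + Vp Φ G' p := funext fun p => by
  simp only [Vp, mul_add]
  rw [intervalIntegral.integral_add ((int_cont h hG _).intervalIntegrable _ _)
    ((int_cont h hG' _).intervalIntegrable _ _), neg_add]

theorem cc_add (κ : ℂ → Co) {V V' : ℂ × ℝ → ℂ} (h : ContDiff ℝ 1 V) (h' : ContDiff ℝ 1 V') (z : ℂ) :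
    cc κ (fun p => V p + V' p) z = cc κ V z + cc κ V' z := by
  have c : ∀ {V : ℂ × ℝ → ℂ}, ContDiff ℝ 1 V → Continuous fun θ =>
      (fderiv ℝ V (z, θ) (1, 0) - I * fderiv ℝ V (z, θ) (I, 0)) / 2 * ce θ +
        (κ z).1 * V (z, θ) * ce θ - conj (κ z).2.2 * V (z, θ) * ce (3 * θ) := fun h => by
    have := h.continuous
    have := h.continuous_fderiv one_ne_zero
    have := ce_cont
    fun_prop
  rw [cc, cc, cc, ← mul_add, ← intervalIntegral.integral_add ((c h).intervalIntegrable _ _)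
    ((c h').intervalIntegrable _ _)]
  refine congrArg _ (intervalIntegral.integral_congr fun θ _ => ?_)
  simp only [fderiv_fun_add (h.differentiable one_ne_zero _) (h'.differentiable one_ne_zero _),
    add_apply]
  ring

/-- the solution of the transport equation, with the parameter -/
noncomputable def vv (Ψ : ℝ × ℝ × St → St) (e : ℝ) (G : (ℝ × ℂ) × ℂ → ℂ) (η : ℝ) : ℂ × ℝ → ℂ :=
  Vp (fun q => Ψ (e * η, q)) fun y => G ((η, y.1), y.2)

theorem vv_cd (h : Fam κ Ψ) (e : ℝ) {n : ℕ} {G : (ℝ × ℂ) × ℂ → ℂ} (hG : ContDiff ℝ n G) :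
    ContDiff ℝ n fun p : (ℝ × ℂ) × ℝ => vv Ψ e G p.1.1 (p.1.2, p.2) := by
  have a : ContDiff ℝ n fun q : ((ℝ × ℂ) × ℝ) × ℝ => Ψ (e * q.1.1.1, q.2, q.1.1.2, q.1.2, 0) :=
    (h.smooth.of_le (mod_cast le_top)).comp (by fun_prop)
  exact (contDiff_int (n := n) ((ofRealCLM.contDiff.comp a.snd.snd.neg.exp).mul (hG.comp
    ((contDiff_fst.fst.fst.prodMk a.fst).prodMk ((ce_cd.of_le (mod_cast le_top)).comp
      (contDiff_const.mul a.snd.fst))))) 0 30).neg

theorem vv_one (h : Fam κ Ψ) (e : ℝ) {n : ℕ} {G : (ℝ × ℂ) × ℂ → ℂ} (hG : ContDiff ℝ n G)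
    (hn : 1 ≤ n) (η : ℝ) : ContDiff ℝ 1 (vv Ψ e G η) :=
  ((vv_cd h e hG).of_le (mod_cast hn)).comp
    (by fun_prop : ContDiff ℝ 1 fun p : ℂ × ℝ => ((η, p.1), p.2))

theorem cc_cd (hκ : ContDiff ℝ ∞ κ) (e : ℝ) {n : ℕ} {V : ℝ → ℂ × ℝ → ℂ}
    (hV : ContDiff ℝ (n + 1 : ℕ) fun p : (ℝ × ℂ) × ℝ => V p.1.1 (p.1.2, p.2)) :
    ContDiff ℝ n fun y : ℝ × ℂ => cc (scl κ (e * y.1)) (V y.1) y.2 := by
  have a : ContDiff ℝ n fun p : (ℝ × ℂ) × ℝ => fderiv ℝ (V p.1.1) (p.1.2, p.2) :=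
    ContDiff.fderiv (f := fun p : (ℝ × ℂ) × ℝ => V p.1.1) (hV.comp (by fun_prop : ContDiff ℝ _
      fun q : ((ℝ × ℂ) × ℝ) × ℂ × ℝ => ((q.1.1.1, q.2.1), q.2.2))) (by fun_prop) (by norm_cast)
  have b : ContDiff ℝ n fun p : (ℝ × ℂ) × ℝ => scl κ (e * p.1.1) p.1.2 := by
    have : ContDiff ℝ n κ := hκ.of_le (mod_cast le_top)
    unfold scl
    fun_prop
  have c := hV.of_le (show (n : WithTop ℕ∞) ≤ (n + 1 : ℕ) by norm_cast; omega)
  have d : ContDiff ℝ n ce := ce_cd.of_le (mod_cast le_top)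
  exact contDiff_const.mul (contDiff_int (n := n) ((((((a.clm_apply contDiff_const).sub
    (contDiff_const.mul (a.clm_apply contDiff_const))).div_const 2).mul (d.comp contDiff_snd)).add
    ((b.fst.mul c).mul (d.comp contDiff_snd))).sub (((conjCLE.contDiff.comp b.snd.snd).mul c).mul
      (d.comp (contDiff_const.mul contDiff_snd)))) 0 (2 * π))

theorem ev_mul {P : ℝ → Prop} (h : ∀ᶠ ε in 𝓝 0, P ε) :
    ∀ᶠ e in 𝓝 (0 : ℝ), ∀ η, |η| ≤ 1 → P (e * η) := by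
  obtain ⟨δ, h0, h⟩ := Metric.eventually_nhds_iff.1 h
  refine Metric.eventually_nhds_iff.2 ⟨δ, h0, fun e he η hη => h ?_⟩
  rw [dist_zero_right, Real.norm_eq_abs] at he ⊢
  exact (abs_mul e η).trans_lt ((mul_le_of_le_one_right (abs_nonneg e) hη).trans_lt he)

end Slv

open Cau Slv in
theorem solve_par {κ : ℂ → Co} {Ψ : ℝ × ℝ × St → St} (h : Fam κ Ψ) :
    ∀ᶠ e in 𝓝 (0 : ℝ), ∀ j : ℕ, 1 ≤ j → j ≤ 5 → ∀ F : (ℝ × ℂ) × ℂ → ℂ,
      ContDiff ℝ (2 * j + 3 : ℕ) F →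
      (∀ η z, |η| ≤ 1 → ‖z‖ ≤ 11 → DiffContOnCl ℂ (fun w => F ((η, z), w)) (ball 0 1)) →
      ∃ W : (ℝ × ℂ) × ℂ → ℂ, ContDiff ℝ j W ∧
        (∀ η z w, |η| ≤ 1 → ‖z‖ ≤ 11 → ‖w‖ ≤ 1 →
          Sol (scl κ (e * η) z) (fun y => W ((η, y.1), y.2)) (z, w)
            (F ((η, z), w) + rk (scl κ (e * η) z) w * W ((η, z), w))) ∧
        ((∀ z w, F ((0, z), w) = 0) → ∀ z w, W ((0, z), w) = 0) := by
  obtain ⟨k, hk, k0, hK⟩ := kernel h
  let χ : ContDiffBump (0 : ℝ × ℂ) := ⟨11, 12, by norm_num, by norm_num⟩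
  have hχ : ContDiff ℝ ∞ χ := χ.contDiff
  have cχ : ∀ n : ℕ, ContDiff ℝ n fun y => (χ y : ℂ) := fun n =>
    ofRealCLM.contDiff.comp (hχ.of_le (mod_cast le_top))
  have N := neumann 12 hχ χ.hasCompactSupport
    (k := fun p => 2 * k (p.1 * p.2.1.1, p.2.1.2, p.2.2.1, p.2.2.2))
    (Z := fun p => (p.2.1.1, (Ψ (p.1 * p.2.1.1, p.2.2.2, p.2.1.2, p.2.2.1, 0)).1))
    (contDiff_const.mul (hk.comp (by fun_prop)))
    (contDiff_snd.fst.fst.prodMk (h.smooth.comp (by fun_prop)).fst) (fun p => by simp [k0]) 30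
  filter_upwards [N, ev_mul hK, ev_mul (h.close 30 one_pos)] with e hN h1 h2 j j1 j5 F hF hol
  obtain ⟨F1, e1⟩ : ∃ F1 : (ℝ × ℂ) × ℂ → ℂ, F1 = fun y => χ y.1 * F y := ⟨_, rfl⟩
  have c1 : ContDiff ℝ (2 * j + 2 + 1 : ℕ) F1 := e1 ▸ ((cχ _).comp contDiff_fst).mul hF
  obtain ⟨g, cg, hg⟩ := hN (2 * j + 2) (by omega)
    (fun y => χ y * (2 * cc (scl κ (e * y.1)) (vv Ψ e F1 y.1) y.2))
    ((cχ _).mul (contDiff_const.mul (cc_cd h.sk e (vv_cd h e c1))))
    (χ.hasCompactSupport.comp_left ofReal_zero).mul_right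
  have c2 : ContDiff ℝ (2 * j + 2 : ℕ) fun y : (ℝ × ℂ) × ℂ => g y.1 := cg.comp contDiff_fst
  have c3 : ContDiff ℝ (2 * j + 2 : ℕ) fun y => F1 y + g y.1 :=
    (c1.of_le (by norm_cast; omega)).add c2
  obtain ⟨W, cW, w1, w2⟩ := cauchy_ext j (U := fun p : (ℝ × ℂ) × ℝ =>
    vv Ψ e (fun y => F1 y + g y.1) p.1.1 (p.1.2, p.2) * ce (-p.2))
    ((vv_cd h e c3).mul ((contDiff_infty.1 ce_cd _).comp contDiff_snd.neg))
    fun y θ => by simp only [vv, vp_per (h.flow _), ce_neg, ce_per]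
  refine ⟨W, cW, fun η z w hη hz hw => ?_, fun h0 z => w2 _ fun θ => ?_⟩
  · have x1 : χ (η, z) = 1 := χ.one_of_mem_closedBall
      (mem_closedBall_zero_iff.2 (max_le (hη.trans (by norm_num [χ])) hz))
    have x0 : ∀ θ, χ (η, (Ψ (e * η, 30, z, θ, 0)).1) = 0 := fun θ => χ.zero_of_le_dist (by
      have a := (h2 η hη z θ 30 (by linarith) (by norm_num)).1
      have b := norm_sub_norm_le ((30 : ℝ) * ce θ) (-z)
      have c := norm_sub_norm_le (z + (30 : ℝ) * ce θ) (Ψ (e * η, 30, z, θ, 0)).1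
      rw [norm_mul, ce_norm, norm_neg, sub_neg_eq_add, add_comm, norm_real, Real.norm_ofNat] at b
      rw [norm_sub_rev] at c
      rw [dist_zero_right]
      exact le_max_of_le_right (show (12 : ℝ) ≤ _ by linarith))
    have g0 : ∀ θ, g (η, (Ψ (e * η, 30, z, θ, 0)).1) = 0 := fun θ => by rw [hg, x0]; simp
    have s : ∀ {f : (ℝ × ℂ) × ℂ → ℂ} {n : ℕ}, ContDiff ℝ n f →
        Continuous fun y : ℂ × ℂ => f ((η, y.1), y.2) := fun h => h.continuous.comp (by fun_prop)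
    have v := vv_one h e c3 (by omega) η
    have P := cauchy_pde (κ := scl κ (e * η)) v (vp_per (h.flow _) _)
      (W := fun y => W ((η, y.1), y.2)) ((cW.of_le (mod_cast j1)).comp (by fun_prop))
      (fun z w hw => w1 (η, z) w hw) (z := z) (F := fun w => F ((η, z), w) + g (η, z))
      ((hol η z hη hz).add_const _) (fun θ => (xd_vp (h.flow _) (s c3)
        (v.differentiable one_ne_zero _) fun w => by simp [e1, x0, g0]).trans (by simp [e1, x1])) hw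
    have q := h1 η hη z (by linarith) (fun x => g (η, x))
      ((cg.of_le (by norm_cast; omega)).comp (by fun_prop)) g0
    have q' := hg (η, z)
    simp only [x1, ofReal_one, one_mul, mul_assoc, intervalIntegral.integral_const_mul] at q'
    have r : cc (scl κ (e * η)) (vv Ψ e (fun y => F1 y + g y.1) η) z = g (η, z) := by
      refine ((congrArg (cc _ · z) (vp_add (h.flow _) (s c1) (s c2))).trans
        ((cc_add _ (vv_one h e c1 (by omega) η) (vv_one h e c2 (by omega) η) z).trans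
          (congrArg (_ + ·) q))).trans ?_
      linear_combination -q' / 2
    rwa [r, add_sub_cancel_right] at P
  · have a : ∀ x, g (0, x) = 0 := fun x => by
      rw [hg]
      simp [vv, e1, h0, k0, cc, show ∀ Φ, Vp Φ (fun _ => 0) = fun _ => 0 from
        fun Φ => funext fun p => by simp [Vp]]
    simp [vv, Vp, e1, h0, a]

end Pool.Agent.Lib.MP_0cc5e8_gt
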