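import Pool.Agent.Lib.MP_0cc5e8_gt.Surf

namespace Pool.Agent.Lib.MP_0cc5e8_gt

/-- covariant Hessian on (v, v) -/
noncomputable def hess (Γ : ℂ → ℂ →L[ℝ] ℂ →L[ℝ] ℂ) (φ : ℂ → ℝ) (x v : ℂ) : ℝ :=
  fderiv ℝ (fderiv ℝ φ) x v v - fderiv ℝ φ x (Γ x v v)

/-- symmetrised covariant derivative on (v, ..., v) -/
noncomputable def dsym (Γ : ℂ → ℂ →L[ℝ] ℂ →L[ℝ] ℂ) (P : ℂ → ℂ → ℝ) (x v : ℂ) : ℝ :=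
  fderiv ℝ (fun y => P y v) x v - fderiv ℝ (P x) v (Γ x v v)

end Pool.Agent.Lib.MP_0cc5e8_gt
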