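import Mathlib

namespace Pool.Agent.Lib.MP_0cc5e8_gt

open scoped Manifold ContDiff

/-- value on (v, ..., v) of the symmetric (n-1)-tensor field with coefficients c -/
def sym (n : ℕ) (c : Fin n → ℂ → ℝ) (x v : ℂ) : ℝ :=
  ∑ j : Fin n, c j x * v.re ^ (j : ℕ) * v.im ^ (n - 1 - j)

variable {N : Type} [TopologicalSpace N] [ChartedSpace ℂ N]

/-- a function on the tangent bundle, read in the chart at x -/
noncomputable def loc (x : N) (T : ∀ p : N, TangentSpace 𝓘(ℝ, ℂ) p → ℝ) (y v : ℂ) : ℝ :=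
  T _ (mfderiv 𝓘(ℝ, ℂ) 𝓘(ℝ, ℂ) (chartAt ℂ x).symm y v)

/-- T p v is the value on (v, ..., v) of a symmetric (n-1)-tensor field that is smooth on S -/
def IsTen (n : ℕ) (S : Set N) (T : ∀ p : N, TangentSpace 𝓘(ℝ, ℂ) p → ℝ) : Prop :=
  ∀ x, ∃ c : Fin n → ℂ → ℝ,
    (∀ j, ContDiffOn ℝ ∞ (c j) ((chartAt ℂ x).target ∩ (chartAt ℂ x).symm ⁻¹' S)) ∧
    ∀ y ∈ (chartAt ℂ x).target ∩ (chartAt ℂ x).symm ⁻¹' S, ∀ v, loc x T y v = sym n c y v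

/-- velocity of a curve -/
noncomputable def vel (γ : ℝ → N) (t : ℝ) : TangentSpace 𝓘(ℝ, ℂ) (γ t) :=
  mfderiv 𝓘(ℝ) 𝓘(ℝ, ℂ) γ t (1 : ℝ)

/-- the geodesic equation (Euler-Lagrange equation of the energy Q) at time t -/
def Geo (Q : ∀ p : N, TangentSpace 𝓘(ℝ, ℂ) p → ℝ) (γ : ℝ → N) (t : ℝ) : Prop :=
  ContMDiffAt 𝓘(ℝ) 𝓘(ℝ, ℂ) 2 γ t ∧ ∀ w,
    deriv (fun s => fderiv ℝ (loc (γ t) Q (chartAt ℂ (γ t) (γ s)))
      (deriv (chartAt ℂ (γ t) ∘ γ) s) w) t =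
    fderiv ℝ (fun y => loc (γ t) Q y (deriv (chartAt ℂ (γ t) ∘ γ) t)) (chartAt ℂ (γ t) (γ t)) w

end Pool.Agent.Lib.MP_0cc5e8_gt
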