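import Pool.Agent.Lib.MP_0cc5e8_gt.Flow

namespace Pool.Agent.Lib.MP_0cc5e8_gt

open Complex Set Filter Topology Metric
open scoped ComplexConjugate ContDiff Real

theorem Ten.congr {r : ℕ∞} {n : ℕ} {P Q : ℂ → ℂ → ℝ} (hP : Ten r n P)
    (h : ∀ x v, Q x v = P x v) : Ten r n Q := by
  have : Q = P := by funext x v; exact h x v
  rw [this]; exact hP

theorem Ten.eq_zero' {r : ℕ∞} {n : ℕ} {P : ℂ → ℂ → ℝ} (hP : Ten r n P) :
    n = 0 → ∀ x v, P x v = 0 := by
  induction hP with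
  | zero n => intro _ x v; rfl
  | const h => intro h; omega
  | re h ih => intro h; omega
  | im h ih => intro h; omega
  | add h1 h2 ih1 ih2 => intro h x v; simp [ih1 h, ih2 h]
  | smul hc h ih => intro h x v; simp [ih h]

theorem Ten.eq_zero {r : ℕ∞} {P : ℂ → ℂ → ℝ} (hP : Ten r 0 P) (x v : ℂ) : P x v = 0 :=
  hP.eq_zero' rfl x v

theorem Ten.neg {r : ℕ∞} {n : ℕ} {P : ℂ → ℂ → ℝ} (hP : Ten r n P) :
    Ten r n fun x v => -P x v :=
  (Ten.smul (c := fun _ => -1) contDiff_const hP).congr fun x v => by ring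

theorem Ten.sub {r : ℕ∞} {n : ℕ} {P Q : ℂ → ℂ → ℝ} (hP : Ten r n P) (hQ : Ten r n Q) :
    Ten r n fun x v => P x v - Q x v :=
  (hP.add hQ.neg).congr fun x v => by ring

theorem Ten.sum {r : ℕ∞} {n : ℕ} {ι : Type} (s : Finset ι) {P : ι → ℂ → ℂ → ℝ}
    (hP : ∀ i ∈ s, Ten r n (P i)) : Ten r n fun x v => ∑ i ∈ s, P i x v := by
  classical
  induction s using Finset.induction_on with
  | empty => exact (Ten.zero n).congr fun x v => by simp
  | insert a s ha ih =>
    exact ((hP a (Finset.mem_insert_self _ _)).add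
      (ih fun i hi => hP i (Finset.mem_insert_of_mem hi))).congr fun x v => by
        rw [Finset.sum_insert ha]

theorem Ten.mono {r r' : ℕ∞} (h : r' ≤ r) {n : ℕ} {P : ℂ → ℂ → ℝ} (hP : Ten r n P) :
    Ten r' n P := by
  have h' : (r' : WithTop ℕ∞) ≤ r := by exact_mod_cast h
  induction hP with
  | zero n => exact Ten.zero n
  | const hc => exact Ten.const (hc.of_le h')
  | re h ih => exact ih.re
  | im h ih => exact ih.im
  | add h1 h2 ih1 ih2 => exact ih1.add ih2
  | smul hc h ih => exact Ten.smul (hc.of_le h') ih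

theorem Tens_monomial {r : ℕ∞} (a b : ℕ) :
    Ten r (a + b + 1) fun _ v => v.re ^ a * v.im ^ b := by
  induction a with
  | zero =>
    induction b with
    | zero => exact (Ten.const (c := fun _ => 1) contDiff_const).congr fun x v => by simp
    | succ b ih => exact ih.im.congr fun x v => by ring
  | succ a ih =>
    have e : a + 1 + b + 1 = a + b + 1 + 1 := by ring
    rw [e]
    exact ih.re.congr fun x v => by ring

theorem ten_iff {r : ℕ∞} {n : ℕ} {P : ℂ → ℂ → ℝ} :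
    Ten r n P ↔ ∃ c : Fin n → ℂ → ℝ, (∀ j, ContDiff ℝ r (c j)) ∧ P = sym n c := by
  constructor
  · intro hP
    induction hP with
    | zero n => exact ⟨fun _ _ => 0, fun _ => contDiff_const, by funext x v; simp [sym]⟩
    | @const c hc => exact ⟨fun _ => c, fun _ => hc, by funext x v; simp [sym]⟩
    | @re n P h ih =>
      obtain ⟨c, hc, rfl⟩ := ih
      refine ⟨Fin.cons (fun _ => 0) c, ?_, ?_⟩
      · intro j
        refine Fin.cases ?_ (fun i => ?_) j
        · exact contDiff_const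
        · exact hc i
      · funext x v
        simp only [sym, Fin.sum_univ_succ, Fin.cons_zero, Fin.cons_succ, Finset.mul_sum,
          Fin.val_succ, zero_mul, zero_add]
        refine Finset.sum_congr rfl fun j _ => ?_
        have : n + 1 - 1 - ((j : ℕ) + 1) = n - 1 - j := by omega
        rw [this]; ring
    | @im n P h ih =>
      obtain ⟨c, hc, rfl⟩ := ih
      refine ⟨Fin.snoc (α := fun _ => ℂ → ℝ) c (fun _ => 0), ?_, ?_⟩
      · intro j
        refine Fin.lastCases ?_ (fun i => ?_) j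
        · simp only [Fin.snoc_last]; exact contDiff_const
        · simp only [Fin.snoc_castSucc]; exact hc i
      · funext x v
        simp only [sym, Fin.sum_univ_castSucc, Fin.snoc_last, Fin.snoc_castSucc, Finset.mul_sum,
          Fin.val_castSucc, zero_mul, add_zero]
        refine Finset.sum_congr rfl fun j _ => ?_
        have : n + 1 - 1 - (j : ℕ) = n - 1 - j + 1 := by have := j.2; omega
        rw [this]; ring
    | add h1 h2 ih1 ih2 =>
      obtain ⟨c, hc, rfl⟩ := ih1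
      obtain ⟨c', hc', rfl⟩ := ih2
      refine ⟨fun j x => c j x + c' j x, fun j => (hc j).add (hc' j), ?_⟩
      funext x v
      simp only [sym, ← Finset.sum_add_distrib]
      exact Finset.sum_congr rfl fun j _ => by ring
    | @smul n P a ha h ih =>
      obtain ⟨c, hc, rfl⟩ := ih
      refine ⟨fun j x => a x * c j x, fun j => ha.mul (hc j), ?_⟩
      funext x v
      simp only [sym, Finset.mul_sum]
      exact Finset.sum_congr rfl fun j _ => by ring
  · rintro ⟨c, hc, rfl⟩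
    refine (Ten.sum (r := r) (n := n) Finset.univ
      (P := fun (j : Fin n) x v => c j x * (v.re ^ (j : ℕ) * v.im ^ (n - 1 - j))) ?_).congr ?_
    · intro j _
      refine Ten.smul (hc j) ?_
      have e : (j : ℕ) + (n - 1 - j) + 1 = n := by have := j.2; omega
      have := Tens_monomial (r := r) j (n - 1 - j)
      rwa [e] at this
    · intro x v
      simp only [sym]
      exact Finset.sum_congr rfl fun j _ => by ring

theorem Ten.contDiff {r : ℕ∞} {n : ℕ} {P : ℂ → ℂ → ℝ} (hP : Ten r n P) :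
    ContDiff ℝ r fun p : ℂ × ℂ => P p.1 p.2 := by
  induction hP with
  | zero n => exact contDiff_const
  | const hc => exact hc.comp contDiff_fst
  | re h ih => exact (reCLM.contDiff.comp contDiff_snd).mul ih
  | im h ih => exact (imCLM.contDiff.comp contDiff_snd).mul ih
  | add h1 h2 ih1 ih2 => exact ih1.add ih2
  | smul hc h ih => exact (hc.comp contDiff_fst).mul ih

theorem Ten.homog {r : ℕ∞} {n : ℕ} {P : ℂ → ℂ → ℝ} (hP : Ten r n P) (x v : ℂ) (t : ℝ) :
    P x (t • v) = t ^ (n - 1) * P x v := by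
  induction hP with
  | zero n => simp
  | const hc => simp
  | @re n P h ih =>
    rcases n with _ | n
    · simp [h.eq_zero]
    · simp only [ih, smul_re, smul_eq_mul, Nat.add_sub_cancel]; ring
  | @im n P h ih =>
    rcases n with _ | n
    · simp [h.eq_zero]
    · simp only [ih, smul_im, smul_eq_mul, Nat.add_sub_cancel]; ring
  | add h1 h2 ih1 ih2 => simp only [ih1, ih2]; ring
  | smul hc h ih => simp only [ih]; ring

theorem sym_inj {n : ℕ} {c c' : Fin n → ℂ → ℝ} {x : ℂ}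
    (h : ∀ θ, sym n c x (ce θ) = sym n c' x (ce θ)) (j : Fin n) : c j x = c' j x := by
  have hT : Ten 0 n (sym n fun j _ => c j x - c' j x) :=
    ten_iff.2 ⟨_, fun _ => contDiff_const, rfl⟩
  have h0 : ∀ θ, sym n (fun j _ => c j x - c' j x) x (ce θ) = 0 := by
    intro θ
    have := sub_eq_zero.2 (h θ)
    simp only [sym, ← Finset.sum_sub_distrib] at this ⊢
    rw [← this]
    exact Finset.sum_congr rfl fun j _ => by ring
  have h1 : ∀ v : ℂ, sym n (fun j _ => c j x - c' j x) x v = 0 := by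
    intro v
    have e : v = ‖v‖ • ce (arg v) := by
      rw [ce, real_smul, norm_mul_exp_arg_mul_I]
    rw [e, hT.homog, h0, mul_zero]
  have h2 := Matrix.eq_zero_of_forall_index_sum_mul_pow_eq_zero (R := ℝ) (n := n)
    (f := fun i : Fin n => ((i : ℕ) : ℝ)) (v := fun j => c j x - c' j x)
    (fun i i' hi => Fin.ext (Nat.cast_injective (R := ℝ) hi)) (by
      intro i
      have := h1 (((i : ℕ) : ℝ) + I)
      simpa [sym] using this)
  exact sub_eq_zero.1 (congrFun h2 j)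

theorem Ten.diff1 {r : ℕ∞} {n : ℕ} {P : ℂ → ℂ → ℝ} (hP : Ten r n P) (hr : r ≠ 0) (v : ℂ) :
    Differentiable ℝ fun y => P y v := by
  have h := hP.contDiff.differentiable (by exact_mod_cast hr)
  exact h.comp (f := fun y : ℂ => (y, v)) (by fun_prop)

theorem Ten.diff2 {r : ℕ∞} {n : ℕ} {P : ℂ → ℂ → ℝ} (hP : Ten r n P) (hr : r ≠ 0) (x : ℂ) :
    Differentiable ℝ (P x) := by
  have h := hP.contDiff.differentiable (by exact_mod_cast hr)
  exact h.comp (f := fun v : ℂ => (x, v)) (by fun_prop)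

theorem Tens_lin (L : ℂ →L[ℝ] ℝ) (v : ℂ) : L v = v.re * L 1 + v.im * L I := by
  conv_lhs => rw [← re_add_im v]
  have e : (v.re : ℂ) + v.im * I = v.re • (1 : ℂ) + v.im • I := by simp
  rw [e, map_add, map_smul, map_smul]; simp

theorem Tens_linC (L : ℂ →L[ℝ] ℂ) (v : ℂ) : L v = v.re * L 1 + v.im * L I := by
  conv_lhs => rw [← re_add_im v]
  have e : (v.re : ℂ) + v.im * I = v.re • (1 : ℂ) + v.im • I := by simp
  rw [e, map_add, map_smul, map_smul]; simp

theorem Tens_bil (B : ℂ →L[ℝ] ℂ →L[ℝ] ℂ) (v : ℂ) :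
    B v v = v.re * (v.re * B 1 1) + v.re * (v.im * B 1 I) + v.im * (v.re * B I 1) +
      v.im * (v.im * B I I) := by
  have e : v = v.re • (1 : ℂ) + v.im • I := by simp
  have : B v = v.re • B 1 + v.im • B I := by
    conv_lhs => rw [e]
    rw [map_add, map_smul, map_smul]
  rw [this]
  simp only [add_apply, smul_apply, real_smul]
  rw [Tens_linC (B 1) v, Tens_linC (B I) v]; ring

theorem dsym_add {Γ : ℂ → ℂ →L[ℝ] ℂ →L[ℝ] ℂ} {r : ℕ∞} {n n' : ℕ} {P Q : ℂ → ℂ → ℝ}
    (hP : Ten r n P) (hQ : Ten r n' Q) (hr : r ≠ 0) (x v : ℂ) :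
    dsym Γ (fun x v => P x v + Q x v) x v = dsym Γ P x v + dsym Γ Q x v := by
  have h1 := ((hP.diff1 hr v x).hasFDerivAt.add (hQ.diff1 hr v x).hasFDerivAt).fderiv
  have h2 := ((hP.diff2 hr x v).hasFDerivAt.add (hQ.diff2 hr x v).hasFDerivAt).fderiv
  simp only [dsym]
  erw [h1, h2]
  simp only [add_apply]; ring

theorem dsym_smul {Γ : ℂ → ℂ →L[ℝ] ℂ →L[ℝ] ℂ} {r : ℕ∞} {n : ℕ} {P : ℂ → ℂ → ℝ} {c : ℂ → ℝ}
    (hc : Differentiable ℝ c) (hP : Ten r n P) (hr : r ≠ 0) (x v : ℂ) :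
    dsym Γ (fun x v => c x * P x v) x v = c x * dsym Γ P x v + fderiv ℝ c x v * P x v := by
  have h1 := ((hc x).hasFDerivAt.mul (hP.diff1 hr v x).hasFDerivAt).fderiv
  have h2 := ((hP.diff2 hr x v).hasFDerivAt.const_mul (c x)).fderiv
  simp only [dsym]
  erw [h1, h2]
  simp only [add_apply, smul_apply, smul_eq_mul]; ring

theorem dsym_lin {Γ : ℂ → ℂ →L[ℝ] ℂ →L[ℝ] ℂ} {r : ℕ∞} {n : ℕ} {P : ℂ → ℂ → ℝ} (L : ℂ →L[ℝ] ℝ)
    (hP : Ten r n P) (hr : r ≠ 0) (x v : ℂ) :
    dsym Γ (fun x v => L v * P x v) x v = L v * dsym Γ P x v - L (Γ x v v) * P x v := by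
  have h1 := ((hP.diff1 hr v x).hasFDerivAt.const_mul (L v)).fderiv
  have h2 := (L.hasFDerivAt.mul (hP.diff2 hr x v).hasFDerivAt).fderiv
  simp only [dsym]
  erw [h1, h2]
  simp only [add_apply, smul_apply, smul_eq_mul]; ring

theorem dsym_zero (Γ : ℂ → ℂ →L[ℝ] ℂ →L[ℝ] ℂ) (x v : ℂ) : dsym Γ (fun _ _ => 0) x v = 0 := by
  simp [dsym]

theorem Ten.dmul {r : ℕ∞} {n : ℕ} {P : ℂ → ℂ → ℝ} {c : ℂ → ℝ} (hc : ContDiff ℝ (r + 1) c)
    (hP : Ten r n P) : Ten r (n + 1) fun x v => fderiv ℝ c x v * P x v := by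
  have h1 : ContDiff ℝ r (fderiv ℝ c) := hc.fderiv_right le_rfl
  refine ((Ten.smul (h1.clm_apply (contDiff_const (c := 1))) hP).re.add
    (Ten.smul (h1.clm_apply (contDiff_const (c := I))) hP).im).congr fun x v => ?_
  rw [Tens_lin (fderiv ℝ c x) v]; ring

theorem Ten.qmul {r : ℕ∞} {n : ℕ} {P : ℂ → ℂ → ℝ} {Γ : ℂ → ℂ →L[ℝ] ℂ →L[ℝ] ℂ}
    (hΓ : ContDiff ℝ ∞ Γ) (L : ℂ →L[ℝ] ℝ) (hP : Ten r n P) :
    Ten r (n + 1 + 1) fun x v => L (Γ x v v) * P x v := by
  have h0 : ContDiff ℝ r Γ := hΓ.of_le (by exact_mod_cast le_top)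
  have h1 : ∀ a b : ℂ, ContDiff ℝ r fun x => L (Γ x a b) := fun a b =>
    L.contDiff.comp ((h0.clm_apply contDiff_const).clm_apply contDiff_const)
  refine ((((Ten.smul (h1 1 1) hP).re.re.add (Ten.smul (h1 1 I) hP).im.re).add
    (Ten.smul (h1 I 1) hP).re.im).add (Ten.smul (h1 I I) hP).im.im).congr fun x v => ?_
  rw [Tens_bil (Γ x) v]
  simp only [map_add, ← real_smul, map_smul, smul_eq_mul]; ring

theorem Ten.dsym' {r : ℕ∞} {n : ℕ} {P : ℂ → ℂ → ℝ} (hP : Ten (r + 1) n P)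
    {Γ : ℂ → ℂ →L[ℝ] ℂ →L[ℝ] ℂ} (hΓ : ContDiff ℝ ∞ Γ) : Ten r (n + 1) (dsym Γ P) := by
  have hr : r + 1 ≠ 0 := by simp
  have hle : r ≤ r + 1 := le_self_add
  induction hP with
  | zero n => exact (Ten.zero _).congr (dsym_zero Γ)
  | @const c hc =>
    refine (Ten.dmul (c := c) (by exact_mod_cast hc)
      (Ten.const (c := fun _ => 1) contDiff_const)).congr fun x v => ?_
    simp [dsym]
  | re h ih =>
    exact (ih.re.sub ((h.mono hle).qmul hΓ reCLM)).congr fun x v => dsym_lin reCLM h hr x v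
  | im h ih =>
    exact (ih.im.sub ((h.mono hle).qmul hΓ imCLM)).congr fun x v => dsym_lin imCLM h hr x v
  | add h1 h2 ih1 ih2 => exact (ih1.add ih2).congr (dsym_add h1 h2 hr)
  | @smul n P c hc h ih =>
    refine ((Ten.smul (hc.of_le (by exact_mod_cast hle)) ih).add
      (Ten.dmul (c := c) (by exact_mod_cast hc) (h.mono hle))).congr
      (dsym_smul (hc.differentiable (by exact_mod_cast hr)) h hr)

/-- Euler identity -/
theorem Ten.euler {r : ℕ∞} {n : ℕ} {P : ℂ → ℂ → ℝ} (hP : Ten r n P) (hr : r ≠ 0) (x v : ℂ) :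
    fderiv ℝ (P x) v v = ((n : ℝ) - 1) * P x v := by
  rcases n with _ | n
  · have : P x = fun _ => 0 := by funext v; exact hP.eq_zero x v
    simp [this]
  · have h1 : HasDerivAt (fun t : ℝ => P x (t • v)) (fderiv ℝ (P x) v v) 1 := by
      have h2 : HasFDerivAt (P x) (fderiv ℝ (P x) v) ((1 : ℝ) • v) := by
        rw [one_smul]; exact (hP.diff2 hr x v).hasFDerivAt
      have h3 := h2.comp_hasDerivAt (1 : ℝ) ((hasDerivAt_id (1 : ℝ)).smul_const v)
      rw [one_smul] at h3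
      exact h3
    have h4 : HasDerivAt (fun t : ℝ => P x (t • v)) (n * P x v) 1 := by
      have := (hasDerivAt_pow n (1 : ℝ)).mul_const (P x v)
      simp only [one_pow, mul_one] at this
      refine this.congr_of_eventuallyEq (Eventually.of_forall fun t => ?_)
      exact hP.homog x v t
    rw [h1.unique h4]; push_cast; ring

theorem Tens_hasDerivAt_ce (θ : ℝ) : HasDerivAt ce (I * ce θ) θ := by
  have h : HasDerivAt (fun z : ℂ => cexp (z * I)) (cexp (θ * I) * I) (θ : ℂ) := by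
    simpa using ((hasDerivAt_id (θ : ℂ)).mul_const I).cexp
  have := h.comp_ofReal
  rw [mul_comm]
  exact this

theorem Tens_contDiff_ce {n : WithTop ℕ∞} : ContDiff ℝ n ce := by
  unfold ce
  exact (ofRealCLM.contDiff.mul contDiff_const).cexp

theorem Tens_ce_add (a b : ℝ) : ce (a + b) = ce a * ce b := by
  simp [ce, add_mul, exp_add]

theorem Tens_ce_zero : ce 0 = 1 := by simp [ce]

theorem Glob.Xd_ten (G : Glob) {n : ℕ} {P : ℂ → ℂ → ℝ} (hP : Ten 1 n P) (z : ℂ) (θ : ℝ) :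
    Xd G.κ (n - 1) (fun p => (P p.1 (ce p.2) : ℂ)) (z, θ) = dsym G.Γ P z (ce θ) := by
  have hr : (1 : ℕ∞) ≠ 0 := one_ne_zero
  have hd : Differentiable ℝ fun p : ℂ × ℂ => P p.1 p.2 :=
    hP.contDiff.differentiable (by exact_mod_cast hr)
  set D := fderiv ℝ (fun p : ℂ × ℂ => P p.1 p.2) (z, ce θ) with hD
  have hD' : HasFDerivAt (fun p : ℂ × ℂ => P p.1 p.2) D (z, ce θ) := (hd _).hasFDerivAt
  have e1 : ∀ w, fderiv ℝ (fun y => P y (ce θ)) z w = D (w, 0) := by
    intro w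
    have := (hD'.comp z (hasFDerivAt_prodMk_left (𝕜 := ℝ) z (ce θ))).fderiv
    erw [this]; simp
  have e2 : ∀ w, fderiv ℝ (P z) (ce θ) w = D (0, w) := by
    intro w
    have := (hD'.comp (ce θ) (hasFDerivAt_prodMk_right (𝕜 := ℝ) z (ce θ))).fderiv
    erw [this]; simp
  have h3 : HasFDerivAt (fun p : ℂ × ℝ => ce p.2)
      ((ContinuousLinearMap.toSpanSingleton ℝ (I * ce θ)).comp (ContinuousLinearMap.snd ℝ ℂ ℝ))
      (z, θ) :=
    HasFDerivAt.comp (f := Prod.snd) (g := ce) (z, θ) (Tens_hasDerivAt_ce θ).hasFDerivAt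
      hasFDerivAt_snd
  have h4 := (ofRealCLM.hasFDerivAt.comp (z, θ)
    (hD'.comp (z, θ) (hasFDerivAt_fst.prodMk h3))).fderiv
  have e3 := hP.euler hr z (ce θ)
  have e4 : G.Γ z (ce θ) (ce θ) = -((ba (G.κ z) θ).re • ce θ + (ba (G.κ z) θ).im • (I * ce θ)) := by
    rw [← G.eqG]
    have : (ba (G.κ z) θ).re • ce θ + (ba (G.κ z) θ).im • (I * ce θ) = ba (G.κ z) θ * ce θ := by
      conv_rhs => rw [← re_add_im (ba (G.κ z) θ)]
      simp only [real_smul]; ring
    rw [this, ba]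
    have h5 : ce (-θ) * ce θ = 1 := by rw [← Tens_ce_add]; simp [Tens_ce_zero]
    linear_combination (-Gk (G.κ z) θ) * h5
  simp only [Xd, dsym]
  erw [h4]
  rw [e4, map_neg, map_add, map_smul, e3, e1, e2]
  have e5 : D (ce θ, (ba (G.κ z) θ).im • (I * ce θ)) =
      D (ce θ, 0) + D (0, (ba (G.κ z) θ).im • (I * ce θ)) := by
    rw [← map_add]; simp
  simp only [ContinuousLinearMap.comp_apply, ContinuousLinearMap.prod_apply,
    ContinuousLinearMap.coe_fst', ContinuousLinearMap.coe_snd',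
    ContinuousLinearMap.toSpanSingleton_apply, ofRealCLM_apply, e5, smul_eq_mul]
  push_cast; ring

end Pool.Agent.Lib.MP_0cc5e8_gt
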