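import Pool.Agent.Lib.MP_0cc5e8_gt.Surf
import Pool.Agent.Lib.MP_0cc5e8_gt.TensA

/-! Tensor fields and geodesics in arbitrary smooth charts. -/

namespace Pool.Agent.Lib.MP_0cc5e8_gt

open Complex Set Filter Topology Metric
open scoped Manifold ContDiff

variable {N : Type} [TopologicalSpace N] [ChartedSpace ℂ N]

def Sm (e : OpenPartialHomeomorph N ℂ) : Prop :=
  ContMDiffOn 𝓘(ℝ, ℂ) 𝓘(ℝ, ℂ) ∞ e e.source ∧ ContMDiffOn 𝓘(ℝ, ℂ) 𝓘(ℝ, ℂ) ∞ e.symm e.target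

noncomputable def lc (e : OpenPartialHomeomorph N ℂ) (T : ∀ p : N, TangentSpace 𝓘(ℝ, ℂ) p → ℝ)
    (y v : ℂ) : ℝ := T _ (mfderiv 𝓘(ℝ, ℂ) 𝓘(ℝ, ℂ) e.symm y v)

lemma sm_chart [IsManifold 𝓘(ℝ, ℂ) ∞ N] (x : N) : Sm (chartAt ℂ x) :=
  ⟨contMDiffOn_chart, contMDiffOn_chart_symm⟩

variable {e e' : OpenPartialHomeomorph N ℂ} {T Q : ∀ p : N, TangentSpace 𝓘(ℝ, ℂ) p → ℝ}

lemma Sm.at (he : Sm e) {p : N} (h : p ∈ e.source) : ContMDiffAt 𝓘(ℝ, ℂ) 𝓘(ℝ, ℂ) ∞ e p :=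
  he.1.contMDiffAt (e.open_source.mem_nhds h)

lemma Sm.at' (he : Sm e) {y : ℂ} (h : y ∈ e.target) : ContMDiffAt 𝓘(ℝ, ℂ) 𝓘(ℝ, ℂ) ∞ e.symm y :=
  he.2.contMDiffAt (e.open_target.mem_nhds h)

lemma surf_congr (T : ∀ p : N, TangentSpace 𝓘(ℝ, ℂ) p → ℝ) {p q : N} (h : p = q) (v : ℂ) :
    T p v = T q v := by subst h; rfl

lemma Sm.tr (he : Sm e) (he' : Sm e') {y : ℂ} (h : y ∈ e.target) (h' : e.symm y ∈ e'.source) :
    ContDiffAt ℝ ∞ (e' ∘ e.symm) y :=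
  contMDiffAt_iff_contDiffAt.1 ((he'.at h').comp y (he.at' h))

lemma Sm.ev {y : ℂ} (h : y ∈ e.target) (h' : e.symm y ∈ e'.source) :
    ∀ᶠ z in 𝓝 y, z ∈ e.target ∧ e.symm z ∈ e'.source :=
  (e.open_target.eventually_mem h).and ((e.continuousAt_symm h).eventually
    (e'.open_source.mem_nhds h'))

/-- a map into the surface, read in a chart -/
lemma Sm.push {E : Type} [NormedAddCommGroup E] [NormedSpace ℝ E] (he : Sm e) {F : E → N} {t : E}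
    (hF : MDifferentiableAt 𝓘(ℝ, E) 𝓘(ℝ, ℂ) F t) (h : F t ∈ e.source) (v : E) :
    T _ (mfderiv 𝓘(ℝ, E) 𝓘(ℝ, ℂ) F t v) = lc e T (e (F t)) (fderiv ℝ (e ∘ F) t v) := by
  have h1 := ((he.at h).mdifferentiableAt (by simp)).comp t hF
  have h2 := (he.at' (e.map_source h)).mdifferentiableAt (by simp)
  have h3 : F =ᶠ[𝓝 t] e.symm ∘ (e ∘ F) :=
    (hF.continuousAt.eventually (e.open_source.mem_nhds h)).mono fun s hs => (e.left_inv hs).symm
  rw [h3.mfderiv_eq, mfderiv_comp t h2 h1, mfderiv_eq_fderiv]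
  exact surf_congr T (e.left_inv h).symm _

lemma Sm.trans (he : Sm e) (he' : Sm e') {y : ℂ} (h : y ∈ e.target) (h' : e.symm y ∈ e'.source)
    (v : ℂ) : lc e T y v = lc e' T (e' (e.symm y)) (fderiv ℝ (e' ∘ e.symm) y v) :=
  he'.push ((he.at' h).mdifferentiableAt (by simp)) h' v

lemma Sm.vel (he : Sm e) {γ : ℝ → N} {t : ℝ} (hγ : MDifferentiableAt 𝓘(ℝ) 𝓘(ℝ, ℂ) γ t)
    (h : γ t ∈ e.source) : T _ (vel γ t) = lc e T (e (γ t)) (deriv (e ∘ γ) t) :=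
  he.push hγ h 1

lemma sym_subst (n : ℕ) : ∃ K : Fin n → Fin n → (ℂ →L[ℝ] ℂ) → ℝ, (∀ j k, ContDiff ℝ ∞ (K j k)) ∧
    ∀ c y z A v, sym n c y (A v) = sym n (fun k _ => ∑ j, c j y * K j k A) z v := by
  refine ⟨fun j k A => ∑ i ∈ Finset.range (j + 1), ∑ l ∈ Finset.range (n - 1 - j + 1),
    if i + l = k then (A 1).re ^ i * (A I).re ^ (j - i) * (j : ℕ).choose i *
      ((A 1).im ^ l * (A I).im ^ (n - 1 - j - l) * (n - 1 - j).choose l) else 0,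
    fun j k => ContDiff.sum fun i _ => ContDiff.sum fun l _ => ?_, fun c y z A v => ?_⟩
  · have r : ∀ w : ℂ, ContDiff ℝ ∞ fun A : ℂ →L[ℝ] ℂ => (A w).re := fun w =>
      reCLM.contDiff.comp (contDiff_id.clm_apply contDiff_const)
    have s : ∀ w : ℂ, ContDiff ℝ ∞ fun A : ℂ →L[ℝ] ℂ => (A w).im := fun w =>
      imCLM.contDiff.comp (contDiff_id.clm_apply contDiff_const)
    split_ifs
    · exact ((((r 1).pow _).mul ((r I).pow _)).mul contDiff_const).mul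
        ((((s 1).pow _).mul ((s I).pow _)).mul contDiff_const)
    · exact contDiff_const
  · simp only [sym, Finset.sum_mul]
    rw [Finset.sum_comm]
    refine Finset.sum_congr rfl fun j _ => ?_
    have a : (A v).re = (A 1).re * v.re + (A I).re * v.im := by rw [Tens_linC A v]; simp; ring
    have b : (A v).im = (A 1).im * v.re + (A I).im * v.im := by rw [Tens_linC A v]; simp; ring
    rw [a, b, add_pow, add_pow, mul_assoc, Finset.sum_mul_sum]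
    simp only [mul_assoc, ← Finset.mul_sum, Finset.sum_mul]
    congr 1
    rw [Finset.sum_comm (s := Finset.univ)]
    simp only [Finset.mul_sum]
    refine Finset.sum_congr rfl fun i hi => ?_
    rw [Finset.sum_comm]
    refine Finset.sum_congr rfl fun l hl => ?_
    have h1 := Finset.mem_range.1 hi
    have h2 := Finset.mem_range.1 hl
    have h3 := j.2
    rw [Finset.sum_eq_single ⟨i + l, by omega⟩ (fun k _ hk => by
      rw [if_neg fun h => hk (Fin.ext h.symm), zero_mul]) (by simp), if_pos rfl,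
      show n - 1 - (i + l) = (j - i) + (n - 1 - j - l) by omega]
    ring

lemma ten_glue {n : ℕ} {P : ℂ → ℂ → ℝ} {s : Set ℂ} (h : ∀ y ∈ s, ∃ c : Fin n → ℂ → ℝ,
    (∀ j, ContDiffWithinAt ℝ ∞ (c j) s y) ∧ ∀ᶠ z in 𝓝[s] y, ∀ v, P z v = sym n c z v) :
    ∃ c : Fin n → ℂ → ℝ, (∀ j, ContDiffOn ℝ ∞ (c j) s) ∧ ∀ y ∈ s, ∀ v, P y v = sym n c y v := by
  choose! c c1 c2 using h
  have c3 : ∀ y ∈ s, ∀ v, P y v = sym n (fun j y => c y j y) y v := fun y hy =>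
    (c2 y hy).self_of_nhdsWithin hy
  refine ⟨fun j y => c y j y, fun j y hy => (c1 y hy j).congr_of_eventuallyEq ?_ rfl, c3⟩
  filter_upwards [c2 y hy, self_mem_nhdsWithin] with z a b
  exact sym_inj (fun θ => (c3 z b _).symm.trans (a _)) j

lemma ten_trans (he : Sm e) {n : ℕ} {S : Set N} (h : ∀ x ∈ S, ∃ e', Sm e' ∧ x ∈ e'.source ∧
    ∃ c : Fin n → ℂ → ℝ, (∀ j, ContDiffOn ℝ ∞ (c j) (e'.target ∩ e'.symm ⁻¹' S)) ∧
      ∀ y ∈ e'.target ∩ e'.symm ⁻¹' S, ∀ v, lc e' T y v = sym n c y v) :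
    ∃ c : Fin n → ℂ → ℝ, (∀ j, ContDiffOn ℝ ∞ (c j) (e.target ∩ e.symm ⁻¹' S)) ∧
      ∀ y ∈ e.target ∩ e.symm ⁻¹' S, ∀ v, lc e T y v = sym n c y v := by
  obtain ⟨K, K1, K2⟩ := sym_subst n
  refine ten_glue fun y hy => ?_
  obtain ⟨e', he', h', c, c1, c2⟩ := h _ hy.2
  have t := he.tr he' hy.1 h'
  have ev : ∀ᶠ z in 𝓝[e.target ∩ e.symm ⁻¹' S] y, e.symm z ∈ e'.source ∧ z ∈ e.target ∧
      (e' ∘ e.symm) z ∈ e'.target ∩ e'.symm ⁻¹' S := by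
    filter_upwards [nhdsWithin_le_nhds (Sm.ev hy.1 h'), self_mem_nhdsWithin] with z a b
    exact ⟨a.2, a.1, e'.map_source a.2, by simpa [e'.left_inv a.2] using b.2⟩
  refine ⟨fun k z => ∑ j, c j (e' (e.symm z)) * K j k (fderiv ℝ (e' ∘ e.symm) z),
    fun k => ContDiffWithinAt.sum fun j _ => ContDiffWithinAt.mul ?_ ((K1 j k).contDiffAt.comp y
      (t.fderiv_right (m := ∞) le_rfl)).contDiffWithinAt, ev.mono fun z hz v => ?_⟩
  · exact (c1 j _ (ev.self_of_nhdsWithin hy).2.2).comp_of_preimage_mem_nhdsWithin y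
      t.contDiffWithinAt (ev.mono fun z hz => hz.2.2)
  · exact ((he.trans he' hz.2.1 hz.1 v).trans (c2 _ hz.2.2 _)).trans (K2 _ _ z _ _)

lemma IsTen.lc [IsManifold 𝓘(ℝ, ℂ) ∞ N] {n : ℕ} (h : IsTen n univ T) (he : Sm e) :
    ∃ c : Fin n → ℂ → ℝ, (∀ j, ContDiffOn ℝ ∞ (c j) e.target) ∧
      ∀ y ∈ e.target, ∀ v, lc e T y v = sym n c y v := by
  simpa using ten_trans he fun x _ => ⟨_, sm_chart x, mem_chart_source ℂ x, h x⟩

/-- g is the Gram form of Q in the chart e -/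
def Gram (e : OpenPartialHomeomorph N ℂ) (Q : ∀ p : N, TangentSpace 𝓘(ℝ, ℂ) p → ℝ)
    (g : ℂ → ℂ →L[ℝ] ℂ →L[ℝ] ℝ) : Prop :=
  ContDiffOn ℝ ∞ g e.target ∧ (∀ y u v, g y u v = g y v u) ∧
    ∀ y ∈ e.target, ∀ v, lc e Q y v = g y v v

lemma IsTen.gram [IsManifold 𝓘(ℝ, ℂ) ∞ N] (h : IsTen 3 univ Q) (he : Sm e) : ∃ g, Gram e Q g := by
  obtain ⟨c, c1, c2⟩ := h.lc he
  refine ⟨fun y => c 0 y • imCLM.smulRight imCLM + (c 1 y / 2) • (reCLM.smulRight imCLM +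
    imCLM.smulRight reCLM) + c 2 y • reCLM.smulRight reCLM,
    contDiffOn_clm_apply.2 fun u => contDiffOn_clm_apply.2 fun v => ?_,
    fun y u v => by simp; ring, fun y hy v => ?_⟩
  · exact (((c1 0).mul contDiffOn_const).add (((c1 1).div_const 2).mul contDiffOn_const)).add
      ((c1 2).mul contDiffOn_const)
  rw [c2 y hy]
  simp [sym, Fin.sum_univ_three]
  ring

/-- the geodesic equation for position y, velocity u, acceleration a -/
def EL (g : ℂ → ℂ →L[ℝ] ℂ →L[ℝ] ℝ) (y u a : ℂ) : Prop :=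
  ∀ w, 2 * g y a w + 2 * fderiv ℝ g y u u w = fderiv ℝ g y w u u

lemma surf_d2 {c : ℝ → ℂ} {t : ℝ} (hc : ContDiffAt ℝ 2 c t) :
    (∀ᶠ s in 𝓝 t, HasDerivAt c (deriv c s) s) ∧ HasDerivAt (deriv c) (deriv (deriv c) t) t :=
  ⟨(hc.eventually (by simp)).mono fun s hs => (hs.differentiableAt (by simp)).hasDerivAt,
    ((hc.derivWithin (m := 1) le_rfl).differentiableAt (by simp)).hasDerivAt⟩

lemma surf_sym {g : ℂ → ℂ →L[ℝ] ℂ →L[ℝ] ℝ} {y : ℂ} (hg : DifferentiableAt ℝ g y) (x u v : ℂ) :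
    fderiv ℝ (fun z => g z u v) y x = fderiv ℝ g y x u v := by
  rw [((hg.hasFDerivAt.clm_apply (hasFDerivAt_const u y)).clm_apply (hasFDerivAt_const v y)).fderiv]
  simp

lemma Gram.raw {g : ℂ → ℂ →L[ℝ] ℂ →L[ℝ] ℝ} (h : Gram e Q g) {c : ℝ → ℂ} {t : ℝ}
    (hc : ContDiffAt ℝ 2 c t) (ht : c t ∈ e.target) :
    (∀ w, deriv (fun s => fderiv ℝ (lc e Q (c s)) (deriv c s) w) t =
      fderiv ℝ (fun y => lc e Q y (deriv c t)) (c t) w) ↔
    EL g (c t) (deriv c t) (deriv (deriv c) t) := by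
  obtain ⟨d1, d2⟩ := surf_d2 hc
  have dg := (h.1.contDiffAt (e.open_target.mem_nhds ht)).differentiableAt (by simp)
  refine forall_congr' fun w => ?_
  have e1 : (fun s => fderiv ℝ (lc e Q (c s)) (deriv c s) w) =ᶠ[𝓝 t]
      fun s => 2 * g (c s) (deriv c s) w := by
    filter_upwards [hc.continuousAt.eventually (e.open_target.mem_nhds ht)] with s hs
    rw [funext (h.2.2 _ hs), show fderiv ℝ (fun v => g (c s) v v) (deriv c s) = _ from
      (((g (c s)).hasFDerivAt (x := deriv c s)).clm_apply (hasFDerivAt_id _)).fderiv]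
    simp [h.2.1 _ w, two_mul]
  have e2 : (fun y => lc e Q y (deriv c t)) =ᶠ[𝓝 (c t)] fun y => g y (deriv c t) (deriv c t) :=
    mem_of_superset (e.open_target.mem_nhds ht) fun y hy => h.2.2 y hy _
  rw [e1.deriv_eq, e2.fderiv_eq, surf_sym dg, show deriv (fun s => 2 * g (c s) (deriv c s) w) t = _
    from ((((dg.hasFDerivAt.comp_hasDerivAt t d1.self_of_nhds).clm_apply d2).clm_apply
      (hasDerivAt_const t w)).const_mul 2).deriv]
  simp only [Function.comp, add_apply, map_zero, add_zero, mul_add]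
  rw [add_comm]

lemma Gram.trans {g g' : ℂ → ℂ →L[ℝ] ℂ →L[ℝ] ℝ} (h : Gram e Q g) (h' : Gram e' Q g') (he : Sm e)
    (he' : Sm e') {γ : ℝ → N} {t : ℝ} (hγ : ContMDiffAt 𝓘(ℝ) 𝓘(ℝ, ℂ) 2 γ t) (ht : γ t ∈ e.source)
    (ht' : γ t ∈ e'.source)
    (H : EL g' (e' (γ t)) (deriv (e' ∘ γ) t) (deriv (deriv (e' ∘ γ)) t)) :
    EL g (e (γ t)) (deriv (e ∘ γ) t) (deriv (deriv (e ∘ γ)) t) := by
  have hy := e.map_source ht
  have l := e.left_inv ht
  have hy' : e.symm (e (γ t)) ∈ e'.source := l.symm ▸ ht'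
  obtain ⟨d1, d2⟩ := surf_d2 (contMDiffAt_iff_contDiffAt.1
    (((he.at ht).of_le (by norm_cast)).comp t hγ))
  have τ := he.tr he' hy hy'
  have τ1 := (τ.fderiv_right (m := 1) (by norm_cast)).differentiableAt one_ne_zero
  have ev := Sm.ev hy hy'
  have e0 : e' ∘ γ =ᶠ[𝓝 t] (e' ∘ e.symm) ∘ (e ∘ γ) :=
    (hγ.continuousAt.eventually (e.open_source.mem_nhds ht)).mono fun s hs => by
      simp [e.left_inv hs]
  have e1 : deriv (e' ∘ γ) =ᶠ[𝓝 t] fun s => fderiv ℝ (e' ∘ e.symm) ((e ∘ γ) s) (deriv (e ∘ γ) s) := by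
    filter_upwards [e0.deriv, d1, d1.self_of_nhds.continuousAt.eventually ev] with s a b c
    rw [a, (((he.tr he' c.1 c.2).differentiableAt (by simp)).hasFDerivAt.comp_hasDerivAt s b).deriv]
  have e2 := ((τ1.hasFDerivAt.comp_hasDerivAt t d1.self_of_nhds).clm_apply d2).deriv
  have e3 : ∀ u v, (fun z => g z u v) =ᶠ[𝓝 (e (γ t))] fun z => g' ((e' ∘ e.symm) z)
      (fderiv ℝ (e' ∘ e.symm) z u) (fderiv ℝ (e' ∘ e.symm) z v) := fun u v => ev.mono fun z hz => by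
    have k := fun w => ((h.2.2 z hz.1 w).symm.trans (he.trans he' hz.1 hz.2 w)).trans
      (h'.2.2 _ (e'.map_source hz.2) _)
    have k1 := k (u + v)
    simp only [map_add, add_apply, k u, k v, h.2.1 z v u, h'.2.1 _ (fderiv ℝ (e' ∘ e.symm) z v)] at k1
    simp only [Function.comp]
    linarith
  have dg := (h.1.contDiffAt (e.open_target.mem_nhds hy)).differentiableAt (by simp)
  have dg' := (h'.1.contDiffAt (e'.open_target.mem_nhds (e'.map_source hy'))).differentiableAt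
    (by simp)
  have e4 := fun x u v => (surf_sym dg x u v).symm.trans (DFunLike.congr_fun
    ((e3 u v).fderiv_eq.trans (((dg'.hasFDerivAt.comp (f := e' ∘ e.symm) (e (γ t))
      (τ.differentiableAt (by simp)).hasFDerivAt).clm_apply (τ1.hasFDerivAt.clm_apply
      (hasFDerivAt_const u _))).clm_apply (τ1.hasFDerivAt.clm_apply
        (hasFDerivAt_const v _))).fderiv) x)
  intro w
  have sy := (τ.isSymmSndFDerivAt (by simp; norm_cast)).eq w (deriv (e ∘ γ) t)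
  have H1 := H (fderiv ℝ (e' ∘ e.symm) (e (γ t)) w)
  rw [e1.deriv_eq, e1.eq_of_nhds] at H1
  simp only [Function.comp] at e2 H1
  rw [e2] at H1
  rw [e4, e4, (e3 _ _).eq_of_nhds]
  simp [l, sy, h'.2.1 _ (fderiv ℝ (e' ∘ e.symm) (e (γ t)) (deriv (e ∘ γ) t))] at H1 ⊢
  linarith

lemma geo_iff [IsManifold 𝓘(ℝ, ℂ) ∞ N] (hQ : IsTen 3 univ Q) (he : Sm e)
    {g : ℂ → ℂ →L[ℝ] ℂ →L[ℝ] ℝ} (h : Gram e Q g) {γ : ℝ → N} {t : ℝ}
    (hγ : ContMDiffAt 𝓘(ℝ) 𝓘(ℝ, ℂ) 2 γ t) (ht : γ t ∈ e.source) :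
    Geo Q γ t ↔ EL g (e (γ t)) (deriv (e ∘ γ) t) (deriv (deriv (e ∘ γ)) t) := by
  have he' := sm_chart (γ t)
  have ht' := mem_chart_source ℂ (γ t)
  obtain ⟨g', h'⟩ := hQ.gram he'
  have := h'.raw (contMDiffAt_iff_contDiffAt.1 (((he'.at ht').of_le (by norm_cast)).comp t hγ))
    ((chartAt ℂ (γ t)).map_source ht')
  exact ⟨fun H => h.trans h' he he' hγ ht ht' (this.1 H.2),
    fun H => ⟨hγ, this.2 (h'.trans h he' he hγ ht' ht H)⟩⟩

end Pool.Agent.Lib.MP_0cc5e8_gt
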