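import Pool.Agent.Lib.MP_0cc5e8_gt.SurfA
import Pool.Agent.Lib.MP_0cc5e8_gt.Planar

/-! Plane models of the data on a surface. -/

namespace Pool.Agent.Lib.MP_0cc5e8_gt

open Complex Set Filter Topology Metric
open scoped Manifold ContDiff

lemma exists_cut {K U : Set ℂ} (hK : IsCompact K) (hU : IsOpen U) (h : K ⊆ U) :
    ∃ χ : ℂ → ℝ, ContDiff ℝ ∞ χ ∧ (∀ y ∈ K, ∀ᶠ z in 𝓝 y, χ z = 1) ∧ (∀ y, χ y ∈ Icc (0 : ℝ) 1) ∧
      (∀ y ∉ U, χ y = 0) ∧ ∀ F : ℂ → ℝ, ContDiffOn ℝ ∞ F U → ContDiff ℝ ∞ fun y => χ y * F y := by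
  obtain ⟨K', k1, k2, k3⟩ := exists_compact_between hK hU h
  obtain ⟨χ, a, b, c⟩ := exists_contMDiffMap_one_nhds_of_subset_interior 𝓘(ℝ, ℂ) (n := ⊤)
    hK.isClosed k2
  have d : ContDiff ℝ ∞ χ := χ.contMDiff.contDiff
  refine ⟨χ, d, fun y hy => a.filter_mono (nhds_le_nhdsSet hy), c, fun y hy => b y fun h =>
    hy (k3 h), fun F hF => contDiff_iff_contDiffAt.2 fun y => ?_⟩
  by_cases hy : y ∈ U
  · exact d.contDiffAt.mul (hF.contDiffAt (hU.mem_nhds hy))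
  · exact (contDiffAt_const (c := 0)).congr_of_eventuallyEq (mem_of_superset
      (k1.isClosed.isOpen_compl.mem_nhds fun h => hy (k3 h)) fun z hz => by simp [b z hz])

lemma exists_kos {g : ℂ →L[ℝ] ℂ →L[ℝ] ℝ} (hg : ∀ v ≠ 0, 0 < g v v)
    (K : ℂ →L[ℝ] ℂ →L[ℝ] ℂ →L[ℝ] ℝ) : ∃ Γ : ℂ →L[ℝ] ℂ →L[ℝ] ℂ,
    ∀ u v w, 2 * g (Γ u v) w = K u v w + K v u w - K w u v := by
  have s : Function.Surjective (g : ℂ →ₗ[ℝ] ℂ →L[ℝ] ℝ) :=
    (LinearMap.injective_iff_surjective_of_finrank_eq_finrank (by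
      rw [← (LinearMap.toContinuousLinearMap (𝕜 := ℝ) (E := ℂ) (F' := ℝ)).finrank_eq]
      exact Subspace.dual_finrank_eq.symm)).1 ((injective_iff_map_eq_zero _).2 fun v hv => by
        by_contra h
        have := hg v h
        rw [show g v = 0 from hv] at this
        simp at this)
  choose c hc using fun u v => s ((1 / 2 : ℝ) • (K u v + K v u - (K.flip u).flip v))
  have hc' : ∀ u v w, g (c u v) w = (K u v w + K v u w - K w u v) / 2 := fun u v w => by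
    rw [show g (c u v) = _ from hc u v]; simp; ring
  refine ⟨Tr.bil (c 1 1) (c 1 I) (c I 1) (c I I), fun u v w => ?_⟩
  have e : ∀ u : ℂ, u = u.re • (1 : ℂ) + u.im • I := fun u => by simp
  conv_rhs => rw [e u, e v]
  simp only [Tr.bil_apply, map_add, map_smul, add_apply, smul_apply, hc', smul_eq_mul]
  ring

lemma el_iff {g : ℂ → ℂ →L[ℝ] ℂ →L[ℝ] ℝ} {y : ℂ} (hg : ∀ v ≠ 0, 0 < g y v v)
    {Γ : ℂ →L[ℝ] ℂ →L[ℝ] ℂ} (h : ∀ u v w, 2 * g y (Γ u v) w =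
      fderiv ℝ g y u v w + fderiv ℝ g y v u w - fderiv ℝ g y w u v) (u a : ℂ) :
    EL g y u a ↔ a = -Γ u u := by
  refine ⟨fun H => by_contra fun hne => ?_, fun H w => ?_⟩
  · have h1 := hg (a + Γ u u) fun e => hne (eq_neg_of_add_eq_zero_left e)
    rw [map_add (g y), add_apply] at h1
    linarith [H (a + Γ u u), h u u (a + Γ u u)]
  · rw [H, map_neg, neg_apply]
    linarith [h u u w]

lemma EL.congr {g g' : ℂ → ℂ →L[ℝ] ℂ →L[ℝ] ℝ} {y : ℂ} (h : g =ᶠ[𝓝 y] g') (u a : ℂ) :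
    EL g y u a ↔ EL g' y u a := by
  simp only [EL, h.fderiv_eq, h.eq_of_nhds]

lemma surf_dd {ψ : ℂ → ℝ} (hψ : ContDiff ℝ ∞ ψ) {c : ℝ → ℂ} {t : ℝ} (hc : ContDiffAt ℝ 2 c t) :
    deriv (ψ ∘ c) t = fderiv ℝ ψ (c t) (deriv c t) ∧ iteratedDeriv 2 (ψ ∘ c) t =
      fderiv ℝ (fderiv ℝ ψ) (c t) (deriv c t) (deriv c t) + fderiv ℝ ψ (c t) (deriv (deriv c) t) := by
  obtain ⟨d1, d2⟩ := surf_d2 hc
  have e : deriv (ψ ∘ c) =ᶠ[𝓝 t] fun s => fderiv ℝ ψ (c s) (deriv c s) := d1.mono fun s hs =>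
    ((hψ.differentiable (by simp) _).hasFDerivAt.comp_hasDerivAt s hs).deriv
  refine ⟨e.eq_of_nhds, ?_⟩
  rw [iteratedDeriv_succ, iteratedDeriv_one, e.deriv_eq]
  exact ((((hψ.fderiv_right (m := 1) (by norm_cast)).differentiable one_ne_zero _
    ).hasFDerivAt.comp_hasDerivAt t d1.self_of_nhds).clm_apply d2).deriv

lemma c2ext {τ : ℝ} (hτ : 0 < τ) {c c' a : ℝ → ℂ} (h : ∀ t ∈ Icc 0 τ, HasDerivAt c (c' t) t ∧
    HasDerivAt c' (a t) t) (ha : ContinuousOn a (Icc 0 τ)) : ∃ d : ℝ → ℂ, ContDiff ℝ 2 d ∧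
    ∀ t ∈ Icc 0 τ, d t = c t ∧ deriv d t = c' t ∧ deriv (deriv d) t = a t := by
  have k : ∀ {b f : ℝ → ℂ}, Continuous b → (∀ t ∈ Icc 0 τ, HasDerivAt f (b t) t) →
      deriv (fun t => f 0 + ∫ s in (0 : ℝ)..t, b s) = b ∧
      Differentiable ℝ (fun t => f 0 + ∫ s in (0 : ℝ)..t, b s) ∧
      ∀ t ∈ Icc 0 τ, f 0 + ∫ s in (0 : ℝ)..t, b s = f t := fun {b f} hb hf => by
    have := fun t => (hb.integral_hasStrictDerivAt 0 t).hasDerivAt.const_add (f 0)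
    refine ⟨funext fun t => (this t).deriv, fun t => (this t).differentiableAt, fun t ht => ?_⟩
    rw [intervalIntegral.integral_eq_sub_of_hasDerivAt (fun s hs => hf s (uIcc_subset_Icc
      (left_mem_Icc.2 hτ.le) ht hs)) (hb.intervalIntegrable _ _), add_sub_cancel]
  have e : ∀ t ∈ Icc 0 τ, IccExtend hτ.le ((Icc 0 τ).domRestrict a) t = a t := fun t ht =>
    IccExtend_of_mem _ _ ht
  have cb : Continuous (IccExtend hτ.le ((Icc 0 τ).domRestrict a)) := ha.domRestrict.Icc_extend'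
  obtain ⟨a1, a2, a3⟩ := k cb fun t ht => (e t ht).symm ▸ (h t ht).2
  obtain ⟨b1, b2, b3⟩ := k a2.continuous fun t ht => (a3 t ht).symm ▸ (h t ht).1
  refine ⟨_, ?_, fun t ht => ⟨b3 t ht, by rw [b1]; exact a3 t ht, by rw [b1, a1, e t ht]⟩⟩
  rw [show (2 : WithTop ℕ∞) = 1 + 1 from rfl, contDiff_succ_iff_deriv, b1, contDiff_one_iff_deriv,
    a1]
  exact ⟨b2, by simp, a2, cb⟩

/-- a boundary point without inward descent direction is a strict local minimum -/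
lemma surf_min {ρ φ : ℂ → ℝ} (hρ : ContDiff ℝ ∞ ρ) (hφ : ContDiff ℝ ∞ φ) {Γ : ℂ → ℂ →L[ℝ] ℂ →L[ℝ] ℂ}
    {y : ℂ} (hd : ρ y = 0 → fderiv ℝ ρ y ≠ 0)
    (hb : ρ y = 0 → ∀ v ≠ 0, fderiv ℝ ρ y v = 0 → 0 < hess Γ ρ y v)
    (hc : ∀ v ≠ 0, 0 < hess Γ φ y v)
    (h : ∀ v, fderiv ℝ φ y v < 0 → ρ y = 0 ∧ 0 ≤ fderiv ℝ ρ y v) :
    ∀ᶠ z in 𝓝[≠] y, ρ z ≤ 0 → φ y < φ z := by
  by_cases h0 : fderiv ℝ φ y = 0
  · exact (Mn.strict_min hφ h0 fun θ => by simpa [hess, h0] using hc _ (Tr.ce_ne θ)).mono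
      fun z hz _ => hz
  have neg : ∀ L : ℂ →L[ℝ] ℝ, L ≠ 0 → ∃ v, L v = -1 := fun L hL => by
    obtain ⟨v, hv⟩ := DFunLike.ne_iff.1 hL
    exact ⟨(-(L v)⁻¹) • v, by
      rw [map_smul, smul_eq_mul, neg_mul, inv_mul_cancel₀ (show L v ≠ 0 from hv)]⟩
  obtain ⟨v1, h1⟩ := neg _ h0
  have r0 := (h v1 (by linarith)).1
  obtain ⟨v0, h2⟩ := neg _ (hd r0)
  have l0 : 0 ≤ fderiv ℝ φ y v0 := le_of_not_gt fun a => by linarith [(h v0 a).2]
  have l1 : ∀ v, fderiv ℝ φ y v = -fderiv ℝ φ y v0 * fderiv ℝ ρ y v := fun v => by_contra fun a => by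
    have b : fderiv ℝ φ y v + fderiv ℝ φ y v0 * fderiv ℝ ρ y v ≠ 0 := fun b => a (by linarith)
    have := h (v0 - ((fderiv ℝ φ y v0 + 1) / (fderiv ℝ φ y v + fderiv ℝ φ y v0 * fderiv ℝ ρ y v)) •
      (v + fderiv ℝ ρ y v • v0)) (by
        simp only [map_sub, map_add, map_smul, smul_eq_mul, mul_comm (fderiv ℝ ρ y v)]
        rw [div_mul_cancel₀ _ b]; linarith)
    simp only [map_sub, map_add, map_smul, smul_eq_mul, h2] at this
    linarith [this.2]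
  have ch : Continuous fun v => hess Γ ρ y v := by unfold hess; fun_prop
  obtain ⟨C, hC⟩ := (isCompact_sphere (0 : ℂ) 1).elim_directed_cover
    (fun C : ℕ => {v | 0 < hess Γ ρ y v + 2 * C * fderiv ℝ ρ y v ^ 2})
    (fun C => isOpen_lt continuous_const (by fun_prop)) (fun v hv => by
      by_cases a : fderiv ℝ ρ y v = 0
      · exact mem_iUnion.2 ⟨0, by simpa using hb r0 v (ne_zero_of_mem_unit_sphere ⟨v, hv⟩) a⟩
      · have a' : 0 < fderiv ℝ ρ y v ^ 2 := by positivity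
        obtain ⟨C, hC⟩ := exists_nat_gt (|hess Γ ρ y v| / fderiv ℝ ρ y v ^ 2)
        rw [div_lt_iff₀ a'] at hC
        exact mem_iUnion.2 ⟨C, by
          simp only [mem_ofPred_eq]; linarith [neg_abs_le (hess Γ ρ y v), abs_nonneg (hess Γ ρ y v)]⟩)
    (Monotone.directed_le fun a b hab v hv => by
      simp only [mem_ofPred_eq] at hv ⊢
      nlinarith [sq_nonneg (fderiv ℝ ρ y v), (Nat.cast_le (α := ℝ)).2 hab])
  set l := fderiv ℝ φ y v0
  have d1 : ∀ z, HasFDerivAt (fun z => φ z + l * (ρ z + C * ρ z ^ 2))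
      (fderiv ℝ φ z + (l * (1 + 2 * C * ρ z)) • fderiv ℝ ρ z) z := fun z => by
    have a := (hρ.differentiable (by simp) z).hasFDerivAt
    refine ((hφ.differentiable (by simp) z).hasFDerivAt.add ((a.add ((a.pow 2).const_mul
      (C : ℝ))).const_mul l)).congr_fderiv (ContinuousLinearMap.ext fun v => ?_)
    simp; ring
  have d2 := ((hφ.fderiv_right (m := 1) (by norm_cast)).differentiable one_ne_zero y
    ).hasFDerivAt.add (((((hρ.differentiable (by simp) y).hasFDerivAt.const_mul (2 * C : ℝ)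
      ).const_add 1).const_mul l).smul ((hρ.fderiv_right (m := 1) (by norm_cast)).differentiable
        one_ne_zero y).hasFDerivAt)
  have m := Mn.strict_min (φ := fun z => φ z + l * (ρ z + C * ρ z ^ 2)) (p := y) (by fun_prop)
    (by rw [(d1 y).fderiv]; ext1 v; simp [r0, l1 v]) fun θ => by
      rw [funext fun z => (d1 z).fderiv, show fderiv ℝ (fun z => fderiv ℝ φ z +
        (l * (1 + 2 * C * ρ z)) • fderiv ℝ ρ z) y = _ from d2.fderiv]
      have a := hc _ (Tr.ce_ne θ)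
      have b := mul_nonneg l0 (hC (mem_sphere_zero_iff_norm.2 (Tr.norm_ce θ))).le
      simp only [hess, l1 (Γ y _ _)] at a b
      simp [r0]
      linarith
  have : ContinuousAt (fun z => 1 + C * ρ z) y :=
    (continuous_const.add (hρ.continuous.const_mul _)).continuousAt
  filter_upwards [m, nhdsWithin_le_nhds (this.eventually (lt_mem_nhds (show 0 < _ by simp [r0])))]
    with z a b c
  simp only [r0] at a
  nlinarith [mul_nonneg l0 (mul_nonneg (neg_nonneg.2 c) b.le)]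

end Pool.Agent.Lib.MP_0cc5e8_gt
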