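import Pool.Agent.Lib.MP_0cc5e8_gt.SurfB
import Pool.Agent.Lib.MP_0cc5e8_gt.Chart

/-! The theorem on an abstract surface. -/

namespace Pool.Agent.Lib.MP_0cc5e8_gt

open Complex Set Filter Topology Metric
open scoped Manifold ContDiff

variable {N : Type} [TopologicalSpace N] [ChartedSpace ℂ N] {e : OpenPartialHomeomorph N ℂ}
  {Q : ∀ p : N, TangentSpace 𝓘(ℝ, ℂ) p → ℝ}

lemma Sm.inv (he : Sm e) {y : ℂ} (h : y ∈ e.target) (v : ℂ) :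
    mfderiv 𝓘(ℝ, ℂ) 𝓘(ℝ, ℂ) e (e.symm y) (mfderiv 𝓘(ℝ, ℂ) 𝓘(ℝ, ℂ) e.symm y v) = v := by
  have h1 := mfderiv_comp y ((he.at (e.map_target h)).mdifferentiableAt (by simp))
    ((he.at' h).mdifferentiableAt (by simp))
  have h2 : e ∘ e.symm =ᶠ[𝓝 y] id := e.eventually_right_inverse h
  rw [h2.mfderiv_eq, mfderiv_id] at h1
  exact (DFunLike.congr_fun h1 v).symm

lemma Sm.lift (he : Sm e) {c : ℝ → ℂ} {t : ℝ} (hc : ContDiffAt ℝ 2 c t) (h : c t ∈ e.target) :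
    ContMDiffAt 𝓘(ℝ) 𝓘(ℝ, ℂ) 2 (e.symm ∘ c) t ∧ e ∘ e.symm ∘ c =ᶠ[𝓝 t] c :=
  ⟨((he.at' h).of_le (by norm_cast)).comp t hc.contMDiffAt,
    (hc.continuousAt.eventually (e.open_target.mem_nhds h)).mono fun _ hs => e.right_inv hs⟩

lemma Sm.fn (he : Sm e) {ρ : N → ℝ} (hρ : ContMDiff 𝓘(ℝ, ℂ) 𝓘(ℝ) ∞ ρ) :
    ContDiffOn ℝ ∞ (ρ ∘ e.symm) e.target :=
  contMDiffOn_iff_contDiffOn.1 (hρ.comp_contMDiffOn he.2)

variable [IsManifold 𝓘(ℝ, ℂ) ∞ N]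

lemma exists_model {ρ φ : N → ℝ} (hρ : ContMDiff 𝓘(ℝ, ℂ) 𝓘(ℝ) ∞ ρ)
    (hd : ∀ x, ρ x = 0 → mfderiv 𝓘(ℝ, ℂ) 𝓘(ℝ) ρ x ≠ 0) (hQ : IsTen 3 univ Q)
    (hpos : ∀ x, ρ x ≤ 0 → ∀ v ≠ 0, 0 < Q x v)
    (hb : ∀ γ, Geo Q γ 0 → vel γ 0 ≠ 0 → ρ (γ 0) = 0 → deriv (ρ ∘ γ) 0 = 0 →
      0 < iteratedDeriv 2 (ρ ∘ γ) 0) (hφ : ContMDiff 𝓘(ℝ, ℂ) 𝓘(ℝ) ∞ φ)
    (hc : ∀ γ, Geo Q γ 0 → vel γ 0 ≠ 0 → ρ (γ 0) ≤ 0 → 0 < iteratedDeriv 2 (φ ∘ γ) 0)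
    (he : Sm e) {K : Set ℂ} (hK : IsCompact K) (h1 : K ⊆ e.target)
    (h2 : ∀ y ∈ K, ρ (e.symm y) ≤ 0) :
    ∃ (ρ' φ' : ℂ → ℝ) (g : ℂ → ℂ →L[ℝ] ℂ →L[ℝ] ℝ) (Γ : ℂ → ℂ →L[ℝ] ℂ →L[ℝ] ℂ),
      ContDiff ℝ ∞ ρ' ∧ ContDiff ℝ ∞ φ' ∧ ContDiff ℝ ∞ g ∧ (∀ y u v, g y u v = g y v u) ∧
      (∀ y, ρ' y ≤ 0 → y ∈ e.target ∧ ρ (e.symm y) ≤ 0) ∧
      ∀ y ∈ K, ρ' =ᶠ[𝓝 y] ρ ∘ e.symm ∧ φ' =ᶠ[𝓝 y] φ ∘ e.symm ∧
        (∀ v, lc e Q y v = g y v v) ∧ (∀ v ≠ 0, 0 < g y v v) ∧ (∀ u v w, 2 * g y (Γ y u v) w =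
          fderiv ℝ g y u v w + fderiv ℝ g y v u w - fderiv ℝ g y w u v) ∧
        (∀ (γ : ℝ → N) (t : ℝ), ContMDiffAt 𝓘(ℝ) 𝓘(ℝ, ℂ) 2 γ t → γ t = e.symm y → (Geo Q γ t ↔
          deriv (deriv (e ∘ γ)) t = -Γ y (deriv (e ∘ γ) t) (deriv (e ∘ γ) t))) ∧
        (ρ' y = 0 → fderiv ℝ ρ' y ≠ 0) ∧
        (ρ' y = 0 → ∀ v ≠ 0, fderiv ℝ ρ' y v = 0 → 0 < hess Γ ρ' y v) ∧
        ∀ v ≠ 0, 0 < hess Γ φ' y v := by
  obtain ⟨χ, c1, c2, c3, c4, c5⟩ := exists_cut hK e.open_target h1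
  obtain ⟨g, hg⟩ := hQ.gram he
  have eg : ∀ y ∈ K, (fun y => χ y • g y) =ᶠ[𝓝 y] g := fun y hy =>
    (c2 y hy).mono fun z hz => by simp [hz]
  have ne : ∀ y ∈ K, ∀ v : ℂ, v ≠ 0 → mfderiv 𝓘(ℝ, ℂ) 𝓘(ℝ, ℂ) e.symm y v ≠ 0 := fun y hy v hv h =>
    hv (by rw [← he.inv (h1 hy) v, h, map_zero]; rfl)
  have pos : ∀ y ∈ K, ∀ v ≠ 0, 0 < (χ y • g y) v v := fun y hy v hv => by
    rw [(eg y hy).eq_of_nhds, ← hg.2.2 y (h1 hy)]
    exact hpos _ (h2 y hy) _ (ne y hy v hv)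
  choose! Γ hΓ using fun y hy => exists_kos (pos y hy) (fderiv ℝ (fun y => χ y • g y) y)
  have cρ := (c5 _ (he.fn hρ)).add (contDiff_const (c := 1).sub c1)
  have cφ := c5 _ (he.fn hφ)
  refine ⟨_, _, fun y => χ y • g y, Γ, cρ, cφ, contDiff_clm_apply_iff.2 fun u =>
    contDiff_clm_apply_iff.2 fun v => c5 _ ((hg.1.clm_apply contDiffOn_const).clm_apply
      contDiffOn_const), fun y u v => by simp [hg.2.1 y u v], fun y hy => ?_, fun y hy => ?_⟩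
  · have a : χ y ≠ 0 := fun h => by simp [h] at hy; linarith
    exact ⟨by_contra fun h => a (c4 y h), le_of_not_gt fun h => by
      have := mul_pos ((c3 y).1.lt_of_ne' a) h
      simp only [Function.comp] at hy
      linarith [(c3 y).2]⟩
  have hy' := h1 hy
  have r := e.right_inv hy'
  have eρ : (fun y => χ y * (ρ ∘ e.symm) y + (1 - χ y)) =ᶠ[𝓝 y] ρ ∘ e.symm :=
    (c2 y hy).mono fun z hz => by simp [hz]
  have eφ : (fun y => χ y * (φ ∘ e.symm) y) =ᶠ[𝓝 y] φ ∘ e.symm :=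
    (c2 y hy).mono fun z hz => by simp [hz]
  have geo : ∀ (γ : ℝ → N) (t : ℝ), ContMDiffAt 𝓘(ℝ) 𝓘(ℝ, ℂ) 2 γ t → γ t = e.symm y → (Geo Q γ t ↔
      deriv (deriv (e ∘ γ)) t = -Γ y (deriv (e ∘ γ) t) (deriv (e ∘ γ) t)) := fun γ t a b => by
    rw [geo_iff hQ he hg a (b ▸ e.map_target hy'), b, r, ← EL.congr (eg y hy)]
    exact el_iff (g := fun y => χ y • g y) (pos y hy) (hΓ y hy) _ _
  have cv : ∀ v ≠ 0, ∃ γ : ℝ → N, Geo Q γ 0 ∧ vel γ 0 ≠ 0 ∧ γ 0 = e.symm y ∧ ∀ (ψ : N → ℝ) ψ',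
      ContDiff ℝ ∞ ψ' → ψ' =ᶠ[𝓝 y] ψ ∘ e.symm → deriv (ψ ∘ γ) 0 = fderiv ℝ ψ' y v ∧
        iteratedDeriv 2 (ψ ∘ γ) 0 = hess Γ ψ' y v := by
    intro v hv
    obtain ⟨c, k0, k1, k2, k3⟩ : ∃ c : ℝ → ℂ, ContDiffAt ℝ 2 c 0 ∧ c 0 = y ∧ deriv c 0 = v ∧
        deriv (deriv c) 0 = -Γ y v v := by
      have d : deriv (fun t : ℝ => y + t • v - (t ^ 2 / 2) • Γ y v v) = fun t => v - t • Γ y v v :=
        funext fun t => ((((hasDerivAt_id t).smul_const v).const_add y).sub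
          (((hasDerivAt_pow 2 t).div_const 2).smul_const (Γ y v v))).deriv.trans (by simp)
      exact ⟨fun t => y + t • v - (t ^ 2 / 2) • Γ y v v, by fun_prop, by simp, by rw [d]; simp, by
        rw [d]; simpa using (((hasDerivAt_id (0 : ℝ)).smul_const (Γ y v v)).const_sub v).deriv⟩
    obtain ⟨a, b⟩ := he.lift k0 (k1 ▸ hy')
    have a0 : (e.symm ∘ c) 0 = e.symm y := congrArg e.symm k1
    refine ⟨e.symm ∘ c, (geo _ 0 a a0).2 (by rw [b.deriv.deriv_eq, b.deriv_eq, k2, k3]),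
      fun h => ne y hy v hv ?_, a0, fun ψ ψ' p q => ?_⟩
    · have := he.vel (T := fun _ w => ‖(show ℂ from w)‖) (a.mdifferentiableAt (by simp))
        (a0 ▸ e.map_target hy')
      rw [h, b.deriv_eq, k2, a0, r] at this
      exact norm_eq_zero.1 (this.symm.trans norm_zero)
    · have q' : ψ ∘ e.symm ∘ c =ᶠ[𝓝 0] ψ' ∘ c :=
        (k0.continuousAt.tendsto.eventually (k1.symm ▸ q)).mono fun s hs => hs.symm
      rw [q'.deriv_eq, q'.iteratedDeriv_eq, (surf_dd p k0).1, (surf_dd p k0).2, k1, k2, k3, map_neg]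
      exact ⟨rfl, rfl⟩
  refine ⟨eρ, eφ, fun v => by rw [hg.2.2 y hy', ← (eg y hy).eq_of_nhds], pos y hy, hΓ y hy, geo,
    fun h0 h => hd (e.symm y) (eρ.eq_of_nhds.symm.trans h0) ?_, fun h0 v hv h => ?_, fun v hv => ?_⟩
  · have hx := e.map_target hy'
    have a : ρ =ᶠ[𝓝 (e.symm y)] (ρ ∘ e.symm) ∘ e :=
      (e.eventually_left_inverse hx).mono fun z hz => (congrArg ρ hz).symm
    rw [a.mfderiv_eq, mfderiv_comp _ (((he.fn hρ).contDiffAt (e.open_target.mem_nhds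
      (e.map_source hx))).differentiableAt (by simp)).mdifferentiableAt
      ((he.at hx).mdifferentiableAt (by simp)), mfderiv_eq_fderiv, r, ← eρ.fderiv_eq, h]
    rfl
  · obtain ⟨γ, a, b, c, d⟩ := cv v hv
    rw [← (d ρ _ cρ eρ).2]
    exact hb γ a b (c ▸ eρ.eq_of_nhds.symm.trans h0) ((d ρ _ cρ eρ).1.trans h)
  · obtain ⟨γ, a, b, c, d⟩ := cv v hv
    rw [← (d φ _ cφ eφ).2]
    exact hc γ a b (c ▸ h2 y hy)

theorem surface [T2Space N] (ρ φ : N → ℝ) (Q : ∀ p : N, TangentSpace 𝓘(ℝ, ℂ) p → ℝ)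
    (hρ : ContMDiff 𝓘(ℝ, ℂ) 𝓘(ℝ) ∞ ρ) (hM : IsCompact {x | ρ x ≤ 0})
    (hM' : IsConnected {x | ρ x ≤ 0}) (hd : ∀ x, ρ x = 0 → mfderiv 𝓘(ℝ, ℂ) 𝓘(ℝ) ρ x ≠ 0)
    (hQ : IsTen 3 univ Q) (hpos : ∀ x, ρ x ≤ 0 → ∀ v ≠ 0, 0 < Q x v)
    (hb : ∀ γ, Geo Q γ 0 → vel γ 0 ≠ 0 → ρ (γ 0) = 0 → deriv (ρ ∘ γ) 0 = 0 →
      0 < iteratedDeriv 2 (ρ ∘ γ) 0) (hφ : ContMDiff 𝓘(ℝ, ℂ) 𝓘(ℝ) ∞ φ)
    (hc : ∀ γ, Geo Q γ 0 → vel γ 0 ≠ 0 → ρ (γ 0) ≤ 0 → 0 < iteratedDeriv 2 (φ ∘ γ) 0)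
    (m : ℕ) (f : ∀ p : N, TangentSpace 𝓘(ℝ, ℂ) p → ℝ) (hf : IsTen (m + 1) univ f)
    (hI : ∀ τ > 0, ∀ γ : ℝ → N, (∀ t ∈ Icc 0 τ, Geo Q γ t) → ρ (γ 0) = 0 → Q _ (vel γ 0) = 1 →
      deriv (ρ ∘ γ) 0 < 0 → (∀ t ∈ Ioo 0 τ, ρ (γ t) < 0) → ρ (γ τ) = 0 →
      ∫ t in (0 : ℝ)..τ, f _ (vel γ t) = 0) :
    ∃ h : ∀ p : N, TangentSpace 𝓘(ℝ, ℂ) p → ℝ, IsTen m {x | ρ x ≤ 0} h ∧
      (∀ x v, ρ x = 0 → h x v = 0) ∧ ∀ γ, Geo Q γ 0 → ρ (γ 0) < 0 →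
        HasDerivAt (fun t => h _ (vel γ t)) (f _ (vel γ 0)) 0 := by
  obtain ⟨e, hs, he⟩ := exists_chart hρ hφ hM hM' fun x hx => by
    have l := (chartAt ℂ x).left_inv (mem_chart_source ℂ x)
    obtain ⟨ρ', φ', g, Γ, a1, a2, -, -, -, a⟩ := exists_model hρ hd hQ hpos hb hφ hc (sm_chart x)
      (isCompact_singleton (x := chartAt ℂ x x)) (by simp) (by simpa using hx)
    obtain ⟨b1, b2, -, -, -, -, b3, b4, b5⟩ := a _ rfl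
    refine or_iff_not_imp_left.2 fun hn => ?_
    have r0 : ρ' (chartAt ℂ x x) = ρ x := b1.eq_of_nhds.trans (congrArg ρ l)
    have := surf_min a1 a2 b3 b4 b5 fun v hv => by
      rw [b2.fderiv_eq] at hv
      rw [b1.fderiv_eq, r0]
      by_contra h
      exact hn ⟨v, hv, fun h0 => lt_of_not_ge fun h1 => h ⟨h0, h1⟩⟩
    have c := (chartAt ℂ x).continuousAt (mem_chart_source ℂ x)
    have s := (chartAt ℂ x).open_source.mem_nhds (mem_chart_source ℂ x)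
    filter_upwards [self_mem_nhdsWithin, nhdsWithin_le_nhds s, nhdsWithin_le_nhds (c.eventually
      (eventually_nhdsWithin_iff.1 this)), nhdsWithin_le_nhds (c.eventually b1),
      nhdsWithin_le_nhds (c.eventually b2)] with y y1 y2 y3 y4 y5 y6
    simp only [Function.comp, (chartAt ℂ x).left_inv y2] at y4 y5
    have := y3 (fun h => y1 ((chartAt ℂ x).injOn y2 (mem_chart_source ℂ x) h)) (y4 ▸ y6)
    rwa [y5, b2.eq_of_nhds, Function.comp, l] at this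
  replace he : Sm e := he
  have hK := hM.image_of_continuousOn (e.continuousOn.mono hs)
  have K1 : e '' {x | ρ x ≤ 0} = e.target ∩ e.symm ⁻¹' {x | ρ x ≤ 0} :=
    e.image_eq_target_inter_inv_preimage hs
  obtain ⟨ρ', φ', g, Γ, a1, a2, a3, a4, a5, a⟩ := exists_model hρ hd hQ hpos hb hφ hc he hK
    (K1 ▸ inter_subset_left) fun y hy => (K1 ▸ hy :).2
  rw [K1] at a hK
  have K2 : {y | ρ' y ≤ 0} = e.target ∩ e.symm ⁻¹' {x | ρ x ≤ 0} :=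
    Subset.antisymm a5 fun y hy => (a y hy).1.eq_of_nhds.trans_le hy.2
  have hK' : IsCompact {y | ρ' y ≤ 0} := K2 ▸ hK
  obtain ⟨c, c1, c2⟩ := hf.lc he
  obtain ⟨χ, -, x2, -, -, x5⟩ := exists_cut hK e.open_target inter_subset_left
  have c3 : ∀ y, ρ' y ≤ 0 → ∀ v, lc e f y v = sym (m + 1) (fun j y => χ y * c j y) y v :=
    fun y hy v => by simp [c2 y (a5 y hy).1, sym, (x2 y (a5 y hy)).self_of_nhds]
  have b4 := fun y hy => (a y (a5 y hy)).2.2.2.1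
  have b5 := fun y hy => (a y (a5 y hy)).2.2.2.2.1
  obtain ⟨Γ', g1, -, g2⟩ := Tr.exists_ext hK' a3 a4 b4 b5
  obtain ⟨h, h1, h2, h3⟩ := planar ρ' φ' g Γ a1 hK'
    (fun y hy => (a y (a5 y hy.le)).2.2.2.2.2.2.1 hy) a3 a4 b4 b5
    (fun y hy => (a y (a5 y hy.le)).2.2.2.2.2.2.2.1 hy) a2
    (fun y hy => (a y (a5 y hy)).2.2.2.2.2.2.2.2) m _ (fun j => x5 _ (c1 j))
    fun τ hτ γ γ' k1 k2 k3 k4 k5 k6 => by
      have k7 : ∀ t ∈ Icc 0 τ, ρ' (γ t) ≤ 0 := fun t ht => ht.1.eq_or_lt.elim (fun h => h ▸ k2.le)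
        fun h => ht.2.eq_or_lt.elim (fun h' => h' ▸ k6.le) fun h' => (k5 t ⟨h, h'⟩).le
      have q1 : ContinuousOn γ (Icc 0 τ) := fun t ht => (k1 t ht).1.continuousAt.continuousWithinAt
      have q2 : ContinuousOn γ' (Icc 0 τ) := fun t ht => (k1 t ht).2.continuousAt.continuousWithinAt
      obtain ⟨d, d1, d2⟩ := c2ext hτ k1 ((((g1.continuous.comp_continuousOn q1).clm_apply
        q2).clm_apply q2).neg.congr fun t ht => by simp [g2 _ (k7 t ht)])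
      have l := fun t ht => he.lift (d1.contDiffAt (x := t)) ((d2 t ht).1 ▸ (a5 _ (k7 t ht)).1)
      have p : ∀ t ∈ Icc 0 τ, (e.symm ∘ d) t = e.symm (γ t) := fun t ht =>
        congrArg e.symm (d2 t ht).1
      have r : ∀ t ∈ Icc 0 τ, ρ ((e.symm ∘ d) t) = ρ' (γ t) := fun t ht =>
        (congrArg ρ (p t ht)).trans (a _ (a5 _ (k7 t ht))).1.eq_of_nhds.symm
      have v : ∀ T : ∀ p : N, TangentSpace 𝓘(ℝ, ℂ) p → ℝ, ∀ t ∈ Icc 0 τ,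
          T _ (vel (e.symm ∘ d) t) = lc e T (γ t) (γ' t) := fun T t ht => by
        rw [he.vel (T := T) ((l t ht).1.mdifferentiableAt (by simp)) (e.map_target
          ((d2 t ht).1 ▸ (a5 _ (k7 t ht)).1)), (l t ht).2.deriv_eq, (d2 t ht).2.1, p t ht,
          e.right_inv (a5 _ (k7 t ht)).1]
      have z := left_mem_Icc.2 hτ.le
      refine Eq.trans ?_ (hI τ hτ (e.symm ∘ d) (fun t ht => ((a _ (a5 _ (k7 t ht))).2.2.2.2.2.1 _ t (l t ht).1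
        (p t ht)).2 (by rw [(l t ht).2.deriv.deriv_eq, (l t ht).2.deriv_eq, (d2 t ht).2.1,
          (d2 t ht).2.2])) ((r 0 z).trans k2) (by rw [v Q 0 z, (a _ (a5 _ k2.le)).2.2.1, k3]) ?_
        (fun t ht => (r t (Ioo_subset_Icc_self ht)).trans_lt (k5 t ht))
        ((r τ (right_mem_Icc.2 hτ.le)).trans k6))
      · refine intervalIntegral.integral_congr fun t ht => ?_
        rw [uIcc_of_le hτ.le] at ht
        exact ((v f t ht).trans (c3 _ (k7 t ht) _)).symm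
      · have q' : ρ ∘ e.symm ∘ d =ᶠ[𝓝 0] ρ' ∘ d := (d1.continuous.continuousAt.tendsto.eventually
          ((d2 0 z).1.symm ▸ (a _ (a5 _ k2.le)).1)).mono fun s hs => hs.symm
        rwa [q'.deriv_eq, (surf_dd a1 d1.contDiffAt).1, (d2 0 z).1, (d2 0 z).2.1]
  have L : ∀ y ∈ e.target, ∀ v, lc e (fun p w => sym m h (e p) (mfderiv 𝓘(ℝ, ℂ) 𝓘(ℝ, ℂ) e p w)) y v =
      sym m h y v := fun y hy v => by simp only [lc, he.inv hy, e.right_inv hy]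
  refine ⟨fun p w => sym m h (e p) (mfderiv 𝓘(ℝ, ℂ) 𝓘(ℝ, ℂ) e p w), fun x => ten_trans (sm_chart x)
    fun p hp => ⟨e, he, hs hp, h, K2 ▸ h1, fun y hy => L y hy.1⟩, fun x v hx => ?_,
    fun γ hγ h0 => ?_⟩
  · have := hs hx.le
    have r := (a (e x) ⟨e.map_source this, by simp [e.left_inv this, hx]⟩).1.eq_of_nhds
    simp only [Function.comp, e.left_inv this, hx] at r
    simp [sym, h2 _ _ r]
  have s0 := hs h0.le
  have l0 := e.left_inv s0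
  have mK : e (γ 0) ∈ e.target ∩ e.symm ⁻¹' {x | ρ x ≤ 0} := ⟨e.map_source s0, by simp [l0, h0.le]⟩
  have r0 : ρ' (e (γ 0)) < 0 := (a _ mK).1.eq_of_nhds.trans_lt (by simp [l0, h0])
  obtain ⟨d1, d2⟩ := surf_d2 (contMDiffAt_iff_contDiffAt.1
    (((he.at s0).of_le (by norm_cast)).comp 0 hγ.1))
  have dP : DifferentiableAt ℝ (fun p : ℂ × ℂ => sym m h p.1 p.2) (e (γ 0), deriv (e ∘ γ) 0) := by
    have := fun j => ((h1 j).contDiffAt (mem_of_superset (a1.continuous.continuousAt.eventually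
      (gt_mem_nhds r0)) fun y hy => le_of_lt (show ρ' y < 0 from hy))).differentiableAt (by simp)
    unfold sym
    exact DifferentiableAt.fun_sum fun j _ => (((this j).comp (f := Prod.fst) (e (γ 0), deriv (e ∘ γ) 0)
      differentiableAt_fst).mul
      ((reCLM.differentiableAt.comp _ differentiableAt_snd).pow _)).mul
      ((imCLM.differentiableAt.comp _ differentiableAt_snd).pow _)
  refine ((dP.hasFDerivAt.comp_hasDerivAt 0 (d1.self_of_nhds.prodMk d2)).congr_deriv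
    ?_).congr_of_eventuallyEq ?_
  · rw [he.vel (T := f) (hγ.1.mdifferentiableAt (by simp)) s0, c3 _ r0.le, h3 _ r0, dsym,
      ((a _ mK).2.2.2.2.2.1 γ 0 hγ.1 l0.symm).1 hγ,
      show fderiv ℝ (fun y => sym m h y (deriv (e ∘ γ) 0)) (e (γ 0)) = _ from
        (dP.hasFDerivAt.comp (f := fun y => (y, deriv (e ∘ γ) 0)) (e (γ 0))
          (hasFDerivAt_prodMk_left _ _)).fderiv,
      show fderiv ℝ (sym m h (e (γ 0))) (deriv (e ∘ γ) 0) = _ from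
        (dP.hasFDerivAt.comp _ (hasFDerivAt_prodMk_right _ _)).fderiv]
    simp only [ContinuousLinearMap.comp_apply, ← map_sub]
    simp
  · filter_upwards [hγ.1.continuousAt.eventually (e.open_source.mem_nhds s0),
      (contMDiffAt_iff_contMDiffAt_nhds (by simp)).1 hγ.1] with t k1 k2
    exact (he.vel (T := fun p w => sym m h (e p) (mfderiv 𝓘(ℝ, ℂ) 𝓘(ℝ, ℂ) e p w))
      (k2.mdifferentiableAt (by simp)) k1).trans (L _ (e.map_source k1) _)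

end Pool.Agent.Lib.MP_0cc5e8_gt
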