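import Pool.Agent.Lib.MP_0cc5e8_gt.TensA

namespace Pool.Agent.Lib.MP_0cc5e8_gt

open Complex Set Filter Topology Metric
open scoped ComplexConjugate ContDiff Real

theorem Tens_continuous_ce : Continuous ce := (Tens_contDiff_ce (n := 0)).continuous

theorem Tens_conj_ce (θ : ℝ) : conj (ce θ) = ce (-θ) := by
  simp [ce, ← exp_conj]

theorem Tens_ce_nat (k : ℕ) (θ : ℝ) : ce (k * θ) = ce θ ^ k := by
  simp [ce, ← exp_nat_mul, mul_assoc]

theorem Tens_ce_pi : ce π = -1 := by simp [ce]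

theorem Tens_re_ce (θ : ℝ) : ((ce θ).re : ℂ) = (ce θ + ce (-θ)) / 2 := by
  rw [← Tens_conj_ce, re_eq_add_conj]

theorem Tens_im_ce (θ : ℝ) : ((ce θ).im : ℂ) = (ce θ - ce (-θ)) / (2 * I) := by
  rw [← Tens_conj_ce, im_eq_sub_conj]

theorem Ten.continuous_ce {r : ℕ∞} {n : ℕ} {P : ℂ → ℂ → ℝ} (hP : Ten r n P) (x : ℂ) :
    Continuous fun θ => (P x (ce θ) : ℂ) :=
  continuous_ofReal.comp (hP.contDiff.continuous.comp (f := fun θ : ℝ => (x, ce θ))
    (continuous_const.prodMk Tens_continuous_ce))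

theorem Tens_cont_mul (a : ℝ) : Continuous fun θ : ℝ => ce (a * θ) :=
  Tens_continuous_ce.comp (continuous_const.mul continuous_id)

/-- the Fourier modes of a tensor -/
theorem Ten.modes {r : ℕ∞} {n : ℕ} {P : ℂ → ℂ → ℝ} (hP : Ten r n P) (x : ℂ) (k : ℕ) :
    ∫ θ in (0 : ℝ)..π, (P x (ce θ) : ℂ) * ce ((n + 1 + 2 * k) * θ) = 0 := by
  induction hP generalizing k with
  | zero n => simp
  | @const c hc =>
    rw [intervalIntegral.integral_const_mul]
    have hc0 : ((k + 1 : ℕ) : ℂ) * (2 * I) ≠ 0 :=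
      mul_ne_zero (Nat.cast_ne_zero.2 (Nat.succ_ne_zero k)) (mul_ne_zero two_ne_zero I_ne_zero)
    have h1 := integral_exp_mul_complex (a := 0) (b := π) hc0
    have h2 : cexp (((k + 1 : ℕ) : ℂ) * (2 * I) * (π : ℝ)) = 1 := by
      rw [← exp_nat_mul_two_pi_mul_I (k + 1)]; congr 1; ring
    rw [h2] at h1
    simp only [ofReal_zero, mul_zero, exp_zero, sub_self, zero_div] at h1
    have h3 : ∀ θ : ℝ, ce ((((1 : ℕ) : ℝ) + 1 + 2 * k) * θ) =
        cexp (((k + 1 : ℕ) : ℂ) * (2 * I) * θ) := by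
      intro θ; rw [ce]; congr 1; push_cast; ring
    simp only [h3, h1, mul_zero]
  | @re n P h ih =>
    have hc := h.continuous_ce x
    have e : ∀ θ : ℝ, (((ce θ).re * P x (ce θ) : ℝ) : ℂ) * ce ((((n + 1 : ℕ) : ℝ) + 1 + 2 * k) * θ) =
        2⁻¹ * (P x (ce θ) * ce ((n + 1 + 2 * ((k + 1 : ℕ) : ℝ)) * θ)) +
          2⁻¹ * (P x (ce θ) * ce ((n + 1 + 2 * k) * θ)) := by
      intro θ
      have e1 : (n + 1 + 2 * ((k + 1 : ℕ) : ℝ)) * θ =
          θ + (((n + 1 : ℕ) : ℝ) + 1 + 2 * k) * θ := by push_cast; ring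
      have e2 : (n + 1 + 2 * (k : ℝ)) * θ = -θ + (((n + 1 : ℕ) : ℝ) + 1 + 2 * k) * θ := by
        push_cast; ring
      rw [e1, e2, Tens_ce_add, Tens_ce_add, ofReal_mul, Tens_re_ce]; ring
    simp only [e]
    rw [intervalIntegral.integral_add, intervalIntegral.integral_const_mul,
      intervalIntegral.integral_const_mul, ih, ih]
    · simp
    · exact (continuous_const.mul (hc.mul (Tens_cont_mul _))).intervalIntegrable _ _
    · exact (continuous_const.mul (hc.mul (Tens_cont_mul _))).intervalIntegrable _ _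
  | @im n P h ih =>
    have hc := h.continuous_ce x
    have e : ∀ θ : ℝ, (((ce θ).im * P x (ce θ) : ℝ) : ℂ) * ce ((((n + 1 : ℕ) : ℝ) + 1 + 2 * k) * θ) =
        (2 * I)⁻¹ * (P x (ce θ) * ce ((n + 1 + 2 * ((k + 1 : ℕ) : ℝ)) * θ)) -
          (2 * I)⁻¹ * (P x (ce θ) * ce ((n + 1 + 2 * k) * θ)) := by
      intro θ
      have e1 : (n + 1 + 2 * ((k + 1 : ℕ) : ℝ)) * θ =
          θ + (((n + 1 : ℕ) : ℝ) + 1 + 2 * k) * θ := by push_cast; ring
      have e2 : (n + 1 + 2 * (k : ℝ)) * θ = -θ + (((n + 1 : ℕ) : ℝ) + 1 + 2 * k) * θ := by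
        push_cast; ring
      rw [e1, e2, Tens_ce_add, Tens_ce_add, ofReal_mul, Tens_im_ce]; ring
    simp only [e]
    rw [intervalIntegral.integral_sub, intervalIntegral.integral_const_mul,
      intervalIntegral.integral_const_mul, ih, ih]
    · simp
    · exact (continuous_const.mul (hc.mul (Tens_cont_mul _))).intervalIntegrable _ _
    · exact (continuous_const.mul (hc.mul (Tens_cont_mul _))).intervalIntegrable _ _
  | add h1 h2 ih1 ih2 =>
    simp only [ofReal_add, add_mul (_ : ℂ)]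
    rw [intervalIntegral.integral_add, ih1, ih2, add_zero]
    · exact ((h1.continuous_ce x).mul (Tens_cont_mul _)).intervalIntegrable _ _
    · exact ((h2.continuous_ce x).mul (Tens_cont_mul _)).intervalIntegrable _ _
  | smul hc h ih =>
    simp only [ofReal_mul, mul_assoc (_ : ℂ)]
    rw [intervalIntegral.integral_const_mul, ih, mul_zero]

theorem Tens_fourier {g : ℝ → ℂ} (hg : Continuous g) (hp : Function.Periodic g π) (n : ℕ)
    (h1 : ∀ k : ℕ, ∫ θ in (0 : ℝ)..π, g θ * ce ((2 + 2 * k) * θ) = 0)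
    (h2 : ∀ k : ℕ, ∫ θ in (0 : ℝ)..π, g θ * ce (-(2 * n + 2 * k) * θ) = 0) (θ : ℝ) :
    g θ = ∑ j ∈ Finset.range n,
      ((π : ℂ)⁻¹ * ∫ t in (0 : ℝ)..π, g t * ce (-(2 * j) * t)) * ce (2 * j * θ) := by
  have : Fact (0 < π) := ⟨Real.pi_pos⟩
  have hπ : (π : ℂ) ≠ 0 := ofReal_ne_zero.2 Real.pi_ne_zero
  let F : C(AddCircle π, ℂ) :=
    ⟨hp.lift, (QuotientAddGroup.isQuotientMap_mk _).continuous_iff.2 hg⟩
  have hF : ∀ t : ℝ, F (t : AddCircle π) = g t := fun t => rfl
  have hf : ∀ (j : ℤ) (t : ℝ), fourier j (t : AddCircle π) = ce (2 * j * t) := by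
    intro j t
    rw [fourier_coe_apply, ce]; congr 1; push_cast; field_simp
  have hc : ∀ j : ℤ, fourierCoeff F j = (π : ℂ)⁻¹ * ∫ t in (0 : ℝ)..π, g t * ce (-(2 * j) * t) := by
    intro j
    rw [fourierCoeff_eq_intervalIntegral F j 0, zero_add, real_smul]
    congr 1
    · simp
    · refine intervalIntegral.integral_congr fun t _ => ?_
      simp only [hF, hf, smul_eq_mul]
      rw [mul_comm]; congr 2; push_cast; ring
  have hz : ∀ j : ℤ, j ∉ (Finset.range n).map ⟨Nat.cast, Nat.cast_injective⟩ →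
      fourierCoeff F j = 0 := by
    intro j hj
    rw [hc]
    rcases lt_or_ge j 0 with h | h
    · obtain ⟨k, hk⟩ : ∃ k : ℕ, j = -1 - k := ⟨(-1 - j).toNat, by omega⟩
      have : -(2 * (j : ℝ)) = 2 + 2 * k := by rw [hk]; push_cast; ring
      rw [this, h1, mul_zero]
    · have hn : (n : ℤ) ≤ j := by
        by_contra hn
        exact hj (Finset.mem_map.2 ⟨j.toNat, Finset.mem_range.2 (by omega), by
          simpa using h⟩)
      obtain ⟨k, hk⟩ : ∃ k : ℕ, j = n + k := ⟨(j - n).toNat, by omega⟩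
      have : -(2 * (j : ℝ)) = -(2 * n + 2 * k) := by rw [hk]; push_cast; ring
      rw [this, h2, mul_zero]
  have hs := has_pointwise_sum_fourier_series_of_summable (f := F) (summable_of_ne_finset_zero hz)
    (θ : AddCircle π)
  have hs' := hasSum_sum_of_ne_finset_zero (L := SummationFilter.unconditional ℤ)
    (f := fun i => fourierCoeff F i • fourier i (θ : AddCircle π))
    (s := (Finset.range n).map ⟨Nat.cast, Nat.cast_injective⟩) (fun j hj => by rw [hz j hj, zero_smul])
  rw [← hF, hs.unique hs', Finset.sum_map]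
  refine Finset.sum_congr rfl fun j _ => ?_
  simp only [Function.Embedding.coeFn_mk, hc, hf, smul_eq_mul, Int.cast_natCast]

theorem Tens_cmon {r : ℕ∞} (a b : ℕ) {c : ℂ → ℂ} (hc : ContDiff ℝ r c) :
    Ten r (a + b + 1) fun x v => (c x * v ^ a * conj v ^ b).re := by
  induction a generalizing c with
  | zero =>
    induction b generalizing c with
    | zero => exact (Ten.const (reCLM.contDiff.comp hc)).congr fun x v => by simp
    | succ b ih =>
      refine ((ih hc).re.sub (ih (contDiff_const.mul hc (f := fun _ => I))).im).congr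
        fun x v => ?_
      have e : c x * v ^ 0 * conj v ^ (b + 1) = conj v * (c x * v ^ 0 * conj v ^ b) := by ring
      have e' : I * c x * v ^ 0 * conj v ^ b = I * (c x * v ^ 0 * conj v ^ b) := by ring
      rw [e, e', mul_re, I_mul_re, conj_re, conj_im]; ring
  | succ a ih =>
    have e : a + 1 + b + 1 = a + b + 1 + 1 := by ring
    rw [e]
    refine ((ih hc).re.add (ih (contDiff_const.mul hc (f := fun _ => I))).im).congr
      fun x v => ?_
    have e : c x * v ^ (a + 1) * conj v ^ b = v * (c x * v ^ a * conj v ^ b) := by ring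
    have e' : I * c x * v ^ a * conj v ^ b = I * (c x * v ^ a * conj v ^ b) := by ring
    rw [e, e', mul_re, I_mul_re]; ring

/-- projection to the tensors of order n - 1 -/
theorem exists_proj {r : ℕ} (n : ℕ) {u : ℂ × ℝ → ℝ} (hu : ContDiff ℝ r u)
    (hp : ∀ z θ, u (z, θ + π) = (-1) ^ (n + 1) * u (z, θ)) :
    ∃ P, Ten r n P ∧ ∀ z, (∀ k : ℕ, ∫ θ in (0 : ℝ)..π, (u (z, θ) : ℂ) * ce ((n + 1 + 2 * k) * θ) = 0) →
      ∀ θ, u (z, θ) = P z (ce θ) := by
  let c : ℕ → ℂ → ℂ := fun j z =>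
    (π : ℂ)⁻¹ * ∫ t in (0 : ℝ)..π, (u (z, t) : ℂ) * ce ((n - 1 - 2 * j) * t)
  have hc : ∀ j, ContDiff ℝ ((r : ℕ∞) : WithTop ℕ∞) (c j) := by
    intro j
    refine contDiff_const.mul (contDiff_int (n := r)
      (F := fun p : ℂ × ℝ => (u p : ℂ) * ce ((n - 1 - 2 * j) * p.2)) ?_ 0 π)
    exact (ofRealCLM.contDiff.comp hu).mul
      (Tens_contDiff_ce.comp (contDiff_const.mul contDiff_snd))
  refine ⟨fun x v => ∑ j ∈ Finset.range n, (c j x * v ^ j * conj v ^ (n - 1 - j)).re, ?_, ?_⟩
  · refine Ten.sum _ fun j hj => ?_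
    have e : j + (n - 1 - j) + 1 = n := by have := Finset.mem_range.1 hj; omega
    have := Tens_cmon j (n - 1 - j) (hc j)
    rwa [e] at this
  · intro z hz θ
    have hcu : Continuous fun t : ℝ => (u (z, t) : ℂ) :=
      continuous_ofReal.comp (hu.continuous.comp (continuous_const.prodMk continuous_id))
    have hF := Tens_fourier (g := fun t => (u (z, t) : ℂ) * ce ((n - 1) * t))
      (hcu.mul (Tens_cont_mul _)) ?_ n ?_ ?_ θ
    · have e1 : (u (z, θ) : ℂ) =
          ∑ j ∈ Finset.range n, c j z * ce θ ^ j * conj (ce θ) ^ (n - 1 - j) := by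
        have e2 : (u (z, θ) : ℂ) = u (z, θ) * ce ((n - 1) * θ) * ce (-((n - 1) * θ)) := by
          rw [mul_assoc, ← Tens_ce_add]; simp [Tens_ce_zero]
        rw [e2, hF, Finset.sum_mul]
        refine Finset.sum_congr rfl fun j hj => ?_
        have hj' := Finset.mem_range.1 hj
        rw [Tens_conj_ce, ← Tens_ce_nat, ← Tens_ce_nat, mul_assoc (c j z), ← Tens_ce_add,
          mul_assoc _ (ce _), ← Tens_ce_add]
        congr 1
        · simp only [c]
          congr 1
          refine intervalIntegral.integral_congr fun t _ => ?_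
          simp only [mul_assoc (_ : ℂ), ← Tens_ce_add]
          congr 2; ring
        · congr 1
          rw [Nat.cast_sub (by omega), Nat.cast_sub (by omega)]; push_cast; ring
      have := congrArg Complex.re e1
      rwa [ofReal_re, re_sum] at this
    · intro t
      have e1 : ((n : ℝ) - 1) * (t + π) = (n - 1) * t + ((n + 1 : ℕ) * π + -π + -π) := by
        push_cast; ring
      have e2 : ce (-π) = -1 := by rw [← Tens_conj_ce, Tens_ce_pi]; simp
      simp only [hp, e1, Tens_ce_add, Tens_ce_nat, Tens_ce_pi, e2]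
      push_cast
      have : ((-1 : ℂ) ^ (n + 1)) * (-1) ^ (n + 1) = 1 := by rw [← mul_pow]; simp
      linear_combination (u (z, t) * ce ((n - 1) * t)) * this
    · intro k
      rw [← hz k]
      refine intervalIntegral.integral_congr fun t _ => ?_
      simp only [mul_assoc (_ : ℂ), ← Tens_ce_add]
      congr 2; ring
    · intro k
      have h0 := congrArg conj (hz k)
      rw [map_zero, ← intervalIntegral.intervalIntegral_conj] at h0
      rw [← h0]
      refine intervalIntegral.integral_congr fun t _ => ?_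
      simp only [mul_assoc (_ : ℂ), ← Tens_ce_add, map_mul, conj_ofReal, Tens_conj_ce]
      congr 2; ring

end Pool.Agent.Lib.MP_0cc5e8_gt
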